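import Pool.Agent.SYZ68J.GJDefs
import Pool.Agent.SYZC.Defs

/-!
# SYZ68J/BDefs : deformation classes with parabolic automorphism groups

Facts on the deformation class of a projective primitive symplectic variety (see `SYZC/Defs` for the
data), stated with short notation.
-/

set_option autoImplicit false

open Module

namespace Pool.Agent.SYZC

open Pool.Agent.SYZ71

namespace SymplecticClass

variable {n : ℕ} (C : SymplecticClass n)

/-- the Beauville-Bogomolov-Fujiki form on `H²(X, ℚ) = H` -/
def form (x y : C.H) : ℚ := C.q x y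

/-- the class of a divisor of a member in `H²(X, ℚ) = H` -/
noncomputable def cls (i : C.I) (D : (C.X i).Div) : C.H := C.c i ((C.X i).classOf D)

/-- `g` is an isometry of `H` which preserves the lattice `L` -/
def IsIsometry (g : C.H ≃ₗ[ℚ] C.H) : Prop :=
  (∀ x y, C.form (g x) (g y) = C.form x y) ∧ ∀ x, g x ∈ C.L ↔ x ∈ C.L

/-- The lattice `L = H²(X, ℤ)`, its form and the monodromy group. -/
structure IsLattice : Prop where
  fg : C.L.FG
  span : Submodule.span ℚ (C.L : Set C.H) = ⊤
  symm : ∀ x y, C.form x y = C.form y x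
  integral : ∀ x ∈ C.L, ∀ y ∈ C.L, ∃ m : ℤ, C.form x y = m
  /-- the form has signature `(3, b - 3)` -/
  signature : ∃ P : Submodule ℚ C.H, finrank ℚ P = 3 ∧ (∀ x ∈ P, x ≠ 0 → 0 < C.form x x) ∧
    ∀ x, (∀ y ∈ P, C.form x y = 0) → x ≠ 0 → C.form x x < 0

/-- The monodromy group has finite index in the isometry group of the lattice. -/
structure IsMonodromy : Prop where
  isometry : ∀ g ∈ C.Mon, C.IsIsometry g
  finite_index : ∃ T : Finset (C.H ≃ₗ[ℚ] C.H), ∀ g, C.IsIsometry g → ∃ t ∈ T, t * g ∈ C.Mon

/-- The set of wall divisors is stable under the monodromy group, their squares are negative and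
bounded. -/
structure IsWalls : Prop where
  mem : ∀ s ∈ C.S, s ∈ C.L ∧ -s ∈ C.S ∧ C.form s s < 0
  monodromy : ∀ g ∈ C.Mon, ∀ s ∈ C.S, g s ∈ C.S
  bounded : ∃ K : ℚ, ∀ s ∈ C.S, -K ≤ C.form s s

/-- The members of the class: `NS(X)_ℚ` is a subspace of `H`, spanned by divisors; line bundles have
integral classes. -/
structure IsMember (i : C.I) : Prop where
  variety : (C.X i).IsSymplecticVariety n
  restriction : ∀ x y, (C.X i).q x y = C.form (C.c i x) (C.c i y)
  cartier : ∀ D ∈ (C.X i).Cartier, C.cls i D ∈ C.L
  spanned : ∀ x, ∃ m : ℕ, 1 ≤ m ∧ ∃ D : (C.X i).Div, (C.X i).classOf D = (m : ℚ) • x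

/-- The ample cone is a chamber of the positive cone for the wall divisors in `NS(X)`. -/
def AmpleIsChamber (i : C.I) : Prop :=
  ∀ a ∈ (C.X i).Ample, ∀ x, x ∈ (C.X i).Ample ↔
    0 < C.form (C.c i x) (C.c i x) ∧ 0 < C.form (C.c i a) (C.c i x) ∧
      ∀ y, C.c i y ∈ C.S → 0 < C.form (C.c i a) (C.c i y) → 0 < C.form (C.c i x) (C.c i y)

/-- Surjectivity of the period map: a subspace `N` of signature `(1, r)` is the Neron-Severi space
of a member on which a given class of positive square in `N`, orthogonal to no wall divisor in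
`N`, is ample. -/
def PeriodMapSurjective : Prop :=
  ∀ N : Submodule ℚ C.H, ∀ A ∈ N, 0 < C.form A A →
    (∀ x ∈ N, C.form A x = 0 → x ≠ 0 → C.form x x < 0) → (∀ s ∈ C.S, s ∈ N → C.form A s ≠ 0) →
    ∃ i, LinearMap.range (C.c i) = N ∧ ∃ a ∈ (C.X i).Ample, C.c i a = A

/-- Matsushita: if a nef isotropic class defines a Lagrangian fibration on one member then it
does so on all members on which it is nef. -/
def DeformationOfFibrations : Prop :=
  ∀ i j (α : (C.X i).Div) (β : (C.X j).Div), (C.X i).IsNefIsotropic α →
    (C.X j).IsNefIsotropic β → C.cls i α = C.cls j β →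
    (C.X j).KodairaGE β n → (C.X i).KodairaGE α n

/-- What is known on a deformation class of projective primitive symplectic varieties with
`ℚ`-factorial terminal singularities and second Betti number at least five. -/
structure IsDeformationClass : Prop where
  lattice : C.IsLattice
  monodromy : C.IsMonodromy
  walls : C.IsWalls
  members : ∀ i, C.IsMember i
  ample : ∀ i, C.AmpleIsChamber i
  period : C.PeriodMapSurjective
  matsushita : C.DeformationOfFibrations

/-- the Eichler transvection `T_(α, w)` (for `q(α,α) = q(α,w) = 0`) -/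
def eichler (α w x : C.H) : C.H :=
  x + C.form α x • w - (C.form w x + C.form w w / 2 * C.form α x) • α

/-- `w : ℤ^r → NS(X)_ℚ` is additive, orthogonal to `α`, injective modulo `α`, and the
transvections `T_(α, w(v))` are monodromy operators and preserve the ample cone; by the Torelli
theorem they are then induced by automorphisms of `X`. -/
structure IsParabolic (i : C.I) (α : (C.X i).Div) (r : ℕ) (w : (Fin r → ℤ) → (C.X i).NS) :
    Prop where
  add : ∀ u v, w (u + v) = w u + w v
  orth : ∀ v, C.form (C.cls i α) (C.c i (w v)) = 0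
  indep : ∀ v, v ≠ 0 → ∀ a : ℚ, w v ≠ a • (C.X i).classOf α
  monodromy : ∀ v, ∃ g ∈ C.Mon, ∀ x, g x = C.eichler (C.cls i α) (C.c i (w v)) x
  ample : ∀ v, ∀ a ∈ (C.X i).Ample,
    (C.X i).transvection ((C.X i).classOf α) (w v) a ∈ (C.X i).Ample

/-- The members have Poisson brackets `br`, dual to the symplectic form, for which the ratios of
sections of multiples of a nef isotropic `α` commute; and up to finite index, the transvections of
`IsParabolic` form a group of automorphisms `ℤ^r` with a common fixed point, which preserves the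
symplectic form and acts trivially on these ratios. -/
structure HasParabolicActions : Prop where
  action : ∀ i, ∃ br, (C.X i).IsPoisson br ∧ ∀ α, (C.X i).IsNefIsotropic α →
    (C.X i).RatiosCommute br α ∧ ∀ r w, C.IsParabolic i α r w →
      ∃ (N : ℕ) (G : (C.X i).Action r α), 1 ≤ N ∧ (∀ v, G.w v = (N : ℚ) • w v) ∧
        Variety.TrivialOnRatios G.toActionData α ∧ (C.X i).BracketAt br G.x₀ G.form

end SymplecticClass

end Pool.Agent.SYZC
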