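import Pool.Agent.SYZ68J.GJBr

/-!
# SYZ68J/GJInd : algebraically independent functions have independent Hamiltonian fields

Proof of `brD_indep`.  `φ_i` (`i < e`) algebraically independent over `k`; extend `(φ_i)` to a
transcendence basis `(ψ_j)`, `j < d` (`trdeg K(X) = d`, natural number; `AlgebraicIndependent`
extends to a transcendence basis, `exists_isTranscendenceBasis_...`; an index type of `d` elements
containing `Fin e`).
`S = {f | brD f ∈ span_K (brD ψ_j)}` is a subfield containing `k` and the `ψ_j` (`{f, ·}` is a
derivation in `f` by skew symmetry), algebraically closed in `K(X)`: if `P(f) = 0`, `P` the minimal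
polynomial of `f` over `k(ψ) ⊆ S`, then `P'(f) {f, ·} = - ∑ f^i {c_i, ·}` and `P'(f) ≠ 0`
(characteristic zero).  So `S = K(X)`.  With `f_i` from `nondegenerate`: the rows of the invertible
matrix `({f_i, f_j})` are combinations of the `d` vectors `({ψ_j, f_l})_l`, which therefore are
linearly independent over `K(X)`; in particular the vectors `({φ_i, f_l})_l`, `i < e`.
`hamQ_indep`: apply `ι`: linear independence of vectors over a field is preserved by field
extension (`ι : K(X) → Q`; e.g. by a nonzero minor, or `LinearIndependent.map` for matrices), and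
`hamQ (ι φ_i) (ι f_l) = ι {φ_i, f_l}` (`iota_br`).
-/

set_option autoImplicit false

open MvPowerSeries Module

namespace Pool.Agent.SYZ68J

open Pool.Agent.SYZ71 Pool.Agent.SYZ71.Variety

variable {k : Type} [Field k] [CharZero k]

/-- a derivation which kills a transcendence basis is zero -/
private theorem gji_der_zero {K : Type} [Field K] [Algebra k K] (D : Derivation k K K)
    {t : Set K} (ht : IsTranscendenceBasis k ((↑) : t → K)) (hD : ∀ x ∈ t, D x = 0) (g : K) :
    D g = 0 := by
  have hF : ∀ x ∈ IntermediateField.adjoin k (Set.range ((↑) : t → K)), D x = 0 := by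
    intro x hx
    induction hx using IntermediateField.adjoin_induction with
    | mem x hx =>
      obtain ⟨y, rfl⟩ := hx
      exact hD y y.2
    | algebraMap x => exact D.map_algebraMap x
    | add x y _ _ hx hy => rw [map_add, hx, hy, add_zero]
    | inv x _ hx => rw [Derivation.leibniz_inv, hx, smul_zero]
    | mul x y _ _ hx hy => rw [Derivation.leibniz, hx, hy, smul_zero, smul_zero, add_zero]
  have halg := ht.isAlgebraic_field
  let D2 : Derivation (IntermediateField.adjoin k (Set.range ((↑) : t → K))) K K :=
    Derivation.mk'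
      { toFun := D
        map_add' := fun a b => map_add D a b
        map_smul' := by
          intro c x
          change D ((c : K) * x) = (c : K) * D x
          rw [Derivation.leibniz, hF c c.2, smul_zero, add_zero, smul_eq_mul] }
      (fun a b => D.leibniz a b)
  have hint : IsIntegral (IntermediateField.adjoin k (Set.range ((↑) : t → K))) g :=
    (halg.isAlgebraic g).isIntegral
  have h1 := D2.map_aeval (minpoly (IntermediateField.adjoin k (Set.range ((↑) : t → K))) g) g
  rw [minpoly.aeval, map_zero] at h1
  have h2 := (minpoly.irreducible hint).separable.aeval_derivative_ne_zero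
    (minpoly.aeval (IntermediateField.adjoin k (Set.range ((↑) : t → K))) g)
  rcases smul_eq_zero.1 h1.symm with h | h
  · exact absurd h h2
  · exact h

theorem brD_indep {d e : ℕ} {X : Variety k d} {br : X.K → X.K → X.K} (hbr : X.IsPoisson br)
    (htr : Algebra.trdeg k X.K = (d : ℕ)) (φ : Fin e → X.K) (hφ : AlgebraicIndependent k φ) :
    ∃ f : Fin d → X.K, LinearIndependent X.K (fun (i : Fin e) (l : Fin d) => br (φ i) (f l)) := by
  classical
  obtain ⟨f, hf⟩ := hbr.nondegenerate
  refine ⟨f, ?_⟩
  obtain ⟨t, hst, ht⟩ := exists_isTranscendenceBasis_superset hφ.to_subtype_range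
  have hcard := ht.cardinalMk_eq_trdeg
  rw [htr] at hcard
  have hfin : Finite t := by
    rw [← Cardinal.lt_aleph0_iff_finite, hcard]
    exact Cardinal.natCast_lt_aleph0
  have : Fintype t := Fintype.ofFinite t
  have hcd : Fintype.card t = d := by
    have h1 : ((Fintype.card t : ℕ) : Cardinal) = (d : ℕ) := by
      rw [← Cardinal.mk_fintype]
      exact hcard
    exact_mod_cast h1
  -- the vectors of the transcendence basis span
  have hspan : (⊤ : Submodule X.K (Fin d → X.K)) ≤
      Submodule.span X.K (Set.range fun (x : t) (l : Fin d) => br (x : X.K) (f l)) := by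
    by_contra hne
    have hlt : Submodule.span X.K (Set.range fun (x : t) (l : Fin d) => br (x : X.K) (f l)) < ⊤ :=
      lt_of_le_of_ne le_top (fun h => hne (by rw [h]))
    obtain ⟨lam, hlam0, hlam⟩ := Submodule.exists_le_ker_of_lt_top _ hlt
    -- the derivation
    have hformula : ∀ v : Fin d → X.K, lam v = ∑ l, v l * lam (Pi.single l 1) := by
      intro v
      have h3 : v = ∑ l, v l • (Pi.single l (1 : X.K) : Fin d → X.K) := by
        ext1 j
        simp [Finset.sum_apply, Pi.single_apply]
      conv_lhs => rw [h3]
      rw [map_sum]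
      refine Finset.sum_congr rfl fun l _ => ?_
      rw [map_smul, smul_eq_mul]
    let D : Derivation k X.K X.K := -∑ l, lam (Pi.single l 1) • brD hbr (f l)
    have hDv : ∀ g, D g = lam (fun l => br g (f l)) := by
      intro g
      rw [hformula]
      change -((∑ l, lam (Pi.single l 1) • brD hbr (f l)) g) = _
      have h5 := congrFun (map_sum (Derivation.coeFnAddMonoidHom (R := k) (A := X.K)
          (M := X.K)) (fun l => lam (Pi.single l 1) • brD hbr (f l)) Finset.univ) g
      rw [Finset.sum_apply] at h5
      have h6 : (∑ l, lam (Pi.single l 1) • brD hbr (f l)) g =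
          ∑ l, lam (Pi.single l 1) * br (f l) g := h5
      rw [h6, ← Finset.sum_neg_distrib]
      refine Finset.sum_congr rfl fun l _ => ?_
      rw [hbr.skew g (f l)]
      ring
    have hD0 : ∀ g, D g = 0 := by
      intro g
      refine gji_der_zero D ht ?_ g
      intro x hx
      rw [hDv]
      exact LinearMap.mem_ker.1 (hlam (Submodule.subset_span ⟨⟨x, hx⟩, rfl⟩))
    -- the functional vanishes on the rows of an invertible matrix
    apply hlam0
    have h7 : Matrix.mulVec (Matrix.of fun i j => br (f i) (f j))
        (fun l => lam (Pi.single l 1)) = 0 := by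
      funext i
      have h8 := hD0 (f i)
      rw [hDv, hformula] at h8
      exact h8
    have h9 := Matrix.eq_zero_of_mulVec_eq_zero hf h7
    apply LinearMap.ext
    intro v
    rw [hformula v]
    refine Finset.sum_eq_zero fun l _ => ?_
    have h10 := congrFun h9 l
    simp only [Pi.zero_apply] at h10
    rw [h10, mul_zero]
  have hli : LinearIndependent X.K (fun (x : t) (l : Fin d) => br (x : X.K) (f l)) := by
    apply linearIndependent_of_top_le_span_of_card_eq_finrank hspan
    rw [hcd, Module.finrank_fin_fun]
  have hinj : Function.Injective (fun i : Fin e => (⟨φ i, hst ⟨i, rfl⟩⟩ : t)) := by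
    intro i j hij
    exact hφ.injective (congrArg Subtype.val hij)
  exact hli.comp _ hinj

variable {n r : ℕ} {X : Variety k (2 * n)} {α : X.Div} {br : X.K → X.K → X.K}
  {G : X.Action r α} {S : Finset X.K} {x₀ : ℚ} {A : X.Div}

/-- linear independence of vectors is preserved by an extension of fields -/
private theorem gji_ext {K Q : Type*} [Field K] [Field Q] (ι : K →+* Q) {e d : ℕ}
    (v : Fin e → Fin d → K) (hv : LinearIndependent K v) (c : Fin e → Q)
    (hc : ∀ l, ∑ i, c i * ι (v i l) = 0) (i : Fin e) : c i = 0 := by
  classical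
  have hker : LinearMap.ker (Fintype.linearCombination K v) = ⊥ := by
    rw [LinearMap.ker_eq_bot]
    exact linearIndependent_iff_injective_fintypeLinearCombination.1 hv
  obtain ⟨g, hg⟩ := LinearMap.exists_leftInverse_of_injective _ hker
  have h1 : ∀ i j : Fin e, (∑ l, v i l * g (Pi.single l 1) j) = if i = j then 1 else 0 := by
    intro i j
    have h2 := congrFun (congrArg (fun F : (Fin e → K) →ₗ[K] (Fin e → K) => F (Pi.single i 1)) hg) j
    simp only [LinearMap.comp_apply, LinearMap.id_apply, Fintype.linearCombination_apply_single,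
      one_smul] at h2
    have h3 : v i = ∑ l, v i l • (Pi.single l (1 : K) : Fin d → K) := by
      ext1 j
      simp [Finset.sum_apply, Pi.single_apply]
    rw [h3, map_sum, Finset.sum_apply] at h2
    simp only [map_smul, Pi.smul_apply, smul_eq_mul] at h2
    rw [h2, Pi.single_apply]
    by_cases hij : i = j
    · subst hij; simp
    · rw [if_neg hij, if_neg (fun h => hij h.symm)]
  have h4 : ∑ l, (∑ j, c j * ι (v j l)) * ι (g (Pi.single l 1) i) = 0 := by
    refine Finset.sum_eq_zero fun l _ => ?_
    rw [hc l, zero_mul]
  have h5 : ∑ l, (∑ j, c j * ι (v j l)) * ι (g (Pi.single l 1) i) =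
      ∑ j, c j * ι (∑ l, v j l * g (Pi.single l 1) i) := by
    simp only [Finset.sum_mul, map_sum, map_mul, Finset.mul_sum]
    rw [Finset.sum_comm]
    refine Finset.sum_congr rfl fun j _ => Finset.sum_congr rfl fun l _ => ?_
    ring
  rw [h5] at h4
  simp only [h1] at h4
  rw [Finset.sum_eq_single i] at h4
  · simpa using h4
  · intro j _ hj
    rw [if_neg hj, map_zero, mul_zero]
  · intro h
    exact absurd (Finset.mem_univ i) h

theorem hamQ_indep (hX : X.IsSymplecticVariety n) (hαt : ∀ p ∈ X.thr G.x₀, α p = 0)
    (hS : IntermediateField.adjoin k (S : Set X.K) = ⊤) (hA : GoodDivisor G S x₀ A)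
    (hbr : X.IsPoisson br) (hpt : X.BracketAt br G.x₀ G.form) {e : ℕ} (φ : Fin e → X.K)
    (hφ : AlgebraicIndependent k φ) :
    LinearIndependent (QS k (2 * n)) (fun i => hamQ G.form (X.ι G.x₀ (φ i))) := by
  obtain ⟨f, hf⟩ := brD_indep hbr hX.trdeg φ hφ
  rw [Fintype.linearIndependent_iff]
  intro c hc
  refine gji_ext ((X.ι G.x₀ : X.K →+* QS k (2 * n))) _ hf c ?_
  intro l
  have h1 := congrArg (fun D : Derivation k (QS k (2 * n)) (QS k (2 * n)) =>
    D (X.ι G.x₀ (f l))) hc
  simp only [Derivation.zero_apply] at h1
  have h5 := congrFun (map_sum (Derivation.coeFnAddMonoidHom (R := k) (A := QS k (2 * n))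
      (M := QS k (2 * n))) (fun i => c i • hamQ G.form (X.ι G.x₀ (φ i))) Finset.univ)
      (X.ι G.x₀ (f l))
  rw [Finset.sum_apply] at h5
  have h6 : (∑ i, c i • hamQ G.form (X.ι G.x₀ (φ i))) (X.ι G.x₀ (f l)) =
      ∑ i, c i * hamQ G.form (X.ι G.x₀ (φ i)) (X.ι G.x₀ (f l)) := h5
  rw [h6] at h1
  rw [← h1]
  refine Finset.sum_congr rfl fun i _ => ?_
  rw [← iota_br hX hαt hS hA hbr hpt]
  rfl

end Pool.Agent.SYZ68J
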