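import Pool.Agent.SYZ68J.LJDefs
import Pool.Agent.SYZ71.Local

/-!
# SYZ68J/LJTr : transport of Hamiltonian data and of jets by a change of coordinates `θ`

Proofs.  `CI.ext θ` is the extension of `θ` to `Q` (`CI.ext_algebraMap`, `CI.ext_mul`).
* `wd_conjQ`: induction on the word.
* `jetRank_conjQ`: the function of the word `l` for `conjQ θ ξ` on `θ⁻¹ L` is
  `x ↦ θ⁻¹ (ξ_l (θ x))`; `f ↦ θ⁻¹ ∘ f ∘ θ` is a `θ⁻¹`-semilinear bijection
  `(L → Q) ≃ (θ⁻¹ L → Q)`, so the spans have the same dimension.  (Elementary: a family of words is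
  linearly independent on `L` iff it is on `θ⁻¹ L`; use `finrank` of the span = number of elements
  of a basis chosen among the words, in both directions.)
* `HamData.transport`: `transport θ ω X Y = θ⁻¹ (ω(conj θ X, conj θ Y))`
  (`Pool.Agent.SYZ71.Tr.transport_apply`).  For `ham` take `b' = θ⁻¹ b`, `Z' = conj θ⁻¹ Z`; then
  `θ.symm` of the equation for `conj θ Y`: `Tr.conj_mul`, `Tr.conj_one`.
  `inv`: `g (M v) s t = s g (M v) t`, apply `θ⁻¹`.  `indep`: a relation `∑ c_i conjQ θ (ξ_i) = 0` gives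
  `∑ θ(c_i) ξ_i = 0`.
-/

set_option autoImplicit false

open MvPowerSeries Module

namespace Pool.Agent.SYZ68J

open Pool.Agent.SYZ71

variable {k : Type*} [Field k] {d r e : ℕ}

/-- `x ↦ θ⁻¹ (D (θ x))` -/
noncomputable def conjQ (θ : PS k d ≃ₐ[k] PS k d) (D : Derivation k (QS k d) (QS k d)) :
    Derivation k (QS k d) (QS k d) :=
  Derivation.mk' ((CI.ext θ).symm.toLinearMap ∘ₗ (D : QS k d →ₗ[k] QS k d) ∘ₗ
    (CI.ext θ).toLinearMap) (by
    intro a b
    simp [Derivation.leibniz, smul_eq_mul])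

@[simp] theorem conjQ_apply (θ : PS k d ≃ₐ[k] PS k d) (D : Derivation k (QS k d) (QS k d))
    (x : QS k d) : conjQ θ D x = (CI.ext θ).symm (D (CI.ext θ x)) := rfl

theorem wd_conjQ (θ : PS k d ≃ₐ[k] PS k d) (ξ : Fin e → Derivation k (QS k d) (QS k d))
    (l : List (Fin e)) (x : QS k d) :
    wd (fun i => conjQ θ (ξ i)) l ((CI.ext θ).symm x) =
      (CI.ext θ).symm (wd (fun i => ξ i) l x) := by
  induction l generalizing x with
  | nil => rfl
  | cons i l ih =>
    change wd (fun i => conjQ θ (ξ i)) l (conjQ θ (ξ i) ((CI.ext θ).symm x)) =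
      (CI.ext θ).symm (wd (fun i => ξ i) l (ξ i x))
    rw [conjQ_apply, AlgEquiv.apply_symm_apply, ih]

private theorem ext_symm_algebraMap16 (θ : PS k d ≃ₐ[k] PS k d) (f : PS k d) :
    (CI.ext θ).symm (algebraMap (PS k d) (QS k d) f) =
      algebraMap (PS k d) (QS k d) (θ.symm f) := by
  rw [AlgEquiv.symm_apply_eq, CI.ext_algebraMap, AlgEquiv.apply_symm_apply]

private theorem finrank_semi16 {Q M N : Type*} [Field Q] [AddCommGroup M] [Module Q M]
    [AddCommGroup N] [Module Q N] (σ : Q ≃+* Q) (Φ : M ≃+ N)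
    (hΦ : ∀ (r : Q) (m : M), Φ (r • m) = σ r • Φ m) {ι : Type*} (F : ι → M) (G : ι → N)
    (hFG : ∀ i, Φ (F i) = G i) :
    finrank Q (Submodule.span Q (Set.range F)) = finrank Q (Submodule.span Q (Set.range G)) := by
  have h1 : ∀ m ∈ Submodule.span Q (Set.range F), Φ m ∈ Submodule.span Q (Set.range G) := by
    intro m hm
    induction hm using Submodule.span_induction with
    | mem x hx =>
      obtain ⟨i, rfl⟩ := hx
      rw [hFG]
      exact Submodule.subset_span ⟨i, rfl⟩
    | zero => rw [map_zero]; exact Submodule.zero_mem _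
    | add x y _ _ hx hy => rw [map_add]; exact Submodule.add_mem _ hx hy
    | smul a x _ hx => rw [hΦ]; exact Submodule.smul_mem _ _ hx
  have h2 : ∀ n ∈ Submodule.span Q (Set.range G), Φ.symm n ∈ Submodule.span Q (Set.range F) := by
    intro n hn
    induction hn using Submodule.span_induction with
    | mem x hx =>
      obtain ⟨i, rfl⟩ := hx
      rw [← hFG, AddEquiv.symm_apply_apply]
      exact Submodule.subset_span ⟨i, rfl⟩
    | zero => rw [map_zero]; exact Submodule.zero_mem _
    | add x y _ _ hx hy => rw [map_add]; exact Submodule.add_mem _ hx hy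
    | smul a x _ hx =>
      have h3 : Φ.symm (a • x) = σ.symm a • Φ.symm x := by
        rw [AddEquiv.symm_apply_eq, hΦ, RingEquiv.apply_symm_apply, AddEquiv.apply_symm_apply]
      rw [h3]
      exact Submodule.smul_mem _ _ hx
  let j : Submodule.span Q (Set.range F) ≃+ Submodule.span Q (Set.range G) :=
    { toFun := fun m => ⟨Φ m, h1 m m.2⟩
      invFun := fun n => ⟨Φ.symm n, h2 n n.2⟩
      left_inv := fun m => Subtype.ext (Φ.symm_apply_apply m)
      right_inv := fun n => Subtype.ext (Φ.apply_symm_apply n)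
      map_add' := fun a b => Subtype.ext (map_add Φ (a : M) (b : M)) }
  have h4 := lift_rank_eq_of_equiv_equiv (R := Q) (R' := Q) (⇑σ) j σ.bijective
    (fun r m => Subtype.ext (hΦ r m))
  have h5 := congrArg Cardinal.toNat h4
  rw [Cardinal.toNat_lift, Cardinal.toNat_lift] at h5
  exact h5

theorem jetRank_conjQ (θ : PS k d ≃ₐ[k] PS k d) (ξ : Fin e → Derivation k (QS k d) (QS k d))
    (L : Set (PS k d)) (N : ℕ) :
    jetRank (fun i => conjQ θ (ξ i)) (algebraMap (PS k d) (QS k d) '' (θ.symm '' L)) N =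
      jetRank (fun i => ξ i) (algebraMap (PS k d) (QS k d) '' L) N := by
  have hmem : ∀ x ∈ algebraMap (PS k d) (QS k d) '' L,
      (CI.ext θ).symm x ∈ algebraMap (PS k d) (QS k d) '' (θ.symm '' L) := by
    rintro _ ⟨f, hf, rfl⟩
    exact ⟨θ.symm f, ⟨f, hf, rfl⟩, (ext_symm_algebraMap16 θ f).symm⟩
  have hmem' : ∀ x ∈ algebraMap (PS k d) (QS k d) '' (θ.symm '' L),
      CI.ext θ x ∈ algebraMap (PS k d) (QS k d) '' L := by
    rintro _ ⟨_, ⟨f, hf, rfl⟩, rfl⟩
    refine ⟨f, hf, ?_⟩
    rw [CI.ext_algebraMap, AlgEquiv.apply_symm_apply]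
  let Φ : ((algebraMap (PS k d) (QS k d) '' L : Set (QS k d)) → QS k d) ≃+
      ((algebraMap (PS k d) (QS k d) '' (θ.symm '' L) : Set (QS k d)) → QS k d) :=
    { toFun := fun f x => (CI.ext θ).symm (f ⟨CI.ext θ x, hmem' x x.2⟩)
      invFun := fun f x => CI.ext θ (f ⟨(CI.ext θ).symm x, hmem x x.2⟩)
      left_inv := by
        intro f
        funext x
        change CI.ext θ ((CI.ext θ).symm (f _)) = f x
        rw [AlgEquiv.apply_symm_apply]
        congr 1
        exact Subtype.ext (AlgEquiv.apply_symm_apply _ _)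
      right_inv := by
        intro f
        funext x
        change (CI.ext θ).symm (CI.ext θ (f _)) = f x
        rw [AlgEquiv.symm_apply_apply]
        congr 1
        exact Subtype.ext (AlgEquiv.symm_apply_apply _ _)
      map_add' := by
        intro f g
        funext x
        exact map_add (CI.ext θ).symm _ _ }
  refine (finrank_semi16 (CI.ext θ).symm.toRingEquiv Φ ?_ _ _ ?_).symm
  · intro r f
    funext x
    exact map_mul (CI.ext θ).symm _ _
  · intro l
    funext x
    change (CI.ext θ).symm (wd (fun i => ξ i) (l : List (Fin e)) (CI.ext θ x)) =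
      wd (fun i => conjQ θ (ξ i)) (l : List (Fin e)) (x : QS k d)
    rw [← wd_conjQ, AlgEquiv.symm_apply_apply]

theorem HamData.transport {ω : Derivation k (PS k d) (PS k d) →ₗ[PS k d]
      Derivation k (PS k d) (PS k d) →ₗ[PS k d] PS k d}
    {g : (Fin r → ℤ) → (PS k d ≃ₐ[k] PS k d)} {t : PS k d} {s : Fin e → PS k d}
    {ξ : Fin e → Derivation k (QS k d) (QS k d)} (h : HamData ω g t s ξ)
    (θ : PS k d ≃ₐ[k] PS k d) (M : ℕ) :
    HamData (Tr.transport θ ω) (fun v => θ⁻¹ * g (fun l => (M : ℤ) * v l) * θ) (θ.symm t)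
      (fun i => θ.symm (s i)) (fun i => conjQ θ (ξ i)) := by
  refine ⟨?_, ?_, ?_, ?_, ?_⟩
  · intro h0
    apply h.t_ne
    have h1 := congrArg θ h0
    rwa [AlgEquiv.apply_symm_apply, map_zero] at h1
  · intro v i
    have h1 := h.inv (fun l => (M : ℤ) * v l) i
    have h2 : ∀ f, (θ⁻¹ * g (fun l => (M : ℤ) * v l) * θ) (θ.symm f) =
        θ.symm (g (fun l => (M : ℤ) * v l) f) := by
      intro f
      simp only [AlgEquiv.mul_apply, AlgEquiv.apply_symm_apply]
      rfl
    change (θ⁻¹ * g (fun l => (M : ℤ) * v l) * θ) (θ.symm (s i)) * θ.symm t =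
      θ.symm (s i) * (θ⁻¹ * g (fun l => (M : ℤ) * v l) * θ) (θ.symm t)
    rw [h2, h2, ← map_mul, ← map_mul, h1]
  · intro i
    obtain ⟨b, Z, hb, hZ, hω⟩ := h.ham i
    refine ⟨θ.symm b, conj θ⁻¹ Z, ?_, ?_, ?_⟩
    · intro h0
      apply hb
      have h1 := congrArg θ h0
      rwa [AlgEquiv.apply_symm_apply, map_zero] at h1
    · intro a
      have h1 : conj θ⁻¹ Z a = θ.symm (Z (θ a)) := rfl
      change algebraMap (PS k d) (QS k d) (conj θ⁻¹ Z a) =
        algebraMap (PS k d) (QS k d) (θ.symm b) *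
          conjQ θ (ξ i) (algebraMap (PS k d) (QS k d) a)
      rw [h1, ← ext_symm_algebraMap16, hZ, map_mul, ext_symm_algebraMap16, conjQ_apply,
        CI.ext_algebraMap]
    · intro Y
      have h1 : conj θ (conj θ⁻¹ Z) = Z := by
        rw [← Tr.conj_mul, mul_inv_cancel, Tr.conj_one]
      change (θ.symm t) ^ 2 * Tr.transport θ ω (conj θ⁻¹ Z) Y =
        θ.symm b * (θ.symm t * Y (θ.symm (s i)) - θ.symm (s i) * Y (θ.symm t))
      rw [Tr.transport_apply, h1]
      have h2 : ∀ f, Y (θ.symm f) = θ.symm (conj θ Y f) := by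
        intro f
        simp
      rw [h2, h2, ← map_pow, ← map_mul, ← map_mul, ← map_mul, ← map_sub, ← map_mul]
      rw [hω (conj θ Y)]
  · intro i j
    have h1 := h.comm i j
    rw [conjQ_apply]
    have h2 : CI.ext θ (algebraMap (PS k d) (QS k d) (θ.symm (s j)) /
        algebraMap (PS k d) (QS k d) (θ.symm t)) =
        algebraMap (PS k d) (QS k d) (s j) / algebraMap (PS k d) (QS k d) t := by
      rw [map_div₀, CI.ext_algebraMap, CI.ext_algebraMap, AlgEquiv.apply_symm_apply,
        AlgEquiv.apply_symm_apply]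
    rw [h2, h1, map_zero]
  · rw [Fintype.linearIndependent_iff]
    intro c hc
    have h1 := Fintype.linearIndependent_iff.1 h.indep (fun i => CI.ext θ (c i)) ?_
    · intro i
      have h2 := h1 i
      have h3 := congrArg (CI.ext θ).symm h2
      rwa [AlgEquiv.symm_apply_apply, map_zero] at h3
    · ext1 x
      have h2 : (∑ i, c i • conjQ θ (ξ i)) ((CI.ext θ).symm x) = 0 := by
        rw [hc]
        rfl
      have h3 : ∀ (c : Fin e → QS k d) (D : Fin e → Derivation k (QS k d) (QS k d)) (y : QS k d),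
          (∑ i, c i • D i) y = ∑ i, c i * D i y := by
        intro c D y
        have h5 := congrFun (map_sum (Derivation.coeFnAddMonoidHom (R := k) (A := QS k d)
          (M := QS k d)) (fun i => c i • D i) Finset.univ) y
        rw [Finset.sum_apply] at h5
        exact h5
      rw [h3] at h2
      rw [h3]
      have h4 := congrArg (CI.ext θ) h2
      rw [map_sum, map_zero] at h4
      rw [Derivation.zero_apply, ← h4]
      refine Finset.sum_congr rfl fun i _ => ?_
      rw [map_mul, conjQ_apply, AlgEquiv.apply_symm_apply, AlgEquiv.apply_symm_apply]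

end Pool.Agent.SYZ68J
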