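import Pool.Agent.SYZ68J.LJNF
import Pool.Agent.SYZ68J.LJTr

/-!
# SYZ68J/LJMain : the local bound with jets

Proof of `local_boundJ`: as `Pool.Agent.SYZ71.local_bound` (file `Local.lean`): `exists_NF g hg` gives
`θ, M, s', ψ, κ`; `exists_localData` for `g' v = θ⁻¹ g(M v) θ`; `HamData.transport`;
`localJ_of_data` for `g'`, `ω' = transport θ ω`, `L' = θ⁻¹ L`, `f'_i = θ⁻¹ f_i`.
`ξ'_l (g' v f') = θ⁻¹ (ξ_l (g (M v) f))` (`wd_conjQ`), so the matrix for `'` is `θ⁻¹` applied to the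
entries, its determinant is `θ⁻¹ (det)` and has the same valuation (`ordQ_ext`; for
`(CI.ext θ).symm x` apply `ordQ_ext` to it); `jetRank_conjQ`.
-/

set_option autoImplicit false

open MvPowerSeries Module

namespace Pool.Agent.SYZ68J

open Pool.Agent.SYZ71

/-- The local bound with jets, with exponent `m`: the determinants of the functionals `ξ_l g_(M v)`,
`|l| ≤ q`, on elements of `L`, of size `φ ≥ C ρ q^m`, `ρ = jetRank ξ L (C q)`, have valuation
`≥ q φ`. -/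
def LocalBoundJ {k : Type*} [Field k] {d r e : ℕ} (m : ℕ)
    (g : (Fin r → ℤ) → (PS k d ≃ₐ[k] PS k d)) (ξ : Fin e → Derivation k (QS k d) (QS k d)) :
    Prop :=
  ∃ M C : ℕ, 1 ≤ M ∧ 1 ≤ C ∧ ∀ (L : Set (PS k d)) (φ q : ℕ) (f : Fin φ → PS k d)
    (v : Fin φ → Fin r → ℕ) (l : Fin φ → List (Fin e)),
    (∀ i, f i ∈ L) → (∀ j, (l j).length ≤ q) → 1 ≤ q →
    C * (jetRank (fun i => ξ i) (algebraMap (PS k d) (QS k d) '' L) (C * q) * q ^ m) ≤ φ →
    (((q * φ : ℕ) : ℤ) : WithTop ℤ) ≤ ordQ k d (Matrix.of fun i j => wd (fun i => ξ i) (l j)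
      (algebraMap (PS k d) (QS k d) (g (fun c => ((M * v j c : ℕ) : ℤ)) (f i)))).det

private theorem ljm_ext_symm {k : Type*} [Field k] {d : ℕ} (θ : PS k d ≃ₐ[k] PS k d)
    (f : PS k d) :
    (CI.ext θ).symm (algebraMap (PS k d) (QS k d) f) =
      algebraMap (PS k d) (QS k d) (θ.symm f) := by
  rw [AlgEquiv.symm_apply_eq, CI.ext_algebraMap, AlgEquiv.apply_symm_apply]

theorem local_boundJ {k : Type*} [Field k] [CharZero k] [IsAlgClosed k] (n r : ℕ)
    (ω : Derivation k (PS k (2 * n)) (PS k (2 * n)) →ₗ[PS k (2 * n)]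
      Derivation k (PS k (2 * n)) (PS k (2 * n)) →ₗ[PS k (2 * n)] PS k (2 * n))
    (hω : IsSymplectic ω)
    (g : (Fin r → ℤ) → (PS k (2 * n) ≃ₐ[k] PS k (2 * n)))
    (hg : ∀ u v, g (u + v) = g u * g v) (hgω : ∀ v, Preserves ω (g v))
    {e : ℕ} (t : PS k (2 * n)) (s : Fin e → PS k (2 * n))
    (ξ : Fin e → Derivation k (QS k (2 * n)) (QS k (2 * n))) (h : HamData ω g t s ξ) :
    LocalBoundJ (n - e) g ξ := by
  obtain ⟨θ, M, s', ψ, κ, hM, hNF⟩ := exists_NF g hg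
  obtain ⟨Y, hY⟩ := exists_localData (fun v => θ⁻¹ * g (fun l => (M : ℤ) * v l) * θ)
    (Tr.conj_add_hom g hg θ M) ψ κ hNF
  obtain ⟨C, hC, hCb⟩ := localJ_of_data n r (Tr.transport θ ω)
    (Tr.transport_isSymplectic θ ω hω) (fun v => θ⁻¹ * g (fun l => (M : ℤ) * v l) * θ)
    (Tr.conj_add_hom g hg θ M) (fun v => Tr.transport_preserves θ _ ω (hgω _)) ψ κ hNF Y hY
    (θ.symm t) (fun i => θ.symm (s i)) (fun i => conjQ θ (ξ i)) (h.transport θ M)
  refine ⟨M, C, hM, hC, ?_⟩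
  intro L φ q f v l hf hl hq hφ
  have h1 := hCb (θ.symm '' L) φ q (fun i => θ.symm (f i)) (fun j c => (v j c : ℤ)) l
    (fun i => ⟨f i, hf i, rfl⟩) hl hq (by rw [jetRank_conjQ]; exact hφ)
  have h2 : (Matrix.of fun i j =>
      wd (fun i => conjQ θ (ξ i)) (l j)
        (algebraMap (PS k (2 * n)) (QS k (2 * n))
          ((θ⁻¹ * g (fun c => (M : ℤ) * (v j c : ℤ)) * θ) (θ.symm (f i))))) =
      ((CI.ext θ).symm : QS k (2 * n) →+* QS k (2 * n)).mapMatrix
        (Matrix.of fun i j => wd (fun i => ξ i) (l j)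
          (algebraMap (PS k (2 * n)) (QS k (2 * n))
            (g (fun c => ((M * v j c : ℕ) : ℤ)) (f i)))) := by
    ext1 i j
    simp only [Matrix.of_apply, RingHom.mapMatrix_apply, Matrix.map_apply]
    have h3 : (θ⁻¹ * g (fun c => (M : ℤ) * (v j c : ℤ)) * θ) (θ.symm (f i)) =
        θ.symm (g (fun c => ((M * v j c : ℕ) : ℤ)) (f i)) := by
      simp only [AlgEquiv.mul_apply, AlgEquiv.apply_symm_apply]
      push_cast
      rfl
    rw [h3, ← ljm_ext_symm, wd_conjQ]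
    rfl
  rw [h2, ← RingHom.map_det] at h1
  refine le_trans h1 (le_of_eq ?_)
  have h4 := ordQ_ext θ ((CI.ext θ).symm ((Matrix.of fun i j => wd (fun i => ξ i) (l j)
          (algebraMap (PS k (2 * n)) (QS k (2 * n))
            (g (fun c => ((M * v j c : ℕ) : ℤ)) (f i)))).det))
  rw [AlgEquiv.apply_symm_apply] at h4
  exact h4.symm

end Pool.Agent.SYZ68J
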