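import Pool.Agent.SYZ68J.JCore
import Pool.Agent.SYZ68J.LJMain
import Pool.Agent.SYZ71.Rel
import Pool.Agent.SYZ71M.RD

/-!
# SYZ68J/JRel : the formal theorem: `κ ≥ n` if `r ≥ 2n + 1`

Proof.  Compare `Pool.Agent.SYZ71M.rel_triv` (`RD.lean`) and `rel_core` (`RC.lean`).
`e₀ = trdeg (iitaka L)` (`exists_trdeg_iitaka`), `exists_kappa` gives `E`, `s`.  If `n ≤ e₀` done.
Otherwise `hham e₀ E s …` gives `ξ`; `local_boundJ`, `ham_comm` (commutation), `rankJ_of`,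
`ham_comm_ext`; `core_jets` with `K₀ = iitaka L`, `growthLower_of_family`, `growthUpper_of_family`,
`iitaka_fixed`, `isDomain_iitaka`, `hinv` with `mem_iitaka` as in `rel_core`.
-/

set_option autoImplicit false

open MvPowerSeries Module

namespace Pool.Agent.SYZ68J

open Pool.Agent.SYZ71 Pool.Agent.SYZ71M

theorem rel_jets {k : Type*} [Field k] [CharZero k] [IsAlgClosed k] (n r : ℕ)
    (hr : 2 * n + 1 ≤ r)
    (ω : Derivation k (PS k (2 * n)) (PS k (2 * n)) →ₗ[PS k (2 * n)]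
      Derivation k (PS k (2 * n)) (PS k (2 * n)) →ₗ[PS k (2 * n)] PS k (2 * n))
    (hω : IsSymplectic ω)
    (g : (Fin r → ℤ) → (PS k (2 * n) ≃ₐ[k] PS k (2 * n)))
    (hg : ∀ u v, g (u + v) = g u * g v) (hgω : ∀ v, Preserves ω (g v))
    (L : ℕ → ℕ → Submodule k (PS k (2 * n))) (hL : SectionFamily n L)
    (h00 : (1 : PS k (2 * n)) ∈ L 0 0)
    (hgL : ∃ C : ℕ, ∀ (v : Fin r → ℤ) (D E : ℕ), 1 ≤ D → ∃ b : PS k (2 * n), b ≠ 0 ∧
      ∀ f ∈ L D E, b * g v f ∈ L (2 * D) (E + C * D * (1 + ∑ i, (v i).natAbs ^ 2)))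
    (hinv : InvariantIitaka L g)
    (htriv : ∀ v E, ∀ f ∈ L 0 E, ∀ h ∈ L 0 E, g v f * h = f * g v h)
    (hham : ∀ (e E : ℕ) (s : Fin (e + 1) → PS k (2 * n)), (∀ i, s i ∈ L 0 E) → s 0 ≠ 0 →
      AlgebraicIndependent k (fun i : Fin e => algebraMap (PS k (2 * n)) (QS k (2 * n)) (s i.succ) /
        algebraMap (PS k (2 * n)) (QS k (2 * n)) (s 0)) →
      ∃ ξ : Fin e → Derivation k (QS k (2 * n)) (QS k (2 * n)),
        HamData ω g (s 0) (fun i => s i.succ) ξ ∧ (∀ i, ∀ x ∈ Fld L, ξ i x ∈ Fld L) ∧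
        (∀ i, ∀ x ∈ iitaka L hL.toIsFamily h00, ξ i x = 0) ∧ UpperJ g ξ L) :
    ∃ e : ℕ, n ≤ e ∧ KappaGE L e := by
  obtain ⟨e₀, he₀⟩ := exists_trdeg_iitaka n L hL h00
  obtain ⟨E, s, hs, hs0, hai⟩ := exists_kappa L hL.toIsFamily h00 e₀ he₀
  refine ⟨e₀, ?_, E, s, hs, hs0, hai⟩
  by_contra hlt
  rw [not_le] at hlt
  obtain ⟨ξ, hH, hξF, hξK, hU⟩ := hham e₀ E s hs hs0 hai
  have hcomm := ham_comm hω hH
  have hloc := local_boundJ n r ω hω g hg hgω (s 0) (fun i => s i.succ) ξ hH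
  have hR := rankJ_of (n - e₀) g ξ hcomm L hloc hU
  have hrpos : 1 ≤ r := by omega
  refine core_jets n r e₀ hlt hr g hg L hL.toIsFamily hgL (iitaka L hL.toIsFamily h00)
    (iitaka_le L hL.toIsFamily h00) he₀ hL.trdeg (growthLower_of_family n L hL _ e₀ he₀)
    (growthUpper_of_family n L hL h00 _ le_rfl e₀ he₀)
    (iitaka_fixed r g L hL.toIsFamily h00 htriv) ?_
    (isDomain_iitaka r hrpos g hg L hL.toIsFamily h00 hgL hinv htriv) ξ hcomm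
    (fun v i x => ham_comm_ext hω hgω hH v i x) hξF hξK hR
  intro v hv D f hf h hh hh0 hgv
  obtain ⟨E', f', hf', h', hh', hh0', heq⟩ := hinv v hv D f hf h hh hh0 hgv
  rw [mem_iitaka]
  refine ⟨E', f', hf', h', hh', hh0', ?_⟩
  rw [div_eq_div_iff (algebraMap_ne_zero hh0) (algebraMap_ne_zero hh0'), ← map_mul, ← map_mul, heq]

end Pool.Agent.SYZ68J
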