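import Pool.Agent.SYZ68J.GJUp
import Pool.Agent.SYZ68J.GJInd
import Pool.Agent.SYZ68J.JRel
import Pool.Agent.SYZ71.GMain

/-!
# SYZ68J/GJMain : `κ ≥ n` if `r ≥ 2n + 1`

Proof.  Compare `kodaira_of_thr` and `main_geom'` in `GMain.lean`.
`sharp_of_thr` (with `hαt`): `exists_rr`, `hX.fg`, `exists_goodDivisor`, `sectionFamily`, `hgL`,
`invariantIitaka`, and `rel_jets` for `ω = G.form.toForm` (`isSymplectic`, `preserves`), `L = secL G A`.
For `hham`: `s_i ∈ L 0 E` is the expansion of `σ_i ∈ H0 (E α)` (`mem_secL`), `ξ_i = hamQ (ι (σ_(i+1)/σ_0))`,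
`ι (σ_(i+1) / σ_0) = s_(i+1) / s_0`:
* `HamData`: `hamData_of`: `hinv` from `htriv`; `hcomm` from `iota_br` and `RatiosCommute`
  (`{σ_i/σ_0, σ_j/σ_0} = 0`); `hind` from `hamQ_indep` (`σ_(i+1)/σ_0` algebraically independent since
  their images under `ι` are).
* `ξ_i (Fld L) ⊆ Fld L`: `Fld L = ι K(X)` (`fieldRange_eq`), `iota_br`.
* `ξ_i x = 0` for `x` in the Iitaka field: `x = f/h`, `f, h ∈ L 0 E'` (`mem_iitaka`), the expansions of
  sections `F, H` of `E' α`; `{σ_i/σ_0, F/H} = 0` by `RatiosCommute` for `m = E + E'`: write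
  `σ_i / σ_0 = (σ_i H) / (σ_0 H)`, `F / H = (F σ_0) / (H σ_0)`.
* `UpperJ`: `upperJ`.
`rel_jets` gives `e ≥ n`; `kodairaGE_of_kappaGE` with `e' = e`, `e + 1 ↝ n` (`n ≥ 1`).
`main_sharp`: `exists_twist` as in `main_geom'`; `RatiosCommute` for `α'`: `f ∈ H0 (m α')` gives
`f u^m ∈ H0 (m α)` (`Twist.mem_H0`), and `f / h = (f u^m) / (h u^m)`.
-/

set_option autoImplicit false

open MvPowerSeries Module

namespace Pool.Agent.SYZ68J

open Pool.Agent.SYZ71 Pool.Agent.SYZ71.Variety

variable {k : Type} [Field k] [CharZero k] [IsAlgClosed k] {n r : ℕ} {X : Variety k (2 * n)}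
  {α : X.Div}

theorem sharp_of_thr (hn : 1 ≤ n) (hX : X.IsSymplecticVariety n) (hα : X.IsNefIsotropic α)
    (G : X.Action r α) (hαt : ∀ p ∈ X.thr G.x₀, α p = 0)
    (htriv : TrivialOnRatios G.toActionData α) (br : X.K → X.K → X.K) (hbr : X.IsPoisson br)
    (hpt : X.BracketAt br G.x₀ G.form) (hcomm : X.RatiosCommute br α) (hr : 2 * n + 1 ≤ r) :
    X.KodairaGE α n := by
  obtain ⟨c, C, x₀, hc, hC, hx₀, hrr⟩ := exists_rr hX
  obtain ⟨S, hS⟩ := hX.fg
  obtain ⟨A, hA⟩ := exists_goodDivisor hX G S x₀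
  have hL := sectionFamily hX hα hαt hS hc hC hx₀ hrr hA
  have hg := hgL hX hα hαt hrr hA
  have hI := invariantIitaka hX hα hαt hA
  have hz : ∀ E : ℕ, (0 : ℕ) • A + E • α = E • α := fun E => by rw [zero_smul, zero_add]
  have hFne : ∀ (F : X.K) (a : PS k (2 * n)), X.ι G.x₀ F = toFrac k (2 * n) a → a ≠ 0 → F ≠ 0 := by
    intro F a h ha h0
    rw [h0, map_zero] at h
    exact ha (toFrac_injective _ (by rw [← h, map_zero]))
  obtain ⟨e, he, hk⟩ := rel_jets n r hr G.form.toForm G.form.isSymplectic G.g G.g_add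
    (fun v => G.form.preserves (G.g v) (G.invariant v)) (secL G A) hL (one_mem_zero hX) hg hI
    (by
      intro v E f hf h hh
      obtain ⟨F, hFm, hF⟩ := mem_secL.mp hf
      obtain ⟨H, hHm, hH⟩ := mem_secL.mp hh
      rw [hz] at hFm hHm
      apply toFrac_injective
      rw [map_mul, map_mul, ← iota_γ G v hF, ← iota_γ G v hH, ← hF, ← hH, ← map_mul,
        ← map_mul, htriv v E F hFm H hHm])
    (by
      intro e E s hs hs0 hai
      choose F hF hFs using fun i => mem_secL.mp (hs i)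
      have hFE : ∀ i, F i ∈ X.H0 (E • α) := fun i => by
        have := hF i
        rwa [hz] at this
      have hF0 : F 0 ≠ 0 := hFne _ _ (hFs 0) hs0
      have hq : ∀ i : Fin e, X.ι G.x₀ (F i.succ / F 0) =
          algebraMap (PS k (2 * n)) (QS k (2 * n)) (s i.succ) /
            algebraMap (PS k (2 * n)) (QS k (2 * n)) (s 0) := by
        intro i
        rw [map_div₀, hFs, hFs]
        rfl
      have hai' : AlgebraicIndependent k (fun i : Fin e => F i.succ / F 0) := by
        refine AlgebraicIndependent.of_comp (X.ι G.x₀) ?_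
        convert hai using 1
        ext i
        simp only [Function.comp_apply, hq]
      have hξ : (fun i : Fin e => hamQ G.form (X.ι G.x₀ (F i.succ / F 0))) =
          fun i : Fin e => hamQ G.form (algebraMap (PS k (2 * n)) (QS k (2 * n)) (s i.succ) /
            algebraMap (PS k (2 * n)) (QS k (2 * n)) (s 0)) := by
        funext i
        rw [hq]
      refine ⟨fun i : Fin e => hamQ G.form (X.ι G.x₀ (F i.succ / F 0)), ?_, ?_, ?_, ?_⟩
      · rw [hξ]
        refine hamData_of G.form G.g (s 0) hs0 (fun i => s i.succ) ?_ ?_ ?_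
        · intro v i
          apply toFrac_injective
          rw [map_mul, map_mul, ← iota_γ G v (hFs i.succ), ← iota_γ G v (hFs 0), ← hFs, ← hFs,
            ← map_mul, ← map_mul, htriv v E _ (hFE i.succ) _ (hFE 0)]
        · intro i j
          rw [← hq, ← hq, ← iota_br hX hαt hS hA hbr hpt,
            hcomm E _ (hFE i.succ) _ (hFE j.succ) _ (hFE 0) _ (hFE 0), map_zero]
        · have h1 := hamQ_indep hX hαt hS hA hbr hpt _ hai'
          rw [hξ] at h1
          exact h1
      · intro i x hx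
        have hx' : x ∈ (X.ι G.x₀).fieldRange := by
          rw [fieldRange_eq hX hαt hS hA]
          exact hx
        obtain ⟨y, rfl⟩ := hx'
        have h2 : hamQ G.form (X.ι G.x₀ (F i.succ / F 0)) (X.ι G.x₀ y) ∈
            (X.ι G.x₀).fieldRange := ⟨_, iota_br hX hαt hS hA hbr hpt _ _⟩
        rw [fieldRange_eq hX hαt hS hA] at h2
        exact h2
      · intro i x hx
        obtain ⟨E', f, hf, h, hh, hh0, hx⟩ := (Pool.Agent.SYZ71M.mem_iitaka _ _ _ x).1 hx
        obtain ⟨F', hF', hFf⟩ := mem_secL.mp hf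
        obtain ⟨H, hH, hHh⟩ := mem_secL.mp hh
        have hH0 : H ≠ 0 := hFne _ _ hHh hh0
        rw [hz] at hF' hH
        have hx2 : x = X.ι G.x₀ (F' / H) := by
          rw [map_div₀, hFf, hHh, hx]
          rfl
        have h1 : F i.succ / F 0 = (F i.succ * H) / (F 0 * H) := by
          rw [mul_div_mul_right _ _ hH0]
        have h2 : F' / H = (F 0 * F') / (F 0 * H) := by
          rw [mul_div_mul_left _ _ hF0]
        have hmul : ∀ a ∈ X.H0 (E • α), ∀ b ∈ X.H0 (E' • α), a * b ∈ X.H0 ((E + E') • α) := by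
          intro a ha b hb
          rw [add_smul]
          exact mul_mem_H0 hX ha hb
        rw [hx2, ← iota_br hX hαt hS hA hbr hpt, h1, h2,
          hcomm (E + E') _ (hmul _ (hFE _) _ hH) _ (hmul _ (hFE _) _ hF')
            _ (hmul _ (hFE _) _ hH) _ (hmul _ (hFE _) _ hH), map_zero]
      · exact upperJ hX hα hαt hS hA hbr hpt E F hFE hF0)
  obtain ⟨m, rfl⟩ : ∃ m, n = m + 1 := ⟨n - 1, by omega⟩
  exact kodairaGE_of_kappaGE (G := G) (A := A) hX he hk

theorem main_sharp (hn : 1 ≤ n) (hX : X.IsSymplecticVariety n) (hα : X.IsNefIsotropic α)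
    (G : X.Action r α) (htriv : TrivialOnRatios G.toActionData α) (br : X.K → X.K → X.K)
    (hbr : X.IsPoisson br) (hpt : X.BracketAt br G.x₀ G.form) (hcomm : X.RatiosCommute br α)
    (hr : 2 * n + 1 ≤ r) : X.KodairaGE α n := by
  obtain ⟨α', u, hu, hcl, hcart, hthr⟩ := exists_twist hX hα G.x₀
  refine hu.kodairaGE hX (sharp_of_thr hn hX (hα.twist hcl hcart) (G.twist hcl) hthr ?_ br hbr hpt
    ?_ hr)
  · intro v m f hf h hh
    have h3 := htriv v m _ (hu.mem_H0 hX hf) _ (hu.mem_H0 hX hh)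
    change G.γ v f * h = f * G.γ v h
    rw [map_mul, map_mul] at h3
    have hum : u ^ m ≠ 0 := pow_ne_zero m hu.ne_zero
    have hum' : G.γ v (u ^ m) ≠ 0 := (map_ne_zero _).mpr hum
    have h4 : (G.γ v f * h) * (G.γ v (u ^ m) * u ^ m) =
        (f * G.γ v h) * (G.γ v (u ^ m) * u ^ m) := by linear_combination h3
    exact mul_right_cancel₀ (mul_ne_zero hum' hum) h4
  · intro m f hf f' hf' h hh h' hh'
    have hum : u ^ m ≠ 0 := pow_ne_zero m hu.ne_zero
    rw [← mul_div_mul_right f h hum, ← mul_div_mul_right f' h' hum]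
    exact hcomm m _ (hu.mem_H0 hX hf) _ (hu.mem_H0 hX hf') _ (hu.mem_H0 hX hh) _
      (hu.mem_H0 hX hh')

end Pool.Agent.SYZ68J
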