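import Pool.Agent.SYZC.Main
import Pool.Agent.SYZ68J.GJMain

/-!
# SYZ68J/Class : the SYZ conjecture for classes of symplectic varieties with `b₂ ≥ 2n + 5`

`HasBracketActions` is `Pool.Agent.SYZC.SymplecticClass.HasActions` with the Poisson bracket of the
member; `exists_member_bracket` is the proof of `exists_member` (helper4, `SYZC/Main.lean`).
-/

set_option autoImplicit false

open Module

namespace Pool.Agent.SYZC

open Pool.Agent.SYZ71

namespace SymplecticClass

variable {n : ℕ} {C : SymplecticClass n}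

/-- Automorphisms with a common fixed point. Let `α` be nef isotropic on the member `X` and
`w : ℤ^r → NS(X)_ℚ` additive, orthogonal to `α` and injective modulo `α`, such that the
transvections `T_(α, w(v))` are monodromy operators preserving the ample cone. By the Torelli
theorem they are induced by automorphisms; the hypothesis is that, after passing to `N ℤ^r` for some
`N ≥ 1`, these form a group `ℤ^r` with a common fixed point, which acts trivially on the quotients
of sections of multiples of `α` (the latter is a theorem of Lo Bianco). The symplectic form defines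
a Poisson bracket on the function field, and the quotients of sections of multiples of `α` Poisson
commute (the fibres of the Iitaka fibration are coisotropic). -/
structure HasBracketActions (C : SymplecticClass n) : Prop where
  action : ∀ i (α : (C.X i).Div), (C.X i).IsNefIsotropic α →
    ∀ (r : ℕ) (w : (Fin r → ℤ) → (C.X i).NS), (∀ u v, w (u + v) = w u + w v) →
    (∀ v, (C.X i).q ((C.X i).classOf α) (w v) = 0) →
    (∀ v, v ≠ 0 → ∀ a : ℚ, w v ≠ a • (C.X i).classOf α) →
    (∀ v, ∃ γ ∈ C.Mon, ∀ x,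
      γ x = C.transvection (C.c i ((C.X i).classOf α)) (C.c i (w v)) x) →
    (∀ v, ∀ a ∈ (C.X i).Ample, (C.X i).transvection ((C.X i).classOf α) (w v) a ∈ (C.X i).Ample) →
    ∃ (N : ℕ) (G : (C.X i).Action r α), 1 ≤ N ∧ (∀ v, G.w v = (N : ℚ) • w v) ∧
      Variety.TrivialOnRatios G.toActionData α ∧ ∃ br, (C.X i).IsPoisson br ∧
        (C.X i).BracketAt br G.x₀ G.form ∧ (C.X i).RatiosCommute br α

/-- The data found on one member: `β` is a nef isotropic line bundle of class `M α`, with a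
group of automorphisms of rank `r`. -/
theorem exists_member_bracket (hC : C.Axioms) (hF : C.HasBracketActions) (i : C.I) (α : (C.X i).Div)
    (hα : (C.X i).IsNefIsotropic α) (r : ℕ) (hr : r + 4 ≤ finrank ℚ C.H) :
    ∃ (j : C.I) (β : (C.X j).Div) (M : ℕ) (G : (C.X j).Action r β), 1 ≤ M ∧
      (C.X j).IsNefIsotropic β ∧
      C.c j ((C.X j).classOf β) = (M : ℚ) • C.c i ((C.X i).classOf α) ∧
      Variety.TrivialOnRatios G.toActionData β ∧ ∃ br, (C.X j).IsPoisson br ∧
        (C.X j).BracketAt br G.x₀ G.form ∧ (C.X j).RatiosCommute br β := by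
  haveI := finite hC
  have hs := hC.symm
  obtain ⟨a0, ha0⟩ : ∃ a0, a0 = C.c i ((C.X i).classOf α) := ⟨_, rfl⟩
  have h0 : a0 ≠ 0 := by
    rw [ha0]
    intro h
    exact hα.ne_zero (c_injective hC i (h.trans (map_zero _).symm))
  have h00 : C.q a0 a0 = 0 := by
    rw [ha0, q_c hC]
    exact hα.isotropic
  have hL0 : a0 ∈ C.L := by
    rw [ha0]
    exact hC.cartier i α hα.cartier
  obtain ⟨a, b, hαa, hαb, hab, haa, hbb, hno⟩ :=
    plane (sig hC) hC.fg hC.span hC.integral hC.wall_mem hC.wall_sq hC.wall_bound h0 h00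
  obtain ⟨A, haA, hbA, hAA, hAα, hadj⟩ :=
    adjacent (sig hC) hC.integral hC.wall_mem hC.wall_bound h0 hL0 h00 hαa hαb hab haa hbb
  have haα : C.q a a0 = 0 := (hs _ _).trans hαa
  have hbα : C.q b a0 = 0 := (hs _ _).trans hαb
  -- the new Neron-Severi space
  obtain ⟨N, hN⟩ : ∃ N : Submodule ℚ C.H, ∀ x, x ∈ N ↔ C.q a x = 0 ∧ C.q b x = 0 :=
    ⟨LinearMap.ker (C.q a) ⊓ LinearMap.ker (C.q b), fun x => by
      rw [Submodule.mem_inf, LinearMap.mem_ker, LinearMap.mem_ker]⟩
  have hwall : ∀ s ∈ C.S, s ∈ N → C.q A s ≠ 0 := by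
    intro s hsS hsN
    obtain ⟨h1, h2⟩ := (hN s).1 hsN
    have h3 := hno s hsS h1 h2
    rcases lt_or_gt_of_ne h3 with h4 | h4
    · have h5 := hadj (-s) (hC.wall_neg s hsS) (by rw [map_neg, h1, neg_zero])
        (by rw [map_neg, h2, neg_zero]) (by rw [map_neg]; linarith)
      rw [map_neg] at h5
      linarith
    · exact (hadj s hsS h1 h2 h4).ne'
  obtain ⟨j, hrange, A', hA', hcA⟩ := hC.period N A ((hN A).2 ⟨haA, hbA⟩) hAA
    (fun x hx h1 h2 => neg_of_orth (sig hC) haa hbb hAA hab haA hbA ((hN x).1 hx).1 ((hN x).1 hx).2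
      h1 h2) hwall
  have hcN : ∀ x, C.q a (C.c j x) = 0 ∧ C.q b (C.c j x) = 0 := fun x => by
    rw [← hN, ← hrange]
    exact LinearMap.mem_range_self _ _
  have hXj := hC.variety j
  -- the line bundle
  obtain ⟨x0, hx0⟩ : ∃ x0, C.c j x0 = a0 := by
    have h1 : a0 ∈ N := (hN a0).2 ⟨haα, hbα⟩
    rw [← hrange] at h1
    exact h1
  obtain ⟨m, hm, D, hD⟩ := hC.spanned j x0
  obtain ⟨m', hm', hm'D⟩ := hXj.qFactorial D
  obtain ⟨β, hβ⟩ : ∃ β, β = m' • D := ⟨_, rfl⟩
  obtain ⟨M, hM⟩ : ∃ M, M = m' * m := ⟨_, rfl⟩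
  have hM1 : 1 ≤ M := by
    rw [hM]
    exact Nat.mul_pos hm' hm
  have hMQ : (0 : ℚ) < M := by exact_mod_cast hM1
  have hclβ : (C.X j).classOf β = (M : ℚ) • x0 := by
    rw [hβ, Variety.classOf_nsmul, hD, smul_smul, hM]
    push_cast
    rfl
  have hcβ : C.c j ((C.X j).classOf β) = (M : ℚ) • a0 := by
    rw [hclβ, map_smul, hx0]
  -- facts on ample classes
  have hbase : ∀ x ∈ (C.X j).Ample, 0 < C.q (C.c j x) (C.c j x) ∧ 0 < C.q A (C.c j x) ∧
      ∀ s ∈ C.S, s ∈ N → 0 < C.q A s → 0 < C.q (C.c j x) s := by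
    intro x hx
    obtain ⟨h1, h2, h3⟩ := (hC.ample j A' hA' x).1 hx
    refine ⟨?_, ?_, ?_⟩
    · rwa [q_c hC]
    · rw [← hcA, q_c hC]
      exact h2
    · intro s hsS hsN h4
      refine h3 s hsS ?_ ?_
      · rw [hrange]
        exact hsN
      · rwa [hcA]
  have hαx : ∀ x ∈ (C.X j).Ample, 0 < C.q a0 (C.c j x) := by
    intro x hx
    obtain ⟨h1, h2, -⟩ := hbase x hx
    rw [hs]
    exact light (sig hC) hab haa hbb haA hbA hAA (hcN x).1 (hcN x).2 haα hbα h1 h00.ge h2 hAα
  have hwα : ∀ s ∈ C.S, s ∈ N → ∀ x ∈ (C.X j).Ample, 0 < C.q (C.c j x) s → 0 < C.q a0 s := by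
    intro s hsS hsN x hx h1
    obtain ⟨h2, h3⟩ := (hN s).1 hsN
    rcases lt_or_gt_of_ne (hno s hsS h2 h3) with h4 | h4
    · exfalso
      have h5 := hadj (-s) (hC.wall_neg s hsS) (by rw [map_neg, h2, neg_zero])
        (by rw [map_neg, h3, neg_zero]) (by rw [map_neg]; linarith)
      have h6 := (hbase x hx).2.2 (-s) (hC.wall_neg s hsS) (N.neg_mem hsN) h5
      rw [map_neg] at h6
      linarith
    · exact h4
  have hnef : (C.X j).IsNefIsotropic β := by
    refine ⟨by rw [hβ]; exact hm'D, ?_, ?_, ?_⟩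
    · intro h
      have h1 : (M : ℚ) • a0 = 0 := by rw [← hcβ, h, map_zero]
      exact h0 ((smul_eq_zero.1 h1).resolve_left hMQ.ne')
    · rw [← q_c hC, hcβ]
      simp [h00]
    · intro x hx t ht
      rw [hC.ample j x hx]
      have h1 : C.c j (x + t • (C.X j).classOf β) = C.c j x + (t * M) • a0 := by
        rw [map_add, map_smul, hcβ, smul_smul]
      have h2 := hαx x hx
      have h3 := (hbase x hx).1
      have h4 : 0 ≤ t * (M : ℚ) := mul_nonneg ht hMQ.le
      have h5 : C.q (C.c j x) a0 = C.q a0 (C.c j x) := hs _ _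
      refine ⟨?_, ?_, ?_⟩
      · rw [← q_c hC, h1]
        simp only [map_add, map_smul, LinearMap.add_apply, LinearMap.smul_apply, smul_eq_mul, h00, h5]
        nlinarith [mul_nonneg h4 h2.le]
      · rw [← q_c hC, h1]
        simp only [map_add, map_smul, smul_eq_mul, h5]
        nlinarith [mul_nonneg h4 h2.le]
      · intro s hsS hsr h6
        rw [hrange] at hsr
        rw [h1]
        simp only [map_add, map_smul, LinearMap.add_apply, LinearMap.smul_apply, smul_eq_mul]
        nlinarith [mul_nonneg h4 (hwα s hsS hsr x hx h6).le]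
  -- the group
  obtain ⟨N₁, hN₁, hmon⟩ := exists_mon C hC (α := (M : ℚ) • a0)
    (by rw [Nat.cast_smul_eq_nsmul]; exact C.L.nsmul_mem hL0 _) (by simp [h00])
  obtain ⟨w, hw, hwind⟩ := exists_lift (q := C.q) hC.span h0 h00 haα hbα hr
  have hN₁Q : (0 : ℚ) < 2 * N₁ := by
    have : (0 : ℚ) < N₁ := by exact_mod_cast hN₁
    linarith
  have hu : ∀ k, ∃ u, C.c j u = (2 * N₁ : ℚ) • w k := fun k => by
    have h1 : (2 * N₁ : ℚ) • w k ∈ N := N.smul_mem _ ((hN _).2 ⟨(hw k).2.1, (hw k).2.2.1⟩)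
    rw [← hrange] at h1
    exact h1
  choose u hu using hu
  obtain ⟨W, hW⟩ : ∃ W : (Fin r → ℤ) → (C.X j).NS, ∀ v, W v = ∑ k, (v k : ℚ) • u k :=
    ⟨_, fun v => rfl⟩
  have hcW : ∀ v, C.c j (W v) = (2 * N₁ : ℚ) • ∑ k, (v k : ℚ) • w k := by
    intro v
    rw [hW, map_sum, Finset.smul_sum]
    refine Finset.sum_congr rfl fun k _ => ?_
    rw [map_smul, hu, smul_comm]
  have hwL : ∀ v : Fin r → ℤ, ∑ k, (v k : ℚ) • w k ∈ C.L := by
    intro v
    refine AddSubgroup.sum_mem _ fun k _ => ?_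
    rw [Int.cast_smul_eq_zsmul]
    exact C.L.zsmul_mem (hw k).1 _
  have hwα0 : ∀ v : Fin r → ℤ, C.q a0 (∑ k, (v k : ℚ) • w k) = 0 := by
    intro v
    rw [map_sum]
    refine Finset.sum_eq_zero fun k _ => ?_
    rw [map_smul, (hw k).2.2.2, smul_zero]
  have hWα : ∀ v, C.q a0 (C.c j (W v)) = 0 := fun v => by
    rw [hcW, map_smul, hwα0, smul_zero]
  have hWneg : ∀ v, C.c j (W (-v)) = - C.c j (W v) := by
    intro v
    rw [hcW, hcW, ← smul_neg, ← Finset.sum_neg_distrib]
    congr 1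
    refine Finset.sum_congr rfl fun k _ => ?_
    rw [Pi.neg_apply, Int.cast_neg, neg_smul]
  have hγ : ∀ v, ∃ γ ∈ C.Mon, ∀ x,
      γ x = C.transvection (C.c j ((C.X j).classOf β)) (C.c j (W v)) x := by
    intro v
    obtain ⟨γ, hγ, h1⟩ := hmon _ (hwL v) (by rw [map_smul, LinearMap.smul_apply, hwα0, smul_zero])
    refine ⟨γ, hγ, fun x => ?_⟩
    rw [h1, hcW, hcβ]
  have hMα : C.q ((M : ℚ) • a0) ((M : ℚ) • a0) = 0 := by simp [h00]
  have hMW : ∀ v, C.q ((M : ℚ) • a0) (C.c j (W v)) = 0 := fun v => by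
    rw [map_smul, LinearMap.smul_apply, hWα, smul_zero]
  have hMWn : ∀ v, C.q ((M : ℚ) • a0) (-C.c j (W v)) = 0 := fun v => by
    rw [map_neg, hMW, neg_zero]
  have hample : ∀ v, ∀ x ∈ (C.X j).Ample,
      (C.X j).transvection ((C.X j).classOf β) (W v) x ∈ (C.X j).Ample := by
    intro v x hx
    rw [hC.ample j x hx]
    have hT : C.c j ((C.X j).transvection ((C.X j).classOf β) (W v) x) =
        trans C.q ((M : ℚ) • a0) (C.c j (W v)) (C.c j x) := by
      rw [c_transvection hC, hcβ]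
    obtain ⟨y, hy⟩ : ∃ y, y = (C.X j).transvection ((C.X j).classOf β) (W v) x := ⟨_, rfl⟩
    rw [← hy] at hT ⊢
    have hyy : C.q (C.c j y) (C.c j y) = C.q (C.c j x) (C.c j x) := by
      rw [hT]
      exact trans_isometry hs hMα (hMW v) _ _
    have hxx := (hbase x hx).1
    have hyα : 0 < C.q a0 (C.c j y) := by
      rw [hT, trans_orth (by simp [h00]) (hWα v)]
      exact hαx x hx
    have hyA : 0 < C.q A (C.c j y) := by
      have hyp : 0 < C.q (C.c j y) (C.c j y) := hyy ▸ hxx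
      rcases lt_trichotomy (C.q (C.c j y) A) 0 with h1 | h1 | h1
      · exfalso
        have h2 : 0 < C.q (-A) a0 :=
          light (sig hC) hab haa hbb (hcN y).1 (hcN y).2 hyp (by rw [map_neg, haA, neg_zero])
            (by rw [map_neg, hbA, neg_zero]) haα hbα (by simpa using hAA) h00.ge
            (by rw [map_neg]; linarith) (by rw [hs]; exact hyα)
        rw [map_neg, LinearMap.neg_apply] at h2
        linarith
      · exfalso
        have hA0 : A ≠ 0 := by
          rintro rfl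
          simp at hAA
        have := neg_of_orth (sig hC) haa hbb hyp hab (hcN y).1 (hcN y).2 haA hbA h1 hA0
        linarith
      · rw [hs]
        exact h1
    refine ⟨?_, ?_, ?_⟩
    · rw [← q_c hC, hyy]
      exact hxx
    · rw [← q_c hC]
      exact light (sig hC) hab haa hbb haA hbA hAA (hcN x).1 (hcN x).2 (hcN y).1 (hcN y).2 hxx
        (hyy ▸ hxx.le) (hbase x hx).2.1 hyA
    · intro s hsS hsr h1
      rw [hrange] at hsr
      obtain ⟨γ, hγM, hγx⟩ := hγ (-v)
      have h2 : γ s = trans C.q ((M : ℚ) • a0) (-C.c j (W v)) s := by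
        rw [hγx, hcβ, hWneg]
        rfl
      have h3 : γ s ∈ C.S := hC.wall_mon γ hγM s hsS
      have h4 : γ s ∈ N := by
        obtain ⟨h5, h6⟩ := (hN s).1 hsr
        rw [h2, hN, trans_orth (by simp [haα]) (by rw [map_neg, (hcN _).1, neg_zero]),
          trans_orth (by simp [hbα]) (by rw [map_neg, (hcN _).2, neg_zero])]
        exact ⟨h5, h6⟩
      have h5 : C.q a0 (γ s) = C.q a0 s := by
        rw [h2, trans_orth (by simp [h00]) (by rw [map_neg, hWα, neg_zero])]
      have h6 : 0 < C.q a0 (γ s) := h5 ▸ hwα s hsS hsr x hx h1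
      have h7 : 0 < C.q A (γ s) := by
        obtain ⟨h8, h9⟩ := (hN _).1 h4
        exact hadj _ h3 h8 h9 h6
      have h8 := (hbase x hx).2.2 _ h3 h4 h7
      rw [hT, hs, trans_adjoint hs hMα (hMW v), ← h2, hs]
      exact h8
  obtain ⟨N₂, G, -, -, hG⟩ := hF.action j β hnef r W
    (fun v v' => by
      rw [hW, hW, hW, ← Finset.sum_add_distrib]
      refine Finset.sum_congr rfl fun k _ => ?_
      rw [Pi.add_apply, Int.cast_add, add_smul])
    (fun v => by rw [← q_c hC, hcβ, hMW])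
    (fun v hv t h => hv (by
      have h1 : C.c j (W v) = t • (M : ℚ) • a0 := by rw [h, map_smul, hcβ]
      rw [hcW] at h1
      refine hwind v ((2 * N₁ : ℚ)⁻¹ * (t * M)) ?_
      rw [← smul_smul, ← smul_smul, ← h1, smul_smul, inv_mul_cancel₀ hN₁Q.ne', one_smul]))
    hγ hample
  exact ⟨j, β, M, G, hM1, hnef, by rw [hcβ, ha0], hG⟩

/-- **The SYZ conjecture for classes of dimension `2n` with second Betti number at least
`2n + 5`**: `κ = n` for all nef isotropic line bundles of all members. -/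
theorem syz_sharp (hn : 1 ≤ n) (C : SymplecticClass n) (hC : C.Axioms) (hF : C.HasBracketActions)
    (hb : 2 * n + 5 ≤ finrank ℚ C.H) (i : C.I) (α : (C.X i).Div)
    (hα : (C.X i).IsNefIsotropic α) : (C.X i).KodairaGE α n := by
  obtain ⟨j, β, M, G, hM, hβ, hc, hG, br, hbr, hpt, hcomm⟩ :=
    exists_member_bracket hC hF i α hα (2 * n + 1) (by omega)
  have h1 : (C.X j).KodairaGE β n :=
    Pool.Agent.SYZ68J.main_sharp hn (hC.variety j) hβ G hG br hbr hpt hcomm le_rfl
  have h2 := hC.matsushita i j (M • α) β (isNefIsotropic_nsmul hM hα) hβ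
    (by rw [Variety.classOf_nsmul, map_smul, hc]) h1
  exact kodairaGE_of_nsmul hM h2

end SymplecticClass

end Pool.Agent.SYZC
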