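import Pool.Agent.SYZ68J.BDefs
import Pool.Agent.SYZ68J.Class

/-!
# SYZ68J/Bridge : `IsDeformationClass` implies the axioms of `SYZC/Defs`
-/

set_option autoImplicit false

open Module

namespace Pool.Agent.SYZC

open Pool.Agent.SYZ71

namespace SymplecticClass

variable {n : ℕ} {C : SymplecticClass n}

theorem isIsometry_iff (g : C.H ≃ₗ[ℚ] C.H) : C.IsIsometry g ↔ g ∈ C.isoms := Iff.rfl

theorem IsDeformationClass.toAxioms (h : C.IsDeformationClass) : C.Axioms where
  fg := h.lattice.fg
  span := h.lattice.span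
  symm := h.lattice.symm
  integral := h.lattice.integral
  signature := h.lattice.signature
  mon_le := fun g hg => h.monodromy.isometry g hg
  mon_index := by
    obtain ⟨T, hT⟩ := h.monodromy.finite_index
    have hle : C.Mon ≤ C.isoms := fun g hg => h.monodromy.isometry g hg
    haveI : Finite (C.isoms ⧸ C.Mon.subgroupOf C.isoms) := by
      refine Finite.of_surjective
        (fun t : {t : T // t.1 ∈ C.isoms} =>
          (QuotientGroup.mk (⟨t.1.1, t.2⟩ : C.isoms)⁻¹ : C.isoms ⧸ C.Mon.subgroupOf C.isoms)) ?_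
      intro x
      obtain ⟨g, rfl⟩ := QuotientGroup.mk_surjective x
      obtain ⟨t, ht, htg⟩ := hT g.1 g.2
      have ht' : t ∈ C.isoms := by
        have h1 := C.isoms.mul_mem (hle htg) (C.isoms.inv_mem g.2)
        rwa [mul_assoc, mul_inv_cancel, mul_one] at h1
      refine ⟨⟨⟨t, ht⟩, ht'⟩, ?_⟩
      rw [QuotientGroup.eq, inv_inv, Subgroup.mem_subgroupOf]
      exact htg
    exact Subgroup.index_ne_zero_of_finite
  wall_mem := fun s hs => (h.walls.mem s hs).1
  wall_neg := fun s hs => (h.walls.mem s hs).2.1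
  wall_mon := h.walls.monodromy
  wall_sq := fun s hs => (h.walls.mem s hs).2.2
  wall_bound := h.walls.bounded
  variety := fun i => (h.members i).variety
  isometry := fun i => (h.members i).restriction
  cartier := fun i => (h.members i).cartier
  spanned := fun i => (h.members i).spanned
  ample := by
    intro i a ha x
    rw [h.ample i a ha x, (h.members i).restriction, (h.members i).restriction]
    refine and_congr Iff.rfl (and_congr Iff.rfl ⟨?_, ?_⟩)
    · rintro h1 s hs ⟨y, rfl⟩ h2
      exact h1 y hs h2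
    · intro h1 y hy h2
      exact h1 _ hy ⟨y, rfl⟩ h2
  period := h.period
  matsushita := h.matsushita

theorem HasParabolicActions.toHasBracketActions (hF : C.HasParabolicActions)
    (h : C.IsDeformationClass) : C.HasBracketActions := by
  refine ⟨fun i α hα r w hadd horth hind hmon hamp => ?_⟩
  obtain ⟨br, hbr, hact⟩ := hF.action i
  obtain ⟨hcomm, hG⟩ := hact α hα
  obtain ⟨N, G, hN, hw, htriv, hpt⟩ := hG r w
    ⟨hadd, fun v => by rw [← horth v, (h.members i).restriction]; rfl, hind, hmon, hamp⟩
  exact ⟨N, G, hN, hw, htriv, br, hbr, hpt, hcomm⟩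

/-- **The SYZ conjecture for deformation classes with `b₂ ≥ 2n + 5`.** -/
theorem syz_large (hn : 1 ≤ n) (hC : C.IsDeformationClass) (hF : C.HasParabolicActions)
    (hb : 2 * n + 5 ≤ finrank ℚ C.H) (i : C.I) (α : (C.X i).Div)
    (hα : (C.X i).IsNefIsotropic α) : (C.X i).KodairaGE α n :=
  syz_sharp hn C hC.toAxioms (hF.toHasBracketActions hC) hb i α hα

end SymplecticClass

end Pool.Agent.SYZC
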