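import Mathlib

/-!
# SYZ68J/CRees : the maximal ideal is not associated to a short regular sequence

`R` a Noetherian local ring, `rs` and `xs` weakly regular sequences in the maximal ideal `𝔪`,
`xs` shorter than `rs`.  If `𝔪 a ⊆ (xs)` then `a ∈ (xs)`.

Proof.  Let `κ = R ⧸ 𝔪`.  By the Rees theorem (`ModuleCat.exists_isRegular_tfae` or
`ModuleCat.subsingleton_ext_of_exists_isRegular` in `Mathlib/RingTheory/Depth/Rees.lean`) with
`I = 𝔪`, `M = R`, `n = rs.length`: `Ext κ R i = 0` for `i < n`.
Induction along `xs = x :: xs'` (over all finite modules `M`): if `Ext κ M i = 0` for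
`i < n + 1` and `x ∈ 𝔪` is `M`-regular, then `Ext κ (M ⧸ x M) i = 0` for `i < n`, by the exact
sequence `Ext κ M i → Ext κ (M ⧸ x M) i → Ext κ M (i + 1)` (see the proof of
`ModuleCat.exists_isRegular_of_exists_subsingleton_ext`: `Ext.covariant_sequence_exact₃'` and
`IsSMulRegular.smulShortComplex_shortExact`).  So `Ext κ (R ⧸ (xs)) 0 = Hom(κ, R ⧸ (xs)) = 0`
(`R ⧸ (xs)` is the iterated `QuotSMulTop`; `Submodule.quotOfListConsSMulTopEquivQuotSMulTopInner`).
If `𝔪 a ⊆ (xs)` then `r ↦ r a` defines a map `κ → R ⧸ (xs)`, which is zero, so `a ∈ (xs)`.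
(`𝔪 M ≠ M` for finite `M ≠ 0` by Nakayama, needed for the Rees theorem with `M = R` only.)
Alternative: exchange argument by hand.
-/

set_option autoImplicit false

universe u

namespace Pool.Agent.SYZ68J

open RingTheory.Sequence IsLocalRing
open CategoryTheory Abelian Limits Pointwise

/-- one step of the induction: the vanishing of `Ext` passes to `M ⧸ x M` with one degree less. -/
theorem crees_step {R : Type u} [CommRing R] (N M : ModuleCat.{u} R) (x : R)
    (hx : IsSMulRegular M x) (n : ℕ) (h : ∀ i < n + 1, Subsingleton (Ext N M i)) :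
    ∀ i < n, Subsingleton (Ext N (ModuleCat.of R (QuotSMulTop x M)) i) := by
  intro i hi
  have zero1 := AddCommGrpCat.isZero_of_iff_subsingleton.mpr (h i (by omega))
  have zero2 := AddCommGrpCat.isZero_of_iff_subsingleton.mpr (h (i + 1) (by omega))
  exact AddCommGrpCat.subsingleton_of_isZero <| ShortComplex.Exact.isZero_of_both_zeros
    ((Ext.covariant_sequence_exact₃' N hx.smulShortComplex_shortExact) i (i + 1) rfl)
    (zero1.eq_zero_of_src _) (zero2.eq_zero_of_tgt _)

/-- if `Hom(R ⧸ I, M) = 0` then `I m = 0` forces `m = 0`. -/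
theorem crees_base {R : Type u} [CommRing R] (I : Ideal R) (M : ModuleCat.{u} R)
    (h : Subsingleton (Ext (ModuleCat.of R (R ⧸ I)) M 0)) (m : M)
    (hm : ∀ y ∈ I, y • m = 0) : m = 0 := by
  have h1 : Subsingleton ((ModuleCat.of R (R ⧸ I)) →ₗ[R] M) :=
    (Ext.addEquiv₀.trans ModuleCat.homAddEquiv).symm.subsingleton
  have h2 : Subsingleton ((R ⧸ I) →ₗ[R] M) := h1
  let f : (R ⧸ I) →ₗ[R] M := Submodule.liftQ I (LinearMap.toSpanSingleton R M m) (by
    intro y hy
    rw [LinearMap.mem_ker, LinearMap.toSpanSingleton_apply]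
    exact hm y hy)
  have hf : f = 0 := Subsingleton.elim _ _
  have h3 : f (Submodule.Quotient.mk 1) = 0 := by rw [hf]; rfl
  have h4 : f (Submodule.Quotient.mk 1) = m := by
    change (Submodule.liftQ I (LinearMap.toSpanSingleton R M m) _) (Submodule.Quotient.mk 1) = m
    rw [Submodule.liftQ_apply, LinearMap.toSpanSingleton_apply, one_smul]
  rw [← h4, h3]

/-- the induction along `xs`. -/
theorem crees_ind {R : Type u} [CommRing R] (I : Ideal R) (xs : List R) :
    ∀ (M : ModuleCat.{u} R), IsWeaklyRegular M xs →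
      (∀ i < xs.length + 1, Subsingleton (Ext (ModuleCat.of R (R ⧸ I)) M i)) →
      ∀ m : M, (∀ y ∈ I, y • m ∈ (Ideal.ofList xs • ⊤ : Submodule R M)) →
        m ∈ (Ideal.ofList xs • ⊤ : Submodule R M) := by
  induction xs with
  | nil =>
    intro M _ hE m hm
    have h0 : (Ideal.ofList ([] : List R) • ⊤ : Submodule R M) = ⊥ := by
      rw [Ideal.ofList_nil, Submodule.bot_smul]
    rw [h0] at hm ⊢
    rw [Submodule.mem_bot]
    exact crees_base I M (hE 0 (by simp)) m (fun y hy => (Submodule.mem_bot R).1 (hm y hy))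
  | cons x xs ih =>
    intro M hreg hE m hm
    rw [isWeaklyRegular_cons_iff] at hreg
    have hstep := crees_step (ModuleCat.of R (R ⧸ I)) M x hreg.1 (xs.length + 1)
      (fun i hi => hE i (by simpa using hi))
    -- membership in `(x :: xs) M` is membership of the class in `xs (M / x M)`
    have key : ∀ w : M, w ∈ (Ideal.ofList (x :: xs) • ⊤ : Submodule R M) ↔
        (Submodule.Quotient.mk w : QuotSMulTop x M) ∈
          (Ideal.ofList xs • ⊤ : Submodule R (QuotSMulTop x M)) := by
      intro w
      have h1 : (Ideal.ofList xs • ⊤ : Submodule R (QuotSMulTop x M)) =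
          Submodule.map (Submodule.mkQ (x • ⊤ : Submodule R M)) (Ideal.ofList xs • ⊤) := by
        rw [Submodule.map_smul'', Submodule.map_top, Submodule.range_mkQ]
      rw [h1, Ideal.ofList_cons_smul]
      constructor
      · intro hw
        obtain ⟨u, hu, v, hv, rfl⟩ := Submodule.mem_sup.1 hw
        refine ⟨v, hv, ?_⟩
        rw [Submodule.mkQ_apply, Submodule.Quotient.mk_add,
          (Submodule.Quotient.mk_eq_zero _).2 hu, zero_add]
      · rintro ⟨v, hv, hvw⟩
        rw [Submodule.mkQ_apply, Submodule.Quotient.eq] at hvw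
        refine Submodule.mem_sup.2 ⟨w - v, ?_, v, hv, by abel⟩
        rw [← neg_sub]
        exact Submodule.neg_mem _ hvw
    rw [key]
    refine ih (ModuleCat.of R (QuotSMulTop x M)) hreg.2 hstep (Submodule.Quotient.mk m) ?_
    intro y hy
    have := (key (y • m)).1 (hm y hy)
    exact this

theorem mem_of_maximalIdeal_mul {R : Type u} [CommRing R] [IsLocalRing R] [IsNoetherianRing R]
    (rs xs : List R) (hrs : ∀ x ∈ rs, x ∈ maximalIdeal R) (hrs' : IsWeaklyRegular R rs)
    (hxs : ∀ x ∈ xs, x ∈ maximalIdeal R) (hxs' : IsWeaklyRegular R xs)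
    (hlt : xs.length < rs.length) (a : R)
    (ha : ∀ y ∈ maximalIdeal R, y * a ∈ Ideal.ofList xs) : a ∈ Ideal.ofList xs := by
  have hlt' : maximalIdeal R • (⊤ : Submodule R (ModuleCat.of R R)) < ⊤ := by
    rw [lt_top_iff_ne_top]
    intro h
    have h1 : (maximalIdeal R) = ⊤ := by
      have h2 : maximalIdeal R • (⊤ : Submodule R R) = ⊤ := h
      simpa using h2
    exact (Ideal.IsPrime.ne_top inferInstance) h1
  have hreg : IsRegular (ModuleCat.of R R) rs :=
    (IsLocalRing.isRegular_iff_isWeaklyRegular_of_subset_maximalIdeal (M := R) hrs).2 hrs'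
  have hE : ∀ i < rs.length,
      Subsingleton (Ext (ModuleCat.of R (R ⧸ maximalIdeal R)) (ModuleCat.of R R) i) := by
    have : Module.Finite R (ModuleCat.of R (R ⧸ maximalIdeal R)) :=
      inferInstanceAs (Module.Finite R (R ⧸ maximalIdeal R))
    have : Module.Finite R (ModuleCat.of R R) := inferInstanceAs (Module.Finite R R)
    refine ModuleCat.subsingleton_ext_of_exists_isRegular (maximalIdeal R) _ ?_ _ hlt' rs hrs hreg
    have : Module.support R (R ⧸ maximalIdeal R) =
        PrimeSpectrum.zeroLocus (maximalIdeal R : Set R) := by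
      rw [Module.support_eq_zeroLocus, Ideal.annihilator_quotient]
    exact this.subset
  have h := crees_ind (maximalIdeal R) xs (ModuleCat.of R R) hxs'
    (fun i hi => hE i (by omega)) a (by
      intro y hy
      have h2 : y • a ∈ (Ideal.ofList xs • ⊤ : Submodule R R) := by
        simpa using ha y hy
      exact h2)
  have h3 : a ∈ (Ideal.ofList xs • ⊤ : Submodule R R) := h
  simpa using h3

end Pool.Agent.SYZ68J
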