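import Pool.Agent.SYZ68J.CDefs
import Pool.Agent.SYZ68J.CRees
import Pool.Agent.SYZ71Z.ZCut
import Pool.Agent.SYZ71Z.ZNum

/-!
# SYZ68J/CChain : `h` successive cuts, with multiplicities

`A` a Noetherian domain over an infinite field `F`, `S ⊆ V`, `p i` (`i : ι` finite nonempty) minimal
primes of `J = Ideal.span S` of height `h` with `DepthGE (p i) h`; `q i ⊇ J` ideals such that
`s * a ∈ q i`, `s ∉ p i` imply `a ∈ q i`.  Then
`sumIter h (hilb V (⨅ i, q i)) K ≤ hilb V ⊥ K`.

Proof (compare `Pool.Agent.SYZ71Z.ZChain`, the version without multiplicities).  `R_i = A_(p i)`.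
For a list `xs` of elements of `A` let `Q xs = ⨅ i, ((Ideal.ofList xs).map (algebraMap A R_i)).comap`
`= {a | ∀ i, ∃ s ∉ p i, s * a ∈ (xs)}`.
Claim: for `n ≤ h` there is a list `xs` of length `n` of elements of `W = Submodule.span F S ≤ V`
whose image in each `R_i` is weakly regular, with `sumIter n (hilb V (Q xs)) K ≤ hilb V ⊥ K` for all
`K`.
* `n = 0`: `Q [] = ⊥` (`A` is a domain; or just `⊥ ≤ Q []` and `hilb_anti`).
* `n → n + 1 ≤ h`: for each `i` the module `M_i = R_i ⧸ (xs)` has finitely many associated primes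
  (`associatedPrimes.finite`); the union of the associated primes is the set of zero divisors on
  `M_i` (`biUnion_associatedPrimes_eq_compl_regular`).  The maximal ideal is not associated to `M_i`
  (`mem_of_maximalIdeal_mul`, as `n < h`).  So the contraction `q` to `A` of an associated prime of
  `M_i` is a prime properly contained in `p i`, hence does not contain `J`
  (minimality), i.e. `W ⊄ q`.  `F` infinite: there is `x ∈ W` outside all these finitely many `q`
  (`Subspace.biUnion_ne_univ_of_top_notMem`, as in `ZChain`).  `x` is a nonzerodivisor on each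
  `M_i`; `xs' = xs ++ [x]` is weakly regular in `R_i` (`isWeaklyRegular_append_iff`).
  `Q xs ≤ Q xs'`, `x ∈ Q xs'`, and `x * a ∈ Q xs` implies `a ∈ Q xs`.
  `hilb_cut` and `sumIter_mono` (`ZNum`).
* `n = h`: `(xs) ⊆ J ⊆ q i`, so `Q xs ≤ ⨅ q i`: for `a ∈ Q xs` and `i`: `s a ∈ (xs) ⊆ q i` with
  `s ∉ p i`, so `a ∈ q i`.  `hilb_anti`, `sumIter_mono`.
-/

set_option autoImplicit false

open Module

namespace Pool.Agent.SYZ68J

open Pool.Agent.SYZ71Z

universe u

open RingTheory.Sequence IsLocalRing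

section

variable {A : Type u} [CommRing A]

/-- the contraction of the ideal `(xs)` of `A_p` -/
private def QQ (p : Ideal A) [p.IsPrime] (xs : List A) : Ideal A :=
  ((Ideal.ofList xs).map (algebraMap A (Localization.AtPrime p))).comap
    (algebraMap A (Localization.AtPrime p))

private theorem mem_QQ (p : Ideal A) [p.IsPrime] (xs : List A) (a : A) :
    a ∈ QQ p xs ↔ ∃ s ∉ p, s * a ∈ Ideal.ofList xs := by
  unfold QQ
  rw [Ideal.mem_comap,
    IsLocalization.algebraMap_mem_map_algebraMap_iff p.primeCompl (Localization.AtPrime p)]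
  rfl

private theorem QQ_sat (p : Ideal A) [p.IsPrime] (xs : List A) (s a : A) (hs : s ∉ p)
    (h : s * a ∈ QQ p xs) : a ∈ QQ p xs := by
  rw [mem_QQ] at h ⊢
  obtain ⟨t, ht, h⟩ := h
  refine ⟨t * s, fun hts => ?_, by rwa [mul_assoc]⟩
  rcases (inferInstance : p.IsPrime).mem_or_mem hts with h1 | h1
  · exact ht h1
  · exact hs h1

private theorem QQ_mono (p : Ideal A) [p.IsPrime] (xs ys : List A)
    (h : Ideal.ofList xs ≤ Ideal.ofList ys) : QQ p xs ≤ QQ p ys :=
  Ideal.comap_mono (Ideal.map_mono h)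

/-- the associated primes of `A ⧸ QQ p xs` are properly contained in `p` -/
private theorem QQ_ass [IsNoetherianRing A] (p : Ideal A) [p.IsPrime] (h : ℕ)
    (hd : DepthGE p h) (xs : List A) (hlt : xs.length < h) (hxp : ∀ x ∈ xs, x ∈ p)
    (hreg : IsWeaklyRegular (Localization.AtPrime p)
      (xs.map (algebraMap A (Localization.AtPrime p))))
    (q : Ideal A) (hq : q ∈ associatedPrimes A (A ⧸ QQ p xs)) : q < p := by
  rw [AssociatedPrimes.mem_iff, isAssociatedPrime_iff] at hq
  obtain ⟨hqp, z, hz⟩ := hq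
  obtain ⟨a, rfl⟩ := Ideal.Quotient.mk_surjective z
  have hmem : ∀ r, r ∈ q ↔ r * a ∈ QQ p xs := by
    intro r
    rw [hz, Submodule.mem_colon_singleton, Submodule.mem_bot, ← Ideal.Quotient.eq_zero_iff_mem]
    rfl
  have ha : a ∉ QQ p xs := by
    intro ha
    apply hqp.ne_top
    rw [Ideal.eq_top_iff_one, hmem, one_mul]
    exact ha
  have hle : q ≤ p := by
    intro s hs
    by_contra hsp
    exact ha (QQ_sat p xs s a hsp ((hmem s).mp hs))
  refine lt_of_le_of_ne hle fun heq => ha ?_
  subst heq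
  obtain ⟨rs, hrl, hrm, hrr⟩ := hd
  change algebraMap A (Localization.AtPrime q) a ∈ (Ideal.ofList xs).map _
  rw [Ideal.map_ofList]
  refine mem_of_maximalIdeal_mul rs _ hrm hrr ?_ hreg ?_ _ ?_
  · intro y hy
    obtain ⟨x, hx, rfl⟩ := List.mem_map.mp hy
    exact (IsLocalization.AtPrime.to_map_mem_maximal_iff (Localization.AtPrime q) q x).mpr
      (hxp x hx)
  · rw [List.length_map, hrl]; exact hlt
  · intro y hy
    obtain ⟨b, s, rfl⟩ := IsLocalization.exists_mk'_eq q.primeCompl y
    have hb : b ∈ q :=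
      (IsLocalization.AtPrime.mk'_mem_maximal_iff (Localization.AtPrime q) q b s).mp hy
    have h1 : b * a ∈ QQ q xs := (hmem b).mp hb
    change algebraMap A (Localization.AtPrime q) (b * a) ∈ (Ideal.ofList xs).map _ at h1
    rw [Ideal.map_ofList, map_mul] at h1
    rw [← IsLocalization.mk'_one (M := q.primeCompl) (Localization.AtPrime q) a,
      ← IsLocalization.mk'_mul]
    have h2 : IsLocalization.mk' (Localization.AtPrime q) (b * a) (s * 1) =
        IsLocalization.mk' (Localization.AtPrime q) 1 (s * 1) *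
          (algebraMap A (Localization.AtPrime q) b * algebraMap A (Localization.AtPrime q) a) := by
      rw [← map_mul, mul_comm (IsLocalization.mk' (Localization.AtPrime q) 1 (s * 1)),
        IsLocalization.mul_mk'_eq_mk'_of_mul, mul_one, mul_one]
    rw [h2]
    exact Ideal.mul_mem_left _ _ h1

/-- appending an element regular modulo `QQ p xs` -/
private theorem QQ_append (p : Ideal A) [p.IsPrime] (xs : List A)
    (hreg : IsWeaklyRegular (Localization.AtPrime p)
      (xs.map (algebraMap A (Localization.AtPrime p)))) (x : A)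
    (hx : ∀ a, x * a ∈ QQ p xs → a ∈ QQ p xs) :
    IsWeaklyRegular (Localization.AtPrime p)
      ((xs ++ [x]).map (algebraMap A (Localization.AtPrime p))) := by
  rw [List.map_append, isWeaklyRegular_append_iff]
  refine ⟨hreg, ?_⟩
  rw [List.map_singleton, isWeaklyRegular_singleton_iff]
  have hsm : ∀ y : Localization.AtPrime p,
      y ∈ (Ideal.ofList (xs.map (algebraMap A (Localization.AtPrime p))) •
        (⊤ : Submodule (Localization.AtPrime p) (Localization.AtPrime p))) ↔
      y ∈ (Ideal.ofList xs).map (algebraMap A (Localization.AtPrime p)) := by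
    intro y
    rw [Ideal.map_ofList, smul_eq_mul, Ideal.mul_top]
  rw [isSMulRegular_iff_right_eq_zero_of_smul]
  intro z hz
  obtain ⟨y, rfl⟩ := Submodule.Quotient.mk_surjective _ z
  rw [← Submodule.Quotient.mk_smul, Submodule.Quotient.mk_eq_zero, hsm] at hz
  rw [Submodule.Quotient.mk_eq_zero, hsm]
  obtain ⟨b, s, rfl⟩ := IsLocalization.exists_mk'_eq p.primeCompl y
  rw [smul_eq_mul, IsLocalization.mul_mk'_eq_mk'_of_mul,
    IsLocalization.mk'_mem_map_algebraMap_iff p.primeCompl] at hz
  rw [IsLocalization.mk'_mem_map_algebraMap_iff p.primeCompl]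
  exact (mem_QQ p xs b).mp (hx b ((mem_QQ p xs (x * b)).mpr hz))

end

private theorem chain_aux {F A : Type u} [Field F] [Infinite F] [CommRing A]
    [Algebra F A] [IsNoetherianRing A] (V : Submodule F A) [Module.Finite F V]
    (S : Set A) (hS : S ⊆ (V : Set A)) (h : ℕ) {ι : Type} [Fintype ι]
    (p : ι → Ideal A) (hp : ∀ i, p i ∈ (Ideal.span S).minimalPrimes)
    [hpp : ∀ i, (p i).IsPrime] (hdepth : ∀ i, DepthGE (p i) h) (n : ℕ) (hn : n ≤ h) :
    ∃ xs : List A, xs.length = n ∧ (∀ x ∈ xs, x ∈ Submodule.span F S) ∧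
      (∀ i, IsWeaklyRegular (Localization.AtPrime (p i))
        (xs.map (algebraMap A (Localization.AtPrime (p i))))) ∧
      ∀ K, sumIter n (hilb V (⨅ i, QQ (p i) xs)) K ≤ hilb V ⊥ K := by
  classical
  let W : Submodule F A := Submodule.span F S
  have hWV : W ≤ V := Submodule.span_le.mpr hS
  have hWJ : ∀ x ∈ W, x ∈ Ideal.span S := by
    intro x hx
    have : W ≤ (Ideal.span S).restrictScalars F :=
      Submodule.span_le.mpr fun y hy => Ideal.subset_span hy
    exact this hx
  induction n with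
  | zero =>
    refine ⟨[], rfl, by simp, fun i => IsWeaklyRegular.nil _ _, fun K => ?_⟩
    exact hilb_anti V ⊥ _ bot_le K
  | succ n ih =>
    obtain ⟨xs, hlen, hxW, hreg, hs⟩ := ih (by omega)
    have hxp : ∀ i, ∀ x ∈ xs, x ∈ p i := fun i x hx => (hp i).1.2 (hWJ x (hxW x hx))
    -- the finitely many primes to avoid
    let PPs : Set (Ideal A) := ⋃ i, associatedPrimes A (A ⧸ QQ (p i) xs)
    have hfin : PPs.Finite := Set.finite_iUnion fun i => associatedPrimes.finite A _
    have hnot : ∀ q ∈ PPs, ¬ S ⊆ (q : Set A) := by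
      intro q hq hSq
      obtain ⟨i, hi⟩ := Set.mem_iUnion.mp hq
      have hlt := QQ_ass (p i) h (hdepth i) xs (by omega) (hxp i) (hreg i) q hi
      have hJq : Ideal.span S ≤ q := Ideal.span_le.mpr hSq
      have h1 : p i ≤ q := (hp i).2 ⟨hi.1, hJq⟩ hlt.le
      exact absurd h1 (not_le_of_gt hlt)
    obtain ⟨x, hxW', hxq⟩ : ∃ x ∈ W, ∀ q ∈ PPs, x ∉ q := by
      let fs : Finset (Subspace F W) :=
        hfin.toFinset.image fun q : Ideal A => (q.restrictScalars F).comap W.subtype
      have htop : ⊤ ∉ fs := by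
        intro hmem
        obtain ⟨q, hq, hqt⟩ := Finset.mem_image.mp hmem
        rw [Set.Finite.mem_toFinset] at hq
        refine hnot q hq fun y hy => ?_
        have hyW : y ∈ W := Submodule.subset_span hy
        have : (⟨y, hyW⟩ : W) ∈ (q.restrictScalars F).comap W.subtype := by
          rw [hqt]; trivial
        exact this
      have hne := Subspace.biUnion_ne_univ_of_top_notMem htop
      obtain ⟨⟨x, hxW⟩, hx⟩ := (Set.ne_univ_iff_exists_notMem _).mp hne
      refine ⟨x, hxW, fun q hq hxq => hx ?_⟩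
      refine Set.mem_iUnion₂.mpr ⟨(q.restrictScalars F).comap W.subtype, ?_, hxq⟩
      exact Finset.mem_image.mpr ⟨q, (Set.Finite.mem_toFinset _).mpr hq, rfl⟩
    have hxnz : ∀ i a, x * a ∈ QQ (p i) xs → a ∈ QQ (p i) xs := by
      intro i a ha
      by_contra hna
      have hz : x ∈ {r : A | ∃ z : A ⧸ QQ (p i) xs, z ≠ 0 ∧ r • z = 0} := by
        refine ⟨Ideal.Quotient.mk _ a, fun h0 => hna (Ideal.Quotient.eq_zero_iff_mem.mp h0), ?_⟩
        have : Ideal.Quotient.mk (QQ (p i) xs) (x * a) = 0 := Ideal.Quotient.eq_zero_iff_mem.mpr ha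
        rw [map_mul] at this
        exact this
      rw [← biUnion_associatedPrimes_eq_zero_divisors] at hz
      obtain ⟨q, hq, hxq'⟩ := Set.mem_iUnion₂.mp hz
      exact hxq q (Set.mem_iUnion.mpr ⟨i, hq⟩) hxq'
    have hle : Ideal.ofList xs ≤ Ideal.ofList (xs ++ [x]) := by
      rw [Ideal.ofList_append]; exact le_sup_left
    refine ⟨xs ++ [x], by simp [hlen], ?_, fun i => QQ_append (p i) xs (hreg i) x (hxnz i),
      fun K => ?_⟩
    · intro y hy
      rcases List.mem_append.mp hy with hy | hy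
      · exact hxW y hy
      · rw [List.mem_singleton.mp hy]; exact hxW'
    · have hcut := hilb_cut V (⨅ i, QQ (p i) xs) (⨅ i, QQ (p i) (xs ++ [x]))
        (iInf_mono fun i => QQ_mono (p i) _ _ hle) x (hWV hxW') (by
          rw [Ideal.mem_iInf]
          intro i
          rw [mem_QQ]
          refine ⟨1, fun h1 => (hpp i).ne_top (Ideal.eq_top_iff_one _ |>.mpr h1), ?_⟩
          rw [one_mul]
          exact Ideal.subset_span (by simp)) (by
          intro a ha
          rw [Ideal.mem_iInf] at ha ⊢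
          exact fun i => hxnz i a (ha i))
      calc sumIter (n + 1) (hilb V (⨅ i, QQ (p i) (xs ++ [x]))) K
          = sumIter n (fun K => ∑ j ∈ Finset.range (K + 1),
              hilb V (⨅ i, QQ (p i) (xs ++ [x])) j) K := rfl
        _ ≤ sumIter n (hilb V (⨅ i, QQ (p i) xs)) K := sumIter_mono n _ _ hcut K
        _ ≤ hilb V ⊥ K := hs K

theorem chain_mult {F A : Type u} [Field F] [Infinite F] [CommRing A] [IsDomain A] [Algebra F A]
    [IsNoetherianRing A] (V : Submodule F A) [Module.Finite F V]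
    (S : Set A) (hS : S ⊆ (V : Set A)) (h : ℕ) {ι : Type} [Fintype ι] [Nonempty ι]
    (p q : ι → Ideal A) (hp : ∀ i, p i ∈ (Ideal.span S).minimalPrimes)
    (hh : ∀ i, (p i).height = (h : ℕ∞)) [hpp : ∀ i, (p i).IsPrime]
    (hdepth : ∀ i, DepthGE (p i) h)
    (hq : ∀ i, Ideal.span S ≤ q i) (hprim : ∀ i s a, s * a ∈ q i → s ∉ p i → a ∈ q i) (K : ℕ) :
    sumIter h (hilb V (⨅ i, q i)) K ≤ hilb V ⊥ K := by
  obtain ⟨xs, -, hxW, -, hs⟩ := chain_aux V S hS h p hp hdepth h le_rfl
  refine le_trans (sumIter_mono h _ _ (fun K => hilb_anti V (⨅ i, QQ (p i) xs) _ ?_ K) K) (hs K)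
  refine iInf_mono fun i a ha => ?_
  obtain ⟨s, hsp, hsa⟩ := (mem_QQ (p i) xs a).mp ha
  refine hprim i s a (hq i ?_) hsp
  have hle : Ideal.ofList xs ≤ Ideal.span S := by
    refine Ideal.span_le.mpr fun y hy => ?_
    have h1 : Submodule.span F S ≤ (Ideal.span S).restrictScalars F :=
      Submodule.span_le.mpr fun y hy => Ideal.subset_span hy
    exact h1 (hxW y hy)
  exact hle hsa

end Pool.Agent.SYZ68J
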