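import Mathlib

/-!
# SYZ68J/CDefs : depth of localizations (part CM)

`DepthGE p n` : the maximal ideal of the localization `A_p` contains a weakly regular sequence of
length `n`.
-/

set_option autoImplicit false

namespace Pool.Agent.SYZ68J

open RingTheory.Sequence

/-- `A_p` has a weakly regular sequence of length `n` in its maximal ideal -/
def DepthGE {A : Type*} [CommRing A] (p : Ideal A) [p.IsPrime] (n : ℕ) : Prop :=
  ∃ rs : List (Localization.AtPrime p), rs.length = n ∧
    (∀ x ∈ rs, x ∈ IsLocalRing.maximalIdeal (Localization.AtPrime p)) ∧
    IsWeaklyRegular (Localization.AtPrime p) rs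

end Pool.Agent.SYZ68J
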