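import Pool.Agent.SYZ68J.CPoly

/-!
# SYZ68J/CFlat : depth and flat extensions with incomparable fibres

`S → A` flat, `FullDepth S`, `S` and `A` Noetherian, and for every `a : A` there is a unit `s` of `A`
with `s * a` integral over `S`.  Then `FullDepth A`.
Proof.  `W` a prime of `A`, `P = W.comap (algebraMap S A)`.
* `ht W ≤ ht P`: if `W' < W''` are primes of `A` then `W' ∩ S < W'' ∩ S`: take `a ∈ W'' ∖ W'`, `s` a
  unit with `s a` integral, `s a ∈ W'' ∖ W'`; `Ideal.comap_lt_comap_of_integral_mem_sdiff`.  So a
  chain of primes below `W` maps to a strict chain below `P` (`LTSeries.map`, definition of height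
  by `Order.height`/`krullDim`, `Ideal.height` of primes).
* `S_P → A_W` is flat (`Localization.localRingHom`; `Module.Flat` of the localized map, e.g.
  `Module.flat_of_isLocalized...`/`RingHom.Flat.localRingHom`) and local; the sequence of length
  `ht P ≥ ht W` of `S_P` maps to a weakly regular sequence in the maximal ideal
  (`IsWeaklyRegular.of_flat`); take the first `ht W` elements.  (`ht P` is finite since `S` is
  Noetherian.)
-/

set_option autoImplicit false

universe u

namespace Pool.Agent.SYZ68J

open RingTheory.Sequence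

private theorem height_le80 {S A : Type u} [CommRing S] [CommRing A] [Algebra S A]
    (hint : ∀ a : A, ∃ s : A, IsUnit s ∧ IsIntegral S (s * a)) (W : Ideal A) [hW : W.IsPrime] :
    W.height ≤ (W.comap (algebraMap S A)).height := by
  have hmono : StrictMono (PrimeSpectrum.comap (algebraMap S A)) := by
    intro p q hpq
    rw [← PrimeSpectrum.asIdeal_lt_asIdeal] at hpq ⊢
    obtain ⟨a, haq, hap⟩ := SetLike.exists_of_lt hpq
    obtain ⟨s, hs, hsa⟩ := hint a
    refine Ideal.comap_lt_comap_of_integral_mem_sdiff (x := s * a) hpq.le ⟨?_, ?_⟩ hsa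
    · exact Ideal.mul_mem_left _ _ haq
    · intro hcon
      rcases p.isPrime.mem_or_mem hcon with h | h
      · exact p.isPrime.ne_top (Ideal.eq_top_of_isUnit_mem _ h hs)
      · exact hap h
  have h1 := Order.height_le_height_apply_of_strictMono _ hmono ⟨W, hW⟩
  rw [← PrimeSpectrum.height_eq_orderHeight, ← PrimeSpectrum.height_eq_orderHeight] at h1
  exact h1

theorem fullDepth_of_flat {S A : Type u} [CommRing S] [CommRing A] [Algebra S A]
    [IsNoetherianRing S] [IsNoetherianRing A] [Module.Flat S A] (hS : FullDepth S)
    (hint : ∀ a : A, ∃ s : A, IsUnit s ∧ IsIntegral S (s * a)) : FullDepth A := by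
  intro W hW n hn
  set P := W.comap (algebraMap S A) with hP
  have hle := height_le80 hint W
  rw [hn] at hle
  have hfin : P.height ≠ ⊤ := Ideal.height_ne_top (Ideal.IsPrime.ne_top inferInstance)
  obtain ⟨k, hk⟩ := ENat.ne_top_iff_exists.1 hfin
  have hnk : n ≤ k := by
    have h2 : (n : ℕ∞) ≤ (k : ℕ∞) := by rw [hk]; exact hle
    exact_mod_cast h2
  obtain ⟨rs, h1, h2, h3⟩ := hS P k hk.symm
  have hflat : (algebraMap S A).Flat := by
    rw [RingHom.flat_algebraMap_iff]
    infer_instance
  let f : Localization.AtPrime P →+* Localization.AtPrime W :=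
    Localization.localRingHom P W (algebraMap S A) hP
  have hf : f.Flat := hflat.localRingHom W P hP
  have hloc : IsLocalHom f := Localization.isLocalHom_localRingHom P W (algebraMap S A) hP
  let _ : Algebra (Localization.AtPrime P) (Localization.AtPrime W) := f.toAlgebra
  have hfl : Module.Flat (Localization.AtPrime P) (Localization.AtPrime W) := hf
  have h4 := IsWeaklyRegular.of_flat (S := Localization.AtPrime W) h3
  refine ⟨(rs.map f).take n, ?_, ?_, ?_⟩
  · rw [List.length_take, List.length_map, h1]
    omega
  · intro x hx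
    obtain ⟨y, hy, rfl⟩ := List.mem_map.1 (List.mem_of_mem_take hx)
    have h5 := h2 y hy
    rw [IsLocalRing.mem_maximalIdeal, mem_nonunits_iff] at h5 ⊢
    intro h6
    exact h5 (isUnit_of_map_unit f y h6)
  · have h5 : rs.map f = (rs.map f).take n ++ (rs.map f).drop n :=
      (List.take_append_drop n _).symm
    have h6 : IsWeaklyRegular (Localization.AtPrime W) (rs.map f) := h4
    rw [h5] at h6
    exact ((isWeaklyRegular_append_iff _ _ _).1 h6).1

end Pool.Agent.SYZ68J
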