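import Pool.Agent.SYZ68J.CDefs

/-!
# SYZ68J/CPoly : polynomial rings over a field have full depth

`depth_polynomial`: if every prime `p` of the Noetherian ring `R` satisfies `DepthGE p (ht p)`
(stated with natural numbers: `p.height = n → DepthGE p n`), the same holds for `R[X]`.
Proof.  `P` a prime of `R[X]`, `p = P ∩ R = P.comap C`.  `R_p → R[X]_P` is flat and local
(`Localization.localRingHom`; flat since `R → R[X]` is), so the sequence `rs` of length `ht p` of
`R_p` maps to a weakly regular sequence of `R[X]_P` in the maximal ideal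
(`IsWeaklyRegular.of_flat`).
* If `P = p R[X]` (`p.map C`): `ht P = ht p` (`Ideal.height_map_C`-like; see
  `Mathlib/RingTheory/KrullDimension/Polynomial.lean` and its use in
  `Mathlib/RingTheory/RegularLocalRing/Polynomial.lean`): done.
* If `p R[X] < P`: `ht P = ht p + 1` (`≤`: Mathlib has the height formula for polynomial rings,
  e.g. `Ideal.height_polynomial...`; only `ht P ≤ ht p + 1` is needed, `DepthGE` for a bigger number
  implies that for a smaller one by `List.take`).  Take `f ∈ P ∖ p R[X]`: some coefficient of `f`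
  is not in `p`, so it is a unit of `R_p`.  Claim: `rs ++ [f]` is weakly regular on `R[X]_P`
  (`isWeaklyRegular_append_iff`): `f` is a nonzerodivisor on `R[X]_P ⧸ (rs)`: this is a localization
  of `T[X]`, `T = R_p ⧸ (rs)`, in which `f` has a unit coefficient and so is a nonzerodivisor by
  McCoy's theorem (`Polynomial.nonZeroDivisors...`, Mathlib/Algebra/Polynomial/AlgebraMap.lean):
  a zero divisor is killed by a nonzero `c ∈ T`, but `c * unit = 0` gives `c = 0`.
  (`R[X]_P` is a localization of `R_p[X]`.)
`depth_mvPolynomial`: induction on `n` (`MvPolynomial.finSuccEquiv`, transport along ring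
isomorphisms; `n = 0`: `MvPolynomial (Fin 0) F ≃ F`, the only prime is `⊥` of height `0`).
-/

set_option autoImplicit false

universe u

namespace Pool.Agent.SYZ68J

open RingTheory.Sequence

/-- every prime has full depth -/
def FullDepth (R : Type*) [CommRing R] : Prop :=
  ∀ (p : Ideal R) [p.IsPrime] (n : ℕ), p.height = (n : ℕ∞) → DepthGE p n

private theorem mono75 {A : Type*} [CommRing A] {p : Ideal A} [p.IsPrime] {n k : ℕ}
    (h : DepthGE p n) (hk : k ≤ n) : DepthGE p k := by
  obtain ⟨rs, h1, h2, h3⟩ := h
  refine ⟨rs.take k, by rw [List.length_take]; omega, fun x hx => h2 x (List.mem_of_mem_take hx), ?_⟩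
  have h4 : rs = rs.take k ++ rs.drop k := (List.take_append_drop k rs).symm
  rw [h4] at h3
  exact ((isWeaklyRegular_append_iff _ _ _).1 h3).1

/-- transport along an isomorphism of the localizations -/
private theorem equiv75 {A B : Type*} [CommRing A] [CommRing B] {p : Ideal A} [p.IsPrime]
    {q : Ideal B} [q.IsPrime] (e : Localization.AtPrime p ≃+* Localization.AtPrime q) {n : ℕ}
    (h : DepthGE p n) : DepthGE q n := by
  obtain ⟨rs, h1, h2, h3⟩ := h
  refine ⟨rs.map e, by rw [List.length_map, h1], ?_, ?_⟩
  · intro x hx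
    obtain ⟨y, hy, rfl⟩ := List.mem_map.1 hx
    have h4 := h2 y hy
    rw [IsLocalRing.mem_maximalIdeal, mem_nonunits_iff] at h4 ⊢
    intro h5
    exact h4 ((MulEquiv.isUnit_map e).1 h5)
  · refine (AddEquiv.isWeaklyRegular_congr (e := e.toAddEquiv) ?_).1 h3
    exact List.forall₂_map_right_iff.mpr (List.forall₂_same.mpr fun r _ x => map_mul e r x)

theorem FullDepth.of_ringEquiv {R R' : Type*} [CommRing R] [CommRing R'] (e : R ≃+* R')
    (h : FullDepth R) : FullDepth R' := by
  intro q hq n hn
  have h1 : (q.comap e).height = (n : ℕ∞) := by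
    rw [RingEquiv.height_comap, hn]
  have h2 := h (q.comap e) n h1
  refine equiv75 (IsLocalization.ringEquivOfRingEquiv (M := (q.comap e).primeCompl)
    (T := q.primeCompl) _ _ e ?_) h2
  ext x
  constructor
  · rintro ⟨y, hy, rfl⟩
    exact hy
  · intro hx
    refine ⟨e.symm x, ?_, e.apply_symm_apply x⟩
    show ¬ e (e.symm x) ∈ q
    rw [e.apply_symm_apply]
    exact hx

/-- the image of a weakly regular sequence of `A[X]` in a prime -/
private theorem loc75 {A : Type*} [CommRing A] {q : Ideal A} [q.IsPrime] {rs : List A}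
    (h : IsWeaklyRegular A rs) (hq : ∀ x ∈ rs, x ∈ q) : DepthGE q rs.length := by
  refine ⟨rs.map (algebraMap A (Localization.AtPrime q)), by rw [List.length_map], ?_,
    IsWeaklyRegular.of_isLocalization (Localization.AtPrime q) q.primeCompl h⟩
  intro x hx
  obtain ⟨y, hy, rfl⟩ := List.mem_map.1 hx
  exact (IsLocalization.AtPrime.to_map_mem_maximal_iff _ q y).2 (hq y hy)

open Polynomial in
/-- a polynomial with a unit coefficient is a nonzerodivisor modulo an extended ideal -/
private theorem mc75 {A : Type*} [CommRing A] (I : Ideal A) (f : A[X]) (i : ℕ)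
    (hf : IsUnit (f.coeff i)) (x : A[X]) (h : f * x ∈ I.map (C : A →+* A[X])) :
    x ∈ I.map (C : A →+* A[X]) := by
  have h1 : ∀ g : A[X], g ∈ I.map (C : A →+* A[X]) ↔ g.map (Ideal.Quotient.mk I) = 0 := by
    intro g
    rw [Ideal.mem_map_C_iff]
    constructor
    · intro hg
      ext j
      rw [coeff_map, coeff_zero]
      exact Ideal.Quotient.eq_zero_iff_mem.2 (hg j)
    · intro hg j
      have := congrArg (fun t => coeff t j) hg
      simp only [coeff_map, coeff_zero] at this
      exact Ideal.Quotient.eq_zero_iff_mem.1 this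
  rw [h1] at h ⊢
  rw [Polynomial.map_mul] at h
  have h2 : f.map (Ideal.Quotient.mk I) ∈ nonZeroDivisors (A ⧸ I)[X] := by
    refine mem_nonzeroDivisors_of_coeff_mem i ?_
    rw [coeff_map]
    exact (hf.map (Ideal.Quotient.mk I)).mem_nonZeroDivisors
  exact (mul_left_mem_nonZeroDivisors_eq_zero_iff h2).1 h

open Polynomial in
private theorem ext75 {A : Type*} [CommRing A] {rs : List A} (h : IsWeaklyRegular A rs) :
    IsWeaklyRegular A[X] (rs.map (C : A →+* A[X])) := by
  exact IsWeaklyRegular.of_flat (S := A[X]) h

open Polynomial in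
private theorem app75 {A : Type*} [CommRing A] {rs : List A} (h : IsWeaklyRegular A rs)
    (f : A[X]) (i : ℕ) (hf : IsUnit (f.coeff i)) :
    IsWeaklyRegular A[X] (rs.map (C : A →+* A[X]) ++ [f]) := by
  rw [isWeaklyRegular_append_iff]
  refine ⟨ext75 h, ?_⟩
  rw [isWeaklyRegular_singleton_iff]
  have hJ : (Ideal.ofList (rs.map (C : A →+* A[X])) • (⊤ : Submodule A[X] A[X])) =
      (Ideal.ofList rs).map (C : A →+* A[X]) := by
    rw [Ideal.map_ofList]
    simp
  rw [isSMulRegular_quotient_iff_mem_of_smul_mem]
  intro x hx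
  rw [hJ] at hx ⊢
  exact mc75 _ f i hf x hx

open Polynomial in
/-- the local case -/
private theorem local75 {A : Type*} [CommRing A] [IsLocalRing A] [IsNoetherianRing A]
    (hA : ∀ n : ℕ, (IsLocalRing.maximalIdeal A).height = (n : ℕ∞) →
      ∃ rs : List A, rs.length = n ∧ (∀ x ∈ rs, x ∈ IsLocalRing.maximalIdeal A) ∧
        IsWeaklyRegular A rs)
    (Q : Ideal A[X]) [Q.IsPrime] (hQ : Q.comap (C : A →+* A[X]) = IsLocalRing.maximalIdeal A)
    (n : ℕ) (hn : Q.height = (n : ℕ∞)) : DepthGE Q n := by
  have hle : (IsLocalRing.maximalIdeal A).map (C : A →+* A[X]) ≤ Q := by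
    rw [← hQ]
    exact Ideal.map_comap_le
  have hkn : (IsLocalRing.maximalIdeal A).height ≤ (n : ℕ∞) := by
    rw [← Polynomial.height_map_C (IsLocalRing.maximalIdeal A), ← hn]
    exact Ideal.height_mono hle
  have hne : (IsLocalRing.maximalIdeal A).height ≠ ⊤ :=
    ne_top_of_le_ne_top (ENat.natCast_ne_top n) hkn
  obtain ⟨k, hk⟩ := ENat.ne_top_iff_exists.1 hne
  obtain ⟨rs, h1, h2, h3⟩ := hA k hk.symm
  have hmem : ∀ x ∈ rs.map (C : A →+* A[X]), x ∈ Q := by
    intro x hx
    obtain ⟨y, hy, rfl⟩ := List.mem_map.1 hx
    have := h2 y hy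
    rw [← hQ] at this
    exact this
  by_cases heq : Q = (IsLocalRing.maximalIdeal A).map (C : A →+* A[X])
  · have h4 : n = k := by
      have h5 := Polynomial.height_map_C (IsLocalRing.maximalIdeal A)
      rw [← heq, hn, ← hk] at h5
      exact_mod_cast h5
    have h6 := loc75 (q := Q) (ext75 h3) hmem
    rw [List.length_map, h1, ← h4] at h6
    exact h6
  · have hlt : ¬ Q ≤ (IsLocalRing.maximalIdeal A).map (C : A →+* A[X]) :=
      fun h => heq (le_antisymm h hle)
    obtain ⟨f, hfQ, hfm⟩ := SetLike.not_le_iff_exists.1 hlt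
    rw [Ideal.mem_map_C_iff] at hfm
    push Not at hfm
    obtain ⟨i, hi⟩ := hfm
    have hu : IsUnit (f.coeff i) := by
      by_contra hcon
      exact hi ((IsLocalRing.mem_maximalIdeal _).2 hcon)
    obtain ⟨N, hN, hQN⟩ := Q.exists_le_maximal (Ideal.IsPrime.ne_top inferInstance)
    have hNm : IsLocalRing.maximalIdeal A = N.comap (C : A →+* A[X]) := by
      refine (IsLocalRing.maximalIdeal.isMaximal A).eq_of_le ?_ ?_
      · exact Ideal.IsPrime.ne_top'
      · rw [← hQ]
        exact Ideal.comap_mono hQN
    have : N.LiesOver (IsLocalRing.maximalIdeal A) := ⟨hNm⟩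
    have h7 := Polynomial.height_eq_height_add_one (IsLocalRing.maximalIdeal A) N
    have h8 : n ≤ k + 1 := by
      have h9 := Ideal.height_mono hQN
      rw [hn, h7, ← hk] at h9
      exact_mod_cast h9
    have h6 := loc75 (q := Q) (app75 h3 f i hu) (by
      intro x hx
      rcases List.mem_append.1 hx with h | h
      · exact hmem x h
      · rw [List.mem_singleton] at h
        rw [h]
        exact hfQ)
    rw [List.length_append, List.length_map, h1] at h6
    exact mono75 h6 h8

open Polynomial IsLocalization in
theorem depth_polynomial {R : Type u} [CommRing R] [IsNoetherianRing R] (h : FullDepth R) :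
    FullDepth (Polynomial R) := by
  intro p hp n hn
  let q := p.comap (C : R →+* R[X])
  let S := (Localization.AtPrime q)[X]
  let pc := Submonoid.map Polynomial.C.toMonoidHom q.primeCompl
  let : Algebra R[X] S := Polynomial.algebra R (Localization.AtPrime q)
  have : IsLocalization pc S := Polynomial.isLocalization _ _
  let pS := p.map (algebraMap R[X] S)
  have disj : Disjoint (pc : Set R[X]) (p : Set R[X]) := by
    simpa [pc, q] using! Set.disjoint_image_left.mpr
      (Set.disjoint_compl_left_iff_subset.mpr (fun _ a ↦ a))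
  have : pS.IsPrime := IsLocalization.isPrime_of_isPrime_disjoint pc _ _ ‹_› disj
  have : IsLocalization.AtPrime (Localization.AtPrime pS) p := by
    convert IsLocalization.isLocalization_isLocalization_atPrime_isLocalization pc
      (Localization.AtPrime pS) pS
    exact (IsLocalization.under_map_of_isPrime_disjoint pc _ ‹_› disj).symm
  have eq : Ideal.comap (C : Localization.AtPrime q →+* S) pS =
      IsLocalRing.maximalIdeal (Localization.AtPrime q) := by
    rw [← IsLocalization.map_under q.primeCompl _ (Ideal.comap C pS),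
      ← IsLocalization.map_under q.primeCompl _
        (IsLocalRing.maximalIdeal (Localization.AtPrime q))]
    simp only [Ideal.comap_comap, S, pS]
    rw [← Polynomial.algebraMap_eq (R := Localization.AtPrime q),
      ← IsScalarTower.algebraMap_eq R (Localization.AtPrime q) (Localization.AtPrime q)[X],
      IsScalarTower.algebraMap_eq R R[X] (Localization.AtPrime q)[X], ← Ideal.comap_comap,
      ← Ideal.under_def R[X], IsLocalization.under_map_of_isPrime_disjoint pc _ ‹_› disj]
    simp [q, IsLocalization.AtPrime.under_maximalIdeal (Localization.AtPrime q) q]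
  have hh : pS.height = (n : ℕ∞) := by
    rw [← hn]
    exact IsLocalization.height_map_of_disjoint pc p disj
  have hA : ∀ k : ℕ, (IsLocalRing.maximalIdeal (Localization.AtPrime q)).height = (k : ℕ∞) →
      ∃ rs : List (Localization.AtPrime q), rs.length = k ∧
        (∀ x ∈ rs, x ∈ IsLocalRing.maximalIdeal (Localization.AtPrime q)) ∧
        IsWeaklyRegular (Localization.AtPrime q) rs := by
    intro k hk
    refine h q k ?_
    rw [← hk, ← IsLocalization.height_under q.primeCompl
      (IsLocalRing.maximalIdeal (Localization.AtPrime q)),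
      IsLocalization.AtPrime.under_maximalIdeal (Localization.AtPrime q) q]
  have hd := local75 hA pS eq n hh
  exact equiv75 (IsLocalization.algEquiv p.primeCompl
    (Localization.AtPrime pS) (Localization.AtPrime p)).toRingEquiv hd

theorem depth_mvPolynomial (F : Type u) [Field F] (n : ℕ) :
    FullDepth (MvPolynomial (Fin n) F) := by
  induction n with
  | zero =>
    refine FullDepth.of_ringEquiv (MvPolynomial.isEmptyRingEquiv F (Fin 0)).symm ?_
    intro p hp n hn
    have h1 : p = ⊥ := by
      rcases Ideal.eq_bot_or_top p with h | h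
      · exact h
      · exact absurd h hp.ne_top
    subst h1
    have h2 : n = 0 := by
      rw [Ideal.height_bot] at hn
      exact_mod_cast hn.symm
    subst h2
    exact ⟨[], rfl, by simp, IsWeaklyRegular.nil _ _⟩
  | succ n ih =>
    exact FullDepth.of_ringEquiv (MvPolynomial.finSuccEquiv F n).toRingEquiv.symm
      (depth_polynomial ih)

end Pool.Agent.SYZ68J
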