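import Pool.Agent.SYZ71Z.ZDefs

/-!
# SYZ68J/CSep : Hilbert function of an intersection of primary ideals

The version of `Pool.Agent.SYZ71Z.hilb_sep` for `p i`-primary ideals `q i`
(`p i` pairwise incomparable primes, `p i ^ m ≤ q i`, and `s a ∈ q i`, `s ∉ p i` imply `a ∈ q i`).

Proof: copy the proof of `Pool.Agent.SYZ71Z.hilb_sep` (file `Pool/Agent/SYZ71Z/ZSep.lean`).  The
only changes: the separating elements `c_i ∉ p i`, `c_i ∈ q j` for `j ≠ i`: take
`c_i = ∏_(j ≠ i) c_ij ^ m` with `c_ij ∈ p j ∖ p i`; the injectivity of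
`(w_i) ↦ mk (∑ c_i σ_i(w_i))` uses `hprim`.
-/

set_option autoImplicit false

open Module

universe u

namespace Pool.Agent.SYZ68J

open Pool.Agent.SYZ71Z

private theorem csep_finPow {F A : Type u} [Field F] [CommRing A] [Algebra F A]
    (V : Submodule F A) [Module.Finite F V] (K : ℕ) : Module.Finite F ↥(V ^ K) :=
  Module.Finite.iff_fg.mpr ((Module.Finite.iff_fg.mp (inferInstance : Module.Finite F V)).pow K)

private theorem csep_pow_le {F A : Type u} [Field F] [CommRing A] [Algebra F A]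
    (V : Submodule F A) (h1 : (1 : A) ∈ V) {s t : ℕ} (hst : s ≤ t) : V ^ s ≤ V ^ t := by
  induction t, hst using Nat.le_induction with
  | base => exact le_rfl
  | succ n _ ih =>
    refine ih.trans ?_
    intro x hx
    have := Submodule.mul_mem_mul hx h1
    rwa [mul_one, ← pow_succ] at this

private theorem csep_adjoin {F A : Type u} [Field F] [CommRing A] [Algebra F A]
    (V : Submodule F A) (h1 : (1 : A) ∈ V) (x : A) (hx : x ∈ Algebra.adjoin F (V : Set A)) :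
    ∃ K, x ∈ V ^ K := by
  induction hx using Algebra.adjoin_induction with
  | mem x hx => exact ⟨1, by simpa using hx⟩
  | algebraMap r =>
    refine ⟨1, ?_⟩
    rw [pow_one, Algebra.algebraMap_eq_smul_one]
    exact V.smul_mem r h1
  | add x y _ _ hx hy =>
    obtain ⟨s, hs⟩ := hx
    obtain ⟨t, ht⟩ := hy
    exact ⟨max s t, Submodule.add_mem _ (csep_pow_le V h1 (le_max_left s t) hs)
      (csep_pow_le V h1 (le_max_right s t) ht)⟩
  | mul x y _ _ hx hy =>
    obtain ⟨s, hs⟩ := hx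
    obtain ⟨t, ht⟩ := hy
    exact ⟨s + t, by rw [pow_add]; exact Submodule.mul_mem_mul hs ht⟩

private theorem csep_exists {A : Type u} [CommRing A] {ι : Type} [Fintype ι] (p : ι → Ideal A)
    (hp : ∀ i, (p i).IsPrime)
    (hpw : ∀ i j, i ≠ j → ¬ p i ≤ p j) (i : ι) : ∃ a : A, a ∉ p i ∧ ∀ j, j ≠ i → a ∈ p j := by
  classical
  have h1 : ∀ j, ∃ a : A, (j ≠ i → a ∈ p j) ∧ a ∉ p i := by
    intro j
    by_cases hj : j = i
    · refine ⟨1, fun h => absurd hj h, ?_⟩
      exact (Ideal.ne_top_iff_one _).mp (hp i).ne_top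
    · obtain ⟨a, ha, hb⟩ := Set.not_subset.mp (hpw j i hj)
      exact ⟨a, fun _ => ha, hb⟩
  choose a ha hb using h1
  refine ⟨∏ j, a j, ?_, ?_⟩
  · rw [(hp i).prod_mem_iff]
    rintro ⟨j, -, hj⟩
    exact hb j hj
  · intro j hj
    exact Ideal.mem_of_dvd _ (Finset.dvd_prod_of_mem a (Finset.mem_univ j)) (ha j hj)

theorem sep_mult {F A : Type u} [Field F] [CommRing A] [Algebra F A]
    (V : Submodule F A) [Module.Finite F V] (h1 : (1 : A) ∈ V)
    (hloc : ∀ a : A, ∃ s ∈ Algebra.adjoin F (V : Set A), IsUnit s ∧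
      s * a ∈ Algebra.adjoin F (V : Set A))
    {ι : Type} [Fintype ι] (p q : ι → Ideal A) (hp : ∀ i, (p i).IsPrime)
    (hne : ∀ i j, i ≠ j → ¬ p i ≤ p j) (m : ℕ) (hm : ∀ i, p i ^ m ≤ q i) (hqp : ∀ i, q i ≤ p i)
    (hprim : ∀ i s a, s * a ∈ q i → s ∉ p i → a ∈ q i) :
    ∃ K₀ : ℕ, ∀ K : ℕ, ∑ i, hilb V (q i) K ≤ hilb V (⨅ i, q i) (K + K₀) := by
  classical
  have h2 : ∀ i, ∃ a : A, a ∉ p i ∧ (∀ j, j ≠ i → a ∈ q j) ∧ ∃ s, a ∈ V ^ s := by
    intro i
    obtain ⟨a₀, ha₀, hb₀⟩ := csep_exists p hp hne i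
    obtain ⟨a, ha, hb⟩ : ∃ a : A, a ∉ p i ∧ ∀ j, j ≠ i → a ∈ q j :=
      ⟨a₀ ^ m, fun h => ha₀ ((hp i).mem_of_pow_mem _ h),
        fun j hj => hm j (Ideal.pow_mem_pow (hb₀ j hj) m)⟩
    obtain ⟨u, -, hu, hs⟩ := hloc a
    refine ⟨u * a, ?_, fun j hj => Ideal.mul_mem_left _ _ (hb j hj), csep_adjoin V h1 _ hs⟩
    intro hc
    rcases (hp i).mem_or_mem hc with h3 | h3
    · exact (hp i).ne_top (Ideal.eq_top_of_isUnit_mem _ h3 hu)
    · exact ha h3
  choose a ha hb s1 hs1 using h2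
  refine ⟨∑ i, s1 i, fun K => ?_⟩
  set s0 := ∑ i, s1 i with hs0
  have hs1' : ∀ i, a i ∈ V ^ s0 := fun i =>
    csep_pow_le V h1
      (Finset.single_le_sum (f := s1) (fun _ _ => Nat.zero_le _) (Finset.mem_univ i)) (hs1 i)
  have hf1 := csep_finPow V K
  have hf2 := csep_finPow V (K + s0)
  set I : Ideal A := ⨅ i, q i with hI
  have hle : ∀ i, I ≤ q i := fun i => iInf_le q i
  let ρ : (A ⧸ I) →ₗ[F] (∀ i, A ⧸ q i) :=
    LinearMap.pi fun i => (Ideal.Quotient.factorₐ F (hle i)).toLinearMap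
  let W : Submodule F (A ⧸ I) := (V ^ (K + s0)).map (Ideal.Quotient.mkₐ F I).toLinearMap
  have hWf : Module.Finite F W := Module.Finite.map _ _
  let T : ∀ i, Submodule F (A ⧸ q i) := fun i =>
    (V ^ K).map (Ideal.Quotient.mkₐ F (q i)).toLinearMap
  have hTf : ∀ i, Module.Finite F (T i) := fun i => Module.Finite.map _ _
  have hsum : ∑ i, hilb V (q i) K = finrank F (∀ i, T i) := by
    rw [Module.finrank_pi_fintype]
    rfl
  rw [hsum]
  let ψ : (∀ i, T i) →ₗ[F] (∀ i, A ⧸ q i) :=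
    LinearMap.pi fun i => (LinearMap.mulLeft F (Ideal.Quotient.mk (q i) (a i))) ∘ₗ
      (T i).subtype ∘ₗ LinearMap.proj i
  have hψ : Function.Injective ψ := by
    intro x y hxy
    funext i
    have h3 : Ideal.Quotient.mk (q i) (a i) * (x i : A ⧸ q i) =
        Ideal.Quotient.mk (q i) (a i) * y i := congrFun hxy i
    apply Subtype.ext
    obtain ⟨x', hx'⟩ := Ideal.Quotient.mk_surjective (x i : A ⧸ q i)
    obtain ⟨y', hy'⟩ := Ideal.Quotient.mk_surjective (y i : A ⧸ q i)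
    rw [← hx', ← hy', ← map_mul, ← map_mul, Ideal.Quotient.eq, ← mul_sub] at h3
    rw [← hx', ← hy', Ideal.Quotient.eq]
    exact hprim i _ _ h3 (ha i)
  have hψr : LinearMap.range ψ ≤ LinearMap.range (ρ.domRestrict W) := by
    rintro _ ⟨x, rfl⟩
    have hx : ∀ i, ∃ y ∈ V ^ K, Ideal.Quotient.mk (q i) y = x i := by
      intro i
      obtain ⟨y, hy, hy2⟩ := (x i).2
      exact ⟨y, hy, hy2⟩
    choose y hy hy2 using hx
    have hmem : ∑ i, a i * y i ∈ V ^ (K + s0) := by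
      refine Submodule.sum_mem _ fun i _ => ?_
      have := Submodule.mul_mem_mul (hs1' i) (hy i)
      rwa [← pow_add, add_comm s0 K] at this
    refine ⟨⟨Ideal.Quotient.mk I (∑ i, a i * y i), ⟨_, hmem, rfl⟩⟩, ?_⟩
    funext i
    change Ideal.Quotient.factor (hle i) (Ideal.Quotient.mk I (∑ j, a j * y j)) =
      Ideal.Quotient.mk (q i) (a i) * (x i : A ⧸ q i)
    rw [Ideal.Quotient.factor_mk, map_sum, Finset.sum_eq_single i]
    · rw [map_mul, hy2]
    · intro j _ hji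
      rw [map_mul, Ideal.Quotient.eq_zero_iff_mem.mpr (hb j i (Ne.symm hji)), zero_mul]
    · intro hi
      exact absurd (Finset.mem_univ i) hi
  have h5 : finrank F (LinearMap.range ψ) = finrank F (∀ i, T i) :=
    LinearMap.finrank_range_of_inj hψ
  rw [← h5]
  calc finrank F (LinearMap.range ψ) ≤ finrank F (LinearMap.range (ρ.domRestrict W)) :=
        Submodule.finrank_mono hψr
    _ ≤ finrank F W := LinearMap.finrank_range_le _
    _ = hilb V I (K + s0) := rfl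

end Pool.Agent.SYZ68J
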