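import Pool.Agent.SYZ68J.CFlat

/-!
# SYZ68J/CTens : `F ⊗_k F` has full depth

`F / k` a finitely generated field extension.  Proof.  `y : Fin N → F` a transcendence basis of
`F / k`; `S = F[y_1..y_N] = MvPolynomial (Fin N) F`, `A = F ⊗_k F` an `S`-algebra by
`X_i ↦ 1 ⊗ y_i`, `c ↦ c ⊗ 1`.
* flat: `k[y] = MvPolynomial (Fin N) k → F` is flat (`F` is a vector space over the fraction field
  `k(y)` of `k[y]`, a localization); base change: `A = (F ⊗_k k[y]) ⊗_(k[y]) F` is flat over
  `F ⊗_k k[y] ≃ F[y]` (`MvPolynomial.algebraTensorAlgEquiv`, `Module.Flat.baseChange`,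
  `Algebra.IsPushout` / `TensorProduct.AlgebraTensorModule.cancelBaseChange`).
* `hint`: for `b ∈ F` algebraic over `k(y)` there is `0 ≠ s ∈ k[y]` with `s b` integral over `k[y]`
  (`exists_integral_multiple`); for `a = ∑ c_i ⊗ b_i` a common `s`; `(1 ⊗ s) a` is integral over `S`
  and `1 ⊗ s` is a unit of `A`.
* `A` is Noetherian (`Pool.Agent.SYZ71Z.tensor_noeth`; here a hypothesis).
-/

set_option autoImplicit false

open TensorProduct

universe u

namespace Pool.Agent.SYZ68J

attribute [local instance] MvPolynomial.algebraMvPolynomial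

private theorem flatR0 {k F : Type u} [Field k] [Field F] [Algebra k F] {N : ℕ} (y : Fin N → F)
    (hy : AlgebraicIndependent k y) :
    let _ : Algebra (MvPolynomial (Fin N) k) F := (MvPolynomial.aeval y).toRingHom.toAlgebra
    Module.Flat (MvPolynomial (Fin N) k) F := by
  let _ : Algebra (MvPolynomial (Fin N) k) F := (MvPolynomial.aeval y).toRingHom.toAlgebra
  have hinj : Function.Injective (algebraMap (MvPolynomial (Fin N) k) F) := hy
  have : FaithfulSMul (MvPolynomial (Fin N) k) F :=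
    (faithfulSMul_iff_algebraMap_injective _ _).2 hinj
  let _ := FractionRing.liftAlgebra (MvPolynomial (Fin N) k) F
  have := FractionRing.isScalarTower_liftAlgebra (MvPolynomial (Fin N) k) F
  exact Module.Flat.trans (MvPolynomial (Fin N) k) (FractionRing (MvPolynomial (Fin N) k)) F

private theorem flat75 {k L F : Type u} [Field k] [Field L] [Field F] [Algebra k L] [Algebra k F]
    {N : ℕ} (y : Fin N → F) (hy : AlgebraicIndependent k y) :
    (MvPolynomial.aeval (fun i => (1 : L) ⊗ₜ[k] y i) :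
      MvPolynomial (Fin N) L →ₐ[L] L ⊗[k] F).toRingHom.Flat := by
  let i1 : Algebra (MvPolynomial (Fin N) k) F := (MvPolynomial.aeval y).toRingHom.toAlgebra
  have : IsScalarTower k (MvPolynomial (Fin N) k) F := IsScalarTower.of_algebraMap_eq' (by
    ext x
    exact ((MvPolynomial.aeval y).commutes x).symm)
  have hf : Module.Flat (MvPolynomial (Fin N) k) F := flatR0 y hy
  let i2 : Algebra F (L ⊗[k] F) := Algebra.TensorProduct.rightAlgebra
  let i3 : Algebra (MvPolynomial (Fin N) L) (L ⊗[k] F) :=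
    (MvPolynomial.aeval (fun i => (1 : L) ⊗ₜ[k] y i) :
      MvPolynomial (Fin N) L →ₐ[L] L ⊗[k] F).toRingHom.toAlgebra
  let i4 : Algebra (MvPolynomial (Fin N) k) (L ⊗[k] F) :=
    ((algebraMap F (L ⊗[k] F)).comp (algebraMap (MvPolynomial (Fin N) k) F)).toAlgebra
  have t1 : IsScalarTower (MvPolynomial (Fin N) k) F (L ⊗[k] F) :=
    IsScalarTower.of_algebraMap_eq' rfl
  have t2 : IsScalarTower L (MvPolynomial (Fin N) L) (L ⊗[k] F) :=
    IsScalarTower.of_algebraMap_eq' (by
      ext x
      exact ((MvPolynomial.aeval (fun i => (1 : L) ⊗ₜ[k] y i) :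
        MvPolynomial (Fin N) L →ₐ[L] L ⊗[k] F).commutes x).symm)
  have t3 : IsScalarTower (MvPolynomial (Fin N) k) (MvPolynomial (Fin N) L) (L ⊗[k] F) :=
    IsScalarTower.of_algebraMap_eq' (by
      apply MvPolynomial.ringHom_ext
      · intro r
        show (1 : L) ⊗ₜ[k] (MvPolynomial.aeval y (MvPolynomial.C r)) =
          (MvPolynomial.aeval (fun i => (1 : L) ⊗ₜ[k] y i) :
            MvPolynomial (Fin N) L →ₐ[L] L ⊗[k] F) (algebraMap _ _ (MvPolynomial.C r))
        rw [MvPolynomial.algebraMap_def, MvPolynomial.map_C, MvPolynomial.aeval_C,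
          MvPolynomial.aeval_C, Algebra.TensorProduct.algebraMap_apply]
        simp only [Algebra.algebraMap_self, RingHom.id_apply]
        rw [Algebra.algebraMap_eq_smul_one, Algebra.algebraMap_eq_smul_one, TensorProduct.tmul_smul,
          TensorProduct.smul_tmul']
      · intro i
        show (1 : L) ⊗ₜ[k] (MvPolynomial.aeval y (MvPolynomial.X i)) =
          (MvPolynomial.aeval (fun i => (1 : L) ⊗ₜ[k] y i) :
            MvPolynomial (Fin N) L →ₐ[L] L ⊗[k] F) (algebraMap _ _ (MvPolynomial.X i))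
        rw [MvPolynomial.algebraMap_def, MvPolynomial.map_X, MvPolynomial.aeval_X,
          MvPolynomial.aeval_X])
  have t4 : IsScalarTower k (MvPolynomial (Fin N) L) (L ⊗[k] F) :=
    IsScalarTower.of_algebraMap_eq' (by
      ext x
      rw [RingHom.comp_apply, IsScalarTower.algebraMap_apply k L (MvPolynomial (Fin N) L),
        ← IsScalarTower.algebraMap_apply L (MvPolynomial (Fin N) L) (L ⊗[k] F),
        ← IsScalarTower.algebraMap_apply k L (L ⊗[k] F)])
  have p1 : Algebra.IsPushout k F L (L ⊗[k] F) := TensorProduct.isPushout'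
  have p2 : Algebra.IsPushout (MvPolynomial (Fin N) k) F (MvPolynomial (Fin N) L) (L ⊗[k] F) :=
    (Algebra.IsPushout.comp_iff k (MvPolynomial (Fin N) k) L (MvPolynomial (Fin N) L)).1 p1
  have p3 := p2.symm
  have e := p3.out.equiv
  exact Module.Flat.of_linearEquiv e.symm


/-- integrality up to a unit -/
private theorem int75 {k L F : Type u} [Field k] [Field L] [Field F] [Algebra k L] [Algebra k F]
    {N : ℕ} (y : Fin N → F) (hy : IsTranscendenceBasis k y) (a : L ⊗[k] F) :
    let _ : Algebra (MvPolynomial (Fin N) L) (L ⊗[k] F) :=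
      (MvPolynomial.aeval (fun i => (1 : L) ⊗ₜ[k] y i) :
        MvPolynomial (Fin N) L →ₐ[L] L ⊗[k] F).toRingHom.toAlgebra
    ∃ s : L ⊗[k] F, IsUnit s ∧ IsIntegral (MvPolynomial (Fin N) L) s ∧
      IsIntegral (MvPolynomial (Fin N) L) (s * a) := by
  intro i3
  let i1 : Algebra (MvPolynomial (Fin N) k) F := (MvPolynomial.aeval y).toRingHom.toAlgebra
  have ht : IsScalarTower k (MvPolynomial (Fin N) k) F := IsScalarTower.of_algebraMap_eq' (by
    ext x
    exact ((MvPolynomial.aeval y).commutes x).symm)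
  have hinj : Function.Injective (algebraMap (MvPolynomial (Fin N) k) F) := hy.1
  have halg : ∀ b : F, IsAlgebraic (MvPolynomial (Fin N) k) b := by
    intro b
    have h1 := hy.isAlgebraic.isAlgebraic b
    refine IsAlgebraic.of_ringHom_of_comp_eq (R := MvPolynomial (Fin N) k)
      (S := Algebra.adjoin k (Set.range y)) (f := (hy.1.aevalEquiv : _ ≃+* _).toRingHom)
      (g := RingHom.id F) (a := b) h1 ?_ ?_ ?_
    · exact (hy.1.aevalEquiv : MvPolynomial (Fin N) k ≃ₐ[k] _).surjective
    · exact Function.injective_id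
    · ext x
      · rfl
      · rfl
  have hcomp : (algebraMap (MvPolynomial (Fin N) L) (L ⊗[k] F)).comp
      (algebraMap (MvPolynomial (Fin N) k) (MvPolynomial (Fin N) L)) =
      (Algebra.TensorProduct.includeRight : F →ₐ[k] L ⊗[k] F).toRingHom.comp
        (algebraMap (MvPolynomial (Fin N) k) F) := by
    apply MvPolynomial.ringHom_ext
    · intro r
      show (MvPolynomial.aeval (fun i => (1 : L) ⊗ₜ[k] y i) :
          MvPolynomial (Fin N) L →ₐ[L] L ⊗[k] F) (algebraMap _ _ (MvPolynomial.C r)) =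
          (1 : L) ⊗ₜ[k] (MvPolynomial.aeval y (MvPolynomial.C r))
      rw [MvPolynomial.algebraMap_def, MvPolynomial.map_C, MvPolynomial.aeval_C,
        MvPolynomial.aeval_C, Algebra.TensorProduct.algebraMap_apply]
      simp only [Algebra.algebraMap_self, RingHom.id_apply]
      rw [Algebra.algebraMap_eq_smul_one, Algebra.algebraMap_eq_smul_one, TensorProduct.tmul_smul,
        TensorProduct.smul_tmul']
    · intro i
      show (MvPolynomial.aeval (fun i => (1 : L) ⊗ₜ[k] y i) :
          MvPolynomial (Fin N) L →ₐ[L] L ⊗[k] F) (algebraMap _ _ (MvPolynomial.X i)) =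
          (1 : L) ⊗ₜ[k] (MvPolynomial.aeval y (MvPolynomial.X i))
      rw [MvPolynomial.algebraMap_def, MvPolynomial.map_X, MvPolynomial.aeval_X,
        MvPolynomial.aeval_X]
  have hright : ∀ b : F, IsIntegral (MvPolynomial (Fin N) k) b →
      IsIntegral (MvPolynomial (Fin N) L) ((1 : L) ⊗ₜ[k] b) := fun b hb =>
    IsIntegral.map_of_comp_eq (algebraMap (MvPolynomial (Fin N) k) (MvPolynomial (Fin N) L))
      (Algebra.TensorProduct.includeRight : F →ₐ[k] L ⊗[k] F).toRingHom hcomp hb
  have hleft : ∀ c : L, IsIntegral (MvPolynomial (Fin N) L) (c ⊗ₜ[k] (1 : F)) := by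
    intro c
    have h1 : (c ⊗ₜ[k] (1 : F)) = algebraMap (MvPolynomial (Fin N) L) (L ⊗[k] F)
        (MvPolynomial.C c) := by
      show _ = (MvPolynomial.aeval (fun i => (1 : L) ⊗ₜ[k] y i) :
          MvPolynomial (Fin N) L →ₐ[L] L ⊗[k] F) (MvPolynomial.C c)
      rw [MvPolynomial.aeval_C, Algebra.TensorProduct.algebraMap_apply]
      simp
    rw [h1]
    exact isIntegral_algebraMap
  induction a using TensorProduct.induction_on with
  | zero => exact ⟨1, isUnit_one, isIntegral_one, by rw [mul_zero]; exact isIntegral_zero⟩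
  | tmul c b =>
    obtain ⟨p, hp0, hp⟩ := (halg b).exists_integral_multiple
    have hp1 : algebraMap (MvPolynomial (Fin N) k) F p ≠ 0 := fun h =>
      hp0 (hinj (by rw [h, map_zero]))
    refine ⟨(1 : L) ⊗ₜ[k] (algebraMap (MvPolynomial (Fin N) k) F p), ?_, ?_, ?_⟩
    · exact (isUnit_iff_ne_zero.2 hp1).map
        (Algebra.TensorProduct.includeRight : F →ₐ[k] L ⊗[k] F).toRingHom
    · exact hright _ isIntegral_algebraMap
    · have h2 : ((1 : L) ⊗ₜ[k] (algebraMap (MvPolynomial (Fin N) k) F p)) * (c ⊗ₜ[k] b) =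
          (c ⊗ₜ[k] (1 : F)) * ((1 : L) ⊗ₜ[k] (p • b)) := by
        rw [Algebra.TensorProduct.tmul_mul_tmul, Algebra.TensorProduct.tmul_mul_tmul, one_mul,
          mul_one, one_mul, Algebra.smul_def]
      rw [h2]
      exact (hleft c).mul (hright _ hp)
  | add a₁ a₂ h₁ h₂ =>
    obtain ⟨s₁, u₁, j₁, k₁⟩ := h₁
    obtain ⟨s₂, u₂, j₂, k₂⟩ := h₂
    refine ⟨s₁ * s₂, u₁.mul u₂, j₁.mul j₂, ?_⟩
    have h3 : s₁ * s₂ * (a₁ + a₂) = s₂ * (s₁ * a₁) + s₁ * (s₂ * a₂) := by ring
    rw [h3]
    exact (j₂.mul k₁).add (j₁.mul k₂)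

theorem fullDepth_tensor {k F : Type u} [Field k] [Field F] [Algebra k F]
    [IsNoetherianRing (F ⊗[k] F)] (N : ℕ) (htr : Algebra.trdeg k F = (N : Cardinal.{u})) :
    FullDepth (F ⊗[k] F) := by
  obtain ⟨ι, x, hx⟩ := exists_isTranscendenceBasis' k F
  have hc : Cardinal.mk ι = (N : Cardinal.{u}) := by rw [hx.cardinalMk_eq_trdeg, htr]
  have hfin : Finite ι := by
    rw [← Cardinal.lt_aleph0_iff_finite, hc]
    exact Cardinal.natCast_lt_aleph0
  have hfin' : Fintype ι := Fintype.ofFinite ι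
  have hcard : Fintype.card ι = N := by
    rw [Cardinal.mk_fintype] at hc
    exact_mod_cast hc
  let e : Fin N ≃ ι := (Fintype.equivFinOfCardEq hcard).symm
  have hy : IsTranscendenceBasis k (x ∘ e) := (isTranscendenceBasis_equiv e).2 hx
  let _ : Algebra (MvPolynomial (Fin N) F) (F ⊗[k] F) :=
      (MvPolynomial.aeval (fun i => (1 : F) ⊗ₜ[k] (x ∘ e) i) :
        MvPolynomial (Fin N) F →ₐ[F] F ⊗[k] F).toRingHom.toAlgebra
  have hflat : Module.Flat (MvPolynomial (Fin N) F) (F ⊗[k] F) := flat75 (L := F) (x ∘ e) hy.1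
  refine fullDepth_of_flat (S := MvPolynomial (Fin N) F) (depth_mvPolynomial F N) ?_
  intro a
  obtain ⟨s, h1, _, h3⟩ := int75 (L := F) (x ∘ e) hy a
  exact ⟨s, h1, h3⟩

end Pool.Agent.SYZ68J
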