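import Pool.Agent.SYZ68J.GJHam
import Pool.Agent.SYZ71.GD

/-!
# SYZ68J/GJBr : the bracket on `K(X)` and the bracket on the completed local ring

`brD hbr f : h ↦ {f, h}` is a derivation of `K(X)`.
`iota_br`: `ι {f, h} = hamQ (ι f) (ι h)`.  Proof.  Let `R ⊆ K(X)` be the set of the functions which are
regular at `x₀`, i.e. have an expansion.  For `f, h ∈ R` the claim is `BracketAt` and
`hamQ_algebraMap` (`disc ≠ 0` by `nondegenerate`).  `K(X) = k(R)`: by `fg` and `GoodDivisor.gen`
every generator is a quotient of two elements of `H0 A`, which are in `R` (`expand`); see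
`fieldRange_eq` in `GD.lean`.  For fixed `f ∈ R` the set of `h` with the claim is a subfield
(both sides are derivations in `h` along `ι`), so it is `K(X)` (`IntermediateField.adjoin_induction`);
then for fixed `h ∈ K(X)` the same argument in `f` (skew symmetry).
-/

set_option autoImplicit false

open MvPowerSeries Module

namespace Pool.Agent.SYZ68J

open Pool.Agent.SYZ71 Pool.Agent.SYZ71.Variety

variable {k : Type} [Field k]

section

variable {d : ℕ} {X : Variety k d} {br : X.K → X.K → X.K}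

theorem br_zero (hbr : X.IsPoisson br) (f : X.K) : br f 0 = 0 := by
  have h := hbr.add f 0 0
  rw [add_zero] at h
  exact (add_eq_left.1 h.symm)

theorem br_smul (hbr : X.IsPoisson br) (f : X.K) (c : k) (h : X.K) :
    br f (c • h) = c • br f h := by
  rw [Algebra.smul_def, Algebra.smul_def, hbr.leibniz, hbr.const, mul_zero, add_zero]

/-- `h ↦ {f, h}` -/
noncomputable def brD (hbr : X.IsPoisson br) (f : X.K) : Derivation k X.K X.K :=
  Derivation.mk' { toFun := br f, map_add' := hbr.add f, map_smul' := br_smul hbr f } (by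
    intro a b
    exact hbr.leibniz f a b)

@[simp] theorem brD_apply (hbr : X.IsPoisson br) (f h : X.K) : brD hbr f h = br f h := rfl

end

private theorem der_along27 {K Q : Type} [Field K] [Field Q] [Algebra k K] [Algebra k Q]
    (j : K →ₐ[k] Q) (D₁ : Derivation k K K) (D₂ : Derivation k Q Q) {T : Set K}
    (hT : IntermediateField.adjoin k T = ⊤) (h : ∀ x ∈ T, j (D₁ x) = D₂ (j x)) (x : K) :
    j (D₁ x) = D₂ (j x) := by
  have hx : x ∈ IntermediateField.adjoin k T := by
    rw [hT]; exact IntermediateField.mem_top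
  induction hx using IntermediateField.adjoin_induction with
  | mem x hx => exact h x hx
  | algebraMap c => rw [Derivation.map_algebraMap, map_zero, AlgHom.commutes,
      Derivation.map_algebraMap]
  | add x y _ _ hx hy => rw [map_add, map_add, map_add, map_add, hx, hy]
  | inv x _ hx =>
    rw [Derivation.leibniz_inv, map_inv₀, Derivation.leibniz_inv, smul_eq_mul, smul_eq_mul,
      map_mul, hx, map_neg, map_pow, map_inv₀]
  | mul x y _ _ hx hy =>
    rw [Derivation.leibniz, map_mul, Derivation.leibniz, map_add, smul_eq_mul, smul_eq_mul,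
      smul_eq_mul, smul_eq_mul, map_mul, map_mul, hx, hy]

variable {n r : ℕ} {X : Variety k (2 * n)} {α : X.Div} {br : X.K → X.K → X.K}
  {G : X.Action r α} {S : Finset X.K} {x₀ : ℚ} {A : X.Div}

theorem iota_br (hX : X.IsSymplecticVariety n) (hαt : ∀ p ∈ X.thr G.x₀, α p = 0)
    (hS : IntermediateField.adjoin k (S : Set X.K) = ⊤) (hA : GoodDivisor G S x₀ A)
    (hbr : X.IsPoisson br) (hpt : X.BracketAt br G.x₀ G.form) (f h : X.K) :
    X.ι G.x₀ (br f h) = hamQ G.form (X.ι G.x₀ f) (X.ι G.x₀ h) := by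
  set T : Set X.K := {f | ∃ a : PS k (2 * n), X.Expansion G.x₀ f a} with hTdef
  have hH0 : ∀ f ∈ X.H0 A, f ∈ T := by
    intro f hf
    rw [← H0_one_zero (α := α)] at hf
    obtain ⟨a, ha⟩ := expand hX hαt hA hf
    exact ⟨a, ha⟩
  have hT : IntermediateField.adjoin k T = ⊤ := by
    rw [eq_top_iff, ← hS, IntermediateField.adjoin_le_iff]
    intro s hs
    obtain ⟨h, hh, hh0, hhs⟩ := hA.gen s hs
    have h1 : s = (h * s) / h := by field_simp
    rw [SetLike.mem_coe, h1]
    exact div_mem (IntermediateField.subset_adjoin _ _ (hH0 _ hhs))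
      (IntermediateField.subset_adjoin _ _ (hH0 _ hh))
  have hdisc : algebraMap (PS k (2 * n)) (QS k (2 * n)) G.form.disc ≠ 0 := by
    intro h0
    exact G.form.nondegenerate ((IsFractionRing.injective (PS k (2 * n)) (QS k (2 * n)))
      (h0.trans (map_zero _).symm))
  have h1 : ∀ f ∈ T, ∀ h ∈ T, X.ι G.x₀ (br f h) = hamQ G.form (X.ι G.x₀ f) (X.ι G.x₀ h) := by
    rintro f ⟨a, ha⟩ h ⟨b, hb⟩
    have e1 := hpt f h a b ha hb
    have e2 := hamQ_algebraMap G.form a b
    unfold Variety.IsQuotient at e1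
    unfold Variety.Expansion at ha hb
    rw [← e2] at e1
    rw [ha, hb]
    exact mul_right_cancel₀ hdisc e1
  have h2 : ∀ f ∈ T, ∀ h, X.ι G.x₀ (br f h) = hamQ G.form (X.ι G.x₀ f) (X.ι G.x₀ h) :=
    fun f hf h => der_along27 (X.ι G.x₀) (brD hbr f) (hamQ G.form (X.ι G.x₀ f)) hT
      (fun x hx => h1 f hf x hx) h
  have h3 : ∀ h, ∀ f ∈ T, X.ι G.x₀ (br h f) = hamQ G.form (X.ι G.x₀ h) (X.ι G.x₀ f) := by
    intro h f hf
    rw [hbr.skew h f, map_neg, h2 f hf h, hamQ_skew G.form (X.ι G.x₀ h)]
  exact der_along27 (X.ι G.x₀) (brD hbr f) (hamQ G.form (X.ι G.x₀ f)) hT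
      (fun x hx => h3 f x hx) h

end Pool.Agent.SYZ68J
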