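import Pool.Agent.SYZ71.GDefs

/-!
# SYZ68J/GJDefs : the Poisson bracket of rational functions

The symplectic form of `X` defines a Poisson bracket on the function field `K(X)`.
-/

set_option autoImplicit false

open MvPowerSeries Module

namespace Pool.Agent.SYZ71

variable {k : Type} [Field k] {d : ℕ}

/-- the determinant of the matrix of the form -/
noncomputable def SymplecticForm.disc (ω : SymplecticForm k d) : PS k d := (Matrix.of ω.w).det

/-- `disc` times the Poisson bracket of `a` and `b`: `∑ ∂_i a (adj w)_ij ∂_j b` -/
noncomputable def SymplecticForm.bracket (ω : SymplecticForm k d) (a b : PS k d) : PS k d :=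
  ∑ i, ∑ j, pderiv k i a * (Matrix.of ω.w).adjugate i j * pderiv k j b

namespace Variety

variable (X : Variety k d)

/-- `br` is a Poisson bracket on the function field, regular in codimension one and generically
nondegenerate (the Jacobi identity is not needed). -/
structure IsPoisson (br : X.K → X.K → X.K) : Prop where
  skew : ∀ f h, br f h = -br h f
  add : ∀ f h h', br f (h + h') = br f h + br f h'
  leibniz : ∀ f h h', br f (h * h') = h * br f h' + h' * br f h
  const : ∀ f (c : k), br f (algebraMap k X.K c) = 0
  /-- the bracket of functions which are regular at the generic point of `p` is regular there -/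
  regular : ∀ p f h, f ≠ 0 → h ≠ 0 → br f h ≠ 0 → 0 ≤ X.ord p f → 0 ≤ X.ord p h →
    0 ≤ X.ord p (br f h)
  nondegenerate : ∃ f : Fin d → X.K, (Matrix.of fun i j => br (f i) (f j)).det ≠ 0
  /-- the orders of vanishing are normalized -/
  uniformizer : ∀ p, ∃ t, t ≠ 0 ∧ X.ord p t = 1

/-- at the point `x` the bracket is the Poisson bracket of the form `ω` -/
def BracketAt (br : X.K → X.K → X.K) (x : X.Pt) (ω : SymplecticForm k d) : Prop :=
  ∀ f h a b, X.Expansion x f a → X.Expansion x h b →
    X.IsQuotient x (br f h) (ω.bracket a b) ω.disc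

/-- the ratios of sections of multiples of `D` Poisson commute -/
def RatiosCommute (br : X.K → X.K → X.K) (D : X.Div) : Prop :=
  ∀ m : ℕ, ∀ f ∈ X.H0 (m • D), ∀ f' ∈ X.H0 (m • D), ∀ h ∈ X.H0 (m • D), ∀ h' ∈ X.H0 (m • D),
    br (f / h) (f' / h') = 0

end Variety

end Pool.Agent.SYZ71
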