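import Pool.Agent.SYZ71.GE

/-!
# SYZ68J/GJDeg : degrees of the translates of `D A + E α`

`classOf (π_v (D A + E α)) = D T_(w(v)) A + E α` (`classOf_mapDomain`, `classOf_DE`,
`transvection_self`), `T_w A = A + q(α, A) w - (q(w, A) + q(w, w) q(α, A) / 2) α`, `w(v) = ∑ v_i w(e_i)`
(`w_sum`), `|q(w(v), w(v))| ≤ K ∑ v_i²` (`q_w_bound`).
-/

set_option autoImplicit false

open MvPowerSeries Module

namespace Pool.Agent.SYZ68J

open Pool.Agent.SYZ71 Pool.Agent.SYZ71.Variety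

variable {k : Type} [Field k] {n r : ℕ} {X : Variety k (2 * n)} {α : X.Div}

private theorem gjdeg_lin (G : X.Action r α) (L : X.NS →ₗ[ℚ] ℚ) (v : Fin r → ℕ) (V : ℕ)
    (hv : ∀ i, v i ≤ V) :
    |L (G.w (fun i => ((v i : ℕ) : ℤ)))| ≤
      (∑ i, |L (G.w (Pi.single i 1))|) * V := by
  rw [w_sum G, map_sum, Finset.sum_mul]
  refine (Finset.abs_sum_le_sum_abs _ _).trans (Finset.sum_le_sum fun i _ => ?_)
  rw [map_smul, smul_eq_mul, abs_mul, mul_comm]
  refine mul_le_mul_of_nonneg_left ?_ (abs_nonneg _)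
  have h1 : ((v i : ℕ) : ℚ) ≤ (V : ℚ) := by exact_mod_cast hv i
  have h0 : (0 : ℚ) ≤ ((v i : ℕ) : ℚ) := Nat.cast_nonneg _
  push_cast
  rw [abs_of_nonneg h0]
  exact h1

/-- the arithmetic: `a = deg A`, `b = deg α`, `Q = q(α, A)`, `x = deg w`, `y = q(w, A)`,
`z = q(w, w)` -/
private theorem gjdeg_num (a b Q x y z K1 K2 K3 W D E : ℚ) (hK1 : 0 ≤ K1) (hK2 : 0 ≤ K2)
    (hK3 : 0 ≤ K3) (hW : 0 ≤ W) (hD : 0 ≤ D) (hE : 0 ≤ E)
    (hx : |x| ≤ K1 * W) (hy : |y| ≤ K2 * W) (hz : |z| ≤ K3 * W) :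
    D * (a + Q * x - (y + z / 2 * Q) * b) + E * b ≤
      (|a| + |Q| * K1 + (K2 + K3 * |Q|) * |b| + |b|) * (D + E + D * W) := by
  have hb0 := abs_nonneg b
  have hq0 := abs_nonneg Q
  have ha0 := abs_nonneg a
  have t1 : Q * x ≤ |Q| * K1 * W := by
    refine (le_abs_self _).trans ?_
    rw [abs_mul, mul_assoc]
    exact mul_le_mul_of_nonneg_left hx hq0
  have e2 : |z| / 2 * |Q| ≤ K3 * W * |Q| := by
    refine mul_le_mul_of_nonneg_right ?_ hq0
    have := abs_nonneg z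
    linarith
  have e1 : |y + z / 2 * Q| ≤ (K2 + K3 * |Q|) * W := by
    refine (abs_add_le _ _).trans ?_
    rw [abs_mul, abs_div, abs_two]
    linarith
  have t2 : -((y + z / 2 * Q) * b) ≤ (K2 + K3 * |Q|) * |b| * W := by
    refine (neg_le_abs _).trans ?_
    rw [abs_mul]
    calc |y + z / 2 * Q| * |b| ≤ (K2 + K3 * |Q|) * W * |b| := mul_le_mul_of_nonneg_right e1 hb0
      _ = _ := by ring
  have t3 : a ≤ |a| := le_abs_self _
  have t4 : E * b ≤ E * |b| := mul_le_mul_of_nonneg_left (le_abs_self _) hE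
  obtain ⟨P, hP⟩ : ∃ P, P = |Q| * K1 + (K2 + K3 * |Q|) * |b| := ⟨_, rfl⟩
  have hP0 : 0 ≤ P := by rw [hP]; positivity
  have t5 : D * (a + Q * x - (y + z / 2 * Q) * b) ≤ D * (|a| + P * W) := by
    refine mul_le_mul_of_nonneg_left ?_ hD
    have : P * W = |Q| * K1 * W + (K2 + K3 * |Q|) * |b| * W := by rw [hP]; ring
    rw [this]
    linarith
  have s1 : 0 ≤ |a| * (E + D * W) := by positivity
  have s2 : 0 ≤ P * (D + E) := by positivity
  have s3 : 0 ≤ |b| * (D + D * W) := by positivity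
  have hM : |a| + |Q| * K1 + (K2 + K3 * |Q|) * |b| + |b| = |a| + P + |b| := by rw [hP]; ring
  rw [hM]
  have t6 : (|a| + P + |b|) * (D + E + D * W) =
      D * (|a| + P * W) + E * |b| + (|a| * (E + D * W) + P * (D + E) + |b| * (D + D * W)) := by
    ring
  rw [t6]
  linarith

theorem deg_translate (hX : X.IsSymplecticVariety n) (hα : X.IsNefIsotropic α)
    (G : X.Action r α) (A : X.Div) (deg : X.NS →ₗ[ℚ] ℚ) :
    ∃ C : ℕ, ∀ (v : Fin r → ℕ) (D E V : ℕ), (∀ i, v i ≤ V) →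
      deg (X.classOf ((D • A + E • α).mapDomain (G.π (fun i => ((v i : ℕ) : ℤ))))) ≤
        ((C * (D + E + D * V ^ 2) : ℕ) : ℚ) := by
  obtain ⟨K, hK0, hK⟩ := q_w_bound G
  have hK10 : 0 ≤ ∑ i, |deg (G.w (Pi.single i 1))| := Finset.sum_nonneg fun i _ => abs_nonneg _
  have hK20 : 0 ≤ ∑ i, |X.q (X.classOf A) (G.w (Pi.single i 1))| :=
    Finset.sum_nonneg fun i _ => abs_nonneg _
  obtain ⟨C, hC⟩ := exists_nat_ge (|deg (X.classOf A)| + |X.q (X.classOf α) (X.classOf A)| *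
    (∑ i, |deg (G.w (Pi.single i 1))|) + ((∑ i, |X.q (X.classOf A) (G.w (Pi.single i 1))|) +
      K * r * |X.q (X.classOf α) (X.classOf A)|) * |deg (X.classOf α)| + |deg (X.classOf α)|)
  refine ⟨C, fun v D E V hv => ?_⟩
  have hcl : X.classOf ((D • A + E • α).mapDomain (G.π (fun i => ((v i : ℕ) : ℤ)))) =
      (D : ℚ) • X.transvection (X.classOf α) (G.w (fun i => ((v i : ℕ) : ℤ))) (X.classOf A) +
        (E : ℚ) • X.classOf α := by
    rw [classOf_mapDomain, classOf_DE, ← transvectionL_apply, map_add,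
      map_smul, map_smul, transvectionL_apply, transvectionL_apply,
      transvection_self hα.isotropic (by rw [hX.q_symm, G.w_orth])]
  rw [hcl]
  have hT : ∀ a b w : X.NS, deg (X.transvection b w a) =
      deg a + X.q b a * deg w - (X.q w a + X.q w w / 2 * X.q b a) * deg b := by
    intro a b w
    unfold Variety.transvection
    simp only [map_add, map_sub, map_smul, smul_eq_mul]
  rw [map_add, map_smul, map_smul, smul_eq_mul, smul_eq_mul, hT]
  have hVn : (V : ℚ) ≤ (V : ℚ) ^ 2 := by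
    have : V ≤ V ^ 2 := by nlinarith [Nat.zero_le V, Nat.le_mul_self V]
    exact_mod_cast this
  have h1 : |deg (G.w (fun i => ((v i : ℕ) : ℤ)))| ≤
      (∑ i, |deg (G.w (Pi.single i 1))|) * (V : ℚ) ^ 2 :=
    (gjdeg_lin G deg v V hv).trans (mul_le_mul_of_nonneg_left hVn hK10)
  have h2 : |X.q (G.w (fun i => ((v i : ℕ) : ℤ))) (X.classOf A)| ≤
      (∑ i, |X.q (X.classOf A) (G.w (Pi.single i 1))|) * (V : ℚ) ^ 2 := by
    rw [hX.q_symm]
    exact (gjdeg_lin G (X.q (X.classOf A)) v V hv).trans (mul_le_mul_of_nonneg_left hVn hK20)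
  have h3 : |X.q (G.w (fun i => ((v i : ℕ) : ℤ))) (G.w (fun i => ((v i : ℕ) : ℤ)))| ≤
      K * r * (V : ℚ) ^ 2 := by
    refine (hK _).trans ?_
    rw [mul_assoc]
    refine mul_le_mul_of_nonneg_left ?_ hK0
    have : ∑ i : Fin r, (((v i : ℕ) : ℤ) : ℚ) ^ 2 ≤ ∑ _i : Fin r, (V : ℚ) ^ 2 := by
      refine Finset.sum_le_sum fun i _ => ?_
      have h1 : ((v i : ℕ) : ℚ) ≤ (V : ℚ) := by exact_mod_cast hv i
      have h0 : (0 : ℚ) ≤ ((v i : ℕ) : ℚ) := Nat.cast_nonneg _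
      push_cast
      exact pow_le_pow_left₀ h0 h1 2
    simpa using this
  refine (gjdeg_num _ _ _ _ _ _ _ _ _ _ _ _ hK10 hK20 (mul_nonneg hK0 (Nat.cast_nonneg r))
    (sq_nonneg _) (Nat.cast_nonneg D) (Nat.cast_nonneg E) h1 h2 h3).trans ?_
  have t7 := mul_le_mul_of_nonneg_right hC
    (show (0 : ℚ) ≤ D + E + D * (V : ℚ) ^ 2 by positivity)
  push_cast
  exact t7

end Pool.Agent.SYZ68J
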