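import Pool.Agent.SYZ68J.ZJDefs

/-!
# SYZ68J/GJDet : order of a greedy determinant of derivatives at a prime divisor

`v` a discrete valuation of the field `K`, `v t = 1`; derivations `ξ_i` such that `u² ξ_i` preserves
the valuation ring, `v u = c ≥ 0`.  `F i j` functions with `v (F i j) ≥ - b_j`, words `l_j`, such that
for every `j` and every shorter word `l'` the vector `(ξ_l' (F i j))_i` is in the span of the earlier
columns `(ξ_(l_j') (F i j'))_i`, `j' < j`.  Then
`v (det (ξ_(l_j) (F i j))) ≥ - ∑_j (b_j + 3 c |l_j|)`.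

Proof.  (1) `v (u^(3 |l|) ξ_l h) ≥ 0` for `v h ≥ 0`: more generally if `v (u^a h) ≥ 0` then
`v (u^(a+3) ξ_i h) ≥ 0`: with `h' = u^a h`: `u^(a+3) ξ_i (u^(-a) h') = u³ ξ_i h' - a h' u² ξ_i u`
(`a` an integer; `v` of an integer is `≥ 0`); induction on the word.
(2) `w_j = t^(b_j)` (integer power).  `ξ_l (w F) = w ξ_l F + ∑ (..) ξ_l' F`, the sum over proper
sublists `l'` of `l` with coefficients depending on `w, l` only (Leibniz; induction on `l`:
statement: there are finitely many pairs `(c, l')`, `l'.length < l.length`, depending on `w, l`,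
with `ξ_l (w F) = w ξ_l F + ∑ c ξ_l' F` for all `F`).  So the matrix `(ξ_(l_j) (w_j F i j))` arises
from `(w_j ξ_(l_j) (F i j))` by adding to each column a combination of earlier columns: its
determinant is `∏ w_j * Δ` (triangular column operations; e.g. `M' = M * U`, `U` triangular with
diagonal `w_j`, `Matrix.det_of_upperTriangular`).
(3) its columns multiplied by `u^(3 |l_j|)` have entries of valuation `≥ 0`, so
`v (∏ u^(3 |l_j|) ∏ w_j Δ) ≥ 0`, i.e. `∑ (3 c |l_j| + b_j) + v Δ ≥ 0`.
-/

set_option autoImplicit false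

open Module

namespace Pool.Agent.SYZ68J

private theorem wd_add37 {R K : Type*} [CommRing R] [Field K] [Algebra R K] {e : ℕ}
    (ξ : Fin e → Derivation R K K) (l : List (Fin e)) (x y : K) :
    wd (fun i => ξ i) l (x + y) = wd (fun i => ξ i) l x + wd (fun i => ξ i) l y := by
  induction l generalizing x y with
  | nil => rfl
  | cons i l ih =>
    simp only [wd]
    rw [map_add, ih]

/-- the span of the words of length `< n`, as functions -/
private def shortSpan {R K : Type*} [CommRing R] [Field K] [Algebra R K] {e : ℕ}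
    (ξ : Fin e → Derivation R K K) (n : ℕ) : Submodule K (K → K) :=
  Submodule.span K {f : K → K | ∃ l' : List (Fin e), l'.length < n ∧
    f = fun x => wd (fun i => ξ i) l' x}

private theorem shortSpan_mono {R K : Type*} [CommRing R] [Field K] [Algebra R K] {e : ℕ}
    (ξ : Fin e → Derivation R K K) {n m : ℕ} (h : n ≤ m) : shortSpan ξ n ≤ shortSpan ξ m := by
  refine Submodule.span_mono ?_
  rintro f ⟨l', hl', rfl⟩
  exact ⟨l', lt_of_lt_of_le hl' h, rfl⟩

private theorem shortSpan_comp {R K : Type*} [CommRing R] [Field K] [Algebra R K] {e : ℕ}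
    (ξ : Fin e → Derivation R K K) {n : ℕ} (i : Fin e) {f : K → K} (hf : f ∈ shortSpan ξ n) :
    (fun x => f (ξ i x)) ∈ shortSpan ξ (n + 1) := by
  have h3 := Submodule.mem_map_of_mem (f := LinearMap.funLeft K K (fun x : K => ξ i x)) hf
  unfold shortSpan at h3
  rw [Submodule.map_span] at h3
  refine Submodule.span_mono ?_ h3
  rintro _ ⟨_, ⟨l', hl', rfl⟩, rfl⟩
  exact ⟨i :: l', by simpa using hl', rfl⟩

private theorem leibniz_word {R K : Type*} [CommRing R] [Field K] [Algebra R K] {e : ℕ}
    (ξ : Fin e → Derivation R K K) (l : List (Fin e)) (w : K) :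
    (fun x : K => wd (fun i => ξ i) l (w * x) - w * wd (fun i => ξ i) l x)
      ∈ shortSpan ξ l.length := by
  induction l generalizing w with
  | nil =>
    have : (fun x : K => wd (fun i => ξ i) [] (w * x) - w * wd (fun i => ξ i) [] x) = 0 := by
      funext x
      simp [wd]
    rw [this]
    exact Submodule.zero_mem _
  | cons i l ih =>
    have e1 : (fun x : K => wd (fun i => ξ i) (i :: l) (w * x) - w * wd (fun i => ξ i) (i :: l) x)
        = (fun x : K => (fun y => wd (fun i => ξ i) l (w * y) - w * wd (fun i => ξ i) l y) (ξ i x))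
          + ((fun x : K => wd (fun i => ξ i) l (ξ i w * x) - ξ i w * wd (fun i => ξ i) l x)
            + (ξ i w) • (fun x : K => wd (fun i => ξ i) l x)) := by
      funext x
      simp only [wd, Pi.add_apply, Pi.smul_apply, smul_eq_mul]
      rw [Derivation.leibniz, wd_add37, smul_eq_mul, smul_eq_mul, mul_comm x (ξ i w)]
      ring
    rw [e1, List.length_cons]
    refine Submodule.add_mem _ (shortSpan_comp ξ i (ih w)) (Submodule.add_mem _
      (shortSpan_mono ξ (Nat.le_succ _) (ih (ξ i w))) (Submodule.smul_mem _ _ ?_))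
    exact Submodule.subset_span ⟨l, Nat.lt_succ_self _, rfl⟩

private theorem v_natCast {K : Type*} [Field K] (v : AddValuation K (WithTop ℤ)) (n : ℕ) :
    0 ≤ v (n : K) := by
  induction n with
  | zero => simp
  | succ n ih =>
    rw [Nat.cast_succ]
    exact v.map_le_add ih (by rw [v.map_one])

private theorem val_word {R K : Type*} [CommRing R] [Field K] [Algebra R K]
    (v : AddValuation K (WithTop ℤ)) {e : ℕ} (ξ : Fin e → Derivation R K K) (u : K) (hu : 0 ≤ v u)
    (hpole : ∀ i x, 0 ≤ v x → 0 ≤ v (u ^ 2 * ξ i x)) (l : List (Fin e)) (a : ℕ) (x : K)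
    (hx : 0 ≤ v (u ^ a * x)) : 0 ≤ v (u ^ (a + 3 * l.length) * wd (fun i => ξ i) l x) := by
  induction l generalizing a x with
  | nil => simpa [wd] using hx
  | cons i l ih =>
    have step : 0 ≤ v (u ^ (a + 3) * ξ i x) := by
      have e1 : u ^ (a + 3) * ξ i x = u * (u ^ 2 * ξ i (u ^ a * x))
          - (a : K) * (u ^ a * x) * (u ^ 2 * ξ i u) := by
        rw [Derivation.leibniz, Derivation.leibniz_pow]
        simp only [smul_eq_mul, nsmul_eq_mul]
        rcases Nat.eq_zero_or_pos a with h | h
        · subst h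
          simp
          ring
        · obtain ⟨a', rfl⟩ : ∃ a', a = a' + 1 := ⟨a - 1, by omega⟩
          simp only [Nat.add_sub_cancel]
          ring
      rw [e1]
      refine v.map_le_sub ?_ ?_
      · rw [v.map_mul]
        exact add_nonneg hu (hpole i _ hx)
      · rw [v.map_mul, v.map_mul]
        exact add_nonneg (add_nonneg (v_natCast v a) hx) (hpole i u hu)
    have h := ih (a + 3) (ξ i x) step
    have e2 : a + 3 * (i :: l).length = a + 3 + 3 * l.length := by
      rw [List.length_cons]; ring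
    rw [e2]
    exact h

private theorem exists_val {K : Type*} [Field K] (v : AddValuation K (WithTop ℤ)) (t : K)
    (ht : v t = ((1 : ℤ) : WithTop ℤ)) (b : ℤ) : ∃ w : K, v w = (b : WithTop ℤ) := by
  have ht0 : t ≠ 0 := by
    rintro rfl
    rw [v.map_zero] at ht
    exact absurd ht (by simp)
  have hinv : v t⁻¹ = ((-1 : ℤ) : WithTop ℤ) := by
    have h1 : v t⁻¹ + v t = 0 := by
      rw [← v.map_mul, inv_mul_cancel₀ ht0, v.map_one]
    rw [ht] at h1
    cases h2 : v t⁻¹ with
    | top => rw [h2] at h1; simp at h1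
    | coe a =>
      rw [h2] at h1
      have h3 : a + 1 = 0 := by exact_mod_cast h1
      have : a = -1 := by omega
      rw [this]
  have hpow : ∀ (x : K) (c : ℤ), v x = (c : WithTop ℤ) → ∀ n : ℕ,
      v (x ^ n) = ((n * c : ℤ) : WithTop ℤ) := by
    intro x c hx n
    induction n with
    | zero => simp [v.map_one]
    | succ n ih =>
      rw [pow_succ, v.map_mul, ih, hx, ← WithTop.coe_add]
      congr 1
      push_cast
      ring
  rcases le_total 0 b with h | h
  · refine ⟨t ^ b.toNat, ?_⟩
    rw [hpow t 1 ht]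
    congr 1
    rw [mul_one]
    exact Int.toNat_of_nonneg h
  · refine ⟨t⁻¹ ^ (-b).toNat, ?_⟩
    rw [hpow t⁻¹ (-1) hinv]
    congr 1
    have := Int.toNat_of_nonneg (show 0 ≤ -b by omega)
    rw [this]
    ring

/-- the valuation ring as a subring -/
private def vring {K : Type*} [Field K] (v : AddValuation K (WithTop ℤ)) : Subring K where
  carrier := {x | 0 ≤ v x}
  mul_mem' := by
    intro a b ha hb
    show 0 ≤ v (a * b)
    rw [v.map_mul]
    exact add_nonneg ha hb
  one_mem' := by
    show 0 ≤ v 1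
    rw [v.map_one]
  add_mem' := by
    intro a b ha hb
    exact v.map_le_add ha hb
  zero_mem' := by
    show 0 ≤ v 0
    rw [v.map_zero]
    exact le_top
  neg_mem' := by
    intro a ha
    show 0 ≤ v (-a)
    rw [v.map_neg]
    exact ha

private theorem v_prod {K ι : Type*} [Field K] [Fintype ι] (v : AddValuation K (WithTop ℤ))
    (f : ι → K) (c : ι → ℤ) (h : ∀ i, v (f i) = (c i : WithTop ℤ)) :
    v (∏ i, f i) = ((∑ i, c i : ℤ) : WithTop ℤ) := by
  classical
  have : ∀ s : Finset ι, v (∏ i ∈ s, f i) = ((∑ i ∈ s, c i : ℤ) : WithTop ℤ) := by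
    intro s
    induction s using Finset.induction_on with
    | empty => simp [v.map_one]
    | insert a s ha ih =>
      rw [Finset.prod_insert ha, Finset.sum_insert ha, v.map_mul, ih, h, ← WithTop.coe_add]
  exact this Finset.univ

theorem le_ord_jet_det {R K : Type*} [CommRing R] [Field K] [Algebra R K]
    (v : AddValuation K (WithTop ℤ)) (t : K) (ht : v t = ((1 : ℤ) : WithTop ℤ)) {e φ : ℕ}
    (ξ : Fin e → Derivation R K K) (u : K) (c : ℕ) (hu : v u = ((c : ℤ) : WithTop ℤ))
    (hpole : ∀ i x, 0 ≤ v x → 0 ≤ v (u ^ 2 * ξ i x)) (F : Fin φ → Fin φ → K)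
    (l : Fin φ → List (Fin e)) (b : Fin φ → ℤ)
    (hF : ∀ i j, ((-b j : ℤ) : WithTop ℤ) ≤ v (F i j))
    (hgreedy : ∀ (j : Fin φ) (l' : List (Fin e)), l'.length < (l j).length →
      (fun i => wd (fun i => ξ i) l' (F i j)) ∈ Submodule.span K
        {x : Fin φ → K | ∃ j' < j, x = fun i => wd (fun i => ξ i) (l j') (F i j')}) :
    ((-(∑ j, (b j + 3 * (c : ℤ) * ((l j).length : ℤ))) : ℤ) : WithTop ℤ) ≤
      v (Matrix.of fun i j => wd (fun i => ξ i) (l j) (F i j)).det := by
  classical
  have hu0 : 0 ≤ v u := by rw [hu]; exact_mod_cast (Int.natCast_nonneg c)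
  choose w hw using exists_val v t ht
  set D : Fin e → K → K := fun i => ξ i with hD
  set M : Matrix (Fin φ) (Fin φ) K := Matrix.of fun i j => wd D (l j) (F i j) with hM
  set M' : Matrix (Fin φ) (Fin φ) K := Matrix.of fun i j => wd D (l j) (w (b j) * F i j) with hM'
  -- column relation
  have hcol : ∀ j, (fun i => M' i j - w (b j) * M i j) ∈ Submodule.span K
      {x : Fin φ → K | ∃ j' < j, x = fun i => M i j'} := by
    intro j
    have h1 := leibniz_word ξ (l j) (w (b j))
    set T : (K → K) →ₗ[K] (Fin φ → K) := LinearMap.funLeft K K (fun i => F i j) with hT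
    have h2 := Submodule.mem_map_of_mem (f := T) h1
    have h3 : (shortSpan ξ (l j).length).map T ≤ Submodule.span K
        {x : Fin φ → K | ∃ j' < j, x = fun i => M i j'} := by
      unfold shortSpan
      rw [Submodule.map_span, Submodule.span_le]
      rintro _ ⟨_, ⟨l', hl', rfl⟩, rfl⟩
      exact hgreedy j l' hl'
    exact h3 h2
  have hcoef : ∀ j, ∃ cf : Fin φ → K, (∀ j', ¬ j' < j → cf j' = 0) ∧
      ∀ i, M' i j - w (b j) * M i j = ∑ j', M i j' * cf j' := by
    intro j
    have h := hcol j
    refine Submodule.span_induction (p := fun x _ => ∃ cf : Fin φ → K,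
      (∀ j', ¬ j' < j → cf j' = 0) ∧ ∀ i, x i = ∑ j', M i j' * cf j') ?_ ?_ ?_ ?_ h
    · rintro x ⟨j0, hj0, rfl⟩
      refine ⟨fun j' => if j' = j0 then 1 else 0, fun j' hj' => ?_, fun i => ?_⟩
      · show (if j' = j0 then (1 : K) else 0) = 0
        rw [if_neg]; rintro rfl; exact hj' hj0
      · simp
    · exact ⟨fun _ => 0, fun _ _ => rfl, fun i => by simp⟩
    · rintro x y _ _ ⟨cx, hx0, hx⟩ ⟨cy, hy0, hy⟩
      refine ⟨fun j' => cx j' + cy j', fun j' hj' => by
        show cx j' + cy j' = 0
        rw [hx0 j' hj', hy0 j' hj', add_zero],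
        fun i => ?_⟩
      simp only [Pi.add_apply, hx, hy, mul_add, Finset.sum_add_distrib]
    · rintro a x _ ⟨cx, hx0, hx⟩
      refine ⟨fun j' => a * cx j', fun j' hj' => by
        show a * cx j' = 0
        rw [hx0 j' hj', mul_zero], fun i => ?_⟩
      simp only [Pi.smul_apply, smul_eq_mul, hx, Finset.mul_sum]
      exact Finset.sum_congr rfl fun j' _ => by ring
  choose cf hcf0 hcf using hcoef
  set U : Matrix (Fin φ) (Fin φ) K := Matrix.of fun j' j => cf j j' + (if j' = j then w (b j) else 0)
    with hU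
  have hMU : M' = M * U := by
    ext i j
    rw [Matrix.mul_apply]
    have h1 := hcf j i
    have h2 : ∑ j', M i j' * U j' j = ∑ j', M i j' * cf j j' + M i j * w (b j) := by
      have : ∀ j', M i j' * U j' j = M i j' * cf j j' + (if j' = j then M i j' * w (b j) else 0) := by
        intro j'
        simp only [hU, Matrix.of_apply, mul_add]
        split_ifs <;> ring
      simp only [this, Finset.sum_add_distrib, Finset.sum_ite_eq', Finset.mem_univ, if_true]
    rw [h2, ← h1]
    ring
  have hUdet : U.det = ∏ j, w (b j) := by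
    rw [Matrix.det_of_isUpperTriangular]
    · refine Finset.prod_congr rfl fun j _ => ?_
      simp only [hU, Matrix.of_apply, if_true]
      rw [hcf0 j j (lt_irrefl _), zero_add]
    · intro i j hij
      simp only [id] at hij
      simp only [hU, Matrix.of_apply]
      rw [hcf0 j i (not_lt.2 hij.le), if_neg (ne_of_gt hij), add_zero]
  -- scaled matrix
  set M2 : Matrix (Fin φ) (Fin φ) K := Matrix.of fun i j => u ^ (3 * (l j).length) * M' i j with hM2
  have hM2v : 0 ≤ v M2.det := by
    have hent : ∀ i j, M2 i j ∈ vring v := by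
      intro i j
      have h1 : 0 ≤ v (u ^ 0 * (w (b j) * F i j)) := by
        rw [pow_zero, one_mul, v.map_mul, hw]
        have h2 := hF i j
        calc (0 : WithTop ℤ) = ((b j : ℤ) : WithTop ℤ) + ((-b j : ℤ) : WithTop ℤ) := by
              rw [← WithTop.coe_add]; simp
          _ ≤ _ := by gcongr
      have h3 := val_word v ξ u hu0 hpole (l j) 0 _ h1
      rw [zero_add] at h3
      exact h3
    have h : M2.det ∈ vring v := by
      rw [Matrix.det_apply]
      refine Subring.sum_mem _ fun σ _ => ?_
      have h4 : ∏ i, M2 (σ i) i ∈ vring v := Subring.prod_mem _ fun i _ => hent _ _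
      rcases Int.units_eq_one_or (Equiv.Perm.sign σ) with h5 | h5
      · rw [h5, one_smul]; exact h4
      · rw [h5]
        simp only [Units.neg_smul, one_smul]
        exact Subring.neg_mem _ h4
    exact h
  have hM2det : M2.det = (∏ j, u ^ (3 * (l j).length)) * (M.det * ∏ j, w (b j)) := by
    rw [hM2, Matrix.det_mul_row, hMU, Matrix.det_mul, hUdet]
  rw [hM2det, v.map_mul, v.map_mul, v_prod v _ b (fun j => hw (b j)),
    v_prod v _ (fun j => 3 * (c : ℤ) * ((l j).length : ℤ))] at hM2v
  · cases hd : v M.det with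
    | top => exact le_top
    | coe a =>
      rw [hd] at hM2v
      have h5 : (0 : ℤ) ≤ ∑ j, (3 * (c : ℤ) * ((l j).length : ℤ)) + (a + ∑ j, b j) := by
        exact_mod_cast hM2v
      refine WithTop.coe_le_coe.2 ?_
      rw [Finset.sum_add_distrib]
      omega
  · intro j
    rw [v.map_pow, hu]
    rw [← WithTop.coe_nsmul]
    congr 1
    rw [nsmul_eq_mul]
    push_cast
    ring

/-- descent of a linear relation -/
theorem mem_span_descent {K Q : Type*} [Field K] [Field Q] (σ : K →+* Q) {φ : ℕ}
    (S : Set (Fin φ → K)) (x : Fin φ → K)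
    (h : (fun i => σ (x i)) ∈ Submodule.span Q {y : Fin φ → Q | ∃ z ∈ S, y = fun i => σ (z i)}) :
    x ∈ Submodule.span K S := by
  classical
  by_contra hx
  obtain ⟨f, hf1, hf2⟩ := Submodule.exists_dual_map_eq_bot_of_notMem hx inferInstance
  have hfS : ∀ z ∈ S, f z = 0 := by
    intro z hz
    have h1 : f z ∈ (Submodule.span K S).map f := Submodule.mem_map_of_mem (Submodule.subset_span hz)
    rw [hf2] at h1
    exact (Submodule.mem_bot K).1 h1
  set cc : Fin φ → K := fun i => f (Pi.single i 1) with hcc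
  have hfe : ∀ y : Fin φ → K, f y = ∑ i, cc i * y i := by
    intro y
    have h1 : y = ∑ i, y i • (Pi.single i 1 : Fin φ → K) := by
      funext j
      simp [Finset.sum_apply, Pi.single_apply]
    conv_lhs => rw [h1]
    rw [map_sum]
    refine Finset.sum_congr rfl fun i _ => ?_
    rw [map_smul, smul_eq_mul, mul_comm]
  let fQ : (Fin φ → Q) →ₗ[Q] Q := ∑ i, (σ (cc i)) • (LinearMap.proj i : (Fin φ → Q) →ₗ[Q] Q)
  have hfQ : ∀ y : Fin φ → K, fQ (fun i => σ (y i)) = σ (f y) := by
    intro y
    rw [hfe, map_sum]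
    simp only [fQ, LinearMap.sum_apply, LinearMap.smul_apply, LinearMap.proj_apply, smul_eq_mul,
      map_mul]
  have hker : Submodule.span Q {y : Fin φ → Q | ∃ z ∈ S, y = fun i => σ (z i)} ≤ LinearMap.ker fQ := by
    rw [Submodule.span_le]
    rintro _ ⟨z, hz, rfl⟩
    show fQ _ = 0
    rw [hfQ, hfS z hz, map_zero]
  have h2 : fQ (fun i => σ (x i)) = 0 := hker h
  rw [hfQ] at h2
  exact hf1 ((map_eq_zero σ).1 h2)

end Pool.Agent.SYZ68J
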