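import Pool.Agent.SYZ71Z.ZDefs

/-!
# SYZ68J/ZJDefs : words, jets, left action

* `wd D l` : the composition of the operators `D i` along the word `l`;
* `jetIdeal D W K` : the ideal of all `a` with `D_w a ∈ W` for all words `w` of length `≤ K`;
* `jetRank ξ L K` : the rank over the field `Q` of the functions `ξ_w : L → Q`, `|w| ≤ K`;
* `gl σ` : `a ⊗ b ↦ σ a ⊗ b`;  `dl X` : `a ⊗ b ↦ X a ⊗ b` on `F ⊗[k] F`.
-/

set_option autoImplicit false

open Module TensorProduct

universe u v

namespace Pool.Agent.SYZ68J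

/-- the operators `D i` applied along a word -/
def wd {ι A : Type*} (D : ι → A → A) : List ι → A → A
  | [], a => a
  | i :: l, a => wd D l (D i a)

section

variable {R A ι : Type*} [CommRing R] [CommRing A] [Algebra R A]

/-- the ideal of elements whose derivatives of order `≤ K` lie in `W` -/
def jetIdeal (D : ι → Derivation R A A) (W : Ideal A) : ℕ → Ideal A
  | 0 => W
  | K + 1 =>
    { carrier := {a | a ∈ jetIdeal D W K ∧ ∀ i, D i a ∈ jetIdeal D W K}
      add_mem' := by
        rintro a b ⟨ha, ha'⟩ ⟨hb, hb'⟩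
        refine ⟨Ideal.add_mem _ ha hb, fun i => ?_⟩
        rw [map_add]
        exact Ideal.add_mem _ (ha' i) (hb' i)
      zero_mem' := ⟨Ideal.zero_mem _, fun i => by rw [map_zero]; exact Ideal.zero_mem _⟩
      smul_mem' := by
        rintro c a ⟨ha, ha'⟩
        refine ⟨Ideal.mul_mem_left _ _ ha, fun i => ?_⟩
        rw [smul_eq_mul, Derivation.leibniz, smul_eq_mul, smul_eq_mul]
        exact Ideal.add_mem _ (Ideal.mul_mem_left _ _ (ha' i)) (Ideal.mul_mem_right _ _ ha) }

theorem mem_jetIdeal_succ (D : ι → Derivation R A A) (W : Ideal A) (K : ℕ) (a : A) :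
    a ∈ jetIdeal D W (K + 1) ↔ a ∈ jetIdeal D W K ∧ ∀ i, D i a ∈ jetIdeal D W K := Iff.rfl

end

/-- rank of the jets of order `≤ K` on the set `L` -/
noncomputable def jetRank {ι Q : Type*} [Field Q] (ξ : ι → Q → Q) (L : Set Q) (K : ℕ) : ℕ :=
  finrank Q (Submodule.span Q (Set.range
    (fun (l : {l : List ι // l.length ≤ K}) => fun x : L => wd ξ (l : List ι) (x : Q))))

section Tensor

variable {k : Type v} {F : Type u} [Field k] [Field F] [Algebra k F]

/-- `a ⊗ b ↦ σ a ⊗ b` -/
noncomputable def gl (σ : F ≃ₐ[k] F) : F ⊗[k] F ≃ₐ[k] F ⊗[k] F :=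
  Algebra.TensorProduct.congr σ AlgEquiv.refl

@[simp] theorem gl_tmul (σ : F ≃ₐ[k] F) (a b : F) : gl σ (a ⊗ₜ[k] b) = σ a ⊗ₜ[k] b := by
  simp [gl]

/-- `a ⊗ b ↦ X a ⊗ b` -/
noncomputable def dl (X : Derivation k F F) : Derivation k (F ⊗[k] F) (F ⊗[k] F) :=
  Derivation.mk' (LinearMap.rTensor F (X : F →ₗ[k] F)) (by
    intro x y
    induction x with
    | zero => simp
    | tmul a b =>
      induction y with
      | zero => simp
      | tmul c d =>
        simp only [Algebra.TensorProduct.tmul_mul_tmul, LinearMap.rTensor_tmul,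
          Derivation.coeFn_coe, Derivation.leibniz, smul_eq_mul, TensorProduct.add_tmul]
        rw [mul_comm d b]
      | add y z hy hz =>
        simp only [mul_add, map_add, hy, hz, smul_eq_mul, add_mul]
        ring
    | add x z hx hz =>
      simp only [add_mul, map_add, hx, hz, smul_eq_mul, mul_add]
      ring)

@[simp] theorem dl_tmul (X : Derivation k F F) (a b : F) :
    dl X (a ⊗ₜ[k] b) = X a ⊗ₜ[k] b := by
  simp [dl]

end Tensor

end Pool.Agent.SYZ68J
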