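import Pool.Agent.SYZ68J.LJVal
import Pool.Agent.SYZ68J.ZJDefs
import Pool.Agent.SYZ71.CDefs

/-!
# SYZ68J/LJDefs : operators of bounded degree, Hamiltonian data at the fixed point
-/

set_option autoImplicit false

open MvPowerSeries Module

namespace Pool.Agent.SYZ68J

open Pool.Agent.SYZ71

/-- operators of degree `≤ N` in the operators `y a` -/
noncomputable def opSpan {k A ι : Type*} [Field k] [AddCommGroup A] [Module k A]
    (y : ι → Module.End k A) (N : ℕ) : Submodule k (Module.End k A) :=
  (Submodule.span k (insert 1 (Set.range y))) ^ N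

variable {k : Type*} [Field k] {d r e : ℕ}

/-- `ξ_i` is the Hamiltonian derivation of the function `φ_i = s_i / t` on the fraction field of
`k[[z]]`: with a denominator `b`, `ξ_i = Z / b` where `Z` is a vector field and
`ω(Z, Y) = b Y(s_i / t)`; the `φ_i` are invariant and Poisson commute; the `ξ_i` are linearly
independent. -/
structure HamData (ω : Derivation k (PS k d) (PS k d) →ₗ[PS k d]
      Derivation k (PS k d) (PS k d) →ₗ[PS k d] PS k d)
    (g : (Fin r → ℤ) → (PS k d ≃ₐ[k] PS k d)) (t : PS k d) (s : Fin e → PS k d)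
    (ξ : Fin e → Derivation k (QS k d) (QS k d)) : Prop where
  t_ne : t ≠ 0
  inv : ∀ v i, g v (s i) * t = s i * g v t
  ham : ∀ i, ∃ (b : PS k d) (Z : Derivation k (PS k d) (PS k d)), b ≠ 0 ∧
    (∀ a, algebraMap (PS k d) (QS k d) (Z a) =
      algebraMap (PS k d) (QS k d) b * ξ i (algebraMap (PS k d) (QS k d) a)) ∧
    ∀ Y : Derivation k (PS k d) (PS k d), t ^ 2 * ω Z Y = b * (t * Y (s i) - s i * Y t)
  comm : ∀ i j, ξ i (algebraMap (PS k d) (QS k d) (s j) / algebraMap (PS k d) (QS k d) t) = 0
  indep : LinearIndependent (QS k d) ξ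

end Pool.Agent.SYZ68J
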