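import Pool.Agent.SYZ68J.GJDefs
import Pool.Agent.SYZ68J.LJDefs
import Pool.Agent.SYZ71.GForm

/-!
# SYZ68J/GJHam : Hamiltonian derivations of the fraction field of `k[[z]]`

`hamQ ω φ = ∑_j (∑_i ∂_i φ (w⁻¹)_ij) ∂_j` on `Q = Frac k[[z]]` (`∂_i` extended to `Q`), i.e.
`hamQ ω φ x = {φ, x}`.

Proofs.
* `hamQ_algebraMap`: `disc * {a, b} = bracket a b`.
* `hamQ_add`, `hamQ_mul`, `hamQ_const`, `hamQ_skew`: formula; `w⁻¹` is skew since `w` is
  (`adj (wᵀ) = (adj w)ᵀ`, `w` of even or odd size: work with the inverse matrix over `Q`: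
  `wᵀ = - w` gives `(w⁻¹)ᵀ = - w⁻¹`).
* `hamData_of`: `φ_i = s_i / t`.  `b = t² disc`, `Z = ∑_j (∑_i (t ∂_i s - s ∂_i t) (adj w)_ij) ∂_j`.
  `ω(Z, Y) = ∑_(j,l) Z_j Y(X_l) w_jl = ∑_i (t ∂_i s - s ∂_i t) ∑_l (adj w · w)_il Y(X_l)
   = disc (t Y s - s Y t)` (`toForm_apply`, `Matrix.adjugate_mul`, `derivation_eq`), so
  `t² ω(Z, Y) = b (t Y s - s Y t)`.
-/

set_option autoImplicit false

open MvPowerSeries Module

namespace Pool.Agent.SYZ68J

open Pool.Agent.SYZ71

variable {k : Type} [Field k] {d r e : ℕ}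

/-- the Hamiltonian derivation of `φ` -/
noncomputable def hamQ (ω : SymplecticForm k d) (φ : QS k d) :
    Derivation k (QS k d) (QS k d) :=
  ∑ j, (∑ i, extD (pderiv k i) φ *
    (algebraMap (PS k d) (QS k d) ((Matrix.of ω.w).adjugate i j) /
      algebraMap (PS k d) (QS k d) ω.disc)) • extD (pderiv k j)

private theorem sum_smul_applyQ (a : Fin d → QS k d)
    (D : Fin d → Derivation k (QS k d) (QS k d)) (x : QS k d) :
    (∑ j, a j • D j) x = ∑ j, a j * D j x := by
  classical
  have h : ∀ s : Finset (Fin d), (∑ j ∈ s, a j • D j) x = ∑ j ∈ s, a j * D j x := by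
    intro s
    induction s using Finset.induction_on with
    | empty => simp
    | insert i s hi ih =>
      rw [Finset.sum_insert hi, Finset.sum_insert hi, Derivation.add_apply, ih,
        Derivation.smul_apply, smul_eq_mul]
  exact h _

theorem hamQ_apply (ω : SymplecticForm k d) (φ x : QS k d) :
    hamQ ω φ x = ∑ j, (∑ i, extD (pderiv k i) φ *
      (algebraMap (PS k d) (QS k d) ((Matrix.of ω.w).adjugate i j) /
        algebraMap (PS k d) (QS k d) ω.disc)) * extD (pderiv k j) x := by
  unfold hamQ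
  rw [sum_smul_applyQ]

private theorem disc_ne (ω : SymplecticForm k d) :
    algebraMap (PS k d) (QS k d) ω.disc ≠ 0 := by
  intro h
  apply ω.nondegenerate
  apply IsFractionRing.injective (PS k d) (QS k d)
  rw [map_zero]
  exact h

private theorem adj_skew (ω : SymplecticForm k d) (i j : Fin d) :
    (Matrix.of ω.w).adjugate j i = -(Matrix.of ω.w).adjugate i j := by
  have : IsDomain (PS k d) := NoZeroDivisors.to_isDomain _
  obtain ⟨M, hM⟩ : ∃ M, M = Matrix.of ω.w := ⟨_, rfl⟩
  have hdet : M.det ≠ 0 := by rw [hM]; exact ω.nondegenerate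
  rw [← hM]
  have hT : M.transpose = -M := by
    ext1 a b
    rw [hM]
    exact ω.skew a b
  have h1 : M.adjugate.transpose = (-M).adjugate := by
    rw [Matrix.adjugate_transpose, hT]
  have h2 : (-M) * (-M).adjugate = M.det • (1 : Matrix (Fin d) (Fin d) (PS k d)) := by
    rw [Matrix.mul_adjugate, ← hT, Matrix.det_transpose]
  have h3 : M * (-(-M).adjugate) = M * M.adjugate := by
    rw [Matrix.mul_adjugate, ← h2, Matrix.mul_neg, Matrix.neg_mul]
  have h4 : M.det • (-(-M).adjugate) = M.det • M.adjugate := by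
    have h5 := congrArg (fun A => M.adjugate * A) h3
    simp only [← Matrix.mul_assoc, Matrix.adjugate_mul, Matrix.smul_mul, Matrix.one_mul] at h5
    exact h5
  have h6 : -(-M).adjugate = M.adjugate := by
    ext1 a b
    have h7 := congrFun (congrFun h4 a) b
    simp only [Matrix.smul_apply, smul_eq_mul] at h7
    exact mul_left_cancel₀ hdet h7
  have h8 : M.adjugate.transpose i j = -M.adjugate i j := by
    rw [h1]
    have h9 := congrFun (congrFun h6 i) j
    rw [← h9, Matrix.neg_apply, neg_neg]
  exact h8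

theorem hamQ_algebraMap (ω : SymplecticForm k d) (a b : PS k d) :
    hamQ ω (algebraMap (PS k d) (QS k d) a) (algebraMap (PS k d) (QS k d) b) *
      algebraMap (PS k d) (QS k d) ω.disc =
        algebraMap (PS k d) (QS k d) (ω.bracket a b) := by
  have hd := disc_ne ω
  rw [hamQ_apply, SymplecticForm.bracket, Finset.sum_comm]
  rw [map_sum, Finset.sum_mul]
  refine Finset.sum_congr rfl fun j _ => ?_
  rw [map_sum, Finset.sum_mul, Finset.sum_mul]
  refine Finset.sum_congr rfl fun i _ => ?_
  rw [extD_algebraMap, extD_algebraMap, map_mul, map_mul]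
  field_simp

theorem hamQ_skew (ω : SymplecticForm k d) (x y : QS k d) : hamQ ω x y = -hamQ ω y x := by
  rw [hamQ_apply, hamQ_apply, ← Finset.sum_neg_distrib]
  simp only [Finset.sum_mul, ← Finset.sum_neg_distrib]
  rw [Finset.sum_comm]
  refine Finset.sum_congr rfl fun i _ => Finset.sum_congr rfl fun j _ => ?_
  rw [adj_skew ω j i, map_neg]
  ring

theorem hamQ_add (ω : SymplecticForm k d) (x y z : QS k d) :
    hamQ ω (x + y) z = hamQ ω x z + hamQ ω y z := by
  rw [hamQ_apply, hamQ_apply, hamQ_apply, ← Finset.sum_add_distrib]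
  refine Finset.sum_congr rfl fun j _ => ?_
  rw [← add_mul, ← Finset.sum_add_distrib]
  congr 1
  refine Finset.sum_congr rfl fun i _ => ?_
  rw [map_add, add_mul]

theorem hamQ_mul (ω : SymplecticForm k d) (x y z : QS k d) :
    hamQ ω (x * y) z = x * hamQ ω y z + y * hamQ ω x z := by
  rw [hamQ_apply, hamQ_apply, hamQ_apply, Finset.mul_sum, Finset.mul_sum,
    ← Finset.sum_add_distrib]
  refine Finset.sum_congr rfl fun j _ => ?_
  rw [← mul_assoc, ← mul_assoc, ← add_mul, Finset.mul_sum, Finset.mul_sum,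
    ← Finset.sum_add_distrib]
  congr 1
  refine Finset.sum_congr rfl fun i _ => ?_
  rw [Derivation.leibniz, smul_eq_mul, smul_eq_mul]
  ring

theorem hamQ_const (ω : SymplecticForm k d) (c : k) (z : QS k d) :
    hamQ ω (algebraMap k (QS k d) c) z = 0 := by
  rw [hamQ_apply]
  refine Finset.sum_eq_zero fun j _ => ?_
  rw [Finset.sum_eq_zero (fun i _ => ?_), zero_mul]
  rw [Derivation.map_algebraMap, zero_mul]

private theorem sum_smul_apply' (a : Fin d → PS k d) (f : PS k d) :
    (∑ i, a i • pderiv k i : Derivation k (PS k d) (PS k d)) f = ∑ i, a i * pderiv k i f := by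
  have h := map_sum (Derivation.coeFnAddMonoidHom (R := k) (A := PS k d) (M := PS k d))
    (fun i => a i • pderiv k i) Finset.univ
  have h2 := congrFun h f
  rw [Finset.sum_apply] at h2
  exact h2

private theorem extD_div (D : Derivation k (PS k d) (PS k d)) (s t : PS k d) (ht : t ≠ 0) :
    extD D (algebraMap (PS k d) (QS k d) s / algebraMap (PS k d) (QS k d) t) *
      algebraMap (PS k d) (QS k d) (t ^ 2) =
      algebraMap (PS k d) (QS k d) (t * D s - s * D t) := by
  have ht' : algebraMap (PS k d) (QS k d) t ≠ 0 := by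
    intro h
    exact ht (IsFractionRing.injective (PS k d) (QS k d) (by rw [h, map_zero]))
  have h1 : algebraMap (PS k d) (QS k d) s / algebraMap (PS k d) (QS k d) t *
      algebraMap (PS k d) (QS k d) t = algebraMap (PS k d) (QS k d) s := div_mul_cancel₀ _ ht'
  have h2 := congrArg (extD D) h1
  rw [Derivation.leibniz, extD_algebraMap, extD_algebraMap, smul_eq_mul, smul_eq_mul] at h2
  rw [map_sub, map_mul, map_mul, map_pow, ← h2]
  obtain ⟨E, hE⟩ : ∃ E, E = extD D (algebraMap (PS k d) (QS k d) s /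
    algebraMap (PS k d) (QS k d) t) := ⟨_, rfl⟩
  rw [← hE]
  field_simp
  ring

theorem hamData_of [CharZero k] (ω : SymplecticForm k d)
    (g : (Fin r → ℤ) → (PS k d ≃ₐ[k] PS k d)) (t : PS k d) (ht : t ≠ 0) (s : Fin e → PS k d)
    (hinv : ∀ v i, g v (s i) * t = s i * g v t)
    (hcomm : ∀ i j, hamQ ω (algebraMap (PS k d) (QS k d) (s i) / algebraMap (PS k d) (QS k d) t)
      (algebraMap (PS k d) (QS k d) (s j) / algebraMap (PS k d) (QS k d) t) = 0)
    (hind : LinearIndependent (QS k d) (fun i =>
      hamQ ω (algebraMap (PS k d) (QS k d) (s i) / algebraMap (PS k d) (QS k d) t))) :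
    HamData ω.toForm g t s (fun i =>
      hamQ ω (algebraMap (PS k d) (QS k d) (s i) / algebraMap (PS k d) (QS k d) t)) := by
  have : IsDomain (PS k d) := NoZeroDivisors.to_isDomain _
  refine ⟨ht, hinv, ?_, hcomm, hind⟩
  intro i
  have hd := disc_ne ω
  have ht' : algebraMap (PS k d) (QS k d) t ≠ 0 := by
    intro h
    exact ht (IsFractionRing.injective (PS k d) (QS k d) (by rw [h, map_zero]))
  obtain ⟨c, hc⟩ : ∃ c : Fin d → PS k d, c = fun a => t * pderiv k a (s i)
    - s i * pderiv k a t := ⟨_, rfl⟩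
  have hcsum : ∀ Y : Derivation k (PS k d) (PS k d),
      ∑ a, c a * Y (X a) = t * Y (s i) - s i * Y t := by
    intro Y
    rw [derivation_eq Y (s i), derivation_eq Y t, Finset.mul_sum, Finset.mul_sum,
      ← Finset.sum_sub_distrib, hc]
    refine Finset.sum_congr rfl fun a _ => ?_
    ring
  refine ⟨t ^ 2 * ω.disc, ∑ j, (∑ a, c a * (Matrix.of ω.w).adjugate a j) • pderiv k j,
    mul_ne_zero (pow_ne_zero _ ht) ω.nondegenerate, ?_, ?_⟩
  · intro x
    rw [sum_smul_apply', hamQ_apply, map_sum, Finset.mul_sum]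
    refine Finset.sum_congr rfl fun j _ => ?_
    rw [map_mul, map_sum, extD_algebraMap, ← mul_assoc, Finset.mul_sum]
    congr 1
    refine Finset.sum_congr rfl fun a _ => ?_
    have h1 := extD_div (pderiv k a) (s i) t ht
    have h2 : algebraMap (PS k d) (QS k d) (c a) =
        algebraMap (PS k d) (QS k d) (t * pderiv k a (s i) - s i * pderiv k a t) := by rw [hc]
    rw [map_mul, h2, ← h1, map_mul]
    field_simp
  · intro Y
    rw [SymplecticForm.toForm_apply]
    have hZX : ∀ j, (∑ j, (∑ a, c a * (Matrix.of ω.w).adjugate a j) • pderiv k j) (X j) =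
        ∑ a, c a * (Matrix.of ω.w).adjugate a j := by
      intro j
      exact mkDer_X (fun j => ∑ a, c a * (Matrix.of ω.w).adjugate a j) j
    simp only [hZX]
    have h1 : ∑ j, ∑ l, (∑ a, c a * (Matrix.of ω.w).adjugate a j) * Y (X l) * ω.w j l =
        ω.disc * ∑ a, c a * Y (X a) := by
      have h2 : ∀ a l, ∑ j, (Matrix.of ω.w).adjugate a j * ω.w j l =
          if a = l then ω.disc else 0 := by
        intro a l
        have h3 := congrFun (congrFun (Matrix.adjugate_mul (Matrix.of ω.w)) a) l
        rw [Matrix.mul_apply, Matrix.smul_apply, Matrix.one_apply, smul_eq_mul] at h3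
        rw [mul_ite, mul_one, mul_zero] at h3
        exact h3
      calc ∑ j, ∑ l, (∑ a, c a * (Matrix.of ω.w).adjugate a j) * Y (X l) * ω.w j l
          = ∑ a, ∑ l, c a * Y (X l) * ∑ j, (Matrix.of ω.w).adjugate a j * ω.w j l := by
            simp only [Finset.sum_mul, Finset.mul_sum]
            rw [Finset.sum_comm]
            rw [show (∑ y, ∑ x, ∑ i, c i * (Matrix.of ω.w).adjugate i x * Y (X y) * ω.w x y) =
              ∑ y, ∑ i, ∑ x, c i * (Matrix.of ω.w).adjugate i x * Y (X y) * ω.w x y from
              Finset.sum_congr rfl fun y _ => Finset.sum_comm]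
            rw [Finset.sum_comm]
            refine Finset.sum_congr rfl fun a _ => Finset.sum_congr rfl fun l _ =>
              Finset.sum_congr rfl fun j _ => ?_
            ring
        _ = ∑ a, c a * Y (X a) * ω.disc := by
            refine Finset.sum_congr rfl fun a _ => ?_
            simp only [h2]
            rw [Finset.sum_eq_single a]
            · rw [if_pos rfl]
            · intro l _ hl
              rw [if_neg (Ne.symm hl), mul_zero]
            · intro h; exact absurd (Finset.mem_univ a) h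
        _ = ω.disc * ∑ a, c a * Y (X a) := by rw [← Finset.sum_mul, mul_comm]
    rw [h1, hcsum]
    ring

end Pool.Agent.SYZ68J
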