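import Mathlib

/-!
# SYZ68J/JGreedy : a basis chosen greedily with respect to a degree

`x_s ∈ Q^φ` (`s ∈ S` finite) spanning vectors, `deg : S → ℕ`.  There is a basis `x_(b 0), …,
x_(b (φ-1))` with `deg (b j)` nondecreasing such that every `x_s` with `deg s < deg (b j)` is in the
span of the `x_(b j')`, `j' < j`.

Proof.  By induction on `m` choose finite sets `B_0 ⊆ B_1 ⊆ … ⊆ S` such that `B_m ⊆ {deg ≤ m}`, the
`x_s`, `s ∈ B_m`, are linearly independent (`x` injective on `B_m`) and span the `x_s` with
`deg s ≤ m` (`exists_linearIndepOn_extension`-like), `B_(m+1) ∖ B_m ⊆ {deg = m + 1}`.  For `m` large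
`B_m` has `φ` elements; sort it by degree.  If `deg s < deg (b j)` then `x_s` is in the span of
`B_(deg s)`, whose elements have degree `< deg (b j)`, so they are `b j'` with `j' < j`.
-/

set_option autoImplicit false

namespace Pool.Agent.SYZ68J

/-- a family in which no member is in the span of the previous ones is linearly independent -/
theorem linearIndependent_of_notMem_span_lt {Q V : Type*} [Field Q] [AddCommGroup V] [Module Q V] :
    ∀ {n : ℕ} (v : Fin n → V), (∀ i, v i ∉ Submodule.span Q (v '' {j | j < i})) →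
      LinearIndependent Q v := by
  intro n
  induction n with
  | zero => intro v _; exact linearIndependent_empty_type
  | succ n ih =>
    intro v h
    rw [linearIndependent_finSucc']
    refine ⟨ih _ fun i hi => h i.castSucc ?_, fun hl => h (Fin.last n) ?_⟩
    · refine Submodule.span_mono ?_ hi
      rintro _ ⟨j, hj, rfl⟩
      exact ⟨j.castSucc, by simpa using hj, rfl⟩
    · refine Submodule.span_mono ?_ hl
      rintro _ ⟨j, rfl⟩
      exact ⟨j.castSucc, Fin.castSucc_lt_last j, rfl⟩

theorem exists_greedy {Q S : Type*} [Field Q] [Finite S] {φ : ℕ} (x : S → Fin φ → Q)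
    (deg : S → ℕ) (hspan : Submodule.span Q (Set.range x) = ⊤) :
    ∃ b : Fin φ → S, LinearIndependent Q (fun j => x (b j)) ∧ Monotone (fun j => deg (b j)) ∧
      ∀ (j : Fin φ) (s : S), deg s < deg (b j) →
        x s ∈ Submodule.span Q {y | ∃ j' < j, y = x (b j')} := by
  classical
  obtain ⟨N, ⟨e₀⟩⟩ := Finite.exists_equiv_fin S
  let σ := Tuple.sort (deg ∘ e₀.symm)
  have hσ : Monotone ((deg ∘ e₀.symm) ∘ σ) := Tuple.monotone_sort _
  let e : Fin N ≃ S := σ.trans e₀.symm
  have hdeg : Monotone (fun i => deg (e i)) := hσ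
  let x' : Fin N → Fin φ → Q := fun i => x (e i)
  let B : Finset (Fin N) := Finset.univ.filter fun i => x' i ∉ Submodule.span Q (x' '' {j | j < i})
  have hB : ∀ i, i ∈ B ↔ x' i ∉ Submodule.span Q (x' '' {j | j < i}) := fun i => by
    simp [B]
  have h1 : ∀ i, x' i ∈ Submodule.span Q (x' '' {j | j ∈ B ∧ j ≤ i}) := by
    intro i
    induction i using WellFoundedLT.induction with
    | _ i ih =>
      by_cases hi : i ∈ B
      · exact Submodule.subset_span ⟨i, ⟨hi, le_rfl⟩, rfl⟩
      · rw [hB, not_not] at hi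
        refine (Submodule.span_le.2 ?_) hi
        rintro _ ⟨j, hj, rfl⟩
        refine Submodule.span_mono ?_ (ih j hj)
        rintro _ ⟨l, ⟨hl, hlj⟩, rfl⟩
        exact ⟨l, ⟨hl, hlj.trans (le_of_lt hj)⟩, rfl⟩
  let c : Fin B.card ↪o Fin N := B.orderEmbOfFin rfl
  have hc : ∀ i, c i ∈ B := fun i => Finset.orderEmbOfFin_mem B rfl i
  have hcr : ∀ j ∈ B, ∃ i, c i = j := by
    intro j hj
    have : j ∈ Set.range (B.orderEmbOfFin rfl) := by
      rw [Finset.range_orderEmbOfFin]; exact hj
    exact this
  have hli : LinearIndependent Q (fun i => x' (c i)) := by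
    apply linearIndependent_of_notMem_span_lt
    intro i hi
    refine (hB (c i)).1 (hc i) (Submodule.span_mono ?_ hi)
    rintro _ ⟨j, hj, rfl⟩
    exact ⟨c j, c.strictMono hj, rfl⟩
  have hsp : Submodule.span Q (Set.range (fun i => x' (c i))) = ⊤ := by
    rw [eq_top_iff, ← hspan, Submodule.span_le]
    rintro _ ⟨s, rfl⟩
    have h2 := h1 (e.symm s)
    simp only [x', Equiv.apply_symm_apply] at h2
    refine Submodule.span_mono ?_ h2
    rintro _ ⟨j, ⟨hj, -⟩, rfl⟩
    obtain ⟨i, rfl⟩ := hcr j hj
    exact ⟨i, rfl⟩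
  have hcard : B.card = φ := by
    have := Module.finrank_eq_card_basis (Module.Basis.mk hli hsp.ge)
    simpa using this.symm
  let f : Fin φ ≃o Fin B.card := Fin.castOrderIso hcard.symm
  refine ⟨fun j => e (c (f j)), hli.comp f f.injective, ?_, ?_⟩
  · intro j j' hj
    exact hdeg (c.monotone (f.monotone hj))
  · intro j s hs
    have h2 := h1 (e.symm s)
    simp only [x', Equiv.apply_symm_apply] at h2
    refine Submodule.span_mono ?_ h2
    rintro _ ⟨l, ⟨hl, hls⟩, rfl⟩
    obtain ⟨i, rfl⟩ := hcr l hl
    refine ⟨f.symm i, ?_, ?_⟩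
    · by_contra hcon
      rw [not_lt] at hcon
      have h3 : f j ≤ i := by
        have := f.monotone hcon
        simpa using this
      have h4 : c (f j) ≤ e.symm s := (c.monotone h3).trans hls
      have h5 : deg (e (c (f j))) ≤ deg s := by
        have := hdeg h4
        simpa using this
      exact absurd hs (not_lt.2 h5)
    · simp

end Pool.Agent.SYZ68J
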