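import Pool.Agent.SYZ68J.JDouble

/-!
# SYZ68J/JMisc : elementary properties of the jet rank

* `jetRank_iterate`: iterate `jetRank_double`: `K ≤ 2^a (K' + 1) - 1`.
* `jetRank_mono_left`: restriction of functions `(L' → Q) → (L → Q)` is linear and maps the functions
  of the words to the functions of the words.
* `jetRank_mul_left`: for `y ≠ 0`: `ξ_l (y x)` is a combination of the `ξ_l' x`, `l'` a sublist of `l`
  (coefficients independent of `x`), so the functions `x ↦ ξ_l (y x)` on `L` are in the span of the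
  `x ↦ ξ_l' x`, `|l'| ≤ |l|`: `jetRank ξ (y L) K ≤ jetRank ξ L K`; apply this to `y⁻¹` and `y L`.
* `jetRank_map`: if words are such that all `ξF`-functions on `L` are `F`-combinations of them, apply
  `σ`; so the `Q`-rank is at most the `F`-rank.
* `one_le_jetRank`: the empty word gives the inclusion `L → Q`, nonzero.
-/

set_option autoImplicit false

open Module

namespace Pool.Agent.SYZ68J

private instance finWords {ι : Type*} [Finite ι] (K : ℕ) : Finite {l : List ι // l.length ≤ K} :=
  (List.finite_length_le ι K).to_subtype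

private theorem jetRank_mono_right {ι Q : Type*} [Finite ι] [Field Q] (ξ : ι → Q → Q) (L : Set Q)
    {K K' : ℕ} (h : K ≤ K') : jetRank ξ L K ≤ jetRank ξ L K' := by
  unfold jetRank
  have : FiniteDimensional Q (Submodule.span Q (Set.range
    (fun (l : {l : List ι // l.length ≤ K'}) => fun x : L => wd ξ (l : List ι) (x : Q)))) :=
    FiniteDimensional.span_of_finite Q (Set.finite_range _)
  apply Submodule.finrank_mono
  apply Submodule.span_mono
  rintro _ ⟨⟨l, hl⟩, rfl⟩
  exact ⟨⟨l, hl.trans h⟩, rfl⟩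

theorem jetRank_iterate {R Q : Type*} [CommRing R] [Field Q] [Algebra R Q] {e : ℕ}
    (ξ : Fin e → Derivation R Q Q) (hξ : ∀ i j x, ξ i (ξ j x) = ξ j (ξ i x))
    (L : Set Q) (K K' a : ℕ) (h : K + 1 ≤ 2 ^ a * (K' + 1)) :
    jetRank (fun i => ξ i) L K ≤ 2 ^ (e * a) * jetRank (fun i => ξ i) L K' := by
  induction a generalizing K' with
  | zero =>
    simp only [pow_zero, one_mul, mul_zero] at h ⊢
    exact jetRank_mono_right _ L (by omega)
  | succ a ih =>
    have h1 := ih (2 * K' + 1) (by
      refine h.trans (le_of_eq ?_)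
      ring)
    refine h1.trans ?_
    have h2 := Nat.mul_le_mul_left (2 ^ (e * a)) (jetRank_double ξ hξ L K')
    refine h2.trans (le_of_eq ?_)
    rw [← mul_assoc, ← pow_add, mul_add, mul_one]

private theorem finrank_span_map_le {ι Q A B : Type*} [Finite ι] [Field Q] [AddCommGroup A]
    [Module Q A] [AddCommGroup B] [Module Q B] (T : A →ₗ[Q] B) (f : ι → A) (S : Submodule Q B)
    (hS : S ≤ (Submodule.span Q (Set.range f)).map T) :
    finrank Q S ≤ finrank Q (Submodule.span Q (Set.range f)) := by
  have : FiniteDimensional Q (Submodule.span Q (Set.range f)) :=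
    FiniteDimensional.span_of_finite Q (Set.finite_range _)
  exact (Submodule.finrank_mono hS).trans (Submodule.finrank_map_le T _)

theorem jetRank_mono_left {ι Q : Type*} [Finite ι] [Field Q] (ξ : ι → Q → Q) {L L' : Set Q}
    (h : L ⊆ L') (K : ℕ) : jetRank ξ L K ≤ jetRank ξ L' K := by
  unfold jetRank
  apply finrank_span_map_le (LinearMap.funLeft Q Q (Set.inclusion h))
  rw [Submodule.span_le]
  rintro _ ⟨l, rfl⟩
  exact ⟨fun x : L' => wd ξ (l : List ι) (x : Q), Submodule.subset_span ⟨l, rfl⟩, rfl⟩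

private theorem wd_add {R Q : Type*} [CommRing R] [Field Q] [Algebra R Q] {e : ℕ}
    (ξ : Fin e → Derivation R Q Q) (l : List (Fin e)) (x y : Q) :
    wd (fun i => ξ i) l (x + y) = wd (fun i => ξ i) l x + wd (fun i => ξ i) l y := by
  induction l generalizing x y with
  | nil => rfl
  | cons i l ih =>
    simp only [wd]
    rw [map_add, ih]

private theorem wd_mul_mem {R Q : Type*} [CommRing R] [Field Q] [Algebra R Q] {e : ℕ}
    (ξ : Fin e → Derivation R Q Q) (l : List (Fin e)) (K : ℕ) (hl : l.length ≤ K) (z : Q) :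
    (fun x : Q => wd (fun i => ξ i) l (z * x)) ∈ Submodule.span Q (Set.range
      (fun (l : {l : List (Fin e) // l.length ≤ K}) => fun x : Q =>
        wd (fun i => ξ i) (l : List (Fin e)) x)) := by
  induction l generalizing K z with
  | nil =>
    have h := Submodule.smul_mem (Submodule.span Q (Set.range
      (fun (l : {l : List (Fin e) // l.length ≤ K}) => fun x : Q =>
        wd (fun i => ξ i) (l : List (Fin e)) x))) z
        (Submodule.subset_span ⟨⟨[], by simp⟩, rfl⟩)
    exact h
  | cons i l ih =>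
    obtain ⟨K, rfl⟩ : ∃ K', K = K' + 1 := ⟨K - 1, by simp at hl; omega⟩
    have hl' : l.length ≤ K := by simpa using hl
    have e1 : (fun x : Q => wd (fun i => ξ i) (i :: l) (z * x))
        = (fun x : Q => wd (fun i => ξ i) l (z * ξ i x))
          + fun x : Q => wd (fun i => ξ i) l (ξ i z * x) := by
      funext x
      simp only [wd, Pi.add_apply]
      rw [Derivation.leibniz, wd_add, smul_eq_mul, smul_eq_mul, mul_comm x (ξ i z)]
    rw [e1]
    refine Submodule.add_mem _ ?_ ?_
    · have h1 := ih K hl' z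
      have h2 : (fun x : Q => wd (fun i => ξ i) l (z * ξ i x))
          = LinearMap.funLeft Q Q (fun x : Q => ξ i x)
            (fun x : Q => wd (fun i => ξ i) l (z * x)) := rfl
      rw [h2]
      have h3 := Submodule.mem_map_of_mem (f := LinearMap.funLeft Q Q (fun x : Q => ξ i x)) h1
      rw [Submodule.map_span] at h3
      refine Submodule.span_mono ?_ h3
      rintro _ ⟨_, ⟨⟨l', hl''⟩, rfl⟩, rfl⟩
      exact ⟨⟨i :: l', by simpa using hl''⟩, rfl⟩
    · refine Submodule.span_mono ?_ (ih K hl' (ξ i z))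
      rintro _ ⟨⟨l', hl''⟩, rfl⟩
      exact ⟨⟨l', by omega⟩, rfl⟩

theorem jetRank_mul_left {R Q : Type*} [CommRing R] [Field Q] [Algebra R Q] {e : ℕ}
    (ξ : Fin e → Derivation R Q Q) (L : Set Q) (K : ℕ) (y : Q) (hy : y ≠ 0) :
    jetRank (fun i => ξ i) L K ≤ jetRank (fun i => ξ i) ((fun x => y * x) '' L) K := by
  unfold jetRank
  set S := Submodule.span Q (Set.range (fun (l : {l : List (Fin e) // l.length ≤ K}) =>
    fun x : Q => wd (fun i => ξ i) (l : List (Fin e)) x)) with hS
  let T : (((fun x => y * x) '' L : Set Q) → Q) →ₗ[Q] (L → Q) :=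
    LinearMap.funLeft Q Q (fun x : L => (⟨y * x, ⟨x, x.2, rfl⟩⟩ : ((fun x => y * x) '' L : Set Q)))
  let T' : (Q → Q) →ₗ[Q] (L → Q) := LinearMap.funLeft Q Q (fun x : L => y * (x : Q))
  apply finrank_span_map_le T
  rw [Submodule.span_le]
  rintro _ ⟨⟨l, hl⟩, rfl⟩
  have h1 := Submodule.mem_map_of_mem (f := T') (wd_mul_mem ξ l K hl y⁻¹)
  have h2 : T' (fun x : Q => wd (fun i => ξ i) l (y⁻¹ * x)) =
      fun x : L => wd (fun i => ξ i) l (x : Q) := by
    funext x
    simp only [T', LinearMap.funLeft_apply]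
    rw [← mul_assoc, inv_mul_cancel₀ hy, one_mul]
  rw [h2, Submodule.map_span] at h1
  rw [Submodule.map_span]
  refine Submodule.span_mono ?_ h1
  rintro _ ⟨_, ⟨l', rfl⟩, rfl⟩
  exact ⟨_, ⟨l', rfl⟩, rfl⟩

theorem jetRank_map {ι F Q : Type*} [Finite ι] [Field F] [Field Q] (σ : F →+* Q)
    (ξF : ι → F → F) (ξQ : ι → Q → Q) (h : ∀ i x, ξQ i (σ x) = σ (ξF i x)) (L : Set F) (K : ℕ) :
    jetRank ξQ (σ '' L) K ≤ jetRank ξF L K := by
  have hw : ∀ (l : List ι) (x : F), wd ξQ l (σ x) = σ (wd ξF l x) := by
    intro l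
    induction l with
    | nil => intro x; rfl
    | cons i l ih => intro x; simp only [wd]; rw [h, ih]
  unfold jetRank
  set f : {l : List ι // l.length ≤ K} → (L → F) :=
    fun l => fun x : L => wd ξF (l : List ι) (x : F) with hf
  have hfin : FiniteDimensional F (Submodule.span F (Set.range f)) :=
    FiniteDimensional.span_of_finite F (Set.finite_range _)
  set n := finrank F (Submodule.span F (Set.range f)) with hn
  let b := Module.finBasis F (Submodule.span F (Set.range f))
  choose g hg hg' using fun u : (σ '' L : Set Q) => u.2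
  let B : Fin n → ((σ '' L : Set Q) → Q) := fun j u =>
    σ ((b j : L → F) ⟨g u, hg u⟩)
  have hle : Submodule.span Q (Set.range (fun (l : {l : List ι // l.length ≤ K}) =>
      fun x : (σ '' L : Set Q) => wd ξQ (l : List ι) (x : Q))) ≤ Submodule.span Q (Set.range B) := by
    rw [Submodule.span_le]
    rintro _ ⟨l, rfl⟩
    have hl : f l ∈ Submodule.span F (Set.range f) := Submodule.subset_span ⟨l, rfl⟩
    have h1 := b.sum_repr ⟨f l, hl⟩
    have h2 : f l = ∑ j, b.repr ⟨f l, hl⟩ j • (b j : L → F) := by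
      have h6 := congrArg (Submodule.subtype (Submodule.span F (Set.range f))) h1
      rw [map_sum] at h6
      simp only [map_smul] at h6
      exact h6.symm
    have h3 : (fun x : (σ '' L : Set Q) => wd ξQ (l : List ι) (x : Q))
        = ∑ j, σ (b.repr ⟨f l, hl⟩ j) • B j := by
      funext u
      have h4 : wd ξQ (l : List ι) (u : Q) = σ (f l ⟨g u, hg u⟩) := by
        rw [← hg' u, hw]
      rw [h4]
      have h5 := congrFun h2 ⟨g u, hg u⟩
      rw [h5]
      simp only [Finset.sum_apply, Pi.smul_apply, smul_eq_mul, map_sum, map_mul, B]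
    show (fun x : (σ '' L : Set Q) => wd ξQ (l : List ι) (x : Q)) ∈ Submodule.span Q (Set.range B)
    rw [h3]
    exact Submodule.sum_mem _ fun j _ => Submodule.smul_mem _ _ (Submodule.subset_span ⟨j, rfl⟩)
  have hfin2 : FiniteDimensional Q (Submodule.span Q (Set.range B)) :=
    FiniteDimensional.span_of_finite Q (Set.finite_range _)
  refine (Submodule.finrank_mono hle).trans ?_
  refine (finrank_range_le_card B).trans ?_
  simp

theorem one_le_jetRank {ι Q : Type*} [Finite ι] [Field Q] (ξ : ι → Q → Q) (L : Set Q) (K : ℕ)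
    (h : ∃ x ∈ L, x ≠ 0) : 1 ≤ jetRank ξ L K := by
  obtain ⟨x, hx, hx0⟩ := h
  unfold jetRank
  set S := Submodule.span Q (Set.range
    (fun (l : {l : List ι // l.length ≤ K}) => fun x : L => wd ξ (l : List ι) (x : Q))) with hS
  have hfin : FiniteDimensional Q S := FiniteDimensional.span_of_finite Q (Set.finite_range _)
  have hmem : (fun x : L => (x : Q)) ∈ S := Submodule.subset_span ⟨⟨[], by simp⟩, rfl⟩
  have hne : S ≠ ⊥ := by
    intro h0
    rw [h0, Submodule.mem_bot] at hmem
    exact hx0 (congrFun hmem ⟨x, hx⟩)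
  have hpos : 0 < finrank Q S := by
    rw [Module.finrank_pos_iff]
    exact Submodule.nontrivial_iff_ne_bot.2 hne
  exact hpos

end Pool.Agent.SYZ68J
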