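import Pool.Agent.SYZ68J.LJMain
import Pool.Agent.SYZ68J.JMisc
import Pool.Agent.SYZ68J.JGreedy

/-!
# SYZ68J/JRank : the rank of the jet functionals on `L D E`

`UpperJ`: the upper bound for the order of greedy determinants; `RankJ`: the rank bound.

Proof of `rankJ_of`.  `M, C₁` from `LocalBoundJ`, `C₂` from `UpperJ`.  Let `D, E, V, φ, f` be given
(so `E ≥ 1`), `ρ = jetRank ξ (L D E) E`, and suppose some determinant is not `0`.  Let
`S = {l : |l| ≤ E} × [0, V]^r` (a finite type: `List` of bounded length, `Fin r → Fin (V + 1)`),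
`x_(l,v) = (ξ_l g_(M v) f_i)_i ∈ Q^φ`; they span `Q^φ` (a nonzero determinant: independent columns,
`Matrix.linearIndependent_cols_iff_isUnit`).  `exists_greedy` with `deg (l, v) = |l|`: `(l_j, v_j)`
with `Δ = det ≠ 0`.  `UpperJ` for `v' = M v_j ≤ M V`:
`ordQ Δ ≤ C₂ φ (D + E + D (M V)² + E) ≤ C₂ (3 + M²) E φ`.  With `q = (C₂ (3 + M²) + 1) E`:
if `C₁ (jetRank ξ (L D E) (C₁ q) * q^m) ≤ φ` then `q φ ≤ ordQ Δ < q φ`, contradiction (`φ ≥ 1`).
So `φ < C₁ jetRank(C₁ q) q^m ≤ C ρ E^m` by `jetRank_iterate` (`C₁ q + 1 ≤ 2^a (E + 1)` for a fixed `a`);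
choose `C` accordingly.
-/

set_option autoImplicit false

open MvPowerSeries Module

namespace Pool.Agent.SYZ68J

open Pool.Agent.SYZ71

variable {k : Type*} [Field k] {d r e : ℕ}

/-- the matrix of the functionals `ξ_(l j) g_(v j)` on the elements `f i` -/
noncomputable def jetMat (g : (Fin r → ℤ) → (PS k d ≃ₐ[k] PS k d))
    (ξ : Fin e → Derivation k (QS k d) (QS k d)) {φ : ℕ} (f : Fin φ → PS k d)
    (v : Fin φ → Fin r → ℕ) (l : Fin φ → List (Fin e)) : Matrix (Fin φ) (Fin φ) (QS k d) :=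
  Matrix.of fun i j => wd (fun i => ξ i) (l j)
    (algebraMap (PS k d) (QS k d) (g (fun c => ((v j c : ℕ) : ℤ)) (f i)))

/-- all functionals of lower order at the same group element are combinations of earlier ones -/
def Greedy (g : (Fin r → ℤ) → (PS k d ≃ₐ[k] PS k d))
    (ξ : Fin e → Derivation k (QS k d) (QS k d)) {φ : ℕ} (f : Fin φ → PS k d)
    (v : Fin φ → Fin r → ℕ) (l : Fin φ → List (Fin e)) : Prop :=
  ∀ (j : Fin φ) (l' : List (Fin e)), l'.length < (l j).length →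
    (fun i => wd (fun i => ξ i) l'
      (algebraMap (PS k d) (QS k d) (g (fun c => ((v j c : ℕ) : ℤ)) (f i)))) ∈
    Submodule.span (QS k d) {x | ∃ j' < j, x = fun i => jetMat g ξ f v l i j'}

/-- upper bound for the order of greedy determinants -/
def UpperJ (g : (Fin r → ℤ) → (PS k d ≃ₐ[k] PS k d))
    (ξ : Fin e → Derivation k (QS k d) (QS k d)) (L : ℕ → ℕ → Submodule k (PS k d)) : Prop :=
  ∃ C : ℕ, ∀ (D E K V φ : ℕ) (f : Fin φ → PS k d) (v : Fin φ → Fin r → ℕ)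
    (l : Fin φ → List (Fin e)), 1 ≤ D → (∀ i, f i ∈ L D E) → (∀ j, (l j).length ≤ K) →
    (∀ j c, v j c ≤ V) → Greedy g ξ f v l → (jetMat g ξ f v l).det ≠ 0 →
    ordQ k d (jetMat g ξ f v l).det ≤
      (((C * (φ * (D + E + D * V ^ 2 + K)) : ℕ) : ℤ) : WithTop ℤ)

/-- the rank of the functionals `ξ_l g_(M v)`, `|l| ≤ E`, `v ∈ [0,V]^r`, `D V² ≤ E`, on `L D E` is at
most `C ρ E^m` -/
def RankJ (m : ℕ) (g : (Fin r → ℤ) → (PS k d ≃ₐ[k] PS k d))
    (ξ : Fin e → Derivation k (QS k d) (QS k d)) (L : ℕ → ℕ → Submodule k (PS k d)) : Prop :=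
  ∃ M C : ℕ, 1 ≤ M ∧ 1 ≤ C ∧ ∀ (D E V φ : ℕ) (f : Fin φ → PS k d) (v : Fin φ → Fin r → ℕ)
    (l : Fin φ → List (Fin e)), 1 ≤ D → 1 ≤ V → D * V ^ 2 ≤ E → (∀ i, f i ∈ L D E) →
    (∀ j, (l j).length ≤ E) → (∀ j c, v j c ≤ V) →
    C * (jetRank (fun i => ξ i) (algebraMap (PS k d) (QS k d) '' (L D E : Set (PS k d))) E *
      E ^ m) < φ →
    (jetMat g ξ f (fun j c => M * v j c) l).det = 0

theorem rankJ_of (m : ℕ) (g : (Fin r → ℤ) → (PS k d ≃ₐ[k] PS k d))
    (ξ : Fin e → Derivation k (QS k d) (QS k d)) (hξ : ∀ i j x, ξ i (ξ j x) = ξ j (ξ i x))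
    (L : ℕ → ℕ → Submodule k (PS k d)) (hloc : LocalBoundJ m g ξ) (hup : UpperJ g ξ L) :
    RankJ m g ξ L := by
  obtain ⟨M, C1, hM, hC1, hloc⟩ := hloc
  obtain ⟨C2, hup⟩ := hup
  set c3 : ℕ := C2 * (3 + M ^ 2) + 1 with hc3
  set a : ℕ := C1 * c3 + 1 with ha
  refine ⟨M, C1 * 2 ^ (e * a) * c3 ^ m, hM, ?_, ?_⟩
  · have h1 : 1 ≤ c3 := by omega
    exact Nat.one_le_iff_ne_zero.2 (by positivity)
  intro D E V φ f v l hD hV hDV hf hl hv hφ
  by_contra hdet
  have hE : 1 ≤ E := le_trans (by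
    have : 1 ≤ V ^ 2 := Nat.one_le_pow _ _ hV
    exact Nat.mul_le_mul hD this) hDV
  have hφ1 : 1 ≤ φ := by omega
  -- the finite family of all functionals
  let S := {l : List (Fin e) // l.length ≤ E} × (Fin r → Fin (V + 1))
  have hfin : Finite {l : List (Fin e) // l.length ≤ E} := by
    have h := List.finite_length_le (Fin e) E
    exact h.to_subtype
  have hfinS : Finite S := inferInstance
  let x : S → Fin φ → QS k d := fun s i => wd (fun i => ξ i) (s.1 : List (Fin e))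
    (algebraMap (PS k d) (QS k d) (g (fun c => ((M * (s.2 c : ℕ) : ℕ) : ℤ)) (f i)))
  let deg : S → ℕ := fun s => (s.1 : List (Fin e)).length
  have hspan : Submodule.span (QS k d) (Set.range x) = ⊤ := by
    have hli : LinearIndependent (QS k d)
        (fun j => (jetMat g ξ f (fun j c => M * v j c) l).col j) :=
      Matrix.linearIndependent_cols_iff_isUnit.2
        ((Matrix.isUnit_iff_isUnit_det _).2 (isUnit_iff_ne_zero.2 hdet))
    have htop := hli.span_eq_top_of_card_eq_finrank' (by simp)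
    rw [eq_top_iff, ← htop, Submodule.span_le]
    rintro _ ⟨j, rfl⟩
    refine Submodule.subset_span ⟨(⟨l j, hl j⟩, fun c => ⟨v j c, Nat.lt_succ_of_le (hv j c)⟩), ?_⟩
    rfl
  obtain ⟨b, hbli, hbmono, hbgr⟩ := exists_greedy x deg hspan
  let lb : Fin φ → List (Fin e) := fun j => ((b j).1 : List (Fin e))
  let vb : Fin φ → Fin r → ℕ := fun j c => ((b j).2 c : ℕ)
  have hlb : ∀ j, (lb j).length ≤ E := fun j => (b j).1.2
  have hvb : ∀ j c, vb j c ≤ V := fun j c => Nat.le_of_lt_succ ((b j).2 c).2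
  have hcol : ∀ j, (fun i => jetMat g ξ f (fun j c => M * vb j c) lb i j) = x (b j) := fun j => rfl
  have hΔ : (jetMat g ξ f (fun j c => M * vb j c) lb).det ≠ 0 := by
    rw [← isUnit_iff_ne_zero, ← Matrix.isUnit_iff_isUnit_det,
      ← Matrix.linearIndependent_cols_iff_isUnit]
    exact hbli
  have hgreedy : Greedy g ξ f (fun j c => M * vb j c) lb := by
    intro j l' hl'
    have h1 := hbgr j (⟨l', (hl'.le.trans (hlb j))⟩, (b j).2) hl'
    refine Submodule.span_mono ?_ h1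
    rintro _ ⟨j', hj', rfl⟩
    exact ⟨j', hj', rfl⟩
  have hub := hup D E E (M * V) φ f (fun j c => M * vb j c) lb hD hf hlb
    (fun j c => Nat.mul_le_mul_left _ (hvb j c)) hgreedy hΔ
  have hsum : D + E + D * (M * V) ^ 2 + E ≤ (3 + M ^ 2) * E := by
    have h1 : D * (M * V) ^ 2 = M ^ 2 * (D * V ^ 2) := by ring
    have h2 : M ^ 2 * (D * V ^ 2) ≤ M ^ 2 * E := Nat.mul_le_mul_left _ hDV
    have h3 : D ≤ E := le_trans (by
      have : 1 ≤ V ^ 2 := Nat.one_le_pow _ _ hV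
      exact Nat.le_mul_of_pos_right _ this) hDV
    rw [h1]
    nlinarith
  have hq1 : 1 ≤ c3 * E := Nat.one_le_iff_ne_zero.2 (by positivity)
  have hEq : E ≤ c3 * E := Nat.le_mul_of_pos_left _ (by omega)
  have hlt : φ < C1 * (jetRank (fun i => ξ i)
      (algebraMap (PS k d) (QS k d) '' (L D E : Set (PS k d))) (C1 * (c3 * E)) *
      (c3 * E) ^ m) := by
    by_contra hcon
    push Not at hcon
    have hlow := hloc (L D E : Set (PS k d)) φ (c3 * E) f vb lb hf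
      (fun j => (hlb j).trans hEq) hq1 hcon
    have h1 : (((c3 * E * φ : ℕ) : ℤ) : WithTop ℤ) ≤
        (((C2 * (φ * (D + E + D * (M * V) ^ 2 + E)) : ℕ) : ℤ) : WithTop ℤ) :=
      hlow.trans hub
    have h2 : c3 * E * φ ≤ C2 * (φ * (D + E + D * (M * V) ^ 2 + E)) := by
      exact_mod_cast h1
    have h3 : C2 * (φ * (D + E + D * (M * V) ^ 2 + E)) ≤ C2 * (φ * ((3 + M ^ 2) * E)) :=
      Nat.mul_le_mul_left _ (Nat.mul_le_mul_left _ hsum)
    have h4 : c3 * E * φ = C2 * (φ * ((3 + M ^ 2) * E)) + E * φ := by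
      rw [hc3]; ring
    have h5 : 1 ≤ E * φ := Nat.one_le_iff_ne_zero.2 (by positivity)
    omega
  have hK : C1 * (c3 * E) + 1 ≤ 2 ^ a * (E + 1) := by
    have h1 : a ≤ 2 ^ a := Nat.lt_two_pow_self.le
    have h2 : a * (E + 1) ≤ 2 ^ a * (E + 1) := Nat.mul_le_mul_right _ h1
    have h3 : C1 * (c3 * E) + 1 ≤ a * (E + 1) := by
      rw [ha]
      nlinarith [Nat.zero_le (C1 * c3)]
    exact h3.trans h2
  have hit := jetRank_iterate ξ hξ (algebraMap (PS k d) (QS k d) '' (L D E : Set (PS k d)))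
    (C1 * (c3 * E)) E a hK
  have h6 : C1 * (jetRank (fun i => ξ i)
      (algebraMap (PS k d) (QS k d) '' (L D E : Set (PS k d))) (C1 * (c3 * E)) *
      (c3 * E) ^ m) ≤ C1 * ((2 ^ (e * a) * jetRank (fun i => ξ i)
      (algebraMap (PS k d) (QS k d) '' (L D E : Set (PS k d))) E) * (c3 * E) ^ m) :=
    Nat.mul_le_mul_left _ (Nat.mul_le_mul_right _ hit)
  have h7 : C1 * ((2 ^ (e * a) * jetRank (fun i => ξ i)
      (algebraMap (PS k d) (QS k d) '' (L D E : Set (PS k d))) E) * (c3 * E) ^ m) =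
      C1 * 2 ^ (e * a) * c3 ^ m * (jetRank (fun i => ξ i)
      (algebraMap (PS k d) (QS k d) '' (L D E : Set (PS k d))) E * E ^ m) := by
    rw [mul_pow]; ring
  rw [h7] at h6
  omega

end Pool.Agent.SYZ68J
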