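import Pool.Agent.SYZ68J.GJVal
import Pool.Agent.SYZ68J.GJDet
import Pool.Agent.SYZ68J.GJDeg
import Pool.Agent.SYZ68J.JRank

/-!
# SYZ68J/GJUp : the upper bound for greedy determinants

Proof.  `deg` from `multiplicity`, `C₁` from `deg_translate`.  Let `D, E, K, V, φ, f, v, l` be as in
`UpperJ`; `f_i ∈ secL G A D E` is the expansion of `F_i ∈ H0 (D A + E α)` (`mem_secL`), and
`g (v) f_i` of `γ (v) F_i` (`iota_γ`).  `ξK_i = brD hbr (σ_(i+1) / σ_0)`; by `iota_br`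
`ι (ξK_l x) = ξ_l (ι x)` for words `l`.  `Δ₀ = det (ξK_(l_j) (γ (v_j) F_i)) ∈ K(X)`, `ι Δ₀ =
(jetMat …).det`, so `Δ₀ ≠ 0`.  The greedy property descends to `K(X)` (`mem_span_descent`).
Fix a prime `p`.  `exists_val`, `pole` (with the divisor `E₀ α`): `u`, `c`; `F i j = γ (v_j) F_i`,
`b_j = ((D A + E α).mapDomain (π (v_j))) p` (`γ_mem_H0`, `mem_H0_iff`); `le_ord_jet_det` with a
uniformizer: `ord p Δ₀ ≥ - ∑_j (b_j + 3 c |l_j|)`, `c = ord p σ_0 + E₀ α_p`.  With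
`m = 3 ∑_j |l_j|` the function `Δ₀ σ_0^m` is therefore a section of
`T = ∑_j (D A + E α).mapDomain (π (v_j)) + m E₀ α`:  `ord p (Δ₀ σ_0^m) + T p ≥ 0`.
`T` is Cartier (`cartier_DE`, `G.cartier`) and zero on `thr x₀` (`thr_zero`, `mapDomain_thr`), so
`Δ₀ σ_0^m` has an expansion `a` at `x₀` (`regular`) and `multiplicity` gives
`a.order ≤ deg (classOf T) ≤ φ C₁ (D + E + D V²) + 3 φ K E₀ |deg α|` (`|l_j| ≤ K`).
Finally `ordQ (ι Δ₀) ≤ ordQ (ι Δ₀) + m ordQ (ι σ_0) = ordQ (a)`, as `σ_0` is regular at `x₀`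
(`expand`; `ordQ_nonneg`).
-/

set_option autoImplicit false

open MvPowerSeries Module

namespace Pool.Agent.SYZ68J

open Pool.Agent.SYZ71 Pool.Agent.SYZ71.Variety

variable {k : Type} [Field k] {n r : ℕ} {X : Variety k (2 * n)} {α : X.Div}
  {br : X.K → X.K → X.K} {G : X.Action r α} {S : Finset X.K} {x₀ : ℚ} {A : X.Div}

private theorem ord_pow91 (hX : X.IsSymplecticVariety n) (p : X.Prime) {f : X.K} (hf : f ≠ 0)
    (m : ℕ) : X.ord p (f ^ m) = m * X.ord p f := by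
  induction m with
  | zero => rw [pow_zero, ord_one hX]; simp
  | succ m ih =>
    rw [pow_succ, hX.ord_mul p _ _ (pow_ne_zero _ hf) hf, ih]
    push_cast; ring

/-- expansion of words in Hamiltonian derivations -/
private theorem iota_wd (hX : X.IsSymplecticVariety n) (hαt : ∀ p ∈ X.thr G.x₀, α p = 0)
    (hS : IntermediateField.adjoin k (S : Set X.K) = ⊤) (hA : GoodDivisor G S x₀ A)
    (hbr : X.IsPoisson br) (hpt : X.BracketAt br G.x₀ G.form) {e : ℕ} (φ : Fin e → X.K)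
    (l : List (Fin e)) (x : X.K) :
    X.ι G.x₀ (wd (fun i => brD hbr (φ i)) l x) =
      wd (fun i => hamQ G.form (X.ι G.x₀ (φ i))) l (X.ι G.x₀ x) := by
  induction l generalizing x with
  | nil => rfl
  | cons i l ih =>
    simp only [wd]
    rw [ih, brD_apply, iota_br hX hαt hS hA hbr hpt]

theorem upperJ (hX : X.IsSymplecticVariety n) (hα : X.IsNefIsotropic α)
    (hαt : ∀ p ∈ X.thr G.x₀, α p = 0)
    (hS : IntermediateField.adjoin k (S : Set X.K) = ⊤) (hA : GoodDivisor G S x₀ A)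
    (hbr : X.IsPoisson br) (hpt : X.BracketAt br G.x₀ G.form) {e : ℕ} (E₀ : ℕ)
    (σ : Fin (e + 1) → X.K) (hσ : ∀ i, σ i ∈ X.H0 (E₀ • α)) (hσ0 : σ 0 ≠ 0) :
    UpperJ G.g (fun i : Fin e => hamQ G.form (X.ι G.x₀ (σ i.succ / σ 0))) (secL G A) := by
  classical
  obtain ⟨deg, hdeg⟩ := hX.multiplicity
  obtain ⟨C₁, hC₁⟩ := deg_translate hX hα G A deg
  obtain ⟨cα, hcα⟩ := exists_nat_ge |deg (X.classOf α)|
  refine ⟨C₁ + 3 * E₀ * cα, ?_⟩
  intro D E K V φ f v l hD hf hl hv hgr hdet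
  choose F hF hFf using fun i => mem_secL.mp (hf i)
  set vv : Fin φ → Fin r → ℤ := fun j c => ((v j c : ℕ) : ℤ) with hvv
  set T₁ : Fin φ → X.Div := fun j => (D • A + E • α).mapDomain (G.π (vv j)) with hT₁
  set Fm : Fin φ → Fin φ → X.K := fun i j => G.γ (vv j) (F i) with hFm
  have hFmH : ∀ i j, Fm i j ∈ X.H0 (T₁ j) := fun i j => γ_mem_H0 hX G (vv j) (hF i)
  have hFmι : ∀ i j, X.ι G.x₀ (Fm i j) = algebraMap (PS k (2 * n)) (QS k (2 * n))
      (G.g (vv j) (f i)) := fun i j => iota_γ G (vv j) (hFf i)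
  set ξK : Fin e → Derivation k X.K X.K := fun i => brD hbr (σ i.succ / σ 0) with hξK
  set ξ : Fin e → Derivation k (QS k (2 * n)) (QS k (2 * n)) :=
    fun i => hamQ G.form (X.ι G.x₀ (σ i.succ / σ 0)) with hξ
  have hwd : ∀ (l : List (Fin e)) (x : X.K), X.ι G.x₀ (wd (fun i => ξK i) l x) =
      wd (fun i => ξ i) l (X.ι G.x₀ x) := fun l x =>
    iota_wd hX hαt hS hA hbr hpt (fun i => σ i.succ / σ 0) l x
  set Δ₀ : X.K := (Matrix.of fun i j => wd (fun i => ξK i) (l j) (Fm i j)).det with hΔ₀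
  have hent : ∀ i j, jetMat G.g ξ f v l i j = X.ι G.x₀ (wd (fun i => ξK i) (l j) (Fm i j)) := by
    intro i j
    rw [hwd, hFmι]
    rfl
  have hιΔ : X.ι G.x₀ Δ₀ = (jetMat G.g ξ f v l).det := by
    have h1 := (X.ι G.x₀).toRingHom.map_det
      (Matrix.of fun i j => wd (fun i => ξK i) (l j) (Fm i j))
    have h2 : (X.ι G.x₀).toRingHom.mapMatrix
        (Matrix.of fun i j => wd (fun i => ξK i) (l j) (Fm i j)) = jetMat G.g ξ f v l := by
      ext i j
      exact (hent i j).symm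
    rw [h2] at h1
    exact h1
  have hΔ0 : Δ₀ ≠ 0 := by
    intro h
    rw [h, map_zero] at hιΔ
    exact hdet hιΔ.symm
  -- the greedy property over `K(X)`
  have hgrK : ∀ (j : Fin φ) (l' : List (Fin e)), l'.length < (l j).length →
      (fun i => wd (fun i => ξK i) l' (Fm i j)) ∈ Submodule.span X.K
        {x : Fin φ → X.K | ∃ j' < j, x = fun i => wd (fun i => ξK i) (l j') (Fm i j')} := by
    intro j l' hl'
    apply mem_span_descent (X.ι G.x₀).toRingHom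
    have h1 := hgr j l' hl'
    have h2 : (fun i => (X.ι G.x₀).toRingHom (wd (fun i => ξK i) l' (Fm i j))) =
        fun i => wd (fun i => ξ i) l'
          (algebraMap (PS k (2 * n)) (QS k (2 * n)) (G.g (vv j) (f i))) := by
      funext i
      rw [← hFmι, ← hwd]
      rfl
    rw [h2]
    refine Submodule.span_mono ?_ h1
    rintro _ ⟨j', hj', rfl⟩
    refine ⟨fun i => wd (fun i => ξK i) (l j') (Fm i j'), ⟨j', hj', rfl⟩, ?_⟩
    funext i
    exact hent i j'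
  set m : ℕ := 3 * ∑ j, (l j).length with hm
  set T : X.Div := (∑ j, T₁ j) + m • (E₀ • α) with hT
  have hTapp : ∀ p, T p = (∑ j, T₁ j p) + m * (E₀ • α) p := by
    intro p
    rw [hT, Finsupp.add_apply, Finsupp.smul_apply, Finsupp.finsetSum_apply]
    simp
  -- the order of `Δ₀` at a prime divisor
  have hsec : X.IsSection T (Δ₀ * σ 0 ^ m) := by
    refine ⟨mul_ne_zero hΔ0 (pow_ne_zero _ hσ0), fun p => ?_⟩
    obtain ⟨vp, hvp⟩ := exists_val hX p
    obtain ⟨u, c, hc, hu, hpole⟩ := pole hX hbr p vp hvp (E₀ • α) σ hσ hσ0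
    obtain ⟨t, ht0, ht1⟩ := hbr.uniformizer p
    have h1 := le_ord_jet_det vp t (by rw [hvp t ht0, ht1]) ξK u c hu hpole Fm l
      (fun j => T₁ j p) (by
        intro i j
        by_cases h0 : Fm i j = 0
        · rw [h0, AddValuation.map_zero]; exact le_top
        · rw [hvp _ h0, WithTop.coe_le_coe]
          have := ((mem_H0_iff hX).mp (hFmH i j)).resolve_left h0 p
          omega) hgrK
    rw [← hΔ₀, hvp _ hΔ0, WithTop.coe_le_coe] at h1
    have h2 : X.ord p (σ 0 ^ m) = m * X.ord p (σ 0) := ord_pow91 hX p hσ0 m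
    rw [hX.ord_mul p _ _ hΔ0 (pow_ne_zero _ hσ0), h2, hTapp]
    rw [Finset.sum_add_distrib, ← Finset.mul_sum] at h1
    have h3 : ((m : ℕ) : ℤ) = 3 * ∑ j, ((l j).length : ℤ) := by rw [hm]; push_cast; ring
    have h4 : 3 * (c : ℤ) * ∑ j, ((l j).length : ℤ) = (m : ℤ) * (X.ord p (σ 0) + (E₀ • α) p) := by
      rw [h3, ← hc]; ring
    rw [h4] at h1
    linarith
  have hcart : T ∈ X.Cartier :=
    add_mem (sum_mem fun j _ => G.cartier _ _ (cartier_DE hα hA D E))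
      (nsmul_mem (nsmul_mem hα.cartier _) _)
  have hTthr : ∀ p ∈ X.thr G.x₀, T p = 0 := by
    intro p hp
    rw [hTapp, Finset.sum_eq_zero fun j _ => mapDomain_thr G (vv j) (thr_zero hαt hA D E) p hp,
      Finsupp.smul_apply, hαt p hp, smul_zero, mul_zero, add_zero]
  obtain ⟨a, ha⟩ := hX.regular G.x₀ _ hsec.1 fun p hp => by
    have h1 := hsec.2 p
    rw [hTthr p hp, add_zero] at h1
    exact h1
  -- the order of `a`
  have ha' : X.ι G.x₀ (Δ₀ * σ 0 ^ m) = algebraMap (PS k (2 * n)) (QS k (2 * n)) a := ha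
  have ha0 : a ≠ 0 := by
    rintro rfl
    rw [map_zero] at ha'
    exact hsec.1 (iota_injective G.x₀ (by rw [ha', map_zero]))
  have hfin : a.order ≠ ⊤ := by
    intro h
    exact ha0 (MvPowerSeries.order_eq_top_iff.mp h)
  obtain ⟨N, hN⟩ := ENat.ne_top_iff_exists.mp hfin
  have h1 := hdeg T hcart G.x₀ hTthr _ hsec a ha N (by rw [hN])
  have hclT : deg (X.classOf T) = (∑ j, deg (X.classOf (T₁ j))) +
      (m : ℚ) * ((E₀ : ℚ) * deg (X.classOf α)) := by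
    have e1 : X.classOf (∑ j, T₁ j) = ∑ j, X.classOf (T₁ j) := map_sum (clHom X) T₁ Finset.univ
    rw [hT, classOf_add, e1, classOf_nsmul, classOf_nsmul, map_add, map_sum, map_smul, map_smul,
      smul_eq_mul, smul_eq_mul]
  have h2 : ∑ j, deg (X.classOf (T₁ j)) ≤ (φ : ℚ) * ((C₁ * (D + E + D * V ^ 2) : ℕ) : ℚ) := by
    calc ∑ j, deg (X.classOf (T₁ j)) ≤ ∑ _j : Fin φ, ((C₁ * (D + E + D * V ^ 2) : ℕ) : ℚ) :=
          Finset.sum_le_sum fun j _ => hC₁ (v j) D E V (hv j)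
      _ = _ := by rw [Finset.sum_const, Finset.card_univ, Fintype.card_fin, nsmul_eq_mul]
  have h3 : m ≤ 3 * (φ * K) := by
    rw [hm]
    refine Nat.mul_le_mul_left _ ?_
    calc ∑ j, (l j).length ≤ ∑ _j : Fin φ, K := Finset.sum_le_sum fun j _ => hl j
      _ = φ * K := by rw [Finset.sum_const, Finset.card_univ, Fintype.card_fin, smul_eq_mul]
  have h4 : (m : ℚ) * ((E₀ : ℚ) * deg (X.classOf α)) ≤ (3 * (φ * K) : ℕ) * ((E₀ : ℚ) * cα) := by
    have a1 : deg (X.classOf α) ≤ cα := (le_abs_self _).trans hcα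
    have a2 : (m : ℚ) ≤ ((3 * (φ * K) : ℕ) : ℚ) := by exact_mod_cast h3
    have a3 : (E₀ : ℚ) * deg (X.classOf α) ≤ (E₀ : ℚ) * cα :=
      mul_le_mul_of_nonneg_left a1 (Nat.cast_nonneg _)
    calc (m : ℚ) * ((E₀ : ℚ) * deg (X.classOf α)) ≤ (m : ℚ) * ((E₀ : ℚ) * cα) :=
          mul_le_mul_of_nonneg_left a3 (Nat.cast_nonneg _)
      _ ≤ _ := mul_le_mul_of_nonneg_right a2 (by positivity)
  have h5 : N ≤ (C₁ + 3 * E₀ * cα) * (φ * (D + E + D * V ^ 2 + K)) := by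
    have b1 : (N : ℚ) ≤ (φ : ℚ) * ((C₁ * (D + E + D * V ^ 2) : ℕ) : ℚ) +
        (3 * (φ * K) : ℕ) * ((E₀ : ℚ) * cα) := by
      rw [hclT] at h1
      linarith
    have b2 : N ≤ φ * (C₁ * (D + E + D * V ^ 2)) + (3 * (φ * K)) * (E₀ * cα) := by
      exact_mod_cast b1
    refine b2.trans ?_
    have b3 : (C₁ + 3 * E₀ * cα) * (φ * (D + E + D * V ^ 2 + K)) =
        φ * (C₁ * (D + E + D * V ^ 2)) + (3 * (φ * K)) * (E₀ * cα) +
          (C₁ * (φ * K) + 3 * E₀ * cα * (φ * (D + E + D * V ^ 2))) := by ring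
    rw [b3]
    exact Nat.le_add_right _ _
  -- conclusion
  obtain ⟨a₀, ha₀⟩ := expand hX hαt hA (D := 0) (E := E₀) (f := σ 0) (by
    rw [zero_smul, zero_add]; exact hσ 0)
  have h6 : ordQ k (2 * n) (X.ι G.x₀ (Δ₀ * σ 0 ^ m)) =
      ordQ k (2 * n) (jetMat G.g ξ f v l).det +
        ordQ k (2 * n) (algebraMap (PS k (2 * n)) (QS k (2 * n)) (a₀ ^ m)) := by
    have e1 : X.ι G.x₀ (Δ₀ * σ 0 ^ m) = (jetMat G.g ξ f v l).det *
        algebraMap (PS k (2 * n)) (QS k (2 * n)) (a₀ ^ m) := by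
      rw [map_mul, hιΔ, map_pow (X.ι G.x₀), ha₀, toFrac_apply,
        map_pow (algebraMap (PS k (2 * n)) (QS k (2 * n)))]
    rw [e1, AddValuation.map_mul]
  have h7 : ordQ k (2 * n) (jetMat G.g ξ f v l).det ≤
      ordQ k (2 * n) (X.ι G.x₀ (Δ₀ * σ 0 ^ m)) := by
    rw [h6]
    exact le_add_of_nonneg_right (ordQ_nonneg _)
  refine h7.trans ?_
  rw [ha', ordQ_algebraMap, ← hN]
  change ((N : ℤ) : WithTop ℤ) ≤ _
  rw [WithTop.coe_le_coe]
  exact_mod_cast h5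

end Pool.Agent.SYZ68J
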