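import Pool.Agent.SYZ68J.GJBr

/-!
# SYZ68J/GJVal : the valuation of a prime divisor; poles of the Hamiltonian fields of sections of `α`

* `exists_val`: `AddValuation.of` with `v 0 = ⊤`, `v f = ord p f` for `f ≠ 0` (`ord_mul`, `ord_add`;
  `ord_one`, in `GA.lean`; `f + h = 0` is trivial).
* `pole`: `σ_0, σ_i ∈ H0 (E₀ α)`, `σ_0 ≠ 0`, `t` a uniformizer (`hbr.uniformizer p`),
  `b = (E₀ α) p`, `τ_i = σ_i t^b` (integer power), so `v τ_i ≥ 0`; `u = τ_0`,
  `v u = ord p σ_0 + b =: c ≥ 0`.  `σ_i / σ_0 = τ_i / u`, and by the Leibniz rule in the first variable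
  (`skew`, `leibniz`): `u² {τ_i / u, x} = u {τ_i, x} - τ_i {u, x}`, of valuation `≥ 0` for `v x ≥ 0` by
  `regular` (zero cases trivial).
-/

set_option autoImplicit false

open MvPowerSeries Module

namespace Pool.Agent.SYZ68J

open Pool.Agent.SYZ71 Pool.Agent.SYZ71.Variety

variable {k : Type} [Field k] {n : ℕ} {X : Variety k (2 * n)}

theorem exists_val (hX : X.IsSymplecticVariety n) (p : X.Prime) :
    ∃ v : AddValuation X.K (WithTop ℤ), ∀ f, f ≠ 0 → v f = ((X.ord p f : ℤ) : WithTop ℤ) := by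
  classical
  refine ⟨AddValuation.of (fun f => if f = 0 then ⊤ else ((X.ord p f : ℤ) : WithTop ℤ))
    (if_pos rfl) ?_ ?_ ?_, ?_⟩
  · simp only [one_ne_zero, if_false, ord_one hX]
    rfl
  · intro x y
    by_cases hx : x = 0
    · simp [hx]
    by_cases hy : y = 0
    · simp [hy]
    by_cases hxy : x + y = 0
    · simp [hxy]
    simp only [hx, hy, hxy, if_false]
    rw [← WithTop.coe_min, WithTop.coe_le_coe]
    exact hX.ord_add p x y hx hy hxy
  · intro x y
    by_cases hx : x = 0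
    · simp [hx]
    by_cases hy : y = 0
    · simp [hy]
    simp only [hx, hy, mul_eq_zero, or_self, if_false]
    rw [hX.ord_mul p x y hx hy, WithTop.coe_add]
  · intro f hf
    rw [AddValuation.of_apply, if_neg hf]

private theorem gjval_nonneg_iff {p : X.Prime} {v : AddValuation X.K (WithTop ℤ)}
    (hv : ∀ f, f ≠ 0 → v f = ((X.ord p f : ℤ) : WithTop ℤ)) {f : X.K} (hf : f ≠ 0) :
    0 ≤ v f ↔ 0 ≤ X.ord p f := by
  rw [hv f hf]
  exact_mod_cast Iff.rfl

private theorem gjval_regular {br : X.K → X.K → X.K} (hbr : X.IsPoisson br)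
    {p : X.Prime} {v : AddValuation X.K (WithTop ℤ)}
    (hv : ∀ f, f ≠ 0 → v f = ((X.ord p f : ℤ) : WithTop ℤ)) {f h : X.K} (hf : 0 ≤ v f)
    (hh : 0 ≤ v h) : 0 ≤ v (br f h) := by
  by_cases hbf : br f h = 0
  · rw [hbf, AddValuation.map_zero]; exact le_top
  have hf0 : f ≠ 0 := by
    rintro rfl
    apply hbf
    rw [hbr.skew, br_zero hbr, neg_zero]
  have hh0 : h ≠ 0 := by
    rintro rfl
    exact hbf (br_zero hbr f)
  rw [gjval_nonneg_iff hv hbf]
  exact hbr.regular p f h hf0 hh0 hbf ((gjval_nonneg_iff hv hf0).mp hf)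
    ((gjval_nonneg_iff hv hh0).mp hh)

theorem pole (hX : X.IsSymplecticVariety n) {br : X.K → X.K → X.K} (hbr : X.IsPoisson br)
    (p : X.Prime) (v : AddValuation X.K (WithTop ℤ))
    (hv : ∀ f, f ≠ 0 → v f = ((X.ord p f : ℤ) : WithTop ℤ)) (D : X.Div) {e : ℕ}
    (σ : Fin (e + 1) → X.K) (hσ : ∀ i, σ i ∈ X.H0 D) (hσ0 : σ 0 ≠ 0) :
    ∃ (u : X.K) (c : ℕ), (c : ℤ) = X.ord p (σ 0) + D p ∧ v u = ((c : ℤ) : WithTop ℤ) ∧
      ∀ (i : Fin e) (x : X.K), 0 ≤ v x → 0 ≤ v (u ^ 2 * brD hbr (σ i.succ / σ 0) x) := by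
  obtain ⟨t, ht0, ht1⟩ := hbr.uniformizer p
  have hzp : ∀ (m : ℕ), X.ord p (t ^ m) = m := by
    intro m
    induction m with
    | zero => rw [pow_zero, ord_one hX]; rfl
    | succ m ih =>
      rw [pow_succ, hX.ord_mul p _ _ (pow_ne_zero _ ht0) ht0, ih, ht1]
      push_cast
      ring
  have hz : ∀ b : ℤ, X.ord p (t ^ b) = b := by
    intro b
    rcases Int.eq_nat_or_neg b with ⟨m, rfl | rfl⟩
    · rw [zpow_natCast, hzp]
    · rw [zpow_neg, zpow_natCast, ord_inv hX p (pow_ne_zero _ ht0), hzp]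
  have htb : t ^ (D p) ≠ 0 := zpow_ne_zero _ ht0
  set τ : Fin (e + 1) → X.K := fun i => σ i * t ^ (D p) with hτ
  have hτv : ∀ i, 0 ≤ v (τ i) := by
    intro i
    by_cases hi : σ i = 0
    · rw [hτ]
      simp only [hi, zero_mul, AddValuation.map_zero]
      exact le_top
    · have h1 : τ i ≠ 0 := mul_ne_zero hi htb
      rw [gjval_nonneg_iff hv h1, hτ]
      simp only
      rw [hX.ord_mul p _ _ hi htb, hz]
      rcases (mem_H0_iff hX).mp (hσ i) with h | h
      · exact absurd h hi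
      · exact h p
  have hu0 : τ 0 ≠ 0 := mul_ne_zero hσ0 htb
  have hc : 0 ≤ X.ord p (σ 0) + D p := by
    rcases (mem_H0_iff hX).mp (hσ 0) with h | h
    · exact absurd h hσ0
    · exact h p
  refine ⟨τ 0, (X.ord p (σ 0) + D p).toNat, Int.toNat_of_nonneg hc, ?_, ?_⟩
  · rw [hv _ hu0, Int.toNat_of_nonneg hc, hτ]
    simp only
    rw [hX.ord_mul p _ _ hσ0 htb, hz]
  · intro i x hx
    rw [brD_apply]
    have hq : σ i.succ / σ 0 = τ i.succ / τ 0 := by
      rw [hτ]
      simp only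
      rw [mul_div_mul_right _ _ htb]
    set f := τ i.succ with hf
    set u := τ 0 with hu
    have hL : br x f = u * br x (f / u) + (f / u) * br x u := by
      rw [← hbr.leibniz x u (f / u), mul_div_cancel₀ _ hu0]
    have hfin : u ^ 2 * br (f / u) x = f * br x u - u * br x f := by
      rw [hbr.skew (f / u) x, hL]
      field_simp
      ring
    rw [hq, hfin]
    have h1 : 0 ≤ v (f * br x u) := by
      rw [AddValuation.map_mul]
      exact add_nonneg (hτv _) (gjval_regular hbr hv hx (hτv _))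
    have h2 : 0 ≤ v (u * br x f) := by
      rw [AddValuation.map_mul]
      exact add_nonneg (hτv _) (gjval_regular hbr hv hx (hτv _))
    exact le_trans (le_min h1 h2) (AddValuation.map_sub v _ _)

end Pool.Agent.SYZ68J
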