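import Mathlib

/-!
# SYZ68J/JNum : choice of the parameters

`ρ D E` nondecreasing in `D`, `1 ≤ ρ D E ≤ (E + e).choose e` for `1 ≤ D`.

Proof.  WLOG `c₁, c₂ ≥ 1` (increase them).  For `E ≥ 1` let `D = D(E)` be the least `D ≥ 1` with
`c₁ ρ D E < D^n` (exists as `ρ D E ≤ (E + e).choose e`).  If `D ≥ 2` then
`(D - 1)^n ≤ c₁ ρ (D - 1) E ≤ c₁ ρ D E`, so in all cases `D^n ≤ c₃ ρ D E`, `c₃ = 2^n c₁`, and
`D^n ≤ c₃ (E + e).choose e ≤ c₄ E^e` (`(E + e).choose e ≤ (e + 1)^e E^e` or similar).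
Let `w` be the largest natural number with `D ((N + 1) w)² ≤ E`; so `E < D (N + 1)² (w + 1)²`,
`E^n < D^n (N + 1)^(2n) (w + 1)^(2n) ≤ c₅ E^e (w + 1)^(2n)`, i.e. `E^(n - e) < c₅ (w + 1)^(2n)`.
As `n > e`, `w + 1 → ∞` for `E → ∞`: choose `E` with `E ≥ N + 1` and `w + 1 > c₂ c₃ c₅`, `w ≥ 1`
(`E^(n-e) ≥ c₅ (max (c₂ c₃ c₅) 1 + 1)^(2n)` is enough).  Then
`c₂ D^n E^(n-e) ≤ c₂ c₃ ρ c₅ (w + 1)^(2n) < (w + 1)^(2n+1) ρ ≤ (w + 1)^r ρ`.
-/

set_option autoImplicit false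

namespace Pool.Agent.SYZ68J

theorem jet_numerics (n e r N : ℕ) (he : e < n) (hr : 2 * n + 1 ≤ r) (c₁ c₂ : ℕ)
    (ρ : ℕ → ℕ → ℕ) (h1 : ∀ D E, 1 ≤ D → 1 ≤ ρ D E) (hρ : ∀ D E, ρ D E ≤ (E + e).choose e)
    (hmono : ∀ D E, ρ D E ≤ ρ (D + 1) E) :
    ∃ D E w : ℕ, 1 ≤ D ∧ 1 ≤ w ∧ N + 1 ≤ E ∧ D * ((N + 1) * w) ^ 2 ≤ E ∧
      c₁ * ρ D E < D ^ n ∧ c₂ * (D ^ n * E ^ (n - e)) < (w + 1) ^ r * ρ D E := by
  classical
  have hn : n ≠ 0 := by omega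
  -- existence of `D`
  have hex : ∀ E : ℕ, ∃ D, 1 ≤ D ∧ (c₁ + 1) * ρ D E < D ^ n := by
    intro E
    refine ⟨(c₁ + 1) * (E + e).choose e + 1, by omega, ?_⟩
    calc (c₁ + 1) * ρ ((c₁ + 1) * (E + e).choose e + 1) E
        ≤ (c₁ + 1) * (E + e).choose e := Nat.mul_le_mul_left _ (hρ _ _)
      _ < (c₁ + 1) * (E + e).choose e + 1 := Nat.lt_succ_self _
      _ ≤ _ := Nat.le_self_pow hn _
  set c₃ : ℕ := 2 ^ n * (c₁ + 1) with hc₃
  have hkey : ∀ E : ℕ, ∃ D, 1 ≤ D ∧ (c₁ + 1) * ρ D E < D ^ n ∧ D ^ n ≤ c₃ * ρ D E := by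
    intro E
    obtain ⟨hD1, hD2⟩ := Nat.find_spec (hex E)
    set D := Nat.find (hex E) with hD
    refine ⟨D, hD1, hD2, ?_⟩
    rcases Nat.eq_or_lt_of_le hD1 with hD' | hD'
    · rw [← hD', one_pow]
      have := h1 1 E le_rfl
      have h3 : 1 ≤ c₃ := Nat.one_le_iff_ne_zero.2 (by positivity)
      exact Nat.one_le_iff_ne_zero.2 (by positivity)
    · have hlt : D - 1 < D := by omega
      have hnot := Nat.find_min (hex E) hlt
      have h4 : (D - 1) ^ n ≤ (c₁ + 1) * ρ (D - 1) E := by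
        by_contra hc
        exact hnot ⟨by omega, by omega⟩
      have h5 : ρ (D - 1) E ≤ ρ D E := by
        have := hmono (D - 1) E
        rwa [Nat.sub_add_cancel hD1] at this
      calc D ^ n ≤ (2 * (D - 1)) ^ n := Nat.pow_le_pow_left (by omega) n
        _ = 2 ^ n * (D - 1) ^ n := by rw [mul_pow]
        _ ≤ 2 ^ n * ((c₁ + 1) * ρ (D - 1) E) := Nat.mul_le_mul_left _ h4
        _ ≤ 2 ^ n * ((c₁ + 1) * ρ D E) := by gcongr
        _ = c₃ * ρ D E := by rw [hc₃]; ring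
  have hchoose : ∀ E : ℕ, 1 ≤ E → (E + e).choose e ≤ (e + 1) ^ e * E ^ e := by
    intro E hE
    calc (E + e).choose e ≤ (E + e) ^ e := Nat.choose_le_pow _ _
      _ ≤ ((e + 1) * E) ^ e := Nat.pow_le_pow_left (by nlinarith) e
      _ = _ := by rw [mul_pow]
  set c₅ : ℕ := c₃ * (e + 1) ^ e * (N + 1) ^ (2 * n) with hc₅
  set T : ℕ := (c₂ + 1) * c₃ * c₅ with hT
  have hc3pos : 0 < c₃ := by positivity
  have hc5pos : 0 < c₅ := by positivity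
  have hTpos : 0 < T := by positivity
  set E : ℕ := c₅ * (T + 1) ^ (2 * n) + (N + 1) with hE
  obtain ⟨D, hD1, hD2, hD3⟩ := hkey E
  have hE1 : 1 ≤ E := by omega
  set s := Nat.sqrt (E / D) with hs
  set w := s / (N + 1) with hw
  have hDpos : 0 < D := hD1
  have hwle : (N + 1) * w ≤ s := Nat.mul_div_le _ _
  have hsle : s ^ 2 ≤ E / D := Nat.sqrt_le' _
  have h6 : D * ((N + 1) * w) ^ 2 ≤ E := by
    calc D * ((N + 1) * w) ^ 2 ≤ D * s ^ 2 := by gcongr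
      _ ≤ D * (E / D) := by gcongr
      _ ≤ E := Nat.mul_div_le _ _
  have h7 : E < D * ((N + 1) * (w + 1)) ^ 2 := by
    have h71 : s + 1 ≤ (N + 1) * (w + 1) := Nat.succ_le_of_lt (Nat.lt_mul_div_succ s (Nat.succ_pos N))
    have h72 : E / D < (s + 1) ^ 2 := Nat.lt_succ_sqrt' _
    have h73 : E < D * (E / D + 1) := Nat.lt_mul_div_succ E hDpos
    calc E < D * (E / D + 1) := h73
      _ ≤ D * (s + 1) ^ 2 := by gcongr; omega
      _ ≤ D * ((N + 1) * (w + 1)) ^ 2 := by gcongr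
  have h8 : E ^ n < c₅ * E ^ e * (w + 1) ^ (2 * n) := by
    calc E ^ n < (D * ((N + 1) * (w + 1)) ^ 2) ^ n := Nat.pow_lt_pow_left h7 hn
      _ = D ^ n * ((N + 1) ^ (2 * n) * (w + 1) ^ (2 * n)) := by
          rw [mul_pow, ← pow_mul, mul_pow]
      _ ≤ (c₃ * ρ D E) * ((N + 1) ^ (2 * n) * (w + 1) ^ (2 * n)) := by gcongr
      _ ≤ (c₃ * ((e + 1) ^ e * E ^ e)) * ((N + 1) ^ (2 * n) * (w + 1) ^ (2 * n)) := by
          gcongr
          exact (hρ D E).trans (hchoose E hE1)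
      _ = c₅ * E ^ e * (w + 1) ^ (2 * n) := by rw [hc₅]; ring
  have h9 : E ^ (n - e) < c₅ * (w + 1) ^ (2 * n) := by
    have h91 : E ^ n = E ^ e * E ^ (n - e) := by rw [← pow_add]; congr 1; omega
    have h92 : E ^ e * E ^ (n - e) < E ^ e * (c₅ * (w + 1) ^ (2 * n)) := by
      rw [← h91]
      calc E ^ n < _ := h8
        _ = _ := by ring
    exact lt_of_mul_lt_mul_left h92 (Nat.zero_le _)
  have h10 : T + 1 < w + 1 := by
    have h101 : c₅ * (T + 1) ^ (2 * n) < c₅ * (w + 1) ^ (2 * n) := by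
      calc c₅ * (T + 1) ^ (2 * n) ≤ E := by omega
        _ ≤ E ^ (n - e) := Nat.le_self_pow (by omega) _
        _ < _ := h9
    have h102 : (T + 1) ^ (2 * n) < (w + 1) ^ (2 * n) := lt_of_mul_lt_mul_left h101 (Nat.zero_le _)
    exact lt_of_pow_lt_pow_left₀ _ (Nat.zero_le _) h102
  have hρ1 := h1 D E hD1
  refine ⟨D, E, w, hD1, by omega, by omega, h6, ?_, ?_⟩
  · calc c₁ * ρ D E ≤ (c₁ + 1) * ρ D E := Nat.mul_le_mul_right _ (by omega)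
      _ < _ := hD2
  · calc c₂ * (D ^ n * E ^ (n - e)) ≤ (c₂ + 1) * ((c₃ * ρ D E) * (c₅ * (w + 1) ^ (2 * n))) := by
          gcongr
          omega
      _ = T * ((w + 1) ^ (2 * n) * ρ D E) := by rw [hT]; ring
      _ < (w + 1) * ((w + 1) ^ (2 * n) * ρ D E) := by
          apply Nat.mul_lt_mul_of_pos_right (by omega)
          positivity
      _ = (w + 1) ^ (2 * n + 1) * ρ D E := by ring
      _ ≤ (w + 1) ^ r * ρ D E := by
          gcongr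
          omega

end Pool.Agent.SYZ68J
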