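import Pool.Agent.SYZ68J.ZJLeft

/-!
# SYZ68J/ZJDiag : jets along the diagonals

`ξ_i` commuting derivations of `F / k` commuting with `ρ`; `D_i = dl (ξ_i)`, `𝔡 = mker ρ`
(kernel of `ev ρ : a ⊗ b ↦ a ρ(b)`).

`sum_wd_iff`: for `x = ∑ c_i ⊗ b_i`:  `∑ c_i ξ_l(ρ b_i) = 0` for all words `|l| ≤ K` iff
`x ∈ jetIdeal D 𝔡 K`.  Proof.  Put `E(l, l') = ∑ ξ_l(c_i) ξ_l'(ρ b_i)`.  With `wd D (i :: l) =
wd D l ∘ D i` and commutation the words can be permuted (`wd` of a permuted word is the same
operator).  `ξ_j E(l, l') = E(l ++ [j], l') + E(l, l' ++ [j])` (Leibniz; `wd ξ (l ++ [j]) a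
= ξ_j (wd ξ l a)`).  If `E([], l') = 0` for all `|l'| ≤ K` then by induction on `|l|`
`E(l, l') = 0` for `|l| + |l'| ≤ K`, in particular `E(l, []) = ev ρ (wd D l x) = 0`,
`|l| ≤ K`; and conversely.  Use `mem_jetIdeal_iff` and `mem_mker`.

`jetRank_le_hilb`: `V = M.baseChange F`; `b` a `k`-basis of `M` (`μ` elements), `F^μ ≃ V`,
`c ↦ ∑ c_i ⊗ b_i`.  `V ∩ jetIdeal D 𝔡 K` corresponds to the `c` orthogonal to the vectors
`(ξ_l (ρ b_i))_i = (ρ (ξ_l b_i))_i`, `|l| ≤ K`.  The span of these vectors in `F^μ` has the same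
dimension as the span of the `(ξ_l b_i)_i` (`ρ` is a field automorphism), which is
`jetRank ξ M K` (restriction of functions from `M` to the basis `b` is injective on `k`-linear
functions; the functions `ξ_l` on `M` and their `F`-combinations are `k`-linear).
So `hilb V (jetIdeal D 𝔡 K) 1 = μ - (μ - jetRank) = jetRank ξ M K`.
-/

set_option autoImplicit false

open Module TensorProduct

universe u v

namespace Pool.Agent.SYZ68J

open Pool.Agent.SYZ71Z

variable {k : Type v} {F : Type u} [Field k] [Field F] [Algebra k F] {e : ℕ}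

section aux

variable {R A ι : Type*} [CommRing R] [CommRing A] [Algebra R A]

theorem zjd_comm (D : ι → Derivation R A A) (hD : ∀ i j a, D i (D j a) = D j (D i a))
    (l : List ι) (i : ι) (a : A) :
    wd (fun i => D i) l (D i a) = D i (wd (fun i => D i) l a) := by
  induction l generalizing a with
  | nil => rfl
  | cons j l ih =>
    show wd (fun i => D i) l (D j (D i a)) = D i (wd (fun i => D i) l (D j a))
    rw [hD j i, ih]

theorem zjd_sum {κ : Type*} (D : ι → Derivation R A A) (l : List ι) (s : Finset κ) (f : κ → A) :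
    wd (fun i => D i) l (∑ j ∈ s, f j) = ∑ j ∈ s, wd (fun i => D i) l (f j) := by
  induction l generalizing f with
  | nil => rfl
  | cons i l ih =>
    show wd (fun i => D i) l (D i (∑ j ∈ s, f j)) = ∑ j ∈ s, wd (fun i => D i) l (D i (f j))
    rw [map_sum, ih]

theorem zjd_smul (D : ι → Derivation R A A) (l : List ι) (r : R) (a : A) :
    wd (fun i => D i) l (r • a) = r • wd (fun i => D i) l a := by
  induction l generalizing a with
  | nil => rfl
  | cons i l ih =>
    show wd (fun i => D i) l (D i (r • a)) = r • wd (fun i => D i) l (D i a)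
    rw [Derivation.map_smul, ih]

theorem zjd_swap (D : ι → Derivation R A A) (hD : ∀ i j a, D i (D j a) = D j (D i a))
    (K m : ℕ) (f g : Fin m → A)
    (h : ∀ l : List ι, l.length ≤ K → ∑ i, f i * wd (fun i => D i) l (g i) = 0) :
    ∀ l l' : List ι, l.length + l'.length ≤ K →
      ∑ i, wd (fun i => D i) l (f i) * wd (fun i => D i) l' (g i) = 0 := by
  intro l
  induction l with
  | nil =>
    intro l' hl'
    exact h l' (by simpa using hl')
  | cons j l ih =>
    intro l' hl'
    rw [List.length_cons] at hl'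
    have h1 := ih l' (by omega)
    have h2 := ih (j :: l') (by rw [List.length_cons]; omega)
    have h3 := congrArg (D j) h1
    rw [map_sum, map_zero] at h3
    have h4 : ∑ i, wd (fun i => D i) (j :: l) (f i) * wd (fun i => D i) l' (g i) +
        ∑ i, wd (fun i => D i) l (f i) * wd (fun i => D i) (j :: l') (g i) = 0 := by
      rw [← h3, ← Finset.sum_add_distrib]
      refine Finset.sum_congr rfl fun i _ => ?_
      rw [Derivation.leibniz, smul_eq_mul, smul_eq_mul]
      show wd (fun i => D i) l (D j (f i)) * wd (fun i => D i) l' (g i) +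
        wd (fun i => D i) l (f i) * wd (fun i => D i) l' (D j (g i)) = _
      rw [zjd_comm D hD, zjd_comm D hD]
      ring
    rw [h2, add_zero] at h4
    exact h4

end aux

theorem wd_dl_tmul {ι : Type*} (ξ : ι → Derivation k F F) (l : List ι) (a b : F) :
    wd (fun i => dl (ξ i)) l (a ⊗ₜ[k] b) = wd (fun i => ξ i) l a ⊗ₜ[k] b := by
  induction l generalizing a with
  | nil => rfl
  | cons i l ih =>
    show wd (fun i => dl (ξ i)) l (dl (ξ i) (a ⊗ₜ[k] b)) = wd (fun i => ξ i) l (ξ i a) ⊗ₜ[k] b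
    rw [dl_tmul, ih]

theorem ev_wd_dl {ι : Type*} (ξ : ι → Derivation k F F) (ρ : F ≃ₐ[k] F) (l : List ι) (m : ℕ)
    (b c : Fin m → F) :
    Pool.Agent.SYZ71Z.ev ρ (wd (fun i => dl (ξ i)) l (∑ i, c i ⊗ₜ[k] b i)) =
      ∑ i, wd (fun i => ξ i) l (c i) * ρ (b i) := by
  rw [zjd_sum (fun i => dl (ξ i)), map_sum]
  refine Finset.sum_congr rfl fun i _ => ?_
  rw [wd_dl_tmul, ev_tmul]

theorem wd_autom {ι : Type*} (ξ : ι → Derivation k F F) (ρ : F ≃ₐ[k] F)
    (hρ : ∀ i a, ρ (ξ i a) = ξ i (ρ a)) (l : List ι) (a : F) :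
    wd (fun i => ξ i) l (ρ a) = ρ (wd (fun i => ξ i) l a) := by
  induction l generalizing a with
  | nil => rfl
  | cons i l ih =>
    show wd (fun i => ξ i) l (ξ i (ρ a)) = ρ (wd (fun i => ξ i) l (ξ i a))
    rw [← hρ, ih]

theorem sum_wd_iff (ξ : Fin e → Derivation k F F) (hξ : ∀ i j a, ξ i (ξ j a) = ξ j (ξ i a))
    (ρ : F ≃ₐ[k] F) (hρ : ∀ i a, ρ (ξ i a) = ξ i (ρ a)) (K m : ℕ) (b c : Fin m → F) :
    (∀ l : List (Fin e), l.length ≤ K → ∑ i, c i * wd (fun i => ξ i) l (ρ (b i)) = 0) ↔
      ∑ i, c i ⊗ₜ[k] b i ∈ jetIdeal (fun i => dl (ξ i)) (mker ρ) K := by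
  rw [mem_jetIdeal_iff]
  constructor
  · intro h l hl
    rw [mem_mker, ev_wd_dl]
    have h1 := zjd_swap ξ hξ K m c (fun i => ρ (b i)) h l [] (by simpa using hl)
    exact h1
  · intro h l hl
    have h0 : ∀ l : List (Fin e), l.length ≤ K →
        ∑ i, ρ (b i) * wd (fun i => ξ i) l (c i) = 0 := by
      intro l hl
      have h1 := h l hl
      rw [mem_mker, ev_wd_dl] at h1
      rw [← h1]
      exact Finset.sum_congr rfl fun i _ => mul_comm _ _
    have h2 := zjd_swap ξ hξ K m (fun i => ρ (b i)) c h0 l [] (by simpa using hl)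
    rw [← h2]
    exact Finset.sum_congr rfl fun i _ => mul_comm _ _

theorem jetRank_le_hilb (ξ : Fin e → Derivation k F F) (hξ : ∀ i j a, ξ i (ξ j a) = ξ j (ξ i a))
    (ρ : F ≃ₐ[k] F) (hρ : ∀ i a, ρ (ξ i a) = ξ i (ρ a)) (M : Submodule k F) [Module.Finite k M]
    (K : ℕ) :
    jetRank (fun i => ξ i) (M : Set F) K ≤
      hilb (M.baseChange F : Submodule F (F ⊗[k] F))
        (jetIdeal (fun i => dl (ξ i)) (mker ρ) K) 1 := by
  classical
  -- a basis of `M`
  set μ := finrank k M with hμ
  let bM : Basis (Fin μ) k M := Module.finBasis k M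
  let b : Fin μ → F := fun i => (bM i : F)
  set Q : Ideal (F ⊗[k] F) := jetIdeal (fun i => dl (ξ i)) (mker ρ) K with hQ
  -- the jets
  let fn : {l : List (Fin e) // l.length ≤ K} → ↥(M : Set F) → F :=
    fun l x => wd (fun i => ξ i) (l : List (Fin e)) (x : F)
  have hfin : (Set.range fn).Finite := by
    have h1 : Finite {l : List (Fin e) // l.length ≤ K} :=
      (List.finite_length_le (Fin e) K).to_subtype
    exact Set.finite_range _
  obtain ⟨B, hBS, hBspan, hBli⟩ := exists_linearIndependent F (Set.range fn)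
  have hBfin : B.Finite := hfin.subset hBS
  have : Fintype B := hBfin.fintype
  have hcard : jetRank (fun i => ξ i) (M : Set F) K = Fintype.card B := by
    have h1 : jetRank (fun i => ξ i) (M : Set F) K = finrank F (Submodule.span F (Set.range fn)) :=
      rfl
    rw [h1, ← hBspan, finrank_span_set_eq_card hBli, Set.toFinset_card]
  choose w hw using fun f : B => hBS f.2
  -- the matrix
  let A : Matrix B (Fin μ) F := fun f i => wd (fun i => ξ i) (w f : List (Fin e)) (ρ (b i))
  have hA : LinearIndependent F A.row := by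
    rw [Fintype.linearIndependent_iff]
    intro g hg f0
    have h1 : ∀ i, ∑ f, ρ.symm (g f) * wd (fun i => ξ i) (w f : List (Fin e)) (b i) = 0 := by
      intro i
      have h2 := congrFun hg i
      rw [Finset.sum_apply, Pi.zero_apply] at h2
      apply ρ.injective
      rw [map_sum, map_zero, ← h2]
      refine Finset.sum_congr rfl fun f _ => ?_
      rw [map_mul, AlgEquiv.apply_symm_apply, Pi.smul_apply, smul_eq_mul]
      show _ = g f * wd (fun i => ξ i) (w f : List (Fin e)) (ρ (b i))
      rw [wd_autom ξ ρ hρ]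
    have h3 : ∑ f : B, ρ.symm (g f) • (f : ↥(M : Set F) → F) = 0 := by
      funext x
      rw [Finset.sum_apply, Pi.zero_apply]
      have hx : (x : F) = ∑ i, bM.repr ⟨x, x.2⟩ i • b i := by
        have h4 := congrArg (Submodule.subtype M) (bM.sum_repr ⟨x, x.2⟩)
        rw [map_sum] at h4
        exact h4.symm
      have h5 : ∀ f : B, (f : ↥(M : Set F) → F) x =
          ∑ i, bM.repr ⟨x, x.2⟩ i • wd (fun i => ξ i) (w f : List (Fin e)) (b i) := by
        intro f
        have h6 : (f : ↥(M : Set F) → F) = fn (w f) := (hw f).symm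
        rw [h6]
        show wd (fun i => ξ i) (w f : List (Fin e)) (x : F) = _
        refine (congrArg (wd (fun i => ξ i) (w f : List (Fin e))) hx).trans ?_
        rw [zjd_sum ξ]
        exact Finset.sum_congr rfl fun i _ => zjd_smul ξ _ _ _
      calc ∑ f : B, (ρ.symm (g f) • (f : ↥(M : Set F) → F)) x
          = ∑ f : B, ∑ i, bM.repr ⟨x, x.2⟩ i •
              (ρ.symm (g f) * wd (fun i => ξ i) (w f : List (Fin e)) (b i)) := by
            refine Finset.sum_congr rfl fun f _ => ?_
            rw [Pi.smul_apply, smul_eq_mul, h5, Finset.mul_sum]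
            exact Finset.sum_congr rfl fun i _ => mul_smul_comm _ _ _
        _ = ∑ i, bM.repr ⟨x, x.2⟩ i •
              ∑ f : B, (ρ.symm (g f) * wd (fun i => ξ i) (w f : List (Fin e)) (b i)) := by
            rw [Finset.sum_comm]
            exact Finset.sum_congr rfl fun i _ => (Finset.smul_sum).symm
        _ = 0 := by
            refine Finset.sum_eq_zero fun i _ => ?_
            rw [h1, smul_zero]
    have h7 := Fintype.linearIndependent_iff.1 hBli (fun f => ρ.symm (g f)) h3 f0
    exact (map_eq_zero_iff _ ρ.symm.injective).1 h7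
  have hrank : finrank F (LinearMap.range A.mulVecLin) = Fintype.card B := hA.rank_matrix
  -- the map `T`
  let T : (Fin μ → F) →ₗ[F] (F ⊗[k] F) ⧸ Q :=
    Fintype.linearCombination F (fun i => Ideal.Quotient.mkₐ F Q ((1 : F) ⊗ₜ[k] b i))
  have hT : ∀ c : Fin μ → F, T c = Ideal.Quotient.mkₐ F Q (∑ i, c i ⊗ₜ[k] b i) := by
    intro c
    rw [map_sum, Fintype.linearCombination_apply]
    refine Finset.sum_congr rfl fun i _ => ?_
    rw [← map_smul, TensorProduct.smul_tmul', smul_eq_mul, mul_one]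
  have hker : LinearMap.ker T ≤ LinearMap.ker A.mulVecLin := by
    intro c hc
    rw [LinearMap.mem_ker, hT] at hc
    have h1 : ∑ i, c i ⊗ₜ[k] b i ∈ Q := by
      rw [Ideal.Quotient.mkₐ_eq_mk] at hc
      exact Ideal.Quotient.eq_zero_iff_mem.1 hc
    rw [hQ, ← sum_wd_iff ξ hξ ρ hρ] at h1
    rw [LinearMap.mem_ker, Matrix.mulVecLin_apply]
    funext f
    have h2 := h1 (w f) (w f).2
    rw [Pi.zero_apply, ← h2]
    show ∑ i, A f i * c i = _
    exact Finset.sum_congr rfl fun i _ => mul_comm _ _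
  have h1 := LinearMap.finrank_range_add_finrank_ker T
  have h2 := LinearMap.finrank_range_add_finrank_ker A.mulVecLin
  have h3 : finrank F (LinearMap.ker T) ≤ finrank F (LinearMap.ker A.mulVecLin) :=
    Submodule.finrank_mono hker
  have h4 : LinearMap.range T ≤
      ((M.baseChange F : Submodule F (F ⊗[k] F)) ^ 1).map (Ideal.Quotient.mkₐ F Q).toLinearMap := by
    rintro _ ⟨c, rfl⟩
    rw [hT, pow_one]
    refine ⟨_, ?_, rfl⟩
    refine Submodule.sum_mem _ fun i _ => ?_
    exact Submodule.tmul_mem_baseChange_of_mem (c i) (bM i).2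
  have hVfin := finite_baseChange (F := F) M
  have h5 : Module.Finite F (((M.baseChange F : Submodule F (F ⊗[k] F)) ^ 1).map
      (Ideal.Quotient.mkₐ F Q).toLinearMap) := by
    rw [pow_one]
    infer_instance
  have h6 : finrank F (LinearMap.range T) ≤ hilb (M.baseChange F : Submodule F (F ⊗[k] F)) Q 1 :=
    Submodule.finrank_mono h4
  rw [hcard]
  omega

end Pool.Agent.SYZ68J
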