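import Pool.Agent.SYZ68J.ZJDefs
import Pool.Agent.SYZ71Z.ZTrd

/-!
# SYZ68J/ZJTrd : upper bound of the transcendence degree

`trdeg_F ((F ⊗_k F) ⧸ P) ≤ N` if `trdeg_k F = N`.
Proof.  `y : Fin N → F` a transcendence basis of `F / k`.  Every `b ∈ F` is algebraic over `k(y)`, so
satisfies a nontrivial polynomial relation with coefficients in `k[y]`; hence in `B = (F ⊗ F) ⧸ P`
the image of `1 ⊗ b` is algebraic over the subalgebra `F[ȳ]` generated by the images `ȳ_i` of
`1 ⊗ y_i` (the leading coefficient `1 ⊗ c(y)`, `c(y) ≠ 0`, is a unit of `F ⊗ F`, so nonzero in the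
domain `B`); `B` is generated over `F` by the images of the `1 ⊗ b`, so `B` is algebraic over
`F[ȳ]` (`Algebra.IsAlgebraic` via `Algebra.adjoin` of algebraic elements, `algebraicClosure`
subalgebra of a domain).  So some subset of the `ȳ_i` is a transcendence basis
(`exists_isTranscendenceBasis_subset`), `trdeg ≤ N`.
-/

set_option autoImplicit false

open Module TensorProduct

universe u v

namespace Pool.Agent.SYZ68J

theorem tensor_trdeg_le {k F : Type u} [Field k] [Field F] [Algebra k F] (N : ℕ)
    (htr : Algebra.trdeg k F = (N : Cardinal.{u})) (P : Ideal (F ⊗[k] F)) (hP : P.IsPrime) :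
    Algebra.trdeg F ((F ⊗[k] F) ⧸ P) ≤ (N : Cardinal.{u}) := by
  classical
  obtain ⟨t, ht⟩ := exists_isTranscendenceBasis k F
  have hcard := ht.cardinalMk_eq_trdeg
  haveI : IsDomain ((F ⊗[k] F) ⧸ P) := Ideal.Quotient.isDomain P
  set g : F →+* (F ⊗[k] F) ⧸ P :=
    (Ideal.Quotient.mk P).comp
      (Algebra.TensorProduct.includeRight : F →ₐ[k] F ⊗[k] F).toRingHom with hg
  set s : Set ((F ⊗[k] F) ⧸ P) := Set.range (fun i : t => g (i : F)) with hs
  have hmem : ∀ a ∈ Algebra.adjoin k (Set.range ((↑) : t → F)), g a ∈ Algebra.adjoin F s := by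
    intro a ha
    induction ha using Algebra.adjoin_induction with
    | mem x hx =>
      obtain ⟨i, rfl⟩ := hx
      exact Algebra.subset_adjoin ⟨i, rfl⟩
    | algebraMap r =>
      have : g (algebraMap k F r) = algebraMap F ((F ⊗[k] F) ⧸ P) (algebraMap k F r) := by
        simp only [hg, RingHom.comp_apply, AlgHom.toRingHom_eq_coe, RingHom.coe_coe,
          Algebra.TensorProduct.includeRight_apply]
        change Ideal.Quotient.mk P _ = Ideal.Quotient.mk P (algebraMap F (F ⊗[k] F) _)
        rw [Algebra.TensorProduct.algebraMap_apply, Algebra.algebraMap_self_apply,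
          Algebra.algebraMap_eq_smul_one, TensorProduct.tmul_smul, TensorProduct.smul_tmul']
      rw [this]
      exact Subalgebra.algebraMap_mem _ _
    | add x y _ _ hx hy => rw [map_add]; exact Subalgebra.add_mem _ hx hy
    | mul x y _ _ hx hy => rw [map_mul]; exact Subalgebra.mul_mem _ hx hy
  let φ : Algebra.adjoin k (Set.range ((↑) : t → F)) →+* Algebra.adjoin F s :=
    RingHom.codRestrict (g.comp (Algebra.adjoin k (Set.range ((↑) : t → F))).val.toRingHom)
      (Algebra.adjoin F s) (fun a => hmem _ a.2)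
  have hφ : ∀ a, algebraMap (Algebra.adjoin F s) ((F ⊗[k] F) ⧸ P) (φ a) = g (a : F) := fun a => rfl
  have hφi : Function.Injective φ := by
    intro a b hab
    have := congrArg (algebraMap (Algebra.adjoin F s) ((F ⊗[k] F) ⧸ P)) hab
    rw [hφ, hφ] at this
    exact Subtype.ext (g.injective this)
  have hb : ∀ b : F, IsAlgebraic (Algebra.adjoin F s) (g b) := by
    intro b
    have halg := ht.isAlgebraic.isAlgebraic b
    obtain ⟨p, hp0, hp⟩ := halg
    refine ⟨p.map φ, (Polynomial.map_ne_zero_iff hφi).2 hp0, ?_⟩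
    rw [Polynomial.aeval_def, Polynomial.eval₂_map]
    have h1 : (algebraMap (Algebra.adjoin F s) ((F ⊗[k] F) ⧸ P)).comp φ =
        g.comp (algebraMap (Algebra.adjoin k (Set.range ((↑) : t → F))) F) := by
      ext a
      exact hφ a
    rw [h1, ← Polynomial.hom_eval₂, ← Polynomial.aeval_def, hp, map_zero]
  haveI : Algebra.IsAlgebraic (Algebra.adjoin F s) ((F ⊗[k] F) ⧸ P) := by
    refine ⟨fun z => ?_⟩
    obtain ⟨w, rfl⟩ := Ideal.Quotient.mk_surjective z
    induction w with
    | zero => rw [map_zero]; exact isAlgebraic_zero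
    | tmul a b =>
      have h2 : (Ideal.Quotient.mk P) (a ⊗ₜ[k] b) =
          algebraMap F ((F ⊗[k] F) ⧸ P) a * g b := by
        change _ = Ideal.Quotient.mk P (algebraMap F (F ⊗[k] F) a) * _
        simp only [hg, RingHom.comp_apply, AlgHom.toRingHom_eq_coe, RingHom.coe_coe,
          Algebra.TensorProduct.includeRight_apply]
        rw [← map_mul, Algebra.TensorProduct.algebraMap_apply, Algebra.algebraMap_self_apply,
          Algebra.TensorProduct.tmul_mul_tmul, mul_one, one_mul]
      rw [h2]
      refine IsAlgebraic.mul ?_ (hb b)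
      have : algebraMap F ((F ⊗[k] F) ⧸ P) a =
          algebraMap (Algebra.adjoin F s) ((F ⊗[k] F) ⧸ P) (algebraMap F _ a) := rfl
      rw [this]
      exact isAlgebraic_algebraMap _
    | add x y hx hy => rw [map_add]; exact hx.add hy
  refine (Algebra.IsAlgebraic.trdeg_le_cardinalMk F s).trans ?_
  rw [← htr, ← hcard]
  exact Cardinal.mk_range_le

end Pool.Agent.SYZ68J
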