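import Pool.Agent.SYZ68J.ZJBez
import Pool.Agent.SYZ68J.ZJTrd
import Pool.Agent.SYZ68J.ZJDiag
import Pool.Agent.SYZ68J.CTens
import Pool.Agent.SYZ71Z.ZAsm

/-!
# SYZ68J/ZJZero : the zero estimate with jets

Proof (follow `Pool.Agent.SYZ71Z.zero_est_aux` in `ZAsm.lean`; the only changes: left action instead
of right action, and jets).  Assume `c ≠ 0`.  `A = F ⊗ F`, `V = M.baseChange F`, `G u = g u` on
`ℕ^r`, `D_i = dl (ξ i)`, `x = ∑ c_i ⊗ b_i ∈ V`, `x ≠ 0`.
* `hlin`: `g v (c_i) = c_i` and `v ≠ 0` imply `c_i ∈ k` (`hinv`), so `∑ c_i b_i = 0` gives `c = 0`.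
* By `sum_wd_iff`: `x ∈ jetIdeal D (mker (G v)) ((N+1) K')` for `v ≤ (N+1) w`.
* `S j = {gl (g (-u)) (wd D l x) | u ≤ j w, |l| ≤ j K'}`, a subset of `V`.
* `S j ⊆ jetIdeal D (mker (G v)) ((N+1-j) K')` for `v ≤ (N+1-j) w`:
  `wd D l x ∈ jetIdeal D (mker (G (v+u))) ((N+1) K' - |l|)`, and `mker (G v) = (mker (G (v+u)))`
  pulled back by `gl (g (u))`... precisely: `ev (g v) (gl (g (-u)) y) = g (-u) (ev (g (u+v)) y)`
  (`ev_gl`), so `(mker (g v)).comap (gl (g (-u))) = mker (g (v + u))`; `jetIdeal_comap`.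
* Admissible primes of level `j`: minimal primes `P` of `Ideal.span (S j)` with
  `P ≤ mker (G v)` for some `v ≤ (N+1-j) w`; `h j` the least height; `1 ≤ h j ≤ N` for `j ≤ N`,
  `h j ≤ h (j+1)`; `exists_eq_succ` gives `j < N` with `h j = h (j+1)` and `P` admissible of level
  `j+1` of height `h j`.  (`h j ≤ N`: `Pool.Agent.SYZ71Z.bezout` with `ι = Unit`, as in `ZAsm`.)
* `p u = P.comap (gl (g (-u)))`, `u ∈ [0,w]^r`: pairwise distinct (`comap_gl_injective`), prime of
  height `h j`, below `mker (G (v+u))`, and `Ideal.span (S j) ≤ jetIdeal D (p u) K'`: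
  for `y = gl (g (-u')) (wd D l' x) ∈ S j` and `|l| ≤ K'`:
  `gl (g (-u)) (wd D l y) = gl (g (-(u+u'))) (wd D (l' ++ l) x) ∈ S (j+1) ⊆ P` (`gl_dl`), so
  `wd D l y ∈ p u`; `mem_jetIdeal_iff`.  In particular `Ideal.span (S j) ≤ p u`, and `p u` is a
  minimal prime of it, as in `ZAsm`.
* `ρ ≤ hilb V (jetIdeal D (p u) K') 1`: `jetIdeal D (p u) K' ≤ jetIdeal D (mker (G (v+u))) K'`
  (`jetIdeal_mono`), `hilb_anti`, `jetRank_le_hilb`.
* `bezout_mult` (with `R = k`): `(w+1)^r * ρ ≤ N! * (2^N * T₀)`, contradicting `hbig`.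
  (`fullDepth_tensor`, `tensor_trdeg_le`, `tensor_noeth`, `dimProp_of_units`, … as in `ZAsm`.)
-/

set_option autoImplicit false

open Module TensorProduct

universe u

namespace Pool.Agent.SYZ68J

open Pool.Agent.SYZ71Z

private theorem zjz_append {ι A : Type*} (D : ι → A → A) (l' l : List ι) (x : A) :
    wd D (l' ++ l) x = wd D l (wd D l' x) := by
  induction l' generalizing x with
  | nil => rfl
  | cons i l' ih =>
    show wd D (l' ++ l) (D i x) = wd D l (wd D l' (D i x))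
    exact ih _

section

variable {k F : Type u} [Field k] [Field F] [Algebra k F] {e : ℕ}

private theorem zjz_wd_gl (ξ : Fin e → Derivation k F F) (σ : F ≃ₐ[k] F)
    (h : ∀ i a, σ (ξ i a) = ξ i (σ a)) (l : List (Fin e)) (y : F ⊗[k] F) :
    wd (fun i => dl (ξ i)) l (gl σ y) = gl σ (wd (fun i => dl (ξ i)) l y) := by
  induction l generalizing y with
  | nil => rfl
  | cons i l ih =>
    show wd (fun i => dl (ξ i)) l (dl (ξ i) (gl σ y)) =
      gl σ (wd (fun i => dl (ξ i)) l (dl (ξ i) y))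
    rw [← gl_dl σ (ξ i) (h i), ih]

private theorem zjz_wd_mem (ξ : Fin e → Derivation k F F) (M : Submodule k F)
    (l : List (Fin e)) (y : F ⊗[k] F) (hy : y ∈ (M.baseChange F : Submodule F (F ⊗[k] F))) :
    wd (fun i => dl (ξ i)) l y ∈ (M.baseChange F : Submodule F (F ⊗[k] F)) := by
  induction l generalizing y with
  | nil => exact hy
  | cons i l ih => exact ih _ (dl_mem_baseChange M (ξ i) y hy)

end

theorem zero_jets {k F : Type u} [Field k] [CharZero k] [Field F] [Algebra k F]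
    (hdom : IsDomain (F ⊗[k] F)) (N r w K' T₀ ρ : ℕ) (hr : 1 ≤ r)
    (g : (Fin r → ℤ) → (F ≃ₐ[k] F)) (hg : ∀ u v, g (u + v) = g u * g v)
    (hinv : ∀ v, v ≠ 0 → ∀ a : F, g v a = a → a ∈ (algebraMap k F).range)
    {e : ℕ} (ξ : Fin e → Derivation k F F) (hξ : ∀ i j a, ξ i (ξ j a) = ξ j (ξ i a))
    (hξg : ∀ v i a, g v (ξ i a) = ξ i (g v a))
    (htr : Algebra.trdeg k F = (N : Cardinal.{u})) (M : Submodule k F) [Module.Finite k M]
    (h1 : (1 : F) ∈ M) (hadj : IntermediateField.adjoin k (M : Set F) = ⊤)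
    (hT : ∀ K : ℕ, 1 ≤ K → finrank k ↥(M ^ K) ≤ T₀ * K ^ N)
    (hρ : ρ ≤ jetRank (fun i => ξ i) (M : Set F) K')
    (hbig : N.factorial * (2 ^ N * T₀) < (w + 1) ^ r * ρ)
    (m : ℕ) (b : Fin m → F) (hb : ∀ i, b i ∈ M) (hlin : LinearIndependent k b)
    (c : Fin m → F)
    (hz : ∀ v : Fin r → ℕ, (∀ i, v i ≤ (N + 1) * w) → ∀ l : List (Fin e),
      l.length ≤ (N + 1) * K' →
      ∑ i, c i * wd (fun i => ξ i) l (g (fun j => (v j : ℤ)) (b i)) = 0) :
    c = 0 := by
  classical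
  by_contra hc
  have hF : CharZero F := charZero_of_injective_algebraMap (algebraMap k F).injective
  have hnoe : IsNoetherianRing (F ⊗[k] F) := tensor_noeth M hadj
  set V : Submodule F (F ⊗[k] F) := M.baseChange F with hV
  have hVfin : Module.Finite F V := finite_baseChange M
  have h1V : (1 : F ⊗[k] F) ∈ V := by
    rw [Algebra.TensorProduct.one_def]
    exact Submodule.tmul_mem_baseChange_of_mem 1 h1
  have hloc := tensor_units M hadj
  have hdim : DimProp F (F ⊗[k] F) N := dimProp_of_units V hloc N (tensor_trdeg N htr)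
  have hTV : ∀ K : ℕ, 1 ≤ K → finrank F ↥(V ^ K) ≤ T₀ * K ^ N := fun K hK =>
    (finrank_baseChange_pow M K).trans (hT K hK)
  have hdepth : FullDepth (F ⊗[k] F) := fullDepth_tensor N htr
  -- linear independence over the fixed fields
  have hlin' : ∀ v, v ≠ 0 → ∀ c : Fin m → F, (∀ i, g v (c i) = c i) → ∑ i, c i * b i = 0 →
      c = 0 := by
    intro v hv c hcv hcb
    choose a ha using fun i => hinv v hv (c i) (hcv i)
    have h2 : a = 0 := by
      rw [Fintype.linearIndependent_iff] at hlin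
      funext i
      refine hlin a ?_ i
      rw [← hcb]
      refine Finset.sum_congr rfl fun i _ => ?_
      rw [Algebra.smul_def, ha]
    funext i
    rw [← ha i, h2, Pi.zero_apply, Pi.zero_apply, map_zero]
  -- the element x
  set x : F ⊗[k] F := ∑ i, c i ⊗ₜ[k] b i with hxdef
  have hx0 : x ≠ 0 := fun h0 => hc (sum_tmul_eq_zero b hlin c h0)
  have hxV : x ∈ V := by
    rw [hxdef]
    exact Submodule.sum_mem _ fun i _ => Submodule.tmul_mem_baseChange_of_mem (c i) (hb i)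
  -- natural boxes
  let D : Fin e → Derivation k (F ⊗[k] F) (F ⊗[k] F) := fun i => dl (ξ i)
  let G : (Fin r → ℕ) → (F ≃ₐ[k] F) := fun u => g (fun i => (u i : ℤ))
  let Gm : (Fin r → ℕ) → (F ≃ₐ[k] F) := fun u => g (-(fun i => (u i : ℤ)))
  have hG : ∀ u v : Fin r → ℕ, G (u + v) = G u * G v := by
    intro u v
    refine Eq.trans (congrArg g ?_) (hg _ _)
    funext i
    simp
  have hGm : ∀ u v : Fin r → ℕ, Gm (u + v) = Gm u * Gm v := by
    intro u v
    refine Eq.trans (congrArg g ?_) (hg _ _)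
    funext i
    simp only [Pi.neg_apply, Pi.add_apply]
    push_cast
    ring
  have hg0 : g 0 = 1 := by
    have h2 := hg 0 0
    rw [add_zero] at h2
    exact (mul_eq_left.mp h2.symm)
  have hGm0 : Gm 0 = 1 := by
    rw [← hg0]
    refine congrArg g ?_
    funext i
    simp
  have hGmG : ∀ u : Fin r → ℕ, (Gm u)⁻¹ = G u := by
    intro u
    rw [inv_eq_iff_mul_eq_one]
    rw [← hg0]
    refine (hg _ _).symm.trans (congrArg g ?_)
    funext i
    simp
  have hcomm : ∀ (u : Fin r → ℕ) i a, Gm u (ξ i a) = ξ i (Gm u a) := fun u i a => hξg _ i a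
  have hpull : ∀ (u v : Fin r → ℕ) (y : F ⊗[k] F), gl (Gm u) y ∈ mker (G v) ↔
      y ∈ mker (G (v + u)) := by
    intro u v y
    rw [mem_mker, mem_mker, ev_gl, hGmG, ← hG, add_comm u v]
    exact map_eq_zero_iff _ (Gm u).injective
  have hjet : ∀ v : Fin r → ℕ, (∀ i, v i ≤ (N + 1) * w) → ∀ l : List (Fin e),
      l.length ≤ (N + 1) * K' → wd (fun i => D i) l x ∈ mker (G v) := by
    intro v hv
    have h2 := (sum_wd_iff ξ hξ (G v) (fun i a => hξg _ i a) ((N + 1) * K') m b c).1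
      (fun l hl => hz v hv l hl)
    exact (mem_jetIdeal_iff _ _ _ _).1 h2
  -- generators
  let S : ℕ → Set (F ⊗[k] F) := fun j =>
    {y | ∃ u : Fin r → ℕ, (∀ i, u i ≤ j * w) ∧ ∃ l : List (Fin e), l.length ≤ j * K' ∧
      y = gl (Gm u) (wd (fun i => D i) l x)}
  have hSV : ∀ j, S j ⊆ (V : Set (F ⊗[k] F)) := by
    rintro j y ⟨u, hu, l, hl, rfl⟩
    exact gl_mem_baseChange M _ _ (zjz_wd_mem ξ M l x hxV)
  have hSmem : ∀ j, ∀ u : Fin r → ℕ, (∀ i, u i ≤ j * w) → ∀ l : List (Fin e),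
      l.length ≤ j * K' → gl (Gm u) (wd (fun i => D i) l x) ∈ Ideal.span (S j) := by
    intro j u hu l hl
    exact Ideal.subset_span ⟨u, hu, l, hl, rfl⟩
  have hSle : ∀ j (P : Ideal (F ⊗[k] F)), (∀ u : Fin r → ℕ, (∀ i, u i ≤ j * w) →
      ∀ l : List (Fin e), l.length ≤ j * K' → gl (Gm u) (wd (fun i => D i) l x) ∈ P) →
      Ideal.span (S j) ≤ P := by
    intro j P hP
    rw [Ideal.span_le]
    rintro y ⟨u, hu, l, hl, rfl⟩
    exact hP u hu l hl
  -- admissible primes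
  let Adm : ℕ → Ideal (F ⊗[k] F) → Prop := fun j P =>
    P ∈ (Ideal.span (S j)).minimalPrimes ∧
      ∃ v : Fin r → ℕ, (∀ i, v i ≤ (N + 1 - j) * w) ∧ P ≤ mker (G v)
  have hbox : ∀ j, j ≤ N → ∀ u v : Fin r → ℕ, (∀ i, u i ≤ j * w) →
      (∀ i, v i ≤ (N + 1 - j) * w) → ∀ i, (v + u) i ≤ (N + 1) * w := by
    intro j hj u v hu hv i
    have e1 := hu i
    have e2 := hv i
    have e3 : (N + 1 - j) * w + j * w = (N + 1) * w := by
      rw [← add_mul]
      congr 1
      omega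
    simp only [Pi.add_apply]
    omega
  have hJle : ∀ j, j ≤ N → ∀ v : Fin r → ℕ, (∀ i, v i ≤ (N + 1 - j) * w) →
      Ideal.span (S j) ≤ mker (G v) := by
    intro j hj v hv
    refine hSle j _ fun u hu l hl => ?_
    rw [hpull]
    exact hjet _ (hbox j hj u v hu hv) l (hl.trans (Nat.mul_le_mul_right _ (by omega)))
  -- below every prime that contains the generators and lies below a point there is an
  -- admissible prime
  have hAdm : ∀ j, ∀ P : Ideal (F ⊗[k] F), P.IsPrime → Ideal.span (S j) ≤ P →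
      (∃ v : Fin r → ℕ, (∀ i, v i ≤ (N + 1 - j) * w) ∧ P ≤ mker (G v)) →
      ∃ P', Adm j P' ∧ P' ≤ P := by
    rintro j P hP hle ⟨v, hv, hPv⟩
    obtain ⟨P', hP', hP'P⟩ := Ideal.exists_minimalPrimes_le hle
    exact ⟨P', ⟨hP', v, hv, hP'P.trans hPv⟩, hP'P⟩
  have hexAdm : ∀ j, j ≤ N → ∃ P, Adm j P := by
    intro j hj
    obtain ⟨P, hP, -⟩ := hAdm j (mker (G 0)) (mker_isPrime _)
      (hJle j hj 0 (fun i => Nat.zero_le _)) ⟨0, fun i => Nat.zero_le _, le_rfl⟩
    exact ⟨P, hP⟩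
  have hfinh : ∀ P : Ideal (F ⊗[k] F), P.IsPrime → ∃ n : ℕ, P.height = (n : ℕ∞) := by
    intro P hP
    have : P.height ≠ ⊤ := Ideal.height_ne_top hP.ne_top
    exact ⟨_, (ENat.natCast_toNat this).symm⟩
  -- minimal height
  have hmin : ∀ j, ∃ n : ℕ, j ≤ N → ((∃ P, Adm j P ∧ P.height = (n : ℕ∞)) ∧
      ∀ P, Adm j P → (n : ℕ∞) ≤ P.height) := by
    intro j
    by_cases hj : j ≤ N
    · have hex : ∃ n : ℕ, ∃ P, Adm j P ∧ P.height = (n : ℕ∞) := by
        obtain ⟨P, hP⟩ := hexAdm j hj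
        obtain ⟨n, hn⟩ := hfinh P hP.1.1.1
        exact ⟨n, P, hP, hn⟩
      refine ⟨Nat.find hex, fun _ => ⟨Nat.find_spec hex, fun P hP => ?_⟩⟩
      obtain ⟨n, hn⟩ := hfinh P hP.1.1.1
      rw [hn]
      exact_mod_cast Nat.find_min' hex ⟨P, hP, hn⟩
    · exact ⟨0, fun h => absurd h hj⟩
  choose h hh using hmin
  have hxS : ∀ j, x ∈ Ideal.span (S j) := by
    intro j
    have := hSmem j 0 (fun i => Nat.zero_le _) [] (Nat.zero_le _)
    rwa [hGm0, gl_one] at this
  have hh1 : ∀ j, j ≤ N → 1 ≤ h j := by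
    intro j hj
    obtain ⟨⟨P, hP, hPh⟩, -⟩ := hh j hj
    by_contra hcon
    have h0 : h j = 0 := by omega
    rw [h0, Nat.cast_zero] at hPh
    have hPp := hP.1.1.1
    have hmp : P ∈ minimalPrimes (F ⊗[k] F) := Ideal.height_eq_zero_iff.mp hPh
    rw [IsDomain.minimalPrimes_eq_singleton_bot, Set.mem_singleton_iff] at hmp
    have hxP := hP.1.1.2 (hxS j)
    rw [hmp] at hxP
    exact hx0 (by simpa using hxP)
  have hh2 : ∀ j, j ≤ N → h j ≤ N := by
    intro j hj
    obtain ⟨⟨P, hP, hPh⟩, -⟩ := hh j hj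
    exact (bezout N T₀ V h1V hloc hdim hTV (S j) (hSV j) (h j) (ι := Unit) (fun _ => P)
      (fun _ _ _ => rfl) (fun _ => hP.1) (fun _ => hPh)).1
  have hSmono : ∀ j, Ideal.span (S j) ≤ Ideal.span (S (j + 1)) := by
    intro j
    refine hSle j _ fun u hu l hl => hSmem (j + 1) u (fun i => (hu i).trans ?_) l (hl.trans ?_)
    · exact Nat.mul_le_mul_right _ (Nat.le_succ j)
    · exact Nat.mul_le_mul_right _ (Nat.le_succ j)
  have hh3 : ∀ j, j < N → h j ≤ h (j + 1) := by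
    intro j hj
    obtain ⟨⟨P, hP, hPh⟩, -⟩ := hh (j + 1) (by omega)
    obtain ⟨hP1, v, hv, hPv⟩ := hP
    obtain ⟨P', hP', hP'P⟩ := hAdm j P hP1.1.1 ((hSmono j).trans hP1.1.2)
      ⟨v, fun i => (hv i).trans (Nat.mul_le_mul_right _ (by omega)), hPv⟩
    have h4 := (hh j (by omega)).2 P' hP'
    have h5 := h4.trans (Ideal.height_mono hP'P)
    rw [hPh] at h5
    exact_mod_cast h5
  obtain ⟨j, hj, hjeq⟩ := exists_eq_succ N h hh1 hh2 hh3
  obtain ⟨⟨P, ⟨hP1, v, hv, hPv⟩, hPh⟩, -⟩ := hh (j + 1) (by omega)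
  have hPprime := hP1.1.1
  -- translates
  let p : (Fin r → Fin (w + 1)) → Ideal (F ⊗[k] F) := fun u =>
    P.comap (gl (Gm fun i => ((u i : Fin (w + 1)) : ℕ)))
  have hpinj : Function.Injective p := by
    have hinj := comap_gl_injective g hg (fun i => (v i : ℤ)) P hPv m b hlin' c hc
      (hP1.1.2 (hxS (j + 1)))
    intro u u' huu
    have h4 := hinj huu
    funext i
    have h5 := congrFun h4 i
    apply Fin.ext
    exact_mod_cast h5
  have hpprime : ∀ u, (p u).IsPrime := fun u => Ideal.comap_isPrime _ _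
  have hpheight : ∀ u, (p u).height = (h j : ℕ∞) := by
    intro u
    rw [hjeq, ← hPh]
    exact RingEquiv.height_comap (gl (Gm fun i => ((u i : Fin (w + 1)) : ℕ))).toRingEquiv P
  have hule : ∀ (u : Fin r → Fin (w + 1)) i, ((u i : Fin (w + 1)) : ℕ) ≤ w :=
    fun u i => Nat.lt_succ_iff.mp (u i).2
  have hpt : ∀ u, p u ≤ mker (G (v + fun i => ((u i : Fin (w + 1)) : ℕ))) := by
    intro u y hy
    exact (hpull _ _ _).1 (hPv hy)
  have hpjet : ∀ u, Ideal.span (S j) ≤ jetIdeal D (p u) K' := by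
    intro u
    refine hSle j _ fun u' hu' l' hl' => ?_
    rw [mem_jetIdeal_iff]
    intro l hl
    change gl (Gm fun i => ((u i : Fin (w + 1)) : ℕ))
      (wd (fun i => dl (ξ i)) l (gl (Gm u') (wd (fun i => dl (ξ i)) l' x))) ∈ P
    rw [zjz_wd_gl ξ (Gm u') (hcomm u'), gl_gl, ← hGm, ← zjz_append]
    refine hP1.1.2 (hSmem (j + 1) _ (fun i => ?_) _ ?_)
    · have e1 := hule u i
      have e2 := hu' i
      simp only [Pi.add_apply]
      rw [add_mul, one_mul]
      omega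
    · rw [List.length_append, add_mul, one_mul]
      omega
  have hpmin : ∀ u, p u ∈ (Ideal.span (S j)).minimalPrimes := by
    intro u
    have hle : Ideal.span (S j) ≤ p u := (hpjet u).trans (jetIdeal_le D (p u) K')
    have hvu : ∀ i, (v + fun i => ((u i : Fin (w + 1)) : ℕ)) i ≤ (N + 1 - j) * w := by
      intro i
      have e1 := hule u i
      have e2 := hv i
      have e3 : N + 1 - j = (N + 1 - (j + 1)) + 1 := by omega
      rw [e3, add_mul, one_mul]
      simp only [Pi.add_apply]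
      omega
    obtain ⟨P', hP', hP'P⟩ := hAdm j (p u) (hpprime u) hle ⟨_, hvu, hpt u⟩
    have h6 := (hh j (by omega)).2 P' hP'
    have hP'prime := hP'.1.1.1
    rcases hP'P.lt_or_eq with hlt | heq
    · exfalso
      have h7 : P'.height < (p u).height :=
        Ideal.height_strict_mono_of_isPrime hlt
      rw [hpheight u] at h7
      exact absurd h6 (not_le.mpr h7)
    · rw [← heq]
      exact hP'.1
  have hpρ : ∀ u, ρ ≤ hilb V (jetIdeal D (p u) K') 1 := by
    intro u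
    refine hρ.trans ((jetRank_le_hilb ξ hξ (G (v + fun i => ((u i : Fin (w + 1)) : ℕ)))
      (fun i a => hξg _ i a) M K').trans ?_)
    exact hilb_anti V _ _ (jetIdeal_mono D (hpt u) K') 1
  have hfinal := bezout_mult N T₀ D V h1V (fun i y hy => dl_mem_baseChange M (ξ i) y hy)
    (fun i a => ⟨ξ i a, dl_algebraMap (ξ i) a⟩) hloc hdim
    (fun P hP => tensor_trdeg_le N htr P hP) hTV hdepth (S j) (hSV j) (h j) p hpinj hpmin
    hpheight K' ρ hpjet hpρ
  rw [Fintype.card_fun, Fintype.card_fin, Fintype.card_fin] at hfinal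
  omega

end Pool.Agent.SYZ68J
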