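import Pool.Agent.SYZ68J.JRank
import Pool.Agent.SYZ68J.JNum
import Pool.Agent.SYZ68J.ZJZero
import Pool.Agent.SYZ71.Core

/-!
# SYZ68J/JCore : from the rank bound and the zero estimate with jets to a contradiction

Compare `Pool.Agent.SYZ71.core` (file `Core.lean`): the same objects (`Mk`, `KSpan`, `exists_act`,
`exists_basis_KSpan`, `trdeg_extendScalars`, …) with `K₁ = K₀`.

Proof.  `F = IntermediateField.extendScalars h₀` over `K₀`, `N = 2 n - e`; `γ v : F ≃ₐ[K₀] F`
(`exists_act`); `ξF i : Derivation K₀ F F` the restriction of `ξ_i` (`hξF`, `hξK`).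
`ρ D E := jetRank ξ (L D E) E` (image of `L D E` in `Q`).
Constants: `M₀, C_R` (`RankJ`), `c_l` (`GrowthLower`), `C_u` (`GrowthUpper`), `a` with
`N + 1 ≤ 2^a`.  `jet_numerics` with `c₁ = c_l C_R`, `c₂ = 2^(e a) N! 2^N C_u 2^n`: `D, E, w`.
(`ρ D E ≥ 1`: `one_le_jetRank`, `1 ∈ L D E` — from `one_mem`, `mul_mem`: `1 ∈ L D 0`; and for a nonzero
element of `L D E` use `GrowthLower` as `hex` in `Core.lean`.  If `E = 0` use `1 ∈ L D 0`.
`ρ D E ≤ ρ (D + 1) E`: `L D E ⊆ L (D + 1) E` by `one_mem`, `mul_mem`, `jetRank_mono_left`.)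
`V = (N + 1) w`, `K' = E / (N + 1)` (so `(N + 1) K' ≤ E`, `E + 1 ≤ 2^a (K' + 1)`).
* `f_i ∈ L D E` (`i < φ`), independent over `K₀`, `φ = dim_(K₀) KSpan L K₀ D E`.
  `D^n E^n ≤ c_l E^e φ`, so `φ ≤ C_R ρ E^(n-e)` would give `D^n ≤ c_l C_R ρ`; hence
  `C_R (ρ E^(n-e)) < φ`, and by `RankJ` (`D V² ≤ E`) all determinants `jetMat g ξ f (M₀ v) l`, `|l| ≤ E`,
  `v ≤ V`, vanish.  These are determinants of a matrix with entries in `F`
  (`a i (l, v) = ξF_l (γ (M₀ v) f_i)`); `CI.exists_row_relation`: `0 ≠ c ∈ F^φ` with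
  `∑ c_i ξF_l (γ (M₀ v) f_i) = 0` for `|l| ≤ E`, `v ≤ V`.
* `0 ≠ y₀ ∈ L D E`, `y` its image, `M = Mk L h₀ y (D + 1) E` (`= y⁻¹ K₀ L(D + 1, E)`), `b_i = y⁻¹ f_i`.
  `∑ c_i ξF_l (γ (M₀ v) b_i) = 0` for `|l| ≤ E`, `v ≤ V`: Leibniz,
  `ξ_l (γ y⁻¹ · γ f_i) = ∑ (coefficients independent of i) ξ_l' (γ f_i)`, `l'` sublists of `l`.
* `zero_jets` over `K₀` with `γ'(v) = γ (M₀ v)` (`hinv`: an element of `F` fixed by `γ (M₀ v)`,
  `v ≠ 0`, is in `K₀`: `exists_frac`, `ext_div_eq_iff`, `hinv`), `M` (`1 ∈ M`; generates `F`; finite: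
  `Mk_finite`), `T₀ = C_u (D + 1)^n E^(n-e)` (`Mk_pow`, `hup`, `D + 1 ≤ E`, as in `Core.lean`),
  `ρ' = jetRank ξF M K'`:
  `ρ D E ≤ 2^(e a) jetRank ξ (L D E) K'` (`jetRank_iterate`)
  `≤ 2^(e a) jetRank ξ (y⁻¹ L D E) K'` (`jetRank_mul_left`) `≤ 2^(e a) jetRank ξF M K'`
  (`jetRank_mono_left`, `jetRank_map` for `F → Q`).
  `hbig`: `N! (2^N T₀) < (w+1)^r ρ'` follows from `c₂ D^n E^(n-e) < (w+1)^r ρ D E`,
  `(D + 1)^n ≤ 2^n D^n`, after multiplication by `2^(e a)`.
  The `b_i` are linearly independent over `K₀`, `c ≠ 0`: contradiction.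
-/

set_option autoImplicit false

open MvPowerSeries Module TensorProduct

universe u

namespace Pool.Agent.SYZ68J

open Pool.Agent.SYZ71

private theorem wd_add_dv {R F : Type*} [CommRing R] [Field F] [Algebra R F] {e : ℕ}
    (ξ : Fin e → Derivation R F F) : ∀ (l : List (Fin e)) (a b : F),
      wd (fun i => ξ i) l (a + b) = wd (fun i => ξ i) l a + wd (fun i => ξ i) l b := by
  intro l
  induction l with
  | nil => intro a b; rfl
  | cons j l ih =>
    intro a b
    change wd (fun i => ξ i) l (ξ j (a + b)) = _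
    rw [map_add]
    exact ih _ _

/-- multiplication by a fixed element preserves the vanishing of the jets of a relation -/
private theorem leib_rel {R F : Type*} [CommRing R] [Field F] [Algebra R F] {e m : ℕ}
    (ξ : Fin e → Derivation R F F) (c : Fin m → F) :
    ∀ (l : List (Fin e)) (Y : F) (u : Fin m → F),
      (∀ l' : List (Fin e), l'.length ≤ l.length → ∑ i, c i * wd (fun i => ξ i) l' (u i) = 0) →
      ∑ i, c i * wd (fun i => ξ i) l (Y * u i) = 0 := by
  intro l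
  induction l with
  | nil =>
    intro Y u h
    have h0 := h [] le_rfl
    change ∑ i, c i * (Y * u i) = 0
    change ∑ i, c i * u i = 0 at h0
    calc ∑ i, c i * (Y * u i) = Y * ∑ i, c i * u i := by
          rw [Finset.mul_sum]; exact Finset.sum_congr rfl fun i _ => by ring
      _ = 0 := by rw [h0, mul_zero]
  | cons j l ih =>
    intro Y u h
    have h1 : ∀ i, wd (fun i => ξ i) (j :: l) (Y * u i) =
        wd (fun i => ξ i) l (Y * ξ j (u i)) + wd (fun i => ξ i) l (ξ j Y * u i) := by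
      intro i
      change wd (fun i => ξ i) l (ξ j (Y * u i)) = _
      rw [Derivation.leibniz, smul_eq_mul, smul_eq_mul, mul_comm (u i) (ξ j Y)]
      exact wd_add_dv ξ l _ _
    simp only [h1, mul_add, Finset.sum_add_distrib]
    rw [ih Y (fun i => ξ j (u i)) ?_, ih (ξ j Y) u ?_, add_zero]
    · intro l' hl'
      exact h l' (hl'.trans (by simp))
    · intro l' hl'
      exact h (j :: l') (by simpa using hl')

theorem core_jets {k : Type u} [Field k] [CharZero k] (n r e : ℕ) (he : e < n)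
    (hr : 2 * n + 1 ≤ r)
    (g : (Fin r → ℤ) → (PS k (2 * n) ≃ₐ[k] PS k (2 * n))) (hg : ∀ u v, g (u + v) = g u * g v)
    (L : ℕ → ℕ → Submodule k (PS k (2 * n))) (hL : IsFamily L)
    (hgL : ∃ C : ℕ, ∀ (v : Fin r → ℤ) (D E : ℕ), 1 ≤ D → ∃ b : PS k (2 * n), b ≠ 0 ∧
      ∀ f ∈ L D E, b * g v f ∈ L (2 * D) (E + C * D * (1 + ∑ i, (v i).natAbs ^ 2)))
    (K₀ : IntermediateField k (QS k (2 * n))) (h₀ : K₀ ≤ Fld L)
    (htr₀ : Algebra.trdeg k K₀ = (e : ℕ)) (htr : Algebra.trdeg k (Fld L) = (2 * n : ℕ))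
    (hlow : GrowthLower L K₀ n e) (hup : GrowthUpper L K₀ n e)
    (hK : ∀ v, ∀ f h : PS k (2 * n), h ≠ 0 → algebraMap (PS k (2 * n)) (QS k (2 * n)) f /
      algebraMap (PS k (2 * n)) (QS k (2 * n)) h ∈ K₀ → g v f * h = f * g v h)
    (hinv : ∀ v, v ≠ 0 → ∀ D, ∀ f ∈ L D 0, ∀ h ∈ L D 0, h ≠ 0 → g v f * h = f * g v h →
      algebraMap (PS k (2 * n)) (QS k (2 * n)) f /
        algebraMap (PS k (2 * n)) (QS k (2 * n)) h ∈ K₀)
    (hdom : IsDomain (IntermediateField.extendScalars h₀ ⊗[K₀]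
      IntermediateField.extendScalars h₀))
    (ξ : Fin e → Derivation k (QS k (2 * n)) (QS k (2 * n)))
    (hξ : ∀ i j x, ξ i (ξ j x) = ξ j (ξ i x))
    (hξg : ∀ v i x, CI.ext (g v) (ξ i x) = ξ i (CI.ext (g v) x))
    (hξF : ∀ i, ∀ x ∈ Fld L, ξ i x ∈ Fld L) (hξK : ∀ i, ∀ x ∈ K₀, ξ i x = 0)
    (hR : RankJ (n - e) g ξ L) : False := by
  classical
  have hinj : Function.Injective (algebraMap (PS k (2 * n)) (QS k (2 * n))) :=
    IsFractionRing.injective _ _
  obtain ⟨γ, hγadd, hγ⟩ := exists_act g hg L hL hgL K₀ h₀ hK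
  obtain ⟨M₀, CR, hM₀, hCR, hR⟩ := hR
  obtain ⟨cl, hlow⟩ := hlow
  obtain ⟨Cu, hup⟩ := hup
  have hdn : 2 * n - n = n := by omega
  rw [hdn] at hlow hup
  obtain ⟨N, hN⟩ : ∃ N, N = 2 * n - e := ⟨_, rfl⟩
  obtain ⟨a, ha⟩ : ∃ a, N + 1 ≤ 2 ^ a := ⟨N + 1, Nat.lt_two_pow_self.le⟩
  -- membership
  have hone : ∀ D, 1 ≤ D → (1 : PS k (2 * n)) ∈ L D 0 := by
    intro D hD
    induction D, hD using Nat.le_induction with
    | base => exact hL.one_mem
    | succ D _ ih => simpa using hL.mul_mem _ _ _ _ _ _ ih hL.one_mem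
  have hsucc : ∀ D E x, x ∈ L D E → x ∈ L (D + 1) E := by
    intro D E x hx
    simpa using hL.mul_mem _ _ _ _ _ _ hx hL.one_mem
  have hex : ∀ D E, 1 ≤ D → ∃ x ∈ L D E, x ≠ 0 := by
    intro D E hD
    rcases Nat.eq_zero_or_pos E with hE0 | hE0
    · rw [hE0]; exact ⟨1, hone D hD, one_ne_zero⟩
    induction D, hD using Nat.le_induction with
    | base =>
      by_contra hno
      have h1 := hlow 1 E le_rfl hE0
      have h2 : KSpan L K₀ 1 E = ⊥ := by
        rw [KSpan, Submodule.span_eq_bot]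
        rintro _ ⟨x, hx, rfl⟩
        by_contra hx0
        exact hno ⟨x, hx, fun h => hx0 (by rw [h, map_zero])⟩
      rw [h2, finrank_bot, mul_zero, mul_zero] at h1
      have : 0 < 1 ^ n * E ^ n := Nat.mul_pos (by simp) (Nat.pow_pos hE0)
      omega
    | succ D _ ih =>
      obtain ⟨x, hx, hx0⟩ := ih
      exact ⟨x, hsucc _ _ _ hx, hx0⟩
  -- the parameters
  obtain ⟨D, E, w, hD1, hw1, hNE, hDV, hnum1, hnum2⟩ := jet_numerics n e r N he hr (cl * CR)
    (2 ^ (e * a) * (N.factorial * (2 ^ N * (Cu * 2 ^ n))))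
    (fun D E => jetRank (fun i => ξ i)
      (algebraMap (PS k (2 * n)) (QS k (2 * n)) '' (L D E : Set (PS k (2 * n)))) E)
    (fun D E hD => by
      obtain ⟨x, hx, hx0⟩ := hex D E hD
      exact one_le_jetRank _ _ _ ⟨_, ⟨x, hx, rfl⟩, fun h => hx0 (hinj (by rw [h, map_zero]))⟩)
    (fun D E => jetRank_le_choose ξ hξ _ _)
    (fun D E => jetRank_mono_left _ (Set.image_mono fun x hx => hsucc _ _ _ hx) _)
  obtain ⟨V, hV⟩ : ∃ V, V = (N + 1) * w := ⟨_, rfl⟩
  rw [← hV] at hDV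
  have hV2 : 2 ≤ V := by
    rw [hV]
    have : 2 ≤ N + 1 := by omega
    exact this.trans (Nat.le_mul_of_pos_right _ hw1)
  have hDE : D + 1 ≤ E := by
    have h1 : D * 2 ^ 2 ≤ D * V ^ 2 := Nat.mul_le_mul_left _ (Nat.pow_le_pow_left hV2 2)
    omega
  have hE1 : 1 ≤ E := by omega
  -- the elements `f i`, independent over `K₀`
  obtain ⟨φ, hφ, f, hfm, hfli⟩ : ∃ φ, φ = finrank K₀ (KSpan L K₀ D E) ∧
      ∃ f : Fin φ → PS k (2 * n), (∀ i, f i ∈ L D E) ∧
        LinearIndependent K₀ (fun i => algebraMap (PS k (2 * n)) (QS k (2 * n)) (f i)) :=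
    ⟨_, rfl, exists_basis_KSpan hL K₀ D E⟩
  obtain ⟨ρ, hρ⟩ : ∃ ρ, ρ = jetRank (fun i => ξ i)
      (algebraMap (PS k (2 * n)) (QS k (2 * n)) '' (L D E : Set (PS k (2 * n)))) E := ⟨_, rfl⟩
  rw [← hρ] at hnum1 hnum2
  have hφlow : D ^ n * E ^ n ≤ cl * (E ^ e * φ) := by
    rw [hφ]; exact hlow D E hD1 (by omega)
  have hφC : CR * (ρ * E ^ (n - e)) < φ := by
    by_contra hle
    have hle' : φ ≤ CR * (ρ * E ^ (n - e)) := Nat.le_of_not_lt hle
    have hEn : E ^ n = E ^ e * E ^ (n - e) := by rw [← pow_add]; congr 1; omega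
    have h1 : D ^ n * E ^ n ≤ cl * CR * ρ * E ^ n := by
      calc D ^ n * E ^ n ≤ cl * (E ^ e * φ) := hφlow
        _ ≤ cl * (E ^ e * (CR * (ρ * E ^ (n - e)))) := by gcongr
        _ = cl * CR * ρ * E ^ n := by rw [hEn]; ring
    have h2 := Nat.le_of_mul_le_mul_right h1 (Nat.pow_pos hE1)
    omega
  -- everything in the field `F`
  have hfF : ∀ i, algebraMap (PS k (2 * n)) (QS k (2 * n)) (f i) ∈ Fld L :=
    fun i => hL.mem_field _ _ _ (hfm i)
  have hmemF : ∀ D E x, x ∈ L D E → ∃ z : IntermediateField.extendScalars h₀,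
      (z : QS k (2 * n)) = algebraMap (PS k (2 * n)) (QS k (2 * n)) x :=
    fun D E x hx => ⟨⟨_, hL.mem_field D E x hx⟩, rfl⟩
  let fF : Fin φ → IntermediateField.extendScalars h₀ := fun i =>
    ⟨algebraMap (PS k (2 * n)) (QS k (2 * n)) (f i), hfF i⟩
  -- the derivations
  let ξF : Fin e → Derivation K₀ (IntermediateField.extendScalars h₀)
      (IntermediateField.extendScalars h₀) := fun i => Derivation.mk'
    { toFun := fun x => ⟨ξ i (x : QS k (2 * n)), hξF i _ x.2⟩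
      map_add' := fun x y => Subtype.ext (map_add (ξ i) _ _)
      map_smul' := fun s x => Subtype.ext (by
        change ξ i ((s : QS k (2 * n)) * (x : QS k (2 * n))) =
          (s : QS k (2 * n)) * ξ i (x : QS k (2 * n))
        rw [Derivation.leibniz, hξK i _ s.2, smul_zero, add_zero, smul_eq_mul]) }
    (fun x y => Subtype.ext (Derivation.leibniz (ξ i) _ _))
  have hξFc : ∀ i x, ((ξF i x : IntermediateField.extendScalars h₀) : QS k (2 * n)) =
      ξ i (x : QS k (2 * n)) := fun i x => rfl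
  have hwd : ∀ (l : List (Fin e)) (x : IntermediateField.extendScalars h₀),
      ((wd (fun i => ξF i) l x : IntermediateField.extendScalars h₀) : QS k (2 * n)) =
        wd (fun i => ξ i) l (x : QS k (2 * n)) := by
    intro l
    induction l with
    | nil => intro x; rfl
    | cons j l ih =>
      intro x
      change ((wd (fun i => ξF i) l (ξF j x) : IntermediateField.extendScalars h₀) :
        QS k (2 * n)) = wd (fun i => ξ i) l (ξ j (x : QS k (2 * n)))
      exact ih (ξF j x)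
  -- the action
  let γ' : (Fin r → ℤ) → (IntermediateField.extendScalars h₀ ≃ₐ[K₀]
      IntermediateField.extendScalars h₀) := fun v => γ (fun l => (M₀ : ℤ) * v l)
  have hγ'add : ∀ u v, γ' (u + v) = γ' u * γ' v := by
    intro u v
    have e : (fun l => (M₀ : ℤ) * (u + v) l) =
        (fun l => (M₀ : ℤ) * u l) + (fun l => (M₀ : ℤ) * v l) := by
      ext l; simp [mul_add]
    change γ _ = γ _ * γ _
    rw [← hγadd, ← e]
  have hγ'c : ∀ v (x : IntermediateField.extendScalars h₀),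
      ((γ' v x : IntermediateField.extendScalars h₀) : QS k (2 * n)) =
        CI.ext (g (fun l => (M₀ : ℤ) * v l)) (x : QS k (2 * n)) := fun v x => hγ _ x
  have hγ'f : ∀ (v : Fin r → ℕ) (x : IntermediateField.extendScalars h₀) (z : PS k (2 * n)),
      (x : QS k (2 * n)) = algebraMap (PS k (2 * n)) (QS k (2 * n)) z →
      ((γ' (fun j => (v j : ℤ)) x : IntermediateField.extendScalars h₀) :
        QS k (2 * n)) = algebraMap (PS k (2 * n)) (QS k (2 * n))
          (g (fun l => ((M₀ * v l : ℕ) : ℤ)) z) := by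
    intro v x z hx
    have e : (fun l => (M₀ : ℤ) * ((v l : ℕ) : ℤ)) = (fun l => ((M₀ * v l : ℕ) : ℤ)) := by
      ext l; push_cast; rfl
    rw [hγ'c, e, hx, CI.ext_algebraMap]
  have hinv' : ∀ v, v ≠ 0 → ∀ b : IntermediateField.extendScalars h₀, γ' v b = b →
      b ∈ (algebraMap K₀ (IntermediateField.extendScalars h₀)).range := by
    intro v hv b hb
    have hMv : (fun l => (M₀ : ℤ) * v l) ≠ 0 := by
      intro h0
      apply hv
      ext l
      have := congrFun h0 l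
      simp only [Pi.zero_apply, mul_eq_zero] at this
      rcases this with h | h
      · omega
      · exact h
    have hbK : (b : QS k (2 * n)) ∈ K₀ := by
      obtain ⟨D', f', hf', h', hh', h0', e'⟩ := exists_frac hL b.2
      have h1 : CI.ext (g (fun l => (M₀ : ℤ) * v l)) (b : QS k (2 * n)) = b := by
        rw [← hγ'c, hb]
      rw [e'] at h1
      have h2 := (ext_div_eq_iff _ f' h' h0').1 h1
      rw [e']
      exact hinv _ hMv D' f' hf' h' hh' h0' h2
    exact ⟨⟨_, hbK⟩, Subtype.ext rfl⟩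
  -- the relation
  obtain ⟨c, hc0, hc⟩ := CI.exists_row_relation
    (F := IntermediateField.extendScalars h₀) (φ := φ)
    (ι := {l : List (Fin e) // l.length ≤ E} × (Fin r → Fin (V + 1)))
    (fun i x => wd (fun i => ξF i) x.1.1 (γ' (fun j => (((x.2 j : ℕ) : ℤ))) (fF i)))
    (by
      intro X
      have h1 := hR D E V φ f (fun j c => ((X j).2 c : ℕ)) (fun j => (X j).1.1) hD1 (by omega)
        hDV hfm (fun j => (X j).1.2) (fun j c => Nat.lt_succ_iff.1 ((X j).2 c).2)
        (by rw [← hρ]; exact hφC)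
      have h2 : (IntermediateField.extendScalars h₀).val.toRingHom.mapMatrix
          (Matrix.of fun i j => wd (fun i => ξF i) (X j).1.1
            (γ' (fun l => ((((X j).2 l : ℕ) : ℤ))) (fF i))) =
          jetMat g ξ f (fun j c => M₀ * ((X j).2 c : ℕ)) (fun j => (X j).1.1) := by
        ext i j
        change ((wd (fun i => ξF i) (X j).1.1 (γ' (fun l => ((((X j).2 l : ℕ) : ℤ))) (fF i)) :
          IntermediateField.extendScalars h₀) : QS k (2 * n)) = _
        rw [hwd, hγ'f (fun l => ((X j).2 l : ℕ)) (fF i) (f i) rfl]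
        rfl
      have h3 := RingHom.map_det (IntermediateField.extendScalars h₀).val.toRingHom
        (Matrix.of fun i j => wd (fun i => ξF i) (X j).1.1
            (γ' (fun l => ((((X j).2 l : ℕ) : ℤ))) (fF i)))
      rw [h2, h1] at h3
      exact Subtype.ext h3)
  have hcrel : ∀ v : Fin r → ℕ, (∀ i, v i ≤ V) → ∀ l : List (Fin e), l.length ≤ E →
      ∑ i, c i * wd (fun i => ξF i) l (γ' (fun j => (v j : ℤ)) (fF i)) = 0 := by
    intro v hv l hl
    exact hc (⟨l, hl⟩, fun j => ⟨v j, Nat.lt_succ_iff.2 (hv j)⟩)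
  -- the space `M`
  obtain ⟨y0, hy0, hy0n⟩ := hex D E hD1
  obtain ⟨y, hy⟩ : ∃ y, y = algebraMap (PS k (2 * n)) (QS k (2 * n)) y0 := ⟨_, rfl⟩
  have hyn : y ≠ 0 := by
    intro h
    exact hy0n (hinj (by rw [← hy, h, map_zero]))
  obtain ⟨yF, hyF⟩ := hmemF _ _ _ hy0
  rw [← hy] at hyF
  have hyF0 : yF ≠ 0 := by
    intro h
    apply hyn
    rw [← hyF, h]; rfl
  have hM := Mk_finite (h₁ := h₀) hL y hyn (D + 1) E
  have hfM := hM.1
  have hmemM : ∀ x ∈ L D E, ∀ z : IntermediateField.extendScalars h₀,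
      (z : QS k (2 * n)) = algebraMap (PS k (2 * n)) (QS k (2 * n)) x →
      yF⁻¹ * z ∈ Mk L h₀ y (D + 1) E := by
    intro x hx z hz
    refine mem_Mk.2 ?_
    have e1 : y * ((yF⁻¹ * z : IntermediateField.extendScalars h₀) : QS k (2 * n)) =
        algebraMap (PS k (2 * n)) (QS k (2 * n)) x := by
      have e2 : ((yF⁻¹ * z : IntermediateField.extendScalars h₀) : QS k (2 * n)) =
        (yF : QS k (2 * n))⁻¹ * (z : QS k (2 * n)) := rfl
      rw [e2, hyF, hz, ← mul_assoc, mul_inv_cancel₀ hyn, one_mul]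
    rw [e1]
    exact mem_KSpan (hsucc _ _ _ hx)
  apply hc0
  refine zero_jets hdom N r w (E / (N + 1)) (Cu * ((D + 1) ^ n * E ^ (n - e)))
    (jetRank (fun i => ξF i) (Mk L h₀ y (D + 1) E : Set (IntermediateField.extendScalars h₀))
      (E / (N + 1))) (by omega) γ' hγ'add hinv' ξF ?_ ?_
    (by rw [hN]; exact trdeg_extendScalars h₀ e (by omega) htr₀ htr)
    (Mk L h₀ y (D + 1) E) ?_ ?_ ?_ le_rfl ?_ φ (fun i => yF⁻¹ * fF i) ?_ ?_ c ?_
  · intro i j x
    exact Subtype.ext (hξ i j _)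
  · intro v i x
    apply Subtype.ext
    rw [hγ'c, hξFc, hξFc, hγ'c]
    exact hξg _ _ _
  · -- `1 ∈ M`
    refine mem_Mk.2 ?_
    have h1 : y * ((1 : IntermediateField.extendScalars h₀) : QS k (2 * n)) =
        algebraMap (PS k (2 * n)) (QS k (2 * n)) (y0 * 1) := by
      rw [hy, mul_one]; simp
    rw [h1]
    exact mem_KSpan (by simpa using hL.mul_mem _ _ _ _ _ _ hy0 hL.one_mem)
  · -- `M` generates
    rw [eq_top_iff]
    intro x _
    have h1 : Fld L ≤ ((IntermediateField.adjoin K₀ ((Mk L h₀ y (D + 1) E :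
          Submodule K₀ (IntermediateField.extendScalars h₀)) :
            Set (IntermediateField.extendScalars h₀))).map
          (IntermediateField.extendScalars h₀).val).restrictScalars k := by
      conv_lhs => rw [Fld]
      rw [IntermediateField.adjoin_le_iff]
      rintro _ ⟨z, hz, rfl⟩
      obtain ⟨zF, hzF⟩ := hmemF _ _ _ hz
      refine ⟨zF, IntermediateField.subset_adjoin _ _ ?_, hzF⟩
      refine mem_Mk.2 ?_
      rw [hzF, hy, ← map_mul]
      exact mem_KSpan (by simpa using hL.mul_mem _ _ _ _ _ _ hy0 hz)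
    obtain ⟨z, hz, hzx⟩ := h1 x.2
    have : z = x := Subtype.ext hzx
    rw [← this]; exact hz
  · -- growth
    intro K hK
    obtain ⟨K, rfl⟩ := Nat.exists_eq_add_of_le' hK
    have h1 := Mk_pow (h₁ := h₀) hL y (D + 1) E K
    have h2 := Mk_finite (h₁ := h₀) hL (y ^ (K + 1)) (pow_ne_zero _ hyn)
      ((K + 1) * (D + 1)) ((K + 1) * E)
    have hfinK' := h2.1
    have h3 := hup ((K + 1) * (D + 1)) ((K + 1) * E) (Nat.mul_pos (by omega) (by omega))
      (Nat.mul_le_mul_left _ hDE)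
    have hEn : n = e + (n - e) := by omega
    have h4 : finrank K₀ (KSpan L K₀ ((K + 1) * (D + 1)) ((K + 1) * E)) ≤
        Cu * (((K + 1) * (D + 1)) ^ n * ((K + 1) * E) ^ (n - e)) := by
      have hX : 0 < ((K + 1) * E) ^ e := Nat.pow_pos (Nat.mul_pos (by omega) hE1)
      refine Nat.le_of_mul_le_mul_left ?_ hX
      refine h3.trans (le_of_eq ?_)
      have e3 : ((K + 1) * E) ^ n = ((K + 1) * E) ^ e * ((K + 1) * E) ^ (n - e) := by
        rw [← pow_add, ← hEn]
      rw [e3]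
      ring
    calc finrank K₀ ↥(Mk L h₀ y (D + 1) E ^ (K + 1))
        ≤ finrank K₀ (Mk L h₀ (y ^ (K + 1)) ((K + 1) * (D + 1)) ((K + 1) * E)) :=
          Submodule.finrank_mono h1
      _ ≤ finrank K₀ (KSpan L K₀ ((K + 1) * (D + 1)) ((K + 1) * E)) := h2.2
      _ ≤ Cu * (((K + 1) * (D + 1)) ^ n * ((K + 1) * E) ^ (n - e)) := h4
      _ = Cu * ((D + 1) ^ n * E ^ (n - e)) * (K + 1) ^ N := by
          have e4 : N = n + (n - e) := by omega
          rw [e4, mul_pow, mul_pow (K + 1) E, pow_add (K + 1) n]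
          ring
  · -- the big inequality
    have hit : ρ ≤ 2 ^ (e * a) * jetRank (fun i => ξF i)
        (Mk L h₀ y (D + 1) E : Set (IntermediateField.extendScalars h₀)) (E / (N + 1)) := by
      rw [hρ]
      have hle : E + 1 ≤ 2 ^ a * (E / (N + 1) + 1) := by
        have h5 : E < (N + 1) * (E / (N + 1) + 1) := Nat.lt_mul_div_succ E (by omega)
        have h6 : (N + 1) * (E / (N + 1) + 1) ≤ 2 ^ a * (E / (N + 1) + 1) :=
          Nat.mul_le_mul_right _ ha
        omega
      refine (jetRank_iterate ξ hξ _ E (E / (N + 1)) a hle).trans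
        (Nat.mul_le_mul_left _ ?_)
      refine (jetRank_mul_left ξ _ _ y⁻¹ (inv_ne_zero hyn)).trans ?_
      refine (jetRank_mono_left (L' := (IntermediateField.extendScalars h₀).val.toRingHom ''
        (Mk L h₀ y (D + 1) E : Set (IntermediateField.extendScalars h₀))) _ ?_ _).trans ?_
      · rintro _ ⟨_, ⟨x, hx, rfl⟩, rfl⟩
        obtain ⟨xF, hxF⟩ := hmemF _ _ _ hx
        refine ⟨yF⁻¹ * xF, hmemM x hx xF hxF, ?_⟩
        change ((yF⁻¹ * xF : IntermediateField.extendScalars h₀) : QS k (2 * n)) =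
          y⁻¹ * algebraMap (PS k (2 * n)) (QS k (2 * n)) x
        have e2 : ((yF⁻¹ * xF : IntermediateField.extendScalars h₀) : QS k (2 * n)) =
          (yF : QS k (2 * n))⁻¹ * (xF : QS k (2 * n)) := rfl
        rw [e2, hyF, hxF]
      · exact jetRank_map _ (fun i => ξF i) (fun i => ξ i) (fun i x => rfl) _ _
    obtain ⟨ρ', hρ'⟩ : ∃ ρ', ρ' = jetRank (fun i => ξF i)
        (Mk L h₀ y (D + 1) E : Set (IntermediateField.extendScalars h₀)) (E / (N + 1)) :=
      ⟨_, rfl⟩
    rw [← hρ'] at hit ⊢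
    have hD2 : (D + 1) ^ n ≤ 2 ^ n * D ^ n := by
      rw [← mul_pow]; exact Nat.pow_le_pow_left (by omega) n
    have h7 : 2 ^ (e * a) * (N.factorial * (2 ^ N * (Cu * ((D + 1) ^ n * E ^ (n - e))))) <
        2 ^ (e * a) * ((w + 1) ^ r * ρ') := by
      calc 2 ^ (e * a) * (N.factorial * (2 ^ N * (Cu * ((D + 1) ^ n * E ^ (n - e)))))
          ≤ 2 ^ (e * a) * (N.factorial * (2 ^ N * (Cu * ((2 ^ n * D ^ n) * E ^ (n - e))))) := by
            gcongr
        _ = 2 ^ (e * a) * (N.factorial * (2 ^ N * (Cu * 2 ^ n))) * (D ^ n * E ^ (n - e)) := by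
            ring
        _ < (w + 1) ^ r * ρ := hnum2
        _ ≤ (w + 1) ^ r * (2 ^ (e * a) * ρ') := Nat.mul_le_mul_left _ hit
        _ = 2 ^ (e * a) * ((w + 1) ^ r * ρ') := by ring
    exact Nat.lt_of_mul_lt_mul_left h7
  · intro i
    exact hmemM (f i) (hfm i) (fF i) rfl
  · -- independence
    rw [Fintype.linearIndependent_iff]
    intro s hs
    have hs' : ∑ i, s i • algebraMap (PS k (2 * n)) (QS k (2 * n)) (f i) = 0 := by
      have h1 : ∑ i, s i • fF i = 0 := by
        have h2 : ∑ i, s i • (yF⁻¹ * fF i) = yF⁻¹ * ∑ i, s i • fF i := by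
          rw [Finset.mul_sum]
          exact Finset.sum_congr rfl fun i _ => by rw [mul_smul_comm]
        rw [h2] at hs
        exact (mul_eq_zero.1 hs).resolve_left (inv_ne_zero hyF0)
      have h3 := congrArg (Subtype.val : IntermediateField.extendScalars h₀ → QS k (2 * n)) h1
      have h4 : ((∑ i, s i • fF i : IntermediateField.extendScalars h₀) : QS k (2 * n)) =
          ∑ i, s i • algebraMap (PS k (2 * n)) (QS k (2 * n)) (f i) := by
        rw [← IntermediateField.coe_val, map_sum]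
        rfl
      exact h4.symm.trans h3
    exact (Fintype.linearIndependent_iff.1 hfli) _ hs'
  · -- the relation
    intro v hv l hl
    simp only [map_mul]
    refine leib_rel ξF c l _ _ fun l' hl' => ?_
    exact hcrel v (by rw [hV]; exact hv) l'
      ((hl'.trans hl).trans (Nat.mul_div_le E (N + 1)))

end Pool.Agent.SYZ68J
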