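import Pool.Agent.SYZ68J.ZJDefs
import Pool.Agent.SYZ71Z.ZHilb

/-!
# SYZ68J/JDouble : growth of the jet rank in the order

`ξ_1..ξ_e` commuting derivations of the field `Q`, `L ⊆ Q` a set.

Proof.  By commutation `wd ξ l x` depends only on the multiset of `l`; for `β : Fin e →₀ ℕ` let `m β`
be the corresponding operator, `m (β + single i 1) x = ξ i (m β x)`.  Let `<` be the graded
(degree-lexicographic) order on `Fin e →₀ ℕ` (`MonomialOrder.degLex`; only: a well-founded linear
order, compatible with addition, refining the degree) and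
`O = {β | m β|_L ∉ span_Q {m β'|_L : β' < β}}`, functions in `L → Q`.
(a) If `β ∉ O` then `β + single i 1 ∉ O`: `m β x = ∑ κ_β' m β' x` for all `x ∈ L` (`β' < β`); apply
    `ξ_i`: `m (β + i) x = ∑ ξ_i(κ_β') m β' x + ∑ κ_β' m (β' + i) x`.  So `O` is closed downwards.
(b) `jetRank ξ L K = #{β ∈ O : |β| ≤ K}`: the `m β|_L`, `β ∈ O`, are linearly independent (look at the
    largest term of a relation) and every `m β|_L` is in the span of the `m β'|_L`, `β' ∈ O`,
    `β' ≤ β` (well-founded induction), and `β' ≤ β` implies `|β'| ≤ |β|`.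
(c) `β ↦ (β_i / 2)_i` maps `{β ∈ O : |β| ≤ 2 K + 1}` to `{β ∈ O : |β| ≤ K}` by (a), and every fibre has
    at most `2^e` elements.
(d) `#{β : |β| ≤ K} = (K + e).choose e`.
-/

set_option autoImplicit false

open Module

namespace Pool.Agent.SYZ68J

variable {R Q : Type*} [CommRing R] [Field Q] [Algebra R Q] {e : ℕ}

private theorem wd_perm16 (ξ : Fin e → Derivation R Q Q)
    (hξ : ∀ i j x, ξ i (ξ j x) = ξ j (ξ i x)) {l l' : List (Fin e)} (h : l.Perm l') :
    ∀ x, wd (fun i => ξ i) l x = wd (fun i => ξ i) l' x := by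
  induction h with
  | nil => intro x; rfl
  | cons i _ ih => intro x; exact ih (ξ i x)
  | swap i j l =>
    intro x
    change wd (fun i => ξ i) l (ξ i (ξ j x)) = wd (fun i => ξ i) l (ξ j (ξ i x))
    rw [hξ]
  | trans _ _ ih1 ih2 => intro x; rw [ih1, ih2]

private theorem wd_append16 (D : Fin e → Q → Q) (l l' : List (Fin e)) (x : Q) :
    wd D (l ++ l') x = wd D l' (wd D l x) := by
  induction l generalizing x with
  | nil => rfl
  | cons i l ih => exact ih (D i x)

/-- the operator of a multi-index -/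
private noncomputable def mo16 (ξ : Fin e → Derivation R Q Q) (β : Fin e →₀ ℕ) (x : Q) : Q :=
  wd (fun i => ξ i) (Finsupp.toMultiset β).toList x

private theorem mo16_list (ξ : Fin e → Derivation R Q Q)
    (hξ : ∀ i j x, ξ i (ξ j x) = ξ j (ξ i x)) (l : List (Fin e)) (x : Q) :
    mo16 ξ (Multiset.toFinsupp (l : Multiset (Fin e))) x = wd (fun i => ξ i) l x := by
  unfold mo16
  apply wd_perm16 ξ hξ
  rw [← Multiset.coe_eq_coe, Multiset.coe_toList]
  exact Multiset.toFinsupp_toMultiset _

private theorem mo16_add (ξ : Fin e → Derivation R Q Q)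
    (hξ : ∀ i j x, ξ i (ξ j x) = ξ j (ξ i x)) (β : Fin e →₀ ℕ) (i : Fin e) (x : Q) :
    mo16 ξ (β + Finsupp.single i 1) x = ξ i (mo16 ξ β x) := by
  unfold mo16
  have h : (Finsupp.toMultiset (β + Finsupp.single i 1)).toList.Perm
      ((Finsupp.toMultiset β).toList ++ [i]) := by
    rw [← Multiset.coe_eq_coe, Multiset.coe_toList, map_add, Finsupp.toMultiset_single,
      ← Multiset.coe_add, Multiset.coe_toList]
    simp
  rw [wd_perm16 ξ hξ h, wd_append16]
  rfl

private theorem mo16_single (β : Fin e →₀ ℕ) :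
    (Finsupp.toMultiset β).toList.length = β.degree := by
  rw [Multiset.length_toList, Finsupp.card_toMultiset]
  rfl

section

variable (ξ : Fin e → Derivation R Q Q) (L : Set Q)

/-- the function `x ↦ m β x` on `L` -/
private noncomputable def F16 (β : Fin e →₀ ℕ) : L → Q := fun x => mo16 ξ β x

/-- the order -/
private noncomputable def T16 (β : Fin e →₀ ℕ) :
    (MonomialOrder.degLex (σ := Fin e)).syn := MonomialOrder.degLex.toSyn β

private theorem T16_inj {β γ : Fin e →₀ ℕ} (h : T16 β = T16 γ) : β = γ :=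
  MonomialOrder.degLex.toSyn.injective h

private theorem T16_add {β γ : Fin e →₀ ℕ} (h : T16 β < T16 γ) (δ : Fin e →₀ ℕ) :
    T16 (β + δ) < T16 (γ + δ) := by
  unfold T16 at *
  rw [map_add, map_add]
  exact add_lt_add_left h _

private theorem T16_lt (β : Fin e →₀ ℕ) (i : Fin e) : T16 β < T16 (β + Finsupp.single i 1) := by
  unfold T16
  apply MonomialOrder.degLex.toSyn_strictMono
  refine lt_of_le_of_ne le_self_add ?_
  intro h
  have h2 := DFunLike.congr_fun h i
  rw [Finsupp.add_apply, Finsupp.single_eq_same] at h2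
  omega

private theorem T16_degree {β γ : Fin e →₀ ℕ} (h : T16 β ≤ T16 γ) : β.degree ≤ γ.degree :=
  Finsupp.DegLex.monotone_degree h

/-- span of the smaller ones -/
private noncomputable def S16 (β : Fin e →₀ ℕ) : Submodule Q (L → Q) :=
  Submodule.span Q (F16 ξ L '' {γ | T16 γ < T16 β})

private theorem not_mem_step16 (hξ : ∀ i j x, ξ i (ξ j x) = ξ j (ξ i x)) (β : Fin e →₀ ℕ)
    (i : Fin e) (h : F16 ξ L β ∈ S16 ξ L β) :
    F16 ξ L (β + Finsupp.single i 1) ∈ S16 ξ L (β + Finsupp.single i 1) := by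
  have hmono : S16 ξ L β ≤ S16 ξ L (β + Finsupp.single i 1) := by
    apply Submodule.span_mono
    apply Set.image_mono
    intro γ hγ
    exact lt_trans hγ (T16_lt β i)
  have key : ∀ f ∈ S16 ξ L β, (fun x : L => ξ i (f x)) ∈ S16 ξ L (β + Finsupp.single i 1) := by
    intro f hf
    unfold S16 at hf
    induction hf using Submodule.span_induction with
    | mem f hf =>
      obtain ⟨γ, hγ, rfl⟩ := hf
      have h1 : (fun x : L => ξ i (F16 ξ L γ x)) = F16 ξ L (γ + Finsupp.single i 1) := by
        funext x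
        exact (mo16_add ξ hξ γ i x).symm
      rw [h1]
      exact Submodule.subset_span ⟨_, T16_add hγ _, rfl⟩
    | zero =>
      have h1 : (fun x : L => ξ i ((0 : L → Q) x)) = 0 := by
        funext x
        exact map_zero (ξ i)
      rw [h1]
      exact Submodule.zero_mem _
    | add f g _ _ hf hg =>
      have h1 : (fun x : L => ξ i ((f + g) x)) =
          (fun x : L => ξ i (f x)) + (fun x : L => ξ i (g x)) := by
        funext x
        exact map_add (ξ i) _ _
      rw [h1]
      exact Submodule.add_mem _ hf hg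
    | smul a f hfm hf =>
      have h1 : (fun x : L => ξ i ((a • f) x)) =
          a • (fun x : L => ξ i (f x)) + (ξ i a) • f := by
        funext x
        change ξ i (a * f x) = a * ξ i (f x) + ξ i a * f x
        rw [Derivation.leibniz, smul_eq_mul, smul_eq_mul, mul_comm (f x)]
      rw [h1]
      exact Submodule.add_mem _ (Submodule.smul_mem _ _ hf)
        (Submodule.smul_mem _ _ (hmono hfm))
  have h2 : F16 ξ L (β + Finsupp.single i 1) = fun x : L => ξ i (F16 ξ L β x) := by
    funext x
    exact mo16_add ξ hξ β i x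
  rw [h2]
  exact key _ h

/-- the standard multi-indices -/
private def O16 : Set (Fin e →₀ ℕ) := {β | F16 ξ L β ∉ S16 ξ L β}

private theorem O16_down (hξ : ∀ i j x, ξ i (ξ j x) = ξ j (ξ i x)) (β δ : Fin e →₀ ℕ)
    (h : β + δ ∈ O16 ξ L) : β ∈ O16 ξ L := by
  have key : ∀ n : ℕ, ∀ δ : Fin e →₀ ℕ, δ.degree = n → β + δ ∈ O16 ξ L → β ∈ O16 ξ L := by
    intro n
    induction n with
    | zero =>
      intro δ hδ h
      rw [Finsupp.degree_eq_zero_iff] at hδ
      rwa [hδ, add_zero] at h
    | succ n ih =>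
      intro δ hδ h
      have hne : δ ≠ 0 := by
        rintro rfl
        rw [map_zero] at hδ
        omega
      obtain ⟨i, hi⟩ := Finsupp.ne_iff.1 hne
      have hi' : 1 ≤ δ i := Nat.one_le_iff_ne_zero.2 hi
      have hle : Finsupp.single i 1 ≤ δ := Finsupp.single_le_iff.2 hi'
      obtain ⟨δ', rfl⟩ := exists_add_of_le hle
      apply ih δ'
      · rw [map_add, Finsupp.degree_single] at hδ
        omega
      · intro h3
        apply h
        have h4 := not_mem_step16 ξ L hξ (β + δ') i h3
        have h5 : β + (Finsupp.single i 1 + δ') = β + δ' + Finsupp.single i 1 := by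
          rw [add_assoc, add_comm δ']
        rwa [h5]
  exact key _ δ rfl h

private theorem li16 (s : Finset (Fin e →₀ ℕ)) (hs : ∀ β ∈ s, β ∈ O16 ξ L) :
    LinearIndependent Q (fun β : s => F16 ξ L β) := by
  classical
  rw [Fintype.linearIndependent_iff]
  intro g hg
  by_contra hcon
  push Not at hcon
  obtain ⟨i, hi⟩ := hcon
  obtain ⟨β, hβ, hmax⟩ := Finset.exists_max_image
    ((Finset.univ : Finset s).filter fun β => g β ≠ 0) (fun β => T16 (β : Fin e →₀ ℕ))
    ⟨i, by simpa using hi⟩
  rw [Finset.mem_filter] at hβ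
  apply hs β β.2
  have h1 : F16 ξ L β = ∑ γ ∈ (Finset.univ : Finset s).erase β,
      (-(g β)⁻¹ * g γ) • F16 ξ L (γ : Fin e →₀ ℕ) := by
    have h2 := Finset.add_sum_erase Finset.univ (fun γ : s => g γ • F16 ξ L (γ : Fin e →₀ ℕ))
      (Finset.mem_univ β)
    rw [hg] at h2
    have h3 : (∑ γ ∈ (Finset.univ : Finset s).erase β,
        (-(g β)⁻¹ * g γ) • F16 ξ L (γ : Fin e →₀ ℕ)) = -(g β)⁻¹ •
        ∑ γ ∈ (Finset.univ : Finset s).erase β, g γ • F16 ξ L (γ : Fin e →₀ ℕ) := by
      rw [Finset.smul_sum]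
      exact Finset.sum_congr rfl fun γ _ => mul_smul _ _ _
    rw [h3, eq_neg_of_add_eq_zero_right h2, smul_neg, neg_smul, neg_neg, smul_smul,
      inv_mul_cancel₀ hβ.2, one_smul]
  change F16 ξ L β ∈ S16 ξ L β
  rw [h1]
  refine Submodule.sum_mem _ fun γ hγ => ?_
  by_cases hgγ : g γ = 0
  · rw [hgγ, mul_zero, zero_smul]
    exact Submodule.zero_mem _
  · refine Submodule.smul_mem _ _ (Submodule.subset_span ⟨γ, ?_, rfl⟩)
    refine lt_of_le_of_ne (hmax γ (by simpa using hgγ)) ?_
    intro h4
    exact (Finset.ne_of_mem_erase hγ) (Subtype.ext (T16_inj h4))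

private theorem span16 (β : Fin e →₀ ℕ) :
    F16 ξ L β ∈ Submodule.span Q (F16 ξ L '' {γ | γ ∈ O16 ξ L ∧ T16 γ ≤ T16 β}) := by
  have key : ∀ t : (MonomialOrder.degLex (σ := Fin e)).syn, ∀ β : Fin e →₀ ℕ, T16 β = t →
      F16 ξ L β ∈ Submodule.span Q (F16 ξ L '' {γ | γ ∈ O16 ξ L ∧ T16 γ ≤ T16 β}) := by
    intro t
    induction t using WellFoundedLT.induction with
    | ind t ih =>
      intro β hβ
      by_cases h : β ∈ O16 ξ L
      · exact Submodule.subset_span ⟨β, ⟨h, le_rfl⟩, rfl⟩
      · have h1 : F16 ξ L β ∈ S16 ξ L β := by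
          by_contra h2
          exact h h2
        refine (Submodule.span_le.2 ?_) h1
        rintro _ ⟨γ, hγ, rfl⟩
        have h3 := ih (T16 γ) (by rw [← hβ]; exact hγ) γ rfl
        refine Submodule.span_mono (Set.image_mono ?_) h3
        rintro δ ⟨hδ, hδ'⟩
        exact ⟨hδ, hδ'.trans (le_of_lt hγ)⟩
  exact key _ β rfl

/-- multi-indices of degree `≤ K` -/
private noncomputable def D16 (e K : ℕ) : Finset (Fin e →₀ ℕ) :=
  open Classical in (Finset.univ : Finset (Pool.Agent.SYZ71Z.Expo e K)).image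
    Pool.Agent.SYZ71Z.Expo.tail

private theorem mem_D16 {K : ℕ} (β : Fin e →₀ ℕ) : β ∈ D16 e K ↔ β.degree ≤ K := by
  classical
  unfold D16
  rw [Finset.mem_image]
  constructor
  · rintro ⟨a, -, rfl⟩
    have h1 := a.sum_eq
    rw [Finsupp.degree_eq_sum]
    have h2 : ∀ i : Fin e, (Pool.Agent.SYZ71Z.Expo.tail a) i =
        (a : Fin (e + 1) →₀ ℕ) i.succ := fun i => rfl
    simp only [h2]
    omega
  · intro h
    refine ⟨⟨Finsupp.cons (K - β.degree) β, ?_⟩, Finset.mem_univ _, ?_⟩
    · rw [Finset.mem_finsuppAntidiag]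
      refine ⟨?_, Finset.subset_univ _⟩
      rw [Fin.sum_univ_succ]
      simp only [Finsupp.cons_zero, Finsupp.cons_succ]
      rw [← Finsupp.degree_eq_sum]
      omega
    · ext i
      change (Finsupp.cons (K - β.degree) β) i.succ = β i
      rw [Finsupp.cons_succ]

private theorem card_D16 (K : ℕ) : (D16 e K).card ≤ (K + e).choose e := by
  classical
  unfold D16
  refine Finset.card_image_le.trans ?_
  rw [Finset.card_univ, Pool.Agent.SYZ71Z.card_expo]

private theorem jet16 (hξ : ∀ i j x, ξ i (ξ j x) = ξ j (ξ i x)) (K : ℕ) :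
    jetRank (fun i => ξ i) L K =
      (open Classical in ((D16 e K).filter fun β => β ∈ O16 ξ L).card) := by
  classical
  have hV : Submodule.span Q (Set.range
      (fun (l : {l : List (Fin e) // l.length ≤ K}) => fun x : L =>
        wd (fun i => ξ i) (l : List (Fin e)) (x : Q))) =
      Submodule.span Q (F16 ξ L '' {β | β.degree ≤ K}) := by
    congr 1
    ext f
    constructor
    · rintro ⟨l, rfl⟩
      refine ⟨Multiset.toFinsupp ((l : List (Fin e)) : Multiset (Fin e)), ?_, ?_⟩
      · change Finsupp.degree _ ≤ K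
        have h1 : Finsupp.degree (Multiset.toFinsupp ((l : List (Fin e)) : Multiset (Fin e))) =
            (l : List (Fin e)).length := by
          have h2 := Finsupp.card_toMultiset
            (Multiset.toFinsupp ((l : List (Fin e)) : Multiset (Fin e)))
          rw [Multiset.toFinsupp_toMultiset, Multiset.coe_card] at h2
          rw [h2]
          rfl
        rw [h1]
        exact l.2
      · funext x
        exact mo16_list ξ hξ l x
    · rintro ⟨β, hβ, rfl⟩
      refine ⟨⟨(Finsupp.toMultiset β).toList, ?_⟩, rfl⟩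
      rw [mo16_single β]
      exact hβ
  unfold jetRank
  rw [hV]
  set s : Finset (Fin e →₀ ℕ) := (D16 e K).filter fun β => β ∈ O16 ξ L with hs
  have hspan : Submodule.span Q (F16 ξ L '' {β | β.degree ≤ K}) =
      Submodule.span Q (Set.range fun β : s => F16 ξ L β) := by
    apply le_antisymm
    · rw [Submodule.span_le]
      rintro _ ⟨β, hβ, rfl⟩
      refine Submodule.span_mono ?_ (span16 ξ L β)
      rintro _ ⟨γ, ⟨hγ, hγ'⟩, rfl⟩
      have h1 : γ ∈ s := by
        rw [hs, Finset.mem_filter, mem_D16]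
        exact ⟨(T16_degree hγ').trans hβ, hγ⟩
      exact ⟨⟨γ, h1⟩, rfl⟩
    · rw [Submodule.span_le]
      rintro _ ⟨β, rfl⟩
      have h1 : ∀ γ ∈ s, γ.degree ≤ K := by
        intro γ hγ
        rw [hs, Finset.mem_filter, mem_D16] at hγ
        exact hγ.1
      exact Submodule.subset_span ⟨β, h1 β β.2, rfl⟩
  rw [hspan, finrank_span_eq_card (li16 ξ L s fun β hβ => (Finset.mem_filter.1 hβ).2),
    Fintype.card_coe]

end

theorem jetRank_double (ξ : Fin e → Derivation R Q Q) (hξ : ∀ i j x, ξ i (ξ j x) = ξ j (ξ i x))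
    (L : Set Q) (K : ℕ) :
    jetRank (fun i => ξ i) L (2 * K + 1) ≤ 2 ^ e * jetRank (fun i => ξ i) L K := by
  classical
  rw [jet16 ξ L hξ, jet16 ξ L hξ]
  let h : (Fin e →₀ ℕ) → (Fin e →₀ ℕ) := fun β =>
    Finsupp.equivFunOnFinite.symm fun i => β i / 2
  have hh : ∀ β i, h β i = β i / 2 := fun β i => rfl
  refine Finset.card_le_mul_card_image_of_maps_to (f := h) ?_ (2 ^ e) ?_
  · intro β hβ
    rw [Finset.mem_filter, mem_D16] at hβ ⊢
    refine ⟨?_, ?_⟩
    · have h1 : 2 * (h β).degree ≤ β.degree := by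
        rw [Finsupp.degree_eq_sum, Finsupp.degree_eq_sum, Finset.mul_sum]
        refine Finset.sum_le_sum fun i _ => ?_
        rw [hh]
        omega
      omega
    · apply O16_down ξ L hξ (h β) (β - h β)
      have h1 : h β + (β - h β) = β := by
        ext i
        rw [Finsupp.add_apply, Finsupp.tsub_apply, hh]
        omega
      rw [h1]
      exact hβ.2
  · intro γ _
    have h1 : ((D16 e (2 * K + 1)).filter (fun β => β ∈ O16 ξ L)).filter (fun β => h β = γ) ⊆
        (Finset.univ : Finset (Fin e → Fin 2)).image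
          (fun b => Finsupp.equivFunOnFinite.symm fun i => 2 * γ i + (b i : ℕ)) := by
      intro β hβ
      rw [Finset.mem_filter] at hβ
      rw [Finset.mem_image]
      refine ⟨fun i => ⟨β i % 2, Nat.mod_lt _ (by norm_num)⟩, Finset.mem_univ _, ?_⟩
      ext i
      change 2 * γ i + β i % 2 = β i
      rw [← hβ.2, hh]
      omega
    refine (Finset.card_le_card h1).trans (Finset.card_image_le.trans ?_)
    simp

theorem jetRank_le_choose (ξ : Fin e → Derivation R Q Q)
    (hξ : ∀ i j x, ξ i (ξ j x) = ξ j (ξ i x)) (L : Set Q) (K : ℕ) :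
    jetRank (fun i => ξ i) L K ≤ (K + e).choose e := by
  classical
  rw [jet16 ξ L hξ]
  exact (Finset.card_filter_le _ _).trans (card_D16 K)

end Pool.Agent.SYZ68J
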