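import Pool.Agent.SYZ68J.LJDefs

/-!
# SYZ68J/LJCom : Hamiltonian derivations commute

`HamData ω g t s ξ`: `φ_i = s_i / t`, `ξ_i = Z_i / b_i`, `ω(Z_i, Y) = b_i Y(φ_i)`.

Proofs (`~` denotes the extension to `Q`; everything is tested on `P` by `derQ_ext`, and vector
fields of `P` by nondegeneracy `IsSymplectic.nondeg`; multiply by powers of `t`, `b_i` to stay in
`P`, or work in `Q`).
* `ham_comm_der`: `D` a vector field with `L_D ω = 0` and `D φ_i = 0`.  For all `Y`:
  `ω([D, Z_i], Y) = D(ω(Z_i, Y)) - ω(Z_i, [D, Y]) = D(b_i Yφ_i) - b_i [D,Y]φ_i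
   = D(b_i) Yφ_i + b_i Y(Dφ_i) = D(b_i) Yφ_i`, so `b_i [D, Z_i] = D(b_i) Z_i`, and with
  `Z_i = b_i ξ_i`: `[D, ξ_i] = 0`.
* `ham_comm`: closedness of `ω` for `(Z_i, Z_j, Y)`, with `Z_i φ_j = b_i ξ_i φ_j = 0`, so
  `ω(Z_i, Z_j) = b_i Z_j φ_i = 0`:
  `ω([Z_i, Z_j], Y) = Z_i(b_j) Yφ_j - Z_j(b_i) Yφ_i`, so
  `b_i b_j [Z_i, Z_j] = b_i Z_i(b_j) Z_j - b_j Z_j(b_i) Z_i`, so `[ξ_i, ξ_j] = 0`.
* `ham_comm_ext`: `conj (g v) Z_i`: `ω(conj g Z_i, conj g Y) = g(ω(Z_i, Y)) = g(b_i) g(Yφ_i)
   = g(b_i) (conj g Y)(gφ_i) = g(b_i) (conj g Y)(φ_i)`; every vector field is some `conj g Y`; so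
  `b_i conj g Z_i = g(b_i) Z_i`, i.e. `g ξ_i g⁻¹ = ξ_i`.
-/

set_option autoImplicit false

open MvPowerSeries Module

namespace Pool.Agent.SYZ68J

open Pool.Agent.SYZ71

variable {k : Type*} [Field k] {d r e : ℕ}
  {ω : Derivation k (PS k d) (PS k d) →ₗ[PS k d]
      Derivation k (PS k d) (PS k d) →ₗ[PS k d] PS k d}
  {g : (Fin r → ℤ) → (PS k d ≃ₐ[k] PS k d)} {t : PS k d} {s : Fin e → PS k d}
  {ξ : Fin e → Derivation k (QS k d) (QS k d)}

/-- The key computation: `D(ω(Z, Y)) - ω(Z, [D, Y]) = D(b) Yφ` when `Dφ = 0`. -/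
private theorem ljcom_key {Z D : Derivation k (PS k d) (PS k d)} {b u t : PS k d} (ht : t ≠ 0)
    (hZ : ∀ Y : Derivation k (PS k d) (PS k d), t ^ 2 * ω Z Y = b * (t * Y u - u * Y t))
    (hD : D u * t = u * D t) (Y : Derivation k (PS k d) (PS k d)) :
    t ^ 2 * (D (ω Z Y) - ω Z ⁅D, Y⁆) = D b * (t * Y u - u * Y t) := by
  have h1 := congrArg D (hZ Y)
  have h2 := hZ ⁅D, Y⁆
  have h3 := congrArg Y hD
  rw [Derivation.commutator_apply, Derivation.commutator_apply] at h2
  simp only [Derivation.leibniz, Derivation.leibniz_pow, map_sub, smul_eq_mul, nsmul_eq_mul,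
    Nat.cast_ofNat] at h1 h3
  have h4 := hZ Y
  apply mul_left_cancel₀ ht
  have h5 : (2 : ℕ) - 1 = 1 := rfl
  simp only [h5, pow_one] at h1
  linear_combination t * h1 - t * h2 - 2 * D t * h4 + b * t * h3 - (2 * b * Y t) * hD

private theorem ljcom_anti (hω : IsSymplectic ω) (X Y : Derivation k (PS k d) (PS k d)) :
    ω X Y = -ω Y X := by
  have h := hω.alt (X + Y)
  simp only [map_add, LinearMap.add_apply, hω.alt, zero_add, add_zero] at h
  exact eq_neg_of_add_eq_zero_left (by rw [add_comm]; exact h)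

/-- invariance in `P` from `ξ_i (s_j / t) = 0` -/
private theorem ljcom_inv (h : HamData ω g t s ξ) (i j : Fin e) {b : PS k d}
    {Z : Derivation k (PS k d) (PS k d)}
    (hZ : ∀ a, algebraMap (PS k d) (QS k d) (Z a) =
      algebraMap (PS k d) (QS k d) b * ξ i (algebraMap (PS k d) (QS k d) a)) :
    Z (s j) * t = s j * Z t := by
  have hinj := IsFractionRing.injective (PS k d) (QS k d)
  apply hinj
  have ht : algebraMap (PS k d) (QS k d) t ≠ 0 := by
    intro h0
    exact h.t_ne (hinj (by rw [h0, map_zero]))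
  have h1 := h.comm i j
  set x := algebraMap (PS k d) (QS k d) (s j) / algebraMap (PS k d) (QS k d) t with hx
  have h2 : algebraMap (PS k d) (QS k d) (s j) = x * algebraMap (PS k d) (QS k d) t := by
    rw [hx, div_mul_cancel₀ _ ht]
  have h3 : ξ i (algebraMap (PS k d) (QS k d) (s j))
      = x * ξ i (algebraMap (PS k d) (QS k d) t) := by
    rw [h2, Derivation.leibniz, h1, smul_zero, add_zero, smul_eq_mul]
  rw [map_mul, map_mul, hZ, hZ, h3, h2]
  ring

theorem ham_comm_der (hω : IsSymplectic ω) (h : HamData ω g t s ξ)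
    (D : Derivation k (PS k d) (PS k d))
    (hD : ∀ X Z, D (ω X Z) = ω ⁅D, X⁆ Z + ω X ⁅D, Z⁆)
    (hDφ : ∀ i, D (s i) * t = s i * D t) (i : Fin e) (x : QS k d) :
    extD D (ξ i x) = ξ i (extD D x) := by
  have hinj := IsFractionRing.injective (PS k d) (QS k d)
  obtain ⟨b, Z, hb, hZ, hZω⟩ := h.ham i
  have ht := h.t_ne
  have hbQ : algebraMap (PS k d) (QS k d) b ≠ 0 := by
    intro h0
    exact hb (hinj (by rw [h0, map_zero]))
  -- `b [D, Z] = D(b) Z`
  have hkey : b • ⁅D, Z⁆ - D b • Z = 0 := by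
    refine hω.nondeg _ fun Y => ?_
    rw [map_sub, LinearMap.sub_apply, map_smul, map_smul, LinearMap.smul_apply,
      LinearMap.smul_apply, smul_eq_mul, smul_eq_mul]
    have h1 := ljcom_key ht hZω (hDφ i) Y
    have h2 := hD Z Y
    have h3 := hZω Y
    apply mul_left_cancel₀ (pow_ne_zero 2 ht)
    rw [mul_zero]
    linear_combination b * h1 + (-(b * t ^ 2)) * h2 - D b * h3
  have hcomm : ⁅extD D, ξ i⁆ = 0 := by
    refine derQ_ext _ _ fun a => ?_
    rw [Derivation.commutator_apply, Derivation.zero_apply, extD_algebraMap]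
    have h1 : b * (D (Z a) - Z (D a)) = D b * Z a := by
      have := congrArg (fun X : Derivation k (PS k d) (PS k d) => X a) hkey
      simp only [Derivation.sub_apply, Derivation.smul_apply, Derivation.commutator_apply,
        Derivation.zero_apply, smul_eq_mul] at this
      linear_combination this
    have h2 := congrArg (algebraMap (PS k d) (QS k d)) h1
    rw [map_mul, map_sub, map_mul, hZ (D a), hZ a, ← extD_algebraMap D (Z a), hZ a,
      Derivation.leibniz, extD_algebraMap, smul_eq_mul, smul_eq_mul] at h2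
    apply mul_left_cancel₀ (pow_ne_zero 2 hbQ)
    rw [mul_zero]
    linear_combination h2
  have h1 := congrArg (fun X : Derivation k (QS k d) (QS k d) => X x) hcomm
  simp only [Derivation.commutator_apply, Derivation.zero_apply] at h1
  exact sub_eq_zero.1 h1

theorem ham_comm (hω : IsSymplectic ω) (h : HamData ω g t s ξ) (i j : Fin e) (x : QS k d) :
    ξ i (ξ j x) = ξ j (ξ i x) := by
  have hinj := IsFractionRing.injective (PS k d) (QS k d)
  obtain ⟨b, Z, hb, hZ, hZω⟩ := h.ham i
  obtain ⟨c, W, hc, hW, hWω⟩ := h.ham j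
  have ht := h.t_ne
  have hbQ : algebraMap (PS k d) (QS k d) b ≠ 0 := by
    intro h0
    exact hb (hinj (by rw [h0, map_zero]))
  have hcQ : algebraMap (PS k d) (QS k d) c ≠ 0 := by
    intro h0
    exact hc (hinj (by rw [h0, map_zero]))
  have hZj : Z (s j) * t = s j * Z t := ljcom_inv h i j hZ
  have hWi : W (s i) * t = s i * W t := ljcom_inv h j i hW
  have hZW : ω Z W = 0 := by
    have h1 := hZω W
    apply mul_left_cancel₀ (pow_ne_zero 2 ht)
    rw [mul_zero, h1]
    linear_combination b * hWi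
  have hkey : (b * c) • ⁅Z, W⁆ - ((b * Z c) • W - (c * W b) • Z) = 0 := by
    refine hω.nondeg _ fun Y => ?_
    simp only [map_sub, LinearMap.sub_apply, map_smul, LinearMap.smul_apply, smul_eq_mul]
    have h1 := ljcom_key ht hWω hZj Y
    have h2 := ljcom_key ht hZω hWi Y
    have h3 := hZω Y
    have h4 := hWω Y
    have h5 := hω.closed Z W Y
    have e1 := ljcom_anti hω Y Z
    have e2 := ljcom_anti hω ⁅W, Y⁆ Z
    have e3 := ljcom_anti hω ⁅Y, Z⁆ W
    have e4 : ω W ⁅Y, Z⁆ = -ω W ⁅Z, Y⁆ := by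
      rw [← lie_skew Z Y, map_neg, neg_neg]
    rw [hZW, map_zero, add_zero, e1, e2, e3, e4, map_neg] at h5
    apply mul_left_cancel₀ (pow_ne_zero 2 ht)
    rw [mul_zero]
    linear_combination (-(b * c * t ^ 2)) * h5 + (b * c) * h1 - (b * c) * h2
      - (b * Z c) * h4 + (c * W b) * h3
  have hcomm : ⁅ξ i, ξ j⁆ = 0 := by
    refine derQ_ext _ _ fun a => ?_
    rw [Derivation.commutator_apply, Derivation.zero_apply]
    have h1 : b * c * (Z (W a) - W (Z a)) = b * Z c * W a - c * W b * Z a := by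
      have := congrArg (fun X : Derivation k (PS k d) (PS k d) => X a) hkey
      simp only [Derivation.sub_apply, Derivation.smul_apply, Derivation.commutator_apply,
        Derivation.zero_apply, smul_eq_mul] at this
      linear_combination this
    have h2 := congrArg (algebraMap (PS k d) (QS k d)) h1
    simp only [map_mul, map_sub] at h2
    rw [hZ (W a), hW (Z a), hW a, hZ a, hZ c, hW b, Derivation.leibniz, Derivation.leibniz,
      smul_eq_mul, smul_eq_mul, smul_eq_mul, smul_eq_mul] at h2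
    apply mul_left_cancel₀ (pow_ne_zero 2 (mul_ne_zero hbQ hcQ))
    rw [mul_zero]
    linear_combination h2
  have h1 := congrArg (fun X : Derivation k (QS k d) (QS k d) => X x) hcomm
  simp only [Derivation.commutator_apply, Derivation.zero_apply] at h1
  exact sub_eq_zero.1 h1

/-- conjugation of a derivation of `Q` -/
private noncomputable def ljcom_conj (γ : QS k d ≃ₐ[k] QS k d)
    (X : Derivation k (QS k d) (QS k d)) : Derivation k (QS k d) (QS k d) :=
  Derivation.mk' (γ.symm.toLinearMap ∘ₗ (X : QS k d →ₗ[k] QS k d) ∘ₗ γ.toLinearMap) (by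
    intro x y
    simp [Derivation.leibniz, smul_eq_mul])

private theorem ljcom_conj_apply (γ : QS k d ≃ₐ[k] QS k d)
    (X : Derivation k (QS k d) (QS k d)) (x : QS k d) :
    ljcom_conj γ X x = γ.symm (X (γ x)) := rfl

theorem ham_comm_ext (hω : IsSymplectic ω) (hgω : ∀ v, Preserves ω (g v))
    (h : HamData ω g t s ξ) (v : Fin r → ℤ) (i : Fin e) (x : QS k d) :
    CI.ext (g v) (ξ i x) = ξ i (CI.ext (g v) x) := by
  have hinj := IsFractionRing.injective (PS k d) (QS k d)
  obtain ⟨b, Z, hb, hZ, hZω⟩ := h.ham i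
  have ht := h.t_ne
  have hbQ : algebraMap (PS k d) (QS k d) b ≠ 0 := by
    intro h0
    exact hb (hinj (by rw [h0, map_zero]))
  have hgb : g v b ≠ 0 := by
    intro h0
    exact hb ((g v).injective (by rw [h0, map_zero]))
  have hgbQ : algebraMap (PS k d) (QS k d) (g v b) ≠ 0 := by
    intro h0
    exact hgb (hinj (by rw [h0, map_zero]))
  have hgt : g v t ≠ 0 := by
    intro h0
    exact ht ((g v).injective (by rw [h0, map_zero]))
  have hinv := h.inv v i
  have hkey : b • conj (g v) Z - (g v b) • Z = 0 := by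
    refine hω.nondeg _ fun Y' => ?_
    rw [map_sub, LinearMap.sub_apply, map_smul, map_smul, LinearMap.smul_apply,
      LinearMap.smul_apply, smul_eq_mul, smul_eq_mul]
    set Y := conj (g v).symm Y' with hY
    have hYY : conj (g v) Y = Y' := by
      ext f : 1
      rw [conj_apply, hY, conj_apply]
      simp
    have h1 := congrArg (g v) (hZω Y)
    simp only [map_mul, map_sub, map_pow] at h1
    have h2 : ω (conj (g v) Z) Y' = g v (ω Z Y) := by
      rw [← hgω v Z Y, hYY]
    have h3 : ∀ f, g v (Y f) = Y' (g v f) := by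
      intro f
      rw [hY, conj_apply]
      simp
    rw [← h2, h3, h3] at h1
    have h4 := congrArg Y' hinv
    simp only [Derivation.leibniz, smul_eq_mul] at h4
    have h5 := hZω Y'
    apply mul_left_cancel₀ (mul_ne_zero (pow_ne_zero 2 hgt) (pow_ne_zero 2 ht))
    rw [mul_zero]
    linear_combination (b * t ^ 2) * h1 - (g v t) ^ 2 * (g v b) * h5
      + (b * g v b * t * g v t) * h4 - (b * g v b * (t * Y' (g v t) + g v t * Y' t)) * hinv
  have hP : ∀ a, g v (Z ((g v).symm a)) * b = g v b * Z a := by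
    intro a
    have := congrArg (fun X : Derivation k (PS k d) (PS k d) => X a) hkey
    simp only [Derivation.sub_apply, Derivation.smul_apply, conj_apply,
      Derivation.zero_apply, smul_eq_mul] at this
    linear_combination this
  have hQ : ljcom_conj (CI.ext (g v)) (ξ i) = ξ i := by
    refine derQ_ext _ _ fun a => ?_
    rw [ljcom_conj_apply, CI.ext_algebraMap, AlgEquiv.symm_apply_eq]
    have h1 := congrArg (algebraMap (PS k d) (QS k d)) (hP (g v a))
    rw [AlgEquiv.symm_apply_apply, map_mul, map_mul, hZ (g v a), ← CI.ext_algebraMap, hZ a,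
      map_mul, CI.ext_algebraMap] at h1
    apply mul_left_cancel₀ (mul_ne_zero hgbQ hbQ)
    linear_combination -h1
  have h1 := congrArg (fun X : Derivation k (QS k d) (QS k d) => X x) hQ
  simp only [ljcom_conj_apply] at h1
  rw [AlgEquiv.symm_apply_eq] at h1
  exact h1.symm

end Pool.Agent.SYZ68J
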