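import Pool.Agent.SYZ71.LDet

/-!
# SYZ68J/LJDet : valuation of the determinant of a matrix which is nearly of small rank

`det (B W + R)`, `B W` of rank `≤ |I|`, all entries of `B W` of valuation `≥ - b` (in fact all
products `B i p * W p j`), all entries of `R` of valuation `≥ a ≥ 0`:
`v (det) ≥ a (φ - |I|) - b |I|`.

Proof.  As in `Pool.Agent.SYZ71.dvd_det_of_factor`: expand `det` by `AlternatingMap.map_add_univ`
in the rows: `∑_s det (rows in s from B W, the others from R)`; the terms with `|s| > |I|` vanish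
(`det_eq_zero_of_factor`); the others have valuation `≥ a (φ - |s|) - b |s|` (Leibniz formula
`Matrix.det_apply`, `AddValuation.map_le_sum`, valuation of a product is the sum), which is
`≥ a (φ - |I|) - b |I|` as `a, b ≥ 0`.
-/

set_option autoImplicit false

open Matrix

namespace Pool.Agent.SYZ68J

private theorem le_v_prod {Q ι : Type*} [Field Q] (v : AddValuation Q (WithTop ℤ)) (s : Finset ι)
    (f : ι → Q) (c : ι → ℤ) (h : ∀ i ∈ s, ((c i : ℤ) : WithTop ℤ) ≤ v (f i)) :
    ((∑ i ∈ s, c i : ℤ) : WithTop ℤ) ≤ v (∏ i ∈ s, f i) := by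
  classical
  induction s using Finset.induction_on with
  | empty =>
    simp
  | insert i s hi ih =>
    rw [Finset.sum_insert hi, Finset.prod_insert hi, AddValuation.map_mul, WithTop.coe_add]
    exact add_le_add (h i (Finset.mem_insert_self _ _))
      (ih fun j hj => h j (Finset.mem_insert_of_mem hj))

private theorem le_v_det {Q : Type*} [Field Q] (v : AddValuation Q (WithTop ℤ)) {φ : ℕ}
    (M : Matrix (Fin φ) (Fin φ) Q) (c : Fin φ → ℤ)
    (h : ∀ i j, ((c i : ℤ) : WithTop ℤ) ≤ v (M i j)) :
    ((∑ i, c i : ℤ) : WithTop ℤ) ≤ v M.det := by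
  rw [Matrix.det_apply]
  refine AddValuation.map_le_sum v fun σ _ => ?_
  have h1 : ((∑ i, c i : ℤ) : WithTop ℤ) ≤ v (∏ i, M (σ i) i) := by
    rw [← Equiv.sum_comp σ c]
    exact le_v_prod v Finset.univ (fun i => M (σ i) i) (fun i => c (σ i)) fun i _ => h _ _
  rcases Int.units_eq_one_or (Equiv.Perm.sign σ) with h2 | h2
  · rw [h2, one_smul]
    exact h1
  · rw [h2, Units.neg_smul, one_smul, AddValuation.map_neg]
    exact h1

theorem le_ord_det {Q I : Type*} [Field Q] [Fintype I] (v : AddValuation Q (WithTop ℤ)) {φ : ℕ}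
    (B : Matrix (Fin φ) I Q) (W : Matrix I (Fin φ) Q) (R : Matrix (Fin φ) (Fin φ) Q) (a b : ℤ)
    (ha : 0 ≤ a) (hb : 0 ≤ b) (hBW : ∀ i p j, (((-b : ℤ)) : WithTop ℤ) ≤ v (B i p * W p j))
    (hR : ∀ i j, ((a : ℤ) : WithTop ℤ) ≤ v (R i j)) :
    ((a * ((φ : ℤ) - Fintype.card I) - b * Fintype.card I : ℤ) : WithTop ℤ) ≤
      v (B * W + R).det := by
  classical
  let P : Fin φ → Fin φ → Q := fun i => B i ᵥ* W
  let Q' : Fin φ → Fin φ → Q := fun i j => R i j
  have hdet : (B * W + R).det = Matrix.detRowAlternating (P + Q') := by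
    have : (Matrix.of (P + Q') : Matrix (Fin φ) (Fin φ) Q) = B * W + R := by
      ext i j
      simp [P, Q', Matrix.mul_apply, Matrix.vecMul, dotProduct]
    rw [← this]
    rfl
  rw [hdet, AlternatingMap.map_add_univ]
  refine AddValuation.map_le_sum v fun s _ => ?_
  by_cases hs : Fintype.card I < s.card
  · have : Matrix.detRowAlternating (s.piecewise P Q') = 0 :=
      Pool.Agent.SYZ71.det_eq_zero_of_factor B W s hs (s.piecewise P Q')
        (fun i hi => by rw [Finset.piecewise_eq_of_mem _ _ _ hi])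
    rw [this, AddValuation.map_zero]
    exact le_top
  · have h1 : ((∑ i, (if i ∈ s then -b else a) : ℤ) : WithTop ℤ) ≤
        v (Matrix.of (s.piecewise P Q') : Matrix (Fin φ) (Fin φ) Q).det := by
      refine le_v_det v _ _ fun i j => ?_
      by_cases hi : i ∈ s
      · rw [if_pos hi, Matrix.of_apply, Finset.piecewise_eq_of_mem _ _ _ hi]
        exact AddValuation.map_le_sum v fun p _ => hBW i p j
      · rw [if_neg hi, Matrix.of_apply, Finset.piecewise_eq_of_notMem _ _ _ hi]
        exact hR i j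
    refine le_trans ?_ h1
    rw [WithTop.coe_le_coe, Finset.sum_ite, Finset.sum_const, Finset.sum_const,
      Finset.filter_mem_eq_inter, Finset.univ_inter, nsmul_eq_mul, nsmul_eq_mul]
    have h2 : (Finset.univ.filter fun i => i ∉ s).card = φ - s.card := by
      rw [Finset.filter_notMem_eq_sdiff, Finset.card_sdiff_of_subset (Finset.subset_univ _),
        Finset.card_univ, Fintype.card_fin]
    have h3 : s.card ≤ φ := by
      simpa using Finset.card_le_univ s
    rw [h2, Nat.cast_sub h3]
    have h4 : (s.card : ℤ) ≤ Fintype.card I := by exact_mod_cast Nat.le_of_not_lt hs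
    nlinarith

end Pool.Agent.SYZ68J
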