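import Pool.Agent.SYZ71.NFDefs
import Pool.Agent.SYZ71.LM2

/-!
# SYZ68J/LJExp : independence of exponential polynomials on `ℤ^r`

`∑_(m ∈ S) chi ψ v m * P_m (v) = 0` for all `v ∈ ℤ^r` implies `P_m = 0` (`m ∈ S`), if the characters
`ψ_j` are multiplicatively independent (so the `chi ψ · m` are pairwise different).

Proof.  On functions `ℤ^r → k` let `T_l` be the translation by the `l`-th unit vector.  The function
`v ↦ chi ψ v m * P_m (v)` lies in the generalised eigenspace of `T_l` for the eigenvalue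
`chi ψ e_l m = ∏_j ψ_(j l)^(m_j)`, for every `l`, and simultaneous generalised eigenspaces of
commuting endomorphisms for different systems of eigenvalues are independent.
-/

set_option autoImplicit false

open MvPowerSeries

namespace Pool.Agent.SYZ68J

open Pool.Agent.SYZ71

/-- translation by the `l`-th unit vector -/
def tsl (k : Type*) [Field k] {r : ℕ} (l : Fin r) : Module.End k ((Fin r → ℤ) → k) :=
  LinearMap.funLeft k k (fun v => v + Pi.single l 1)

theorem tsl_apply {k : Type*} [Field k] {r : ℕ} (l : Fin r) (f : (Fin r → ℤ) → k)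
    (v : Fin r → ℤ) : tsl k l f v = f (v + Pi.single l 1) := rfl

theorem tsl_comm {k : Type*} [Field k] {r : ℕ} (l l' : Fin r) :
    Commute (tsl k l) (tsl k l') := by
  apply LinearMap.ext
  intro f
  funext v
  rw [Module.End.mul_apply, Module.End.mul_apply, tsl_apply, tsl_apply, tsl_apply, tsl_apply,
    add_right_comm]

theorem chi_add {k : Type*} [Field k] {r s : ℕ} (ψ : Fin s → Fin r → kˣ) (v : Fin r → ℤ)
    (l : Fin r) (m : Fin s → ℤ) :
    chi ψ (v + Pi.single l 1) m = ((∏ j, ψ j l ^ m j : kˣ) : k) * chi ψ v m := by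
  unfold chi
  rw [← Units.val_mul, Units.val_inj, ← Finset.prod_mul_distrib]
  apply Finset.prod_congr rfl
  intro j _
  have h : ∀ l', ψ j l' ^ ((v + Pi.single l 1 : Fin r → ℤ) l' * m j) =
      ψ j l' ^ (v l' * m j) * (if l' = l then ψ j l ^ m j else 1) := by
    intro l'
    rw [Pi.add_apply, add_mul, zpow_add]
    congr 1
    by_cases h : l' = l
    · subst h; simp
    · simp [h]
  rw [Finset.prod_congr rfl (fun l' _ => h l'), Finset.prod_mul_distrib,
    Finset.prod_ite_eq' Finset.univ l, if_pos (Finset.mem_univ l), mul_comm]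

theorem chi_ne_zero {k : Type*} [Field k] {r s : ℕ} (ψ : Fin s → Fin r → kˣ) (v : Fin r → ℤ)
    (m : Fin s → ℤ) : chi ψ v m ≠ 0 := Units.ne_zero _

theorem mem_max_of_step {k V : Type*} [Field k] [AddCommGroup V] [Module k V]
    (T : Module.End k V) (c : k) (x : V) (h : T x - c • x ∈ T.maxGenEigenspace c) :
    x ∈ T.maxGenEigenspace c := by
  rw [Module.End.mem_maxGenEigenspace] at h ⊢
  obtain ⟨n, hn⟩ := h
  refine ⟨n + 1, ?_⟩
  rw [pow_succ, Module.End.mul_apply]
  simpa using hn

theorem mem_max_aux {k : Type*} [Field k] {r s : ℕ} (ψ : Fin s → Fin r → kˣ) (m : Fin s → ℤ)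
    (l : Fin r) (g : (Fin r → ℤ) → k) (hg : ∀ v, g (v + Pi.single l 1) = g v) (n : ℕ) :
    (fun v : Fin r → ℤ => chi ψ v m * (g v * (v l : k) ^ n)) ∈
      (tsl k l).maxGenEigenspace ((∏ j, ψ j l ^ m j : kˣ) : k) := by
  induction n using Nat.strong_induction_on with
  | _ n ih =>
    apply mem_max_of_step
    have h : tsl k l (fun v : Fin r → ℤ => chi ψ v m * (g v * (v l : k) ^ n)) -
        ((∏ j, ψ j l ^ m j : kˣ) : k) • (fun v : Fin r → ℤ => chi ψ v m * (g v * (v l : k) ^ n)) =
        ∑ i ∈ Finset.range n, (((∏ j, ψ j l ^ m j : kˣ) : k) * (n.choose i : k)) •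
          (fun v : Fin r → ℤ => chi ψ v m * (g v * (v l : k) ^ i)) := by
      funext v
      have e1 : (((v + Pi.single l 1 : Fin r → ℤ) l : ℤ) : k) = (v l : k) + 1 := by simp
      have e2 : ((v l : k) + 1) ^ n = ∑ i ∈ Finset.range n, (v l : k) ^ i * (n.choose i : k) +
          (v l : k) ^ n := by
        rw [add_pow, Finset.sum_range_succ]
        simp
      simp only [Pi.sub_apply, Pi.smul_apply, smul_eq_mul, Finset.sum_apply]
      rw [tsl_apply, chi_add, hg, e1, e2, mul_add, mul_add, Finset.mul_sum, Finset.mul_sum]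
      have e3 : ∑ i ∈ Finset.range n, ((∏ j, ψ j l ^ m j : kˣ) : k) * chi ψ v m *
          (g v * ((v l : k) ^ i * (n.choose i : k))) =
          ∑ i ∈ Finset.range n, ((∏ j, ψ j l ^ m j : kˣ) : k) * (n.choose i : k) *
            (chi ψ v m * (g v * (v l : k) ^ i)) := by
        apply Finset.sum_congr rfl
        intro i _
        ring
      rw [e3]
      ring
    rw [h]
    apply Submodule.sum_mem
    intro i hi
    exact Submodule.smul_mem _ _ (ih i (Finset.mem_range.1 hi))

theorem mem_max {k : Type*} [Field k] {r s : ℕ} (ψ : Fin s → Fin r → kˣ) (m : Fin s → ℤ)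
    (l : Fin r) (P : MvPolynomial (Fin r) k) :
    (fun v : Fin r → ℤ => chi ψ v m * MvPolynomial.eval (fun i => (v i : k)) P) ∈
      (tsl k l).maxGenEigenspace ((∏ j, ψ j l ^ m j : kˣ) : k) := by
  have h : (fun v : Fin r → ℤ => chi ψ v m * MvPolynomial.eval (fun i => (v i : k)) P) =
      ∑ a ∈ P.support, MvPolynomial.coeff a P •
        (fun v : Fin r → ℤ => chi ψ v m *
          ((∏ i ∈ Finset.univ.erase l, (v i : k) ^ a i) * (v l : k) ^ a l)) := by
    funext v
    rw [MvPolynomial.eval_eq', Finset.mul_sum, Finset.sum_apply]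
    apply Finset.sum_congr rfl
    intro a _
    rw [Pi.smul_apply, smul_eq_mul, ← Finset.prod_erase_mul Finset.univ _ (Finset.mem_univ l)]
    ring
  rw [h]
  apply Submodule.sum_mem
  intro a _
  apply Submodule.smul_mem
  apply mem_max_aux ψ m l (fun v => ∏ i ∈ Finset.univ.erase l, (v i : k) ^ a i)
  intro v
  apply Finset.prod_congr rfl
  intro i hi
  rw [Pi.add_apply, Pi.single_eq_of_ne (Finset.ne_of_mem_erase hi), add_zero]

theorem exp_poly_indep {k : Type*} [Field k] [CharZero k] {r s : ℕ} (ψ : Fin s → Fin r → kˣ)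
    (hψ : ∀ m : Fin s → ℤ, (∀ l, ∏ j, ψ j l ^ m j = 1) → m = 0) (S : Finset (Fin s → ℤ))
    (P : (Fin s → ℤ) → MvPolynomial (Fin r) k)
    (h : ∀ v : Fin r → ℤ, ∑ m ∈ S, chi ψ v m * MvPolynomial.eval (fun i => (v i : k)) (P m) = 0) :
    ∀ m ∈ S, P m = 0 := by
  have hind := Module.End.independent_iInf_maxGenEigenspace_of_forall_mapsTo
    (fun l : Fin r => tsl k l)
    (fun i j φ => Module.End.mapsTo_maxGenEigenspace_of_comm (tsl_comm j i) φ)
  have hinj : Function.Injective
      (fun (m : Fin s → ℤ) (l : Fin r) => ((∏ j, ψ j l ^ m j : kˣ) : k)) := by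
    intro m m' hm
    have : m - m' = 0 := by
      apply hψ
      intro l
      have h1 := congrFun hm l
      have h2 : (∏ j, ψ j l ^ m j : kˣ) = ∏ j, ψ j l ^ m' j := Units.ext h1
      have h3 : ∀ j, ψ j l ^ (m - m') j = ψ j l ^ m j / ψ j l ^ m' j := by
        intro j
        rw [Pi.sub_apply, zpow_sub, div_eq_mul_inv]
      rw [Finset.prod_congr rfl (fun j _ => h3 j), Finset.prod_div_distrib, h2, div_self']
    exact sub_eq_zero.1 this
  have hind2 := hind.comp hinj
  rw [iSupIndep_iff_finsetSum_eq_zero_imp_eq_zero] at hind2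
  have key := hind2 S
    (fun m v => chi ψ v m * MvPolynomial.eval (fun i => (v i : k)) (P m))
    (by
      intro m _
      rw [Function.comp_apply, Submodule.mem_iInf]
      intro l
      exact mem_max ψ m l (P m))
    (by
      funext v
      rw [Finset.sum_apply]
      exact h v)
  intro m hm
  apply poly_unique
  intro v
  have h1 := congrFun (key m hm) v
  rw [map_zero]
  exact (mul_eq_zero.1 h1).resolve_left (chi_ne_zero ψ v m)

end Pool.Agent.SYZ68J
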