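import Pool.Agent.SYZ68J.LJExp
import Pool.Agent.SYZ71.LMid

/-!
# SYZ68J/LJInv : the infinitesimal generators kill invariant functions

`s / t` an invariant fraction: `g v (s) t = s g v (t)` for all `v`.  Then `E_j (s) t = s E_j (t)` and
`Y_l (s) t = s Y_l (t)`.

Proof.  `g v f = tor v (uni v f)` (`uni_apply`), `coeff_tor`: `coeff b (g v f) =
chi ψ v (wt κ b) * coeff b (uni v f)`, and `coeff b (uni v f)` is a polynomial in `v` whose derivative
`∂_l` at `0` is `coeff b (Y_l f)` (`hasD_of_localData`); its value at `v = 0` is `coeff b f`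
(`uni ψ κ g 0 = 1`).  Fix an exponent `a`.  The coefficient of `z^a` in `g v (s) t - s g v (t)` is
`∑_(b + c = a) chi ψ v (wt b) (coeff b (uni v s) coeff c t - coeff b (uni v t) coeff c s)`
`= ∑_(m ∈ S) chi ψ v m * P_m (v)` with `S` the finite set of the `wt b`, `b ≤ a`.  By
`exp_poly_indep` all `P_m = 0`:
`∑_(b + c = a, wt b = m) (coeff b (uni v s) coeff c t - coeff b (uni v t) coeff c s) = 0` for all `v`.
Put `v = 0`, multiply by `m_j` and sum over `m` (`coeff_euler`: `coeff b (E_j f) = (wt b)_j coeff b f`);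
take `∂_l` at `0` and sum over `m`.
-/

set_option autoImplicit false

open MvPowerSeries

namespace Pool.Agent.SYZ68J

open Pool.Agent.SYZ71

private theorem coeff_X_mul_pderiv16 {k : Type*} [Field k] {d : ℕ} (i : Fin d) (f : PS k d)
    (a : Fin d →₀ ℕ) : coeff a (X i * pderiv k i f) = (a i : k) * coeff a f := by
  classical
  rw [X_def, coeff_monomial_mul]
  by_cases ha : Finsupp.single i 1 ≤ a
  · rw [if_pos ha, one_mul, coeff_pderiv]
    obtain ⟨b, rfl⟩ := exists_add_of_le ha
    rw [add_tsub_cancel_left, add_comm b (Finsupp.single i 1)]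
    simp only [Finsupp.add_apply, Finsupp.single_eq_same]
    push_cast
    ring
  · rw [if_neg ha]
    have : a i = 0 := by
      by_contra h0
      apply ha
      rw [Finsupp.single_le_iff]
      omega
    rw [this]
    simp

private theorem coeff_euler16 {k : Type*} [Field k] {d s : ℕ} (κ : Fin d → Fin s → ℤ)
    (j : Fin s) (f : PS k d) (b : Fin d →₀ ℕ) :
    coeff b (euler k κ j f) = ((wt κ b j : ℤ) : k) * coeff b f := by
  have h1 : ∀ i, euler k κ j (X i) = (κ i j : k) • (X i : PS k d) := fun i =>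
    mkDer_X (fun i => (κ i j : k) • (X i : PS k d)) i
  rw [derivation_eq, map_sum]
  have h2 : ∀ i, coeff b (euler k κ j (X i) * pderiv k i f) =
      (κ i j : k) * (b i : k) * coeff b f := by
    intro i
    rw [h1, smul_mul_assoc, coeff_smul, coeff_X_mul_pderiv16, mul_assoc]
  simp only [h2]
  rw [← Finset.sum_mul]
  congr 1
  unfold wt
  push_cast
  exact Finset.sum_congr rfl fun i _ => mul_comm _ _

private theorem uni_zero16 {k : Type*} [Field k] {d r s : ℕ}
    (g : (Fin r → ℤ) → (PS k d ≃ₐ[k] PS k d)) (hg : ∀ u v, g (u + v) = g u * g v)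
    (ψ : Fin s → Fin r → kˣ) (κ : Fin d → Fin s → ℤ) (h : NF g ψ κ) :
    uni ψ κ g 0 = 1 := by
  have h1 := uni_add g hg ψ κ h 0 0
  rw [add_zero] at h1
  exact mul_eq_left.1 h1.symm

private theorem key16 {k : Type*} [Field k] [CharZero k] {d r s : ℕ}
    (g : (Fin r → ℤ) → (PS k d ≃ₐ[k] PS k d))
    (ψ : Fin s → Fin r → kˣ) (κ : Fin d → Fin s → ℤ) (h : NF g ψ κ) (x t : PS k d)
    (hinv : ∀ v, g v x * t = x * g v t) (P Q : (Fin d →₀ ℕ) → MvPolynomial (Fin r) k)
    (hP : ∀ b (v : Fin r → ℤ), coeff b (uni ψ κ g v x) =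
      MvPolynomial.eval (fun i => (v i : k)) (P b))
    (hQ : ∀ b (v : Fin r → ℤ), coeff b (uni ψ κ g v t) =
      MvPolynomial.eval (fun i => (v i : k)) (Q b))
    (e : Fin d →₀ ℕ) (m : Fin s → ℤ) :
    ∑ p ∈ (Finset.HasAntidiagonal.antidiagonal e).filter (fun p => wt κ p.1 = m),
      (P p.1 * MvPolynomial.C (coeff p.2 t) - Q p.1 * MvPolynomial.C (coeff p.2 x)) = 0 := by
  classical
  by_cases hm : m ∈ (Finset.HasAntidiagonal.antidiagonal e).image (fun p => wt κ p.1)
  · refine exp_poly_indep ψ h.indep ((Finset.HasAntidiagonal.antidiagonal e).image (fun p => wt κ p.1))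
      (fun m => ∑ p ∈ (Finset.HasAntidiagonal.antidiagonal e).filter (fun p => wt κ p.1 = m),
      (P p.1 * MvPolynomial.C (coeff p.2 t) - Q p.1 * MvPolynomial.C (coeff p.2 x))) ?_ m hm
    intro v
    have h1 : ∀ m, chi ψ v m * MvPolynomial.eval (fun i => (v i : k))
        (∑ p ∈ (Finset.HasAntidiagonal.antidiagonal e).filter (fun p => wt κ p.1 = m),
          (P p.1 * MvPolynomial.C (coeff p.2 t) - Q p.1 * MvPolynomial.C (coeff p.2 x))) =
        ∑ p ∈ (Finset.HasAntidiagonal.antidiagonal e).filter (fun p => wt κ p.1 = m),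
          (coeff p.1 (g v x) * coeff p.2 t - coeff p.1 (g v t) * coeff p.2 x) := by
      intro m
      rw [map_sum, Finset.mul_sum]
      refine Finset.sum_congr rfl fun p hp => ?_
      have hp' := (Finset.mem_filter.1 hp).2
      rw [uni_apply ψ κ g v x, uni_apply ψ κ g v t, coeff_tor, coeff_tor, hP, hQ, hp',
        map_sub, map_mul, map_mul, MvPolynomial.eval_C, MvPolynomial.eval_C]
      ring
    rw [Finset.sum_congr rfl fun m _ => h1 m]
    rw [Finset.sum_fiberwise_of_maps_to (fun p hp => Finset.mem_image_of_mem _ hp)]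
    rw [Finset.sum_sub_distrib, ← coeff_mul, ← coeff_mul, hinv v, mul_comm x, sub_self]
  · rw [Finset.sum_eq_zero]
    intro p hp
    exfalso
    apply hm
    rw [Finset.mem_filter] at hp
    rw [Finset.mem_image]
    exact ⟨p, hp.1, hp.2⟩

private theorem fin16 {k : Type*} [Field k] {d r s : ℕ}
    (κ : Fin d → Fin s → ℤ) (x t x' t' : PS k d) (P Q : (Fin d →₀ ℕ) → MvPolynomial (Fin r) k)
    (Λ : (Fin s → ℤ) → (MvPolynomial (Fin r) k →ₗ[k] k))
    (hx : ∀ b, coeff b x' = Λ (wt κ b) (P b)) (ht : ∀ b, coeff b t' = Λ (wt κ b) (Q b))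
    (hkey : ∀ (e : Fin d →₀ ℕ) (m : Fin s → ℤ),
      ∑ p ∈ (Finset.HasAntidiagonal.antidiagonal e).filter (fun p => wt κ p.1 = m),
      (P p.1 * MvPolynomial.C (coeff p.2 t) - Q p.1 * MvPolynomial.C (coeff p.2 x)) = 0) :
    x' * t = x * t' := by
  classical
  rw [mul_comm x]
  ext e
  rw [← sub_eq_zero, coeff_mul, coeff_mul, ← Finset.sum_sub_distrib]
  rw [← Finset.sum_fiberwise_of_maps_to (s := Finset.HasAntidiagonal.antidiagonal e)
    (t := (Finset.HasAntidiagonal.antidiagonal e).image (fun p => wt κ p.1)) (g := fun p => wt κ p.1)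
    (fun p hp => Finset.mem_image_of_mem _ hp)]
  refine Finset.sum_eq_zero fun m _ => ?_
  have h1 : ∑ p ∈ (Finset.HasAntidiagonal.antidiagonal e).filter (fun p => wt κ p.1 = m),
      (coeff p.1 x' * coeff p.2 t - coeff p.1 t' * coeff p.2 x) =
      Λ m (∑ p ∈ (Finset.HasAntidiagonal.antidiagonal e).filter (fun p => wt κ p.1 = m),
      (P p.1 * MvPolynomial.C (coeff p.2 t) - Q p.1 * MvPolynomial.C (coeff p.2 x))) := by
    rw [map_sum]
    refine Finset.sum_congr rfl fun p hp => ?_
    have hp' := (Finset.mem_filter.1 hp).2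
    rw [hx, ht, hp', map_sub, mul_comm (P p.1), mul_comm (Q p.1), MvPolynomial.C_mul',
      MvPolynomial.C_mul', map_smul, map_smul, smul_eq_mul, smul_eq_mul]
    ring
  rw [h1, hkey, map_zero]

theorem der_invariant {k : Type*} [Field k] [CharZero k] {d r s : ℕ}
    (g : (Fin r → ℤ) → (PS k d ≃ₐ[k] PS k d)) (hg : ∀ u v, g (u + v) = g u * g v)
    (ψ : Fin s → Fin r → kˣ) (κ : Fin d → Fin s → ℤ) (h : NF g ψ κ)
    (Y : Fin r → Derivation k (PS k d) (PS k d)) (hY : LocalData g ψ κ Y) (x t : PS k d)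
    (hinv : ∀ v, g v x * t = x * g v t) (a : Fin s ⊕ Fin r) :
    (Sum.elim (euler k κ) Y a : Derivation k (PS k d) (PS k d)) x * t =
      x * (Sum.elim (euler k κ) Y a : Derivation k (PS k d) (PS k d)) t := by
  classical
  have hU := uni_add g hg ψ κ h
  have hr := uni_raise ψ κ g h
  choose P hP using fun b => isPoly_coeff (uni ψ κ g) hU hr x b
  choose Q hQ using fun b => isPoly_coeff (uni ψ κ g) hU hr t b
  have hkey := key16 g ψ κ h x t hinv P Q hP hQ
  have h0 : (fun i : Fin r => (((0 : Fin r → ℤ) i : ℤ) : k)) = 0 := by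
    funext i
    simp
  have hP0 : ∀ b, coeff b x = MvPolynomial.eval 0 (P b) := by
    intro b
    have := hP b 0
    rw [uni_zero16 g hg ψ κ h, h0] at this
    exact this
  have hQ0 : ∀ b, coeff b t = MvPolynomial.eval 0 (Q b) := by
    intro b
    have := hQ b 0
    rw [uni_zero16 g hg ψ κ h, h0] at this
    exact this
  rcases a with j | l
  · refine fin16 κ x t _ _ P Q
      (fun m => ((m j : ℤ) : k) • (MvPolynomial.aeval (0 : Fin r → k)).toLinearMap) ?_ ?_ hkey
    · intro b
      change coeff b (euler k κ j x) = ((wt κ b j : ℤ) : k) * MvPolynomial.aeval 0 (P b)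
      rw [coeff_euler16, hP0, MvPolynomial.aeval_eq_eval]
    · intro b
      change coeff b (euler k κ j t) = ((wt κ b j : ℤ) : k) * MvPolynomial.aeval 0 (Q b)
      rw [coeff_euler16, hQ0, MvPolynomial.aeval_eq_eval]
  · have hD : ∀ (f : PS k d) (R : (Fin d →₀ ℕ) → MvPolynomial (Fin r) k)
        (hR : ∀ b (v : Fin r → ℤ), coeff b (uni ψ κ g v f) =
          MvPolynomial.eval (fun i => (v i : k)) (R b)) (b : Fin d →₀ ℕ),
        coeff b (Y l f) = MvPolynomial.eval 0 (MvPolynomial.pderiv l (R b)) := by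
      intro f R hR b
      obtain ⟨R', hR', hR''⟩ := hasD_of_localData g hg ψ κ h Y hY l f b
      have : R' = R b := poly_unique R' (R b) fun v => by rw [← hR' v, ← hR b v]
      rw [hR'', this]
    refine fin16 κ x t _ _ P Q
      (fun _ => (MvPolynomial.aeval (0 : Fin r → k)).toLinearMap ∘ₗ
        (MvPolynomial.pderiv l : Derivation k _ _).toLinearMap) ?_ ?_ hkey
    · intro b
      change coeff b (Y l x) = MvPolynomial.aeval 0 (MvPolynomial.pderiv l (P b))
      rw [hD x P hP, MvPolynomial.aeval_eq_eval]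
    · intro b
      change coeff b (Y l t) = MvPolynomial.aeval 0 (MvPolynomial.pderiv l (Q b))
      rw [hD t Q hQ, MvPolynomial.aeval_eq_eval]

end Pool.Agent.SYZ68J
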