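import Mathlib

/-!
# SYZ68J/LJLat : lattice bases over a valuation ring

`v` a valuation of the field `Q`, `y_l` finitely many vectors of a `Q`-vector space.  There is a
subfamily which is linearly independent over `Q` and such that all `y_l` are combinations of it with
coefficients of valuation `≥ 0`.

Proof.  Take a subfamily `J` of smallest cardinality such that all `y_l` are combinations of it
with coefficients of valuation `≥ 0`.  If it is linearly dependent, `∑ g_m y_m = 0`, choose `m₀`
with `v (g_(m₀))` minimal; then `y_(m₀) = - ∑_(m ≠ m₀) (g_m / g_(m₀)) y_m` has coefficients of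
valuation `≥ 0`, and `m₀` can be removed from `J`.
-/

set_option autoImplicit false

open Module

namespace Pool.Agent.SYZ68J

theorem exists_lattice_basis {Q W ι : Type*} [Field Q] [AddCommGroup W] [Module Q W] [Finite ι]
    (v : AddValuation Q (WithTop ℤ)) (y : ι → W) :
    ∃ J : Finset ι, LinearIndependent Q (fun m : J => y m) ∧
      ∀ l, ∃ a : J → Q, (∀ m, 0 ≤ v (a m)) ∧ y l = ∑ m, a m • y m := by
  classical
  obtain ⟨hι⟩ := nonempty_fintype ι
  let Gen : Finset ι → Prop := fun J =>
    ∀ l, ∃ a : J → Q, (∀ m, 0 ≤ v (a m)) ∧ y l = ∑ m, a m • y m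
  have h0 : Gen Finset.univ := by
    intro l
    refine ⟨fun m => if (m : ι) = l then 1 else 0, ?_, ?_⟩
    · intro m
      by_cases h : (m : ι) = l
      · simp [h]
      · simp [h]
    · rw [Finset.sum_eq_single (⟨l, Finset.mem_univ l⟩ : (Finset.univ : Finset ι))]
      · simp
      · intro b _ hb
        have : (b : ι) ≠ l := fun h => hb (Subtype.ext h)
        simp [this]
      · intro h
        exact absurd (Finset.mem_univ _) h
  obtain ⟨J, hJ, hmin⟩ := Finset.exists_min_image (Finset.univ.filter Gen) Finset.card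
    ⟨Finset.univ, by simpa using h0⟩
  have hJ' : Gen J := by simpa using hJ
  refine ⟨J, ?_, hJ'⟩
  by_contra hli
  rw [Fintype.not_linearIndependent_iff] at hli
  obtain ⟨g, hg, i, hi⟩ := hli
  obtain ⟨m₀, -, hm₀⟩ := Finset.exists_min_image (Finset.univ : Finset J) (fun m => v (g m))
    ⟨i, Finset.mem_univ i⟩
  have hg0 : g m₀ ≠ 0 := by
    intro h
    have h1 := hm₀ i (Finset.mem_univ i)
    simp only [h, AddValuation.map_zero, top_le_iff] at h1
    exact hi ((AddValuation.top_iff v).1 h1)
  have hv0 : v (g m₀) ≠ ⊤ := fun h => hg0 ((AddValuation.top_iff v).1 h)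
  have hq : ∀ m : J, 0 ≤ v (g m / g m₀) := by
    intro m
    have h1 : v (g m / g m₀) + v (g m₀) = v (g m) := by
      rw [← AddValuation.map_mul, div_mul_cancel₀ _ hg0]
    have h2 := hm₀ m (Finset.mem_univ m)
    rw [← h1] at h2
    have h3 : 0 + v (g m₀) ≤ v (g m / g m₀) + v (g m₀) := by simpa using h2
    exact (WithTop.add_le_add_iff_right hv0).1 h3
  have hgen : Gen (J.erase m₀) := by
    intro l
    obtain ⟨a, ha, hl⟩ := hJ' l
    refine ⟨fun m => a ⟨m, Finset.mem_of_mem_erase m.2⟩ -
      a m₀ * (g ⟨m, Finset.mem_of_mem_erase m.2⟩ / g m₀), ?_, ?_⟩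
    · intro m
      refine le_trans (le_min (ha _) ?_) (AddValuation.map_sub v _ _)
      rw [AddValuation.map_mul]
      exact add_nonneg (ha _) (hq _)
    · have e1 : (y m₀ : W) = - ∑ m ∈ Finset.univ.erase m₀, (g m / g m₀) • y m := by
        rw [← Finset.add_sum_erase _ _ (Finset.mem_univ m₀)] at hg
        have h2 : (g m₀)⁻¹ • (g m₀ • y m₀ + ∑ x ∈ Finset.univ.erase m₀, g x • y x) = 0 := by
          rw [hg, smul_zero]
        rw [smul_add, smul_smul, inv_mul_cancel₀ hg0, one_smul, Finset.smul_sum] at h2
        rw [eq_neg_of_add_eq_zero_left h2]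
        congr 1
        refine Finset.sum_congr rfl fun m _ => ?_
        rw [smul_smul, div_eq_inv_mul]
      have e2 : y l = ∑ m ∈ Finset.univ.erase m₀, (a m - a m₀ * (g m / g m₀)) • y m := by
        rw [hl, ← Finset.add_sum_erase _ _ (Finset.mem_univ m₀), e1, smul_neg, Finset.smul_sum,
          neg_add_eq_sub, ← Finset.sum_sub_distrib]
        refine Finset.sum_congr rfl fun m _ => ?_
        rw [sub_smul, smul_smul]
      rw [e2]
      refine (Finset.sum_bij (fun (m : J.erase m₀) _ => (⟨m, Finset.mem_of_mem_erase m.2⟩ : J))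
        ?_ ?_ ?_ ?_).symm
      · intro m _
        rw [Finset.mem_erase]
        exact ⟨fun h => (Finset.ne_of_mem_erase m.2) (congrArg Subtype.val h), Finset.mem_univ _⟩
      · intro m _ m' _ h
        exact Subtype.ext (by simpa using h)
      · intro m hm
        rw [Finset.mem_erase] at hm
        exact ⟨⟨m, Finset.mem_erase.2 ⟨fun h => hm.1 (Subtype.ext h), m.2⟩⟩, Finset.mem_univ _, rfl⟩
      · intro m _
        rfl
  have h5 := hmin (J.erase m₀) (by simpa using hgen)
  have h6 := Finset.card_erase_lt_of_mem m₀.2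
  omega

end Pool.Agent.SYZ68J
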