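import Pool.Agent.SYZ68J.LJDefs
import Pool.Agent.SYZ71.LNB
import Pool.Agent.SYZ71.LMid

/-!
# SYZ68J/LJOp : `g v` is an operator of degree `≤ C q` up to order `q`

`y = (E_j)_j, (Y_l)_l`.  Proof.  Let `Box = ∏ [-K q, K q] ⊆ ℤ^s` be the box of torus weights of the
monomials of degree `< q` (see `Pool.Agent.SYZ71.LN.exists_box`; `K = ∑ |κ i j|`), `piece κ q μ f`
the part of `f` of degree `< q` and weight `μ`.
* Lagrange: `Λ_μ = ∏_j ∏_(c ∈ [-K q, K q], c ≠ μ_j) (E_j - c) / (μ_j - c)`, an operator of degree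
  `≤ s (2 K q)` in the `E_j`.  On a series of weight `μ' ∈ Box` it is `1` if `μ' = μ` and `0`
  otherwise (`euler_of_isHom`: `E_j = μ'_j`).  The `E_j` do not lower the order.  So
  `Λ_μ f ≡ piece μ f` modulo order `≥ q` (`f = ∑_μ piece μ f + (order ≥ q)`).
* `g v f ≡ ∑_μ g v (piece μ f) ≡ ∑_μ chi ψ v μ • ∑_(j < Θ) (1/j!) (∑_l v_l Y_l)^j (piece μ f)`
  modulo order `≥ q`, `Θ = 2 d q` (`LocalData.exp`, and `order ≥ q` follows from
  `weightedOrder (eta d) ≥ Θ` as `eta < 2 d`: `Pool.Agent.SYZ71.order_ge_of_weightedOrder`, see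
  `localData_bound` in `LEnd.lean`; `d = 0` is trivial).
* the `Y_l` do not lower the order up to the factor: if `order h ≥ q`... replace `piece μ f` by
  `Λ_μ f`: the difference has order `≥ q`, and `Y_l` does not lower the order as
  `constantCoeff (Y_l X_i) = 0` (`LJVal.order_le_der`).
So `T = ∑_(μ ∈ Box) chi ψ v μ • (∑_(j<Θ) (1/j!) (∑ v_l Y_l)^j) * Λ_μ`, of degree
`≤ Θ + 2 K s q ≤ C q`.  (`opSpan` is multiplicative: `opSpan y a * opSpan y b = opSpan y (a + b)`,
monotone since `1` is among the generators.)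
-/

set_option autoImplicit false

open MvPowerSeries Module

namespace Pool.Agent.SYZ68J

open Pool.Agent.SYZ71

private theorem one_mem46 {k A ι : Type*} [Field k] [AddCommGroup A] [Module k A]
    (y : ι → Module.End k A) :
    (1 : Submodule k (Module.End k A)) ≤ Submodule.span k (insert 1 (Set.range y)) := by
  rw [Submodule.one_le]
  exact Submodule.subset_span (Set.mem_insert _ _)

theorem opSpan_mono {k A ι : Type*} [Field k] [AddCommGroup A] [Module k A]
    (y : ι → Module.End k A) {N N' : ℕ} (h : N ≤ N') : opSpan y N ≤ opSpan y N' := by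
  unfold opSpan
  exact pow_le_pow_right₀ (one_mem46 y) h

theorem opSpan_mul {k A ι : Type*} [Field k] [AddCommGroup A] [Module k A]
    (y : ι → Module.End k A) {N N' : ℕ} {T T' : Module.End k A} (h : T ∈ opSpan y N)
    (h' : T' ∈ opSpan y N') : T * T' ∈ opSpan y (N + N') := by
  unfold opSpan
  rw [pow_add]
  exact Submodule.mul_mem_mul h h'

private theorem gen_mem46 {k A ι : Type*} [Field k] [AddCommGroup A] [Module k A]
    (y : ι → Module.End k A) (a : ι) : y a ∈ opSpan y 1 := by
  unfold opSpan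
  rw [pow_one]
  exact Submodule.subset_span (Set.mem_insert_of_mem _ ⟨a, rfl⟩)

private theorem pow_mem46 {k A ι : Type*} [Field k] [AddCommGroup A] [Module k A]
    (y : ι → Module.End k A) {T : Module.End k A} (h : T ∈ opSpan y 1) (n : ℕ) :
    T ^ n ∈ opSpan y n := by
  unfold opSpan at h ⊢
  rw [pow_one] at h
  exact Submodule.pow_mem_pow _ h n

private theorem one_mem46' {k A ι : Type*} [Field k] [AddCommGroup A] [Module k A]
    (y : ι → Module.End k A) (N : ℕ) : (1 : Module.End k A) ∈ opSpan y N := by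
  have h := opSpan_mono y (Nat.zero_le N)
  apply h
  unfold opSpan
  rw [pow_zero]
  exact Submodule.one_le.1 le_rfl

/-- polynomials in an operator -/
private theorem aeval_mem46 {k A ι : Type*} [Field k] [AddCommGroup A] [Module k A]
    (y : ι → Module.End k A) {T : Module.End k A} (h : T ∈ opSpan y 1) (p : Polynomial k) :
    Polynomial.aeval T p ∈ opSpan y p.natDegree := by
  rw [Polynomial.aeval_eq_sum_range]
  refine Submodule.sum_mem _ fun i hi => Submodule.smul_mem _ _ ?_
  exact opSpan_mono y (by simpa [Nat.lt_succ_iff] using hi) (pow_mem46 y h i)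

private theorem aeval_eig46 {k A : Type*} [Field k] [AddCommGroup A] [Module k A]
    (E : Module.End k A) (p : Polynomial k) (c : k) (f : A) (h : E f = c • f) :
    Polynomial.aeval E p f = p.eval c • f := by
  by_cases hf : f = 0
  · simp [hf]
  · exact Module.End.aeval_apply_of_hasEigenvector
      (⟨Module.End.mem_eigenspace_iff.2 h, hf⟩ : Module.End.HasEigenvector E c f)


/-- Lagrange interpolation on the integers of an interval -/
private theorem lag46 {k : Type*} [Field k] [CharZero k] (B : ℕ) (a : ℤ)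
    (ha : a ∈ Finset.Icc (-(B : ℤ)) B) :
    ∃ p : Polynomial k, p.natDegree ≤ 2 * B ∧
      ∀ c ∈ Finset.Icc (-(B : ℤ)) B, p.eval (c : k) = if c = a then 1 else 0 := by
  classical
  refine ⟨∏ c ∈ (Finset.Icc (-(B : ℤ)) B).erase a,
    (Polynomial.C (((a : k) - (c : k))⁻¹) * (Polynomial.X - Polynomial.C (c : k))), ?_, ?_⟩
  · refine (Polynomial.natDegree_prod_le _ _).trans ?_
    refine (Finset.sum_le_card_nsmul _ _ 1 ?_).trans ?_
    · intro c _
      refine (Polynomial.natDegree_C_mul_le _ _).trans ?_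
      exact (Polynomial.natDegree_X_sub_C _).le
    · rw [Finset.card_erase_of_mem ha, Int.card_Icc, smul_eq_mul, mul_one]
      omega
  · intro c hc
    rw [Polynomial.eval_prod]
    split_ifs with h
    · subst h
      apply Finset.prod_eq_one
      intro x hx
      have hx' := (Finset.mem_erase.1 hx).1
      have h1 : (c : k) - (x : k) ≠ 0 := by
        rw [sub_ne_zero]
        intro h2
        exact hx' (Int.cast_injective h2).symm
      simp [inv_mul_cancel₀ h1]
    · apply Finset.prod_eq_zero (Finset.mem_erase.2 ⟨h, hc⟩)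
      simp

/-- operators which do not lower the order -/
private theorem nl46 {k ι : Type*} [Field k] {d : ℕ} (y : ι → Module.End k (PS k d))
    (hy : ∀ a (f : PS k d), f.order ≤ (y a f).order) (N : ℕ) :
    ∀ T ∈ opSpan y N, ∀ f : PS k d, f.order ≤ (T f).order := by
  have hV : ∀ T ∈ Submodule.span k (insert 1 (Set.range y)), ∀ f : PS k d,
      f.order ≤ (T f).order := by
    intro T hT
    induction hT using Submodule.span_induction with
    | mem x hx =>
      rcases hx with rfl | ⟨a, rfl⟩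
      · intro f; exact le_rfl
      · exact hy a
    | zero => intro f; rw [LinearMap.zero_apply, order_zero]; exact le_top
    | add x z _ _ h1 h2 =>
      intro f
      rw [LinearMap.add_apply]
      exact (le_min (h1 f) (h2 f)).trans min_order_le_add
    | smul c x _ h1 =>
      intro f
      rw [LinearMap.smul_apply]
      exact (h1 f).trans le_order_smul
  induction N with
  | zero =>
    intro T hT
    unfold opSpan at hT
    rw [pow_zero, Submodule.mem_one] at hT
    obtain ⟨c, rfl⟩ := hT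
    intro f
    rw [Module.algebraMap_end_apply]
    exact le_order_smul
  | succ N ih =>
    intro T hT
    unfold opSpan at hT
    rw [pow_succ] at hT
    induction hT using Submodule.mul_induction_on' with
    | mem_mul_mem m hm n hn =>
      intro f
      rw [Module.End.mul_apply]
      exact (hV n hn f).trans (ih m hm _)
    | add x _ z _ h1 h2 =>
      intro f
      rw [LinearMap.add_apply]
      exact (le_min (h1 f) (h2 f)).trans min_order_le_add

private theorem eulerNL46 {k : Type*} [Field k] {d s : ℕ} (κ : Fin d → Fin s → ℤ) (j : Fin s)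
    (f : PS k d) : f.order ≤ (euler k κ j f).order := by
  apply order_le_der
  intro i
  rw [← coeff_zero_eq_constantCoeff_apply, LN.coeff_euler, coeff_zero_eq_constantCoeff_apply]
  simp

/-- projection to a weight -/
private theorem torus46 {k : Type*} [Field k] [CharZero k] {d r s : ℕ}
    (κ : Fin d → Fin s → ℤ) (Y : Fin r → Derivation k (PS k d) (PS k d)) (B : ℕ)
    (μ : Fin s → ℤ) (hμ : ∀ j, μ j ∈ Finset.Icc (-(B : ℤ)) B) (S : Finset (Fin s)) :
    ∃ Λ ∈ opSpan (fun a : Fin s ⊕ Fin r =>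
        (((Sum.elim (euler k κ) Y a : Derivation k (PS k d) (PS k d)) : PS k d →ₗ[k] PS k d) :
          Module.End k (PS k d))) (S.card * (2 * B)),
      ∀ (μ' : Fin s → ℤ) (f : PS k d), IsHom κ μ' f →
        (∀ j, μ' j ∈ Finset.Icc (-(B : ℤ)) B) →
        Λ f = if ∀ j ∈ S, μ' j = μ j then f else 0 := by
  classical
  induction S using Finset.induction_on with
  | empty =>
    refine ⟨1, one_mem46' _ _, fun μ' f _ _ => ?_⟩
    simp
  | insert j S hj ih =>
    obtain ⟨Λ, h1, h2⟩ := ih
    obtain ⟨p, hp1, hp2⟩ := lag46 (k := k) B (μ j) (hμ j)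
    set E : Module.End k (PS k d) :=
      (((Sum.elim (euler k κ) Y (Sum.inl j) : Derivation k (PS k d) (PS k d)) :
        PS k d →ₗ[k] PS k d) : Module.End k (PS k d)) with hE
    refine ⟨Polynomial.aeval E p * Λ, ?_, fun μ' f hf hμ' => ?_⟩
    · rw [Finset.card_insert_of_notMem hj, Nat.add_mul, one_mul, add_comm]
      refine opSpan_mul _ (opSpan_mono _ hp1 (aeval_mem46 _ ?_ p)) h1
      exact gen_mem46 (fun a : Fin s ⊕ Fin r =>
        (((Sum.elim (euler k κ) Y a : Derivation k (PS k d) (PS k d)) : PS k d →ₗ[k] PS k d) :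
          Module.End k (PS k d))) (Sum.inl j)
    · rw [Module.End.mul_apply, h2 μ' f hf hμ']
      by_cases h3 : ∀ i ∈ S, μ' i = μ i
      · rw [if_pos h3]
        have h4 : E f = ((μ' j : ℤ) : k) • f := LN.euler_of_isHom j hf
        rw [aeval_eig46 E p _ f h4, hp2 _ (hμ' j)]
        by_cases h5 : μ' j = μ j
        · rw [if_pos h5, one_smul, if_pos]
          intro i hi
          rcases Finset.mem_insert.1 hi with rfl | hi
          · exact h5
          · exact h3 i hi
        · rw [if_neg h5, zero_smul, if_neg]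
          intro h6
          exact h5 (h6 j (Finset.mem_insert_self _ _))
      · rw [if_neg h3, map_zero, if_neg]
        intro h6
        exact h3 fun i hi => h6 i (Finset.mem_insert_of_mem hi)

/-- the explicit box -/
private theorem box46 {k : Type*} [Field k] {d s : ℕ} (κ : Fin d → Fin s → ℤ) :
    ∃ K : ℕ, ∀ q : ℕ, ∀ f : PS k d,
      (q : ℕ∞) ≤ (f - ∑ m ∈ Fintype.piFinset (fun _ : Fin s => Finset.Icc (-((K * q : ℕ) : ℤ))
        ((K * q : ℕ) : ℤ)), LN.piece κ q m f).order := by
  classical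
  let K : ℕ := ∑ i, ∑ j, (κ i j).natAbs
  have hK : ∀ i j, (κ i j).natAbs ≤ K := fun i j =>
    (Finset.single_le_sum (f := fun j => (κ i j).natAbs) (fun _ _ => Nat.zero_le _)
      (Finset.mem_univ j)).trans
      (Finset.single_le_sum (f := fun i => ∑ j, (κ i j).natAbs) (fun _ _ => Nat.zero_le _)
        (Finset.mem_univ i))
  refine ⟨K, fun q f => ?_⟩
  refine le_order ?_
  intro a ha
  have ha' : a.degree < q := by exact_mod_cast ha
  have hmem : wt κ a ∈ Fintype.piFinset (fun _ : Fin s => Finset.Icc (-((K * q : ℕ) : ℤ))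
        ((K * q : ℕ) : ℤ)) := by
    rw [Fintype.mem_piFinset]
    intro j
    rw [Finset.mem_Icc, ← abs_le]
    calc |wt κ a j| = |∑ i, (a i : ℤ) * κ i j| := rfl
      _ ≤ ∑ i, |(a i : ℤ) * κ i j| := Finset.abs_sum_le_sum_abs _ _
      _ ≤ ∑ i, (a i : ℤ) * K := by
          refine Finset.sum_le_sum fun i _ => ?_
          rw [abs_mul, Nat.abs_cast]
          refine mul_le_mul_of_nonneg_left ?_ (Nat.cast_nonneg _)
          rw [Int.abs_eq_natAbs]
          exact_mod_cast hK i j
      _ = (∑ i, (a i : ℤ)) * K := by rw [Finset.sum_mul]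
      _ = (a.degree : ℤ) * K := by
          rw [Finsupp.degree_eq_sum]
          push_cast
          rfl
      _ ≤ (q : ℤ) * K := by
          refine mul_le_mul_of_nonneg_right ?_ (Nat.cast_nonneg _)
          exact_mod_cast ha'.le
      _ = ((K * q : ℕ) : ℤ) := by push_cast; ring
  rw [map_sub, map_sum, Finset.sum_eq_single (wt κ a)]
  · rw [LN.coeff_piece, if_pos ⟨ha', rfl⟩, sub_self]
  · intro b _ hb
    rw [LN.coeff_piece, if_neg (fun h => hb h.2.symm)]
  · intro h
    exact absurd hmem h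

theorem exists_op {k : Type*} [Field k] [CharZero k] {d r s : ℕ}
    (g : (Fin r → ℤ) → (PS k d ≃ₐ[k] PS k d))
    (ψ : Fin s → Fin r → kˣ) (κ : Fin d → Fin s → ℤ)
    (Y : Fin r → Derivation k (PS k d) (PS k d)) (h : LocalData g ψ κ Y) :
    ∃ C : ℕ, 1 ≤ C ∧ ∀ (q : ℕ) (v : Fin r → ℤ), 1 ≤ q →
      ∃ T ∈ opSpan (fun a : Fin s ⊕ Fin r =>
        (((Sum.elim (euler k κ) Y a : Derivation k (PS k d) (PS k d)) : PS k d →ₗ[k] PS k d) :
          Module.End k (PS k d))) (C * q),
        ∀ f : PS k d, (q : ℕ∞) ≤ (g v f - T f).order := by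
  classical
  rcases Nat.eq_zero_or_pos d with hd | hd
  · subst hd
    refine ⟨1, le_rfl, fun q v _ => ⟨1, one_mem46' _ _, fun f => ?_⟩⟩
    have h1 : f = algebraMap k (PS k 0) (constantCoeff f) := by
      ext a
      have ha : a = 0 := Subsingleton.elim _ _
      subst ha
      simp [MvPowerSeries.algebraMap_apply]
    have h2 : g v f = f := by
      rw [h1, AlgEquiv.commutes]
    rw [h2, Module.End.one_apply, sub_self, order_zero]
    exact le_top
  obtain ⟨K, hK⟩ := box46 (k := k) κ
  set y : Fin s ⊕ Fin r → Module.End k (PS k d) := fun a : Fin s ⊕ Fin r =>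
        (((Sum.elim (euler k κ) Y a : Derivation k (PS k d) (PS k d)) : PS k d →ₗ[k] PS k d) :
          Module.End k (PS k d)) with hy
  have hYc : ∀ l i, constantCoeff (Y l (X i)) = 0 := by
    intro l i
    rw [← coeff_zero_eq_constantCoeff_apply]
    apply coeff_eq_zero_of_lt_weightedOrder (eta d)
    refine lt_of_lt_of_le ?_ (h.raise l i)
    rw [map_zero]
    exact_mod_cast Nat.succ_pos _
  have hNL : ∀ a (f : PS k d), f.order ≤ (y a f).order := by
    intro a f
    rcases a with j | l
    · exact eulerNL46 κ j f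
    · exact order_le_der (Y l) (hYc l) f
  have hη : ∀ i, eta d i < 2 * d := by
    intro i
    have := i.2
    simp only [eta]
    omega
  refine ⟨2 * d + s * (2 * K), by omega, fun q v hq => ?_⟩
  set Box : Finset (Fin s → ℤ) := Fintype.piFinset (fun _ : Fin s =>
    Finset.Icc (-((K * q : ℕ) : ℤ)) ((K * q : ℕ) : ℤ)) with hBox
  have hBm : ∀ μ ∈ Box, ∀ j, μ j ∈ Finset.Icc (-((K * q : ℕ) : ℤ)) ((K * q : ℕ) : ℤ) :=
    fun μ hμ j => (Fintype.mem_piFinset.1 hμ) j
  have hΛ : ∀ μ : Fin s → ℤ, ∃ Λ ∈ opSpan y (s * (2 * (K * q))), μ ∈ Box →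
      ∀ (μ' : Fin s → ℤ) (f : PS k d), IsHom κ μ' f → μ' ∈ Box →
        Λ f = if μ' = μ then f else 0 := by
    intro μ
    by_cases hμ : μ ∈ Box
    · obtain ⟨Λ, h1, h2⟩ := torus46 κ Y (K * q) μ (hBm μ hμ) Finset.univ
      rw [Finset.card_univ, Fintype.card_fin] at h1
      refine ⟨Λ, h1, fun _ μ' f hf hμ' => ?_⟩
      rw [h2 μ' f hf (hBm μ' hμ')]
      congr 1
      simp [funext_iff]
    · exact ⟨0, Submodule.zero_mem _, fun h => absurd h hμ⟩
  choose Λ hΛ1 hΛ2 using hΛ
  let Θ := 2 * d * q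
  let P : Module.End k (PS k d) := ∑ j ∈ Finset.range Θ, ((j.factorial : k)⁻¹) •
      (((∑ l, (v l : k) • (Y l : PS k d →ₗ[k] PS k d)) : Module.End k (PS k d)) ^ j)
  have hX : ((∑ l, (v l : k) • (Y l : PS k d →ₗ[k] PS k d)) : Module.End k (PS k d)) ∈
      opSpan y 1 := Submodule.sum_mem _ fun l _ => Submodule.smul_mem _ _
        (gen_mem46 y (Sum.inr l))
  have hP : P ∈ opSpan y Θ := Submodule.sum_mem _ fun j hj => Submodule.smul_mem _ _
    (opSpan_mono y (Finset.mem_range.1 hj).le (pow_mem46 y hX j))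
  refine ⟨∑ μ ∈ Box, chi ψ v μ • (P * Λ μ), ?_, fun f => ?_⟩
  · refine Submodule.sum_mem _ fun μ _ => Submodule.smul_mem _ _ ?_
    have h1 := opSpan_mul y hP (hΛ1 μ)
    refine opSpan_mono y (le_of_eq ?_) h1
    simp only [Θ]
    ring
  · set R : PS k d := f - ∑ m ∈ Box, LN.piece κ q m f with hR
    have hRo : (q : ℕ∞) ≤ R.order := hK q f
    have hf : f = ∑ m ∈ Box, LN.piece κ q m f + R := by rw [hR]; abel
    have hΛf : ∀ μ ∈ Box, Λ μ f = LN.piece κ q μ f + Λ μ R := by
      intro μ hμ
      conv_lhs => rw [hf]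
      rw [map_add, map_sum]
      congr 1
      rw [Finset.sum_eq_single μ]
      · rw [hΛ2 μ hμ μ _ (LN.isHom_piece q μ f) hμ, if_pos rfl]
      · intro b hb hne
        rw [hΛ2 μ hμ b _ (LN.isHom_piece q b f) hb, if_neg hne]
      · intro hn
        exact absurd hμ hn
    have hsplit : g v f - (∑ μ ∈ Box, chi ψ v μ • (P * Λ μ)) f =
        ∑ μ ∈ Box, (g v (LN.piece κ q μ f) - chi ψ v μ • P (LN.piece κ q μ f)) +
          (g v R - ∑ μ ∈ Box, chi ψ v μ • P (Λ μ R)) := by
      have h1 : (∑ μ ∈ Box, chi ψ v μ • (P * Λ μ)) f =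
          ∑ μ ∈ Box, chi ψ v μ • P (LN.piece κ q μ f) +
            ∑ μ ∈ Box, chi ψ v μ • P (Λ μ R) := by
        rw [LinearMap.sum_apply, ← Finset.sum_add_distrib]
        refine Finset.sum_congr rfl fun μ hμ => ?_
        rw [LinearMap.smul_apply, Module.End.mul_apply, hΛf μ hμ, map_add, smul_add]
      have h2 : g v f = ∑ μ ∈ Box, g v (LN.piece κ q μ f) + g v R := by
        conv_lhs => rw [hf]
        rw [map_add, map_sum]
      rw [h1, h2, Finset.sum_sub_distrib]
      abel
    rw [hsplit]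
    have hadd : ∀ a b : PS k d, (q : ℕ∞) ≤ a.order → (q : ℕ∞) ≤ b.order →
        (q : ℕ∞) ≤ (a + b).order := fun a b ha hb => (le_min ha hb).trans min_order_le_add
    have hsub : ∀ a b : PS k d, (q : ℕ∞) ≤ a.order → (q : ℕ∞) ≤ b.order →
        (q : ℕ∞) ≤ (a - b).order := by
      intro a b ha hb
      rw [sub_eq_add_neg]
      refine hadd _ _ ha ?_
      have : -b = (-1 : k) • b := by simp
      rw [this]
      exact hb.trans le_order_smul
    have hsum : ∀ (F : (Fin s → ℤ) → PS k d), (∀ μ ∈ Box, (q : ℕ∞) ≤ (F μ).order) →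
        (q : ℕ∞) ≤ (∑ μ ∈ Box, F μ).order := by
      intro F hF
      refine Finset.sum_induction F (fun x => (q : ℕ∞) ≤ x.order) hadd ?_ hF
      rw [order_zero]
      exact le_top
    refine hadd _ _ (hsum _ fun μ _ => ?_) (hsub _ _ ?_ (hsum _ fun μ _ => ?_))
    · apply order_ge_of_weightedOrder hd (eta d) hη
      have h3 := h.exp v μ (LN.piece κ q μ f) (LN.isHom_piece q μ f) Θ
      have h4 : P (LN.piece κ q μ f) = ∑ j ∈ Finset.range Θ, ((j.factorial : k)⁻¹) •
          (((∑ l, (v l : k) • (Y l : PS k d →ₗ[k] PS k d)) : Module.End k (PS k d)) ^ j)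
            (LN.piece κ q μ f) := by
        simp only [P, LinearMap.sum_apply, LinearMap.smul_apply]
      rw [h4]
      exact h3
    · rw [order_algEquiv]
      exact hRo
    · refine le_trans ?_ le_order_smul
      exact (hRo.trans (nl46 y hNL _ _ (hΛ1 μ) R)).trans (nl46 y hNL _ _ hP _)

end Pool.Agent.SYZ68J
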