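import Pool.Agent.SYZ68J.LJDefs
import Pool.Agent.SYZ71.LIso

/-!
# SYZ68J/LJRank : isotropic families containing the Hamiltonian fields

`D_a` (`a : ι`) vector fields, pairwise `ω`-orthogonal, killing the `φ_i = s_i / t`, such that the
family `(D_a), (ξ_i)` is linearly independent over `Q`: then `card ι + e ≤ n`.

Proof.  `ξ_i = Z_i / b_i`.  The family `(D_a), (Z_i)` is linearly independent over `P` (as its
extensions to `Q` are, up to units of `Q`, the given family), hence so are the vectors
`(D (X_j))_j ∈ P^(2n)` (a vector field is determined by its values on the coordinates,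
`derivation_ext`; see `rank_le_of_symplectic` in `LIso.lean`).  The matrix
`Ω = (ω(∂_i, ∂_j))` has determinant `≠ 0` (`LN.omega_det_ne_zero`) and `ω(D, D') = ∑ D(X_i) D'(X_j)
Ω_ij` (`LN.omega_eq`).  Isotropy: `ω(D_a, D_b) = 0`; `t² ω(Z_i, D_a) = b_i (t D_a s_i - s_i D_a t) = 0`;
`t² ω(Z_i, Z_j) = b_i (t Z_j s_i - s_i Z_j t) = b_i b_j t² ξ_j(s_i / t) = 0`; `ω(Z_i, Z_i) = 0`; and
`ω(Y, X) = - ω(X, Y)`.  `LN.card_le_of_isotropic`: `2 (card ι + e) ≤ 2 n`.
`e_le`: the case `ι = Empty`.
-/

set_option autoImplicit false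

open MvPowerSeries Module

namespace Pool.Agent.SYZ68J

open Pool.Agent.SYZ71

variable {k : Type*} [Field k] [CharZero k] {n r e : ℕ}
  {ω : Derivation k (PS k (2 * n)) (PS k (2 * n)) →ₗ[PS k (2 * n)]
      Derivation k (PS k (2 * n)) (PS k (2 * n)) →ₗ[PS k (2 * n)] PS k (2 * n)}
  {g : (Fin r → ℤ) → (PS k (2 * n) ≃ₐ[k] PS k (2 * n))} {t : PS k (2 * n)}
  {s : Fin e → PS k (2 * n)} {ξ : Fin e → Derivation k (QS k (2 * n)) (QS k (2 * n))}

theorem card_add_le (hω : IsSymplectic ω) (h : HamData ω g t s ξ) {ι : Type*} [Fintype ι]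
    (D : ι → Derivation k (PS k (2 * n)) (PS k (2 * n))) (hD : ∀ a b, ω (D a) (D b) = 0)
    (hDφ : ∀ a i, D a (s i) * t = s i * D a t)
    (hlin : LinearIndependent (QS k (2 * n)) (Sum.elim (fun a => extD (D a)) ξ)) :
    Fintype.card ι + e ≤ n := by
  have hdom : IsDomain (PS k (2 * n)) := NoZeroDivisors.to_isDomain _
  have hinj : Function.Injective (algebraMap (PS k (2 * n)) (QS k (2 * n))) :=
    IsFractionRing.injective (PS k (2 * n)) (QS k (2 * n))
  have ht : t ≠ 0 := h.t_ne
  choose b Z hb hZ hZω using h.ham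
  -- the family
  let F : ι ⊕ Fin e → Derivation k (PS k (2 * n)) (PS k (2 * n)) := Sum.elim D Z
  have hFlin : LinearIndependent (PS k (2 * n)) F := by
    rw [Fintype.linearIndependent_iff]
    intro c hc
    rw [Fintype.linearIndependent_iff] at hlin
    let c' : ι ⊕ Fin e → QS k (2 * n) := Sum.elim
      (fun a => algebraMap (PS k (2 * n)) (QS k (2 * n)) (c (Sum.inl a)))
      (fun i => algebraMap (PS k (2 * n)) (QS k (2 * n)) (c (Sum.inr i)) *
        algebraMap (PS k (2 * n)) (QS k (2 * n)) (b i))
    have h1 : ∑ x, c' x • (Sum.elim (fun a => extD (D a)) ξ x :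
        Derivation k (QS k (2 * n)) (QS k (2 * n))) = 0 := by
      apply derQ_ext
      intro f
      have h2 := DFunLike.congr_fun hc f
      have hsumP : ∀ (u : ι ⊕ Fin e → PS k (2 * n))
          (G : ι ⊕ Fin e → Derivation k (PS k (2 * n)) (PS k (2 * n))),
          (∑ x, u x • G x) f = ∑ x, u x * G x f := by
        intro u G
        rw [← Derivation.coeFnAddMonoidHom_apply, map_sum, Finset.sum_apply]
        rfl
      have hsumQ : ∀ (u : ι ⊕ Fin e → QS k (2 * n))
          (G : ι ⊕ Fin e → Derivation k (QS k (2 * n)) (QS k (2 * n))) (y : QS k (2 * n)),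
          (∑ x, u x • G x) y = ∑ x, u x * G x y := by
        intro u G y
        rw [← Derivation.coeFnAddMonoidHom_apply, map_sum, Finset.sum_apply]
        rfl
      rw [hsumP] at h2
      rw [hsumQ]
      have h3 := congrArg (algebraMap (PS k (2 * n)) (QS k (2 * n))) h2
      rw [map_sum] at h3
      rw [Derivation.zero_apply, map_zero] at h3
      rw [Derivation.zero_apply, ← h3]
      apply Finset.sum_congr rfl
      rintro (a | i) _
      · simp only [c', F, Sum.elim_inl, map_mul, extD_algebraMap]
      · simp only [c', F, Sum.elim_inr, map_mul, hZ]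
        ring
    have h4 := hlin c' h1
    rintro (a | i)
    · have h5 := h4 (Sum.inl a)
      simp only [c', Sum.elim_inl] at h5
      exact hinj (by rw [h5, map_zero])
    · have h5 := h4 (Sum.inr i)
      simp only [c', Sum.elim_inr] at h5
      have h6 : algebraMap (PS k (2 * n)) (QS k (2 * n)) (b i) ≠ 0 := fun h0 =>
        hb i (hinj (by rw [h0, map_zero]))
      rcases mul_eq_zero.1 h5 with h7 | h7
      · exact hinj (by rw [h7, map_zero])
      · exact absurd h7 h6
  let L : Derivation k (PS k (2 * n)) (PS k (2 * n)) →ₗ[PS k (2 * n)]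
      (Fin (2 * n) → PS k (2 * n)) :=
    { toFun := fun D i => D (X i)
      map_add' := fun D D' => by
        ext1 i
        rfl
      map_smul' := fun c D => by
        ext1 i
        rfl }
  have hu : LinearIndependent (PS k (2 * n)) (fun a => L (F a)) := by
    refine hFlin.map' L (LinearMap.ker_eq_bot.2 ?_)
    intro D D' hDD
    exact derivation_ext D D' fun i => congrFun hDD i
  have hskew : ∀ A B, ω A B = 0 → ω B A = 0 := by
    intro A B hAB
    have h1 := hω.alt (A + B)
    simp only [map_add, LinearMap.add_apply, hω.alt, hAB, zero_add, add_zero] at h1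
    exact h1
  have hZD : ∀ i a, ω (Z i) (D a) = 0 := by
    intro i a
    have h1 := hZω i (D a)
    have h2 : t * D a (s i) - s i * D a t = 0 := by
      rw [mul_comm t, hDφ a i, sub_self]
    rw [h2, mul_zero] at h1
    rcases mul_eq_zero.1 h1 with h3 | h3
    · exact absurd h3 (pow_ne_zero 2 ht)
    · exact h3
  have hZZ : ∀ i j, ω (Z i) (Z j) = 0 := by
    intro i j
    have h1 := hZω i (Z j)
    have ht' : algebraMap (PS k (2 * n)) (QS k (2 * n)) t ≠ 0 := fun h0 =>
      ht (hinj (by rw [h0, map_zero]))
    have h2 : t * Z j (s i) - s i * Z j t = 0 := by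
      apply hinj
      rw [map_sub, map_mul, map_mul, hZ, hZ, map_zero]
      have h3 := h.comm j i
      have h4 : ξ j (algebraMap (PS k (2 * n)) (QS k (2 * n)) (s i)) =
          algebraMap (PS k (2 * n)) (QS k (2 * n)) (s i) /
            algebraMap (PS k (2 * n)) (QS k (2 * n)) t *
            ξ j (algebraMap (PS k (2 * n)) (QS k (2 * n)) t) := by
        have h5 : algebraMap (PS k (2 * n)) (QS k (2 * n)) (s i) =
            algebraMap (PS k (2 * n)) (QS k (2 * n)) (s i) /
              algebraMap (PS k (2 * n)) (QS k (2 * n)) t *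
              algebraMap (PS k (2 * n)) (QS k (2 * n)) t := by
          rw [div_mul_cancel₀ _ ht']
        conv_lhs => rw [h5]
        rw [Derivation.leibniz, h3, smul_zero, add_zero, smul_eq_mul]
      rw [h4]
      field_simp
      ring
    rw [h2, mul_zero] at h1
    rcases mul_eq_zero.1 h1 with h3 | h3
    · exact absurd h3 (pow_ne_zero 2 ht)
    · exact h3
  have hiso : ∀ x y : ι ⊕ Fin e, ω (F x) (F y) = 0 := by
    rintro (a | i) (a' | j)
    · exact hD a a'
    · exact hskew _ _ (hZD j a)
    · exact hZD i a'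
    · exact hZZ i j
  have h1 := LN.card_le_of_isotropic (fun a => L (F a)) hu
    (Matrix.of fun i j => ω (pderiv k i) (pderiv k j)) (LN.omega_det_ne_zero ω hω) (by
      intro a b
      have h2 := hiso a b
      rw [omega_expand] at h2
      exact h2)
  rw [Fintype.card_sum, Fintype.card_fin] at h1
  omega

theorem e_le (hω : IsSymplectic ω) (h : HamData ω g t s ξ) : e ≤ n := by
  have h1 := card_add_le hω h (ι := Empty) (fun a => a.elim) (fun a => a.elim)
    (fun a => a.elim) (by
      have h2 := (linearIndependent_equiv (R := QS k (2 * n)) (Equiv.emptySum Empty (Fin e))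
        (f := ξ)).2 h.indep
      convert h2 using 1
      funext x
      rcases x with a | i
      · exact a.elim
      · rfl)
  simpa using h1

end Pool.Agent.SYZ68J
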