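import Pool.Agent.SYZ68J.LJRed
import Pool.Agent.SYZ68J.LJDet
import Pool.Agent.SYZ68J.LJOp
import Pool.Agent.SYZ68J.LJInv
import Pool.Agent.SYZ68J.LJCom
import Pool.Agent.SYZ68J.LJRank

/-!
# SYZ68J/LJNF : the local bound with jets in normal form coordinates

Proof.  `y : Fin s ⊕ Fin r → Derivation k P P`, `y = Sum.elim (euler k κ) Y`, `ỹ = extD ∘ y`.
1. `L_y ω = 0` for all `y_a` (in the proof of `generators_isotropic`, `LIso.lean`: `hlieY`, `hlieE`),
   the `y_a` commute and are pairwise orthogonal (`generators_isotropic`), have no constant terms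
   (`hccY`, `hccE`), kill the `φ_i = s_i / t` (`der_invariant`).  So `ỹ_a`, `ξ_i` commute
   (`ham_comm_der`, `ham_comm`, and `derQ_ext` for `ỹ_a ỹ_b = ỹ_b ỹ_a`).
2. `W = (Derivation k Q Q) ⧸ span_Q (ξ_i)`; `exists_lattice_basis` for the images of the `ỹ_a`: `J`
   with `ỹ_a = ∑_(m ∈ J) A_am ỹ_m + ∑_i c_ai ξ_i`, `v (A) ≥ 0`, and `(ỹ_m)_(m ∈ J), (ξ_i)` linearly
   independent over `Q` (the `ξ_i` are independent, and the images of the `ỹ_m` in `W` are).
   `card_add_le`: `|J| + e ≤ n`; so `|J| ≤ n - e`.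
3. `N₁` with `v (c_ai) ≥ - N₁` (finitely many); `N₀` from `exists_pole` (the maximum over `i`).
4. `exists_op`: `C₁`.  Given `L, φ, q, f, v, l`, put `q₀ = (N₀ + 2) q`, `N = C₁ q₀`,
   `T_v ∈ opSpan y N` with `order (g v f - T_v f) ≥ q₀`; transfer to `Q`: `T̃_v ∈ opSpan ỹ N` with
   `T̃_v (a) = T_v a` for `a ∈ P` (`Submodule.pow_induction_on_left'` or: the set of the `T` which have
   such a `T̃` is a submodule, contains `1`, `y_a`, and products).
   `exists_functionalsJ` for `algebraMap '' L`, `K = q`: `I`, `B`, `W`.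
   `ξ_l (g v f) = ξ_l (T̃_v f) + ξ_l (g v f - T_v f) = T̃_v (ξ_l f) + R`,
   `ordQ R ≥ q₀ - N₀ q ≥ 2 q` (`T̃_v` commutes with the `ξ_i`).
5. `le_ord_det` with `a = 2 q`, `b = N₀ (q + N) + N₁ N ≤ C₂ q`:
   `ordQ det ≥ 2 q (φ - |I|) - C₂ q |I| ≥ q φ` if `φ ≥ (2 + C₂) |I|`, and
   `|I| ≤ jetRank (q + N) (N + 1)^|J| ≤ jetRank (C q) (C' q)^(n - e)` (`jetRank` is monotone in the
   order: `jetRank_mono_right` below).  Take `C` large.
-/

set_option autoImplicit false

open MvPowerSeries Module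

namespace Pool.Agent.SYZ68J

open Pool.Agent.SYZ71

theorem jetRank_mono_right {ι Q : Type*} [Finite ι] [Field Q] (ξ : ι → Q → Q) (L : Set Q)
    {K K' : ℕ} (h : K ≤ K') : jetRank ξ L K ≤ jetRank ξ L K' := by
  unfold jetRank
  have hfin : Finite {l : List ι // l.length ≤ K'} :=
    (List.finite_length_le ι K').to_subtype
  have hf : Module.Finite Q (Submodule.span Q (Set.range
      (fun (l : {l : List ι // l.length ≤ K'}) => fun x : L => wd ξ (l : List ι) (x : Q)))) :=
    Module.Finite.span_of_finite Q (Set.finite_range _)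
  refine Submodule.finrank_mono (Submodule.span_mono ?_)
  rintro _ ⟨l, rfl⟩
  exact ⟨⟨l.1, l.2.trans h⟩, rfl⟩

section Facts

variable {k : Type*} [Field k] [CharZero k] {d r s' : ℕ}
    (ω : Derivation k (PS k d) (PS k d) →ₗ[PS k d]
      Derivation k (PS k d) (PS k d) →ₗ[PS k d] PS k d)
    (g : (Fin r → ℤ) → (PS k d ≃ₐ[k] PS k d)) (ψ : Fin s' → Fin r → kˣ)
    (κ : Fin d → Fin s' → ℤ) (Y : Fin r → Derivation k (PS k d) (PS k d))

private theorem cc_y (hY : LocalData g ψ κ Y) (a : Fin s' ⊕ Fin r) (i : Fin d) :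
    constantCoeff ((Sum.elim (euler k κ) Y a : Derivation k (PS k d) (PS k d)) (X i)) = 0 := by
  rcases a with j | l
  · have hEX : euler k κ j (X i) = (κ i j : k) • (X i : PS k d) :=
      euler_of_isHom κ j (κ i) (X i) (isHom_X κ i)
    rw [Sum.elim_inl, hEX, constantCoeff_smul, constantCoeff_X, smul_zero]
  · rw [Sum.elim_inr, ← coeff_zero_eq_constantCoeff_apply]
    apply coeff_eq_zero_of_lt_weightedOrder (w := eta d)
    refine lt_of_lt_of_le ?_ (hY.raise l i)
    rw [map_zero]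
    exact_mod_cast Nat.succ_pos _

private theorem comm_y (hY : LocalData g ψ κ Y) (a b : Fin s' ⊕ Fin r) :
    ⁅(Sum.elim (euler k κ) Y a : Derivation k (PS k d) (PS k d)),
      (Sum.elim (euler k κ) Y b : Derivation k (PS k d) (PS k d))⁆ = 0 := by
  have hEX : ∀ j i, euler k κ j (X i) = (κ i j : k) • (X i : PS k d) := fun j i =>
    euler_of_isHom κ j (κ i) (X i) (isHom_X κ i)
  have hEY : ∀ j l, ⁅euler k κ j, Y l⁆ = 0 := by
    intro j l
    apply derivation_ext
    intro i
    rw [Derivation.commutator_apply, euler_of_isHom κ j (κ i) _ (hY.homog l i), hEX,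
      Derivation.map_smul, sub_self]
    rfl
  have hEE : ∀ j j' : Fin s', ⁅euler k κ j, euler k κ j'⁆ = 0 := by
    intro j j'
    apply derivation_ext
    intro i
    rw [Derivation.commutator_apply, hEX, hEX, Derivation.map_smul, Derivation.map_smul, hEX, hEX,
      smul_comm, sub_self]
    rfl
  rcases a with j | l
  · rcases b with j' | l'
    · exact hEE j j'
    · exact hEY j l'
  · rcases b with j' | l'
    · change ⁅Y l, euler k κ j'⁆ = 0
      rw [← lie_skew, hEY, neg_zero]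
    · exact hY.comm l l'

private theorem lie_y (hg : ∀ u v, g (u + v) = g u * g v) (hgω : ∀ v, Preserves ω (g v))
    (h : NF g ψ κ) (hY : LocalData g ψ κ Y) (a : Fin s' ⊕ Fin r)
    (A B : Derivation k (PS k d) (PS k d)) :
    (Sum.elim (euler k κ) Y a : Derivation k (PS k d) (PS k d)) (ω A B) =
      ω ⁅(Sum.elim (euler k κ) Y a : Derivation k (PS k d) (PS k d)), A⁆ B +
        ω A ⁅(Sum.elim (euler k κ) Y a : Derivation k (PS k d) (PS k d)), B⁆ := by
  have hw := omega_homog ω g hg hgω ψ κ h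
  rcases a with j | l
  · exact lie_euler ω κ hw j A B
  · have hUω : ∀ v, Preserves ω (uni ψ κ g v) := fun v =>
      preserves_mul ω _ _ (preserves_inv ω _ (preserves_tor ω ψ κ hw v)) (hgω v)
    have hD := hasD_of_localData g hg ψ κ h Y hY
    exact log_lie ω (uni ψ κ g) (uni_add g hg ψ κ h) (uni_raise ψ κ g h) hUω Y hD l A B

private theorem mem_gen (a : Fin s' ⊕ Fin r) :
    (Sum.elim (euler k κ) Y a : Derivation k (PS k d) (PS k d)) ∈
      Set.range Y ∪ Set.range (euler k κ) := by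
  rcases a with j | l
  · exact Or.inr ⟨j, rfl⟩
  · exact Or.inl ⟨l, rfl⟩

end Facts

private theorem ext_comm {k : Type*} [Field k] {d : ℕ} (D D' : Derivation k (PS k d) (PS k d))
    (h : ⁅D, D'⁆ = 0) (x : QS k d) : extD D (extD D' x) = extD D' (extD D x) := by
  have h1 : ⁅extD D, extD D'⁆ = 0 := by
    apply derQ_ext
    intro a
    rw [Derivation.commutator_apply, extD_algebraMap, extD_algebraMap, extD_algebraMap,
      extD_algebraMap, ← map_sub, ← Derivation.commutator_apply, h]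
    simp
  have h2 := DFunLike.congr_fun h1 x
  rw [Derivation.commutator_apply] at h2
  exact sub_eq_zero.1 h2

/-- transfer of operators to the fraction field -/
private theorem transfer {k P Q : Type*} [Field k] [CommRing P] [Field Q] [Algebra k P]
    [Algebra k Q] [Algebra P Q] [IsScalarTower k P Q] {ι : Type*}
    (y : ι → Derivation k P P) (z : ι → Derivation k Q Q)
    (hyz : ∀ a x, z a (algebraMap P Q x) = algebraMap P Q (y a x)) (N : ℕ)
    (T : Module.End k P)
    (hT : T ∈ opSpan (fun a => ((y a : P →ₗ[k] P) : Module.End k P)) N) :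
    ∃ T' ∈ opSpan (fun a => ((z a : Q →ₗ[k] Q) : Module.End k Q)) N,
      ∀ a, T' (algebraMap P Q a) = algebraMap P Q (T a) := by
  unfold opSpan at hT ⊢
  induction N generalizing T with
  | zero =>
    rw [pow_zero] at hT
    rw [pow_zero]
    obtain ⟨c, hc⟩ := Submodule.mem_one.1 hT
    refine ⟨algebraMap k _ c, Submodule.mem_one.2 ⟨c, rfl⟩, fun a => ?_⟩
    rw [← hc, Module.algebraMap_end_apply, Module.algebraMap_end_apply]
    rw [Algebra.smul_def, Algebra.smul_def, map_mul, ← IsScalarTower.algebraMap_apply]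
  | succ N ih =>
    rw [pow_succ] at hT
    rw [pow_succ]
    induction hT using Submodule.mul_induction_on' with
    | mem_mul_mem A hA B hB =>
      obtain ⟨A', hA', hA2⟩ := ih A hA
      have hB' : ∃ B' ∈ Submodule.span k (insert 1 (Set.range
          (fun a => ((z a : Q →ₗ[k] Q) : Module.End k Q)))),
          ∀ a, B' (algebraMap P Q a) = algebraMap P Q (B a) := by
        induction hB using Submodule.span_induction with
        | mem x hx =>
          rcases hx with rfl | ⟨a, rfl⟩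
          · exact ⟨1, Submodule.subset_span (Set.mem_insert _ _), fun a => rfl⟩
          · exact ⟨_, Submodule.subset_span (Set.mem_insert_of_mem _ ⟨a, rfl⟩),
              fun b => hyz a b⟩
        | zero => exact ⟨0, Submodule.zero_mem _, fun a => by simp⟩
        | add x z _ _ hx hz =>
          obtain ⟨x', hx', hx2⟩ := hx
          obtain ⟨z', hz', hz2⟩ := hz
          exact ⟨x' + z', Submodule.add_mem _ hx' hz', fun a => by
            rw [LinearMap.add_apply, LinearMap.add_apply, hx2, hz2, map_add]⟩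
        | smul c x _ hx =>
          obtain ⟨x', hx', hx2⟩ := hx
          refine ⟨c • x', Submodule.smul_mem _ _ hx', fun a => ?_⟩
          rw [LinearMap.smul_apply, LinearMap.smul_apply, hx2, Algebra.smul_def,
            Algebra.smul_def, map_mul, ← IsScalarTower.algebraMap_apply]
      obtain ⟨B', hB', hB2⟩ := hB'
      exact ⟨A' * B', Submodule.mul_mem_mul hA' hB', fun a => by
        rw [Module.End.mul_apply, Module.End.mul_apply, hB2, hA2]⟩
    | add A _ B _ hA hB =>
      obtain ⟨x', hx', hx2⟩ := hA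
      obtain ⟨z', hz', hz2⟩ := hB
      exact ⟨x' + z', Submodule.add_mem _ hx' hz', fun a => by
        rw [LinearMap.add_apply, LinearMap.add_apply, hx2, hz2, map_add]⟩

/-- operators commute with a map commuting with the generators -/
private theorem op_comm {k Q ι : Type*} [Field k] [Field Q] [Algebra k Q]
    (y : ι → Derivation k Q Q) (ξ : Derivation k Q Q)
    (h : ∀ a x, y a (ξ x) = ξ (y a x)) (N : ℕ) (T : Module.End k Q)
    (hT : T ∈ opSpan (fun a => ((y a : Q →ₗ[k] Q) : Module.End k Q)) N) (x : Q) :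
    T (ξ x) = ξ (T x) := by
  unfold opSpan at hT
  induction N generalizing T x with
  | zero =>
    rw [pow_zero] at hT
    obtain ⟨c, hc⟩ := Submodule.mem_one.1 hT
    rw [← hc, Module.algebraMap_end_apply, Module.algebraMap_end_apply, Derivation.map_smul]
  | succ N ih =>
    rw [pow_succ] at hT
    induction hT using Submodule.mul_induction_on' generalizing x with
    | mem_mul_mem A hA B hB =>
      have hB' : B (ξ x) = ξ (B x) := by
        induction hB using Submodule.span_induction with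
        | mem z hz =>
          rcases hz with rfl | ⟨a, rfl⟩
          · rfl
          · exact h a x
        | zero => simp
        | add z w _ _ hz hw =>
          rw [LinearMap.add_apply, LinearMap.add_apply, hz, hw, map_add]
        | smul c z _ hz =>
          rw [LinearMap.smul_apply, LinearMap.smul_apply, hz, Derivation.map_smul]
      rw [Module.End.mul_apply, Module.End.mul_apply, hB', ih A hA]
    | add A _ B _ hA hB =>
      rw [LinearMap.add_apply, LinearMap.add_apply, hA, hB, map_add]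

private theorem op_comm_wd {k Q ι : Type*} [Field k] [Field Q] [Algebra k Q] {e : ℕ}
    (y : ι → Derivation k Q Q) (ξ : Fin e → Derivation k Q Q)
    (h : ∀ a i x, y a (ξ i x) = ξ i (y a x)) (N : ℕ) (T : Module.End k Q)
    (hT : T ∈ opSpan (fun a => ((y a : Q →ₗ[k] Q) : Module.End k Q)) N) (l : List (Fin e))
    (x : Q) : T (wd (fun i => ξ i) l x) = wd (fun i => ξ i) l (T x) := by
  induction l generalizing x with
  | nil => rfl
  | cons i l ih =>
    change T (wd (fun i => ξ i) l (ξ i x)) = wd (fun i => ξ i) l (ξ i (T x))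
    rw [ih, op_comm y (ξ i) (fun a x => h a i x) N T hT]

private theorem wd_sub' {k Q : Type*} [Field k] [Field Q] [Algebra k Q] {e : ℕ}
    (ξ : Fin e → Derivation k Q Q) (l : List (Fin e)) (x z : Q) :
    wd (fun i => ξ i) l (x + z) = wd (fun i => ξ i) l x + wd (fun i => ξ i) l z := by
  induction l generalizing x z with
  | nil => rfl
  | cons i l ih =>
    change wd (fun i => ξ i) l (ξ i (x + z)) = wd (fun i => ξ i) l (ξ i x) +
      wd (fun i => ξ i) l (ξ i z)
    rw [map_add, ih]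

private theorem ord_wd {k Q : Type*} [Field k] [Field Q] [Algebra k Q] {e : ℕ}
    (v : AddValuation Q (WithTop ℤ)) (ξ : Fin e → Derivation k Q Q) (N₀ : ℕ)
    (hξv : ∀ i x, v x ≤ v (ξ i x) + ((N₀ : ℤ) : WithTop ℤ)) (l : List (Fin e)) (x : Q) :
    v x ≤ v (wd (fun i => ξ i) l x) + (((N₀ * l.length : ℕ) : ℤ) : WithTop ℤ) := by
  induction l generalizing x with
  | nil =>
    change v x ≤ v x + _
    simp
  | cons i l ih =>
    change v x ≤ v (wd (fun i => ξ i) l (ξ i x)) + _
    refine (hξv i x).trans ((add_le_add (ih (ξ i x)) le_rfl).trans (le_of_eq ?_))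
    rw [add_assoc, ← WithTop.coe_add]
    congr 2

private theorem exists_lower (x : WithTop ℤ) : ∃ N : ℕ, ((-(N : ℤ) : ℤ) : WithTop ℤ) ≤ x := by
  cases x with
  | top => exact ⟨0, le_top⟩
  | coe z =>
    refine ⟨z.natAbs, ?_⟩
    rw [WithTop.coe_le_coe]
    omega

private theorem sum_der_apply {k Q τ : Type*} [Field k] [Field Q] [Algebra k Q] (t : Finset τ)
    (u : τ → Q) (G : τ → Derivation k Q Q) (x : Q) :
    (∑ i ∈ t, u i • G i) x = ∑ i ∈ t, u i * G i x := by
  rw [← Derivation.coeFnAddMonoidHom_apply, map_sum, Finset.sum_apply]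
  rfl

/-- step 2 of the proof: the lattice basis -/
private theorem lattice_step {k : Type*} [Field k] {Q : Type*} [Field Q] [Algebra k Q]
    {ι : Type*} [Finite ι] {e : ℕ}
    (v : AddValuation Q (WithTop ℤ)) (y : ι → Derivation k Q Q) (ξ : Fin e → Derivation k Q Q)
    (hind : LinearIndependent Q ξ) :
    ∃ (J : Finset ι) (A : ι → J → Q) (c : ι → Fin e → Q), (∀ a m, 0 ≤ v (A a m)) ∧
      (∀ a x, y a x = ∑ m : J, A a m * y m x + ∑ i, c a i * ξ i x) ∧
      LinearIndependent Q (Sum.elim (fun m : J => y m) ξ) := by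
  classical
  let S : Submodule Q (Derivation k Q Q) := Submodule.span Q (Set.range ξ)
  obtain ⟨J, hJ, hA⟩ := exists_lattice_basis v (fun a => S.mkQ (y a))
  choose A hA0 hA1 using hA
  have hc : ∀ a, ∃ c : Fin e → Q, ∑ i, c i • ξ i = y a - ∑ m : J, A a m • y m := by
    intro a
    have h1 : S.mkQ (y a - ∑ m : J, A a m • y m) = 0 := by
      rw [map_sub, map_sum, hA1 a]
      simp only [map_smul]
      exact sub_self _
    rw [Submodule.mkQ_apply, Submodule.Quotient.mk_eq_zero] at h1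
    exact (Submodule.mem_span_range_iff_exists_fun Q).1 h1
  choose c hc using hc
  refine ⟨J, A, c, hA0, fun a x => ?_, ?_⟩
  · have h1 := DFunLike.congr_fun (hc a) x
    rw [Derivation.sub_apply, sum_der_apply, sum_der_apply] at h1
    rw [h1]
    ring
  · have hf : LinearIndependent Q (fun i : Fin e => (⟨ξ i, Submodule.subset_span ⟨i, rfl⟩⟩ : S)) := by
      refine LinearIndependent.of_comp S.subtype ?_
      exact hind
    have h2 := LinearIndependent.sumElim_of_quotient hf (fun m : J => y m) hJ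
    have h3 := h2.comp (Sum.swap : J ⊕ Fin e → Fin e ⊕ J) Sum.swap_leftInverse.injective
    have h4 : (Sum.elim (fun m : J => y m) ξ) =
        (Sum.elim (fun i : Fin e => ((⟨ξ i, Submodule.subset_span ⟨i, rfl⟩⟩ : S) :
          Derivation k Q Q)) (fun m : J => y m)) ∘ (Sum.swap : J ⊕ Fin e → Fin e ⊕ J) := by
      funext x
      rcases x with m | i <;> rfl
    rw [h4]
    exact h3

theorem localJ_of_data {k : Type*} [Field k] [CharZero k] (n r : ℕ)
    (ω : Derivation k (PS k (2 * n)) (PS k (2 * n)) →ₗ[PS k (2 * n)]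
      Derivation k (PS k (2 * n)) (PS k (2 * n)) →ₗ[PS k (2 * n)] PS k (2 * n))
    (hω : IsSymplectic ω)
    (g : (Fin r → ℤ) → (PS k (2 * n) ≃ₐ[k] PS k (2 * n)))
    (hg : ∀ u v, g (u + v) = g u * g v) (hgω : ∀ v, Preserves ω (g v)) {s' : ℕ}
    (ψ : Fin s' → Fin r → kˣ) (κ : Fin (2 * n) → Fin s' → ℤ) (hNF : NF g ψ κ)
    (Y : Fin r → Derivation k (PS k (2 * n)) (PS k (2 * n))) (hY : LocalData g ψ κ Y)
    {e : ℕ} (t : PS k (2 * n)) (s : Fin e → PS k (2 * n))
    (ξ : Fin e → Derivation k (QS k (2 * n)) (QS k (2 * n))) (h : HamData ω g t s ξ) :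
    ∃ C : ℕ, 1 ≤ C ∧ ∀ (L : Set (PS k (2 * n))) (φ q : ℕ) (f : Fin φ → PS k (2 * n))
      (v : Fin φ → Fin r → ℤ) (l : Fin φ → List (Fin e)),
      (∀ i, f i ∈ L) → (∀ j, (l j).length ≤ q) → 1 ≤ q →
      C * (jetRank (fun i => ξ i) (algebraMap (PS k (2 * n)) (QS k (2 * n)) '' L) (C * q) *
        q ^ (n - e)) ≤ φ →
      (((q * φ : ℕ) : ℤ) : WithTop ℤ) ≤ ordQ k (2 * n) (Matrix.of fun i j =>
        wd (fun i => ξ i) (l j)
          (algebraMap (PS k (2 * n)) (QS k (2 * n)) (g (v j) (f i)))).det := by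
  classical
  let y : Fin s' ⊕ Fin r → Derivation k (PS k (2 * n)) (PS k (2 * n)) := Sum.elim (euler k κ) Y
  let yt : Fin s' ⊕ Fin r → Derivation k (QS k (2 * n)) (QS k (2 * n)) := fun a => extD (y a)
  -- facts
  have hcc : ∀ a i, constantCoeff (y a (X i)) = 0 := fun a i => cc_y g ψ κ Y hY a i
  have hcomm : ∀ a b, ⁅y a, y b⁆ = 0 := fun a b => comm_y g ψ κ Y hY a b
  have hlie : ∀ a X Z, y a (ω X Z) = ω ⁅y a, X⁆ Z + ω X ⁅y a, Z⁆ := fun a A B =>
    lie_y ω g ψ κ Y hg hgω hNF hY a A B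
  have hiso : ∀ a b, ω (y a) (y b) = 0 := fun a b =>
    generators_isotropic ω hω g hg hgω ψ κ hNF Y hY _ _ (mem_gen κ Y a) (mem_gen κ Y b)
  have hinv : ∀ a i, y a (s i) * t = s i * y a t := fun a i =>
    der_invariant g hg ψ κ hNF Y hY (s i) t (fun v => h.inv v i) a
  have hyy : ∀ a b x, yt a (yt b x) = yt b (yt a x) := fun a b x =>
    ext_comm (y a) (y b) (hcomm a b) x
  have hyξ : ∀ a i x, yt a (ξ i x) = ξ i (yt a x) := fun a i x =>
    ham_comm_der hω h (y a) (hlie a) (hinv a) i x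
  have hξξ : ∀ i j x, ξ i (ξ j x) = ξ j (ξ i x) := fun i j x => ham_comm hω h i j x
  have hyv : ∀ a x, ordQ k (2 * n) x ≤ ordQ k (2 * n) (yt a x) := fun a x =>
    ordQ_le_extD (y a) (hcc a) x
  have hpole : ∀ i, ∃ N : ℕ, ∀ x, ordQ k (2 * n) x ≤
      ordQ k (2 * n) (ξ i x) + ((N : ℤ) : WithTop ℤ) := by
    intro i
    obtain ⟨b, Z, hb, hZ, -⟩ := h.ham i
    exact exists_pole (ξ i) b hb Z hZ
  choose Np hNp using hpole
  set N₀ : ℕ := ∑ i, Np i with hN₀
  have hξv : ∀ i x, ordQ k (2 * n) x ≤ ordQ k (2 * n) (ξ i x) + ((N₀ : ℤ) : WithTop ℤ) := by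
    intro i x
    refine (hNp i x).trans (add_le_add le_rfl ?_)
    rw [WithTop.coe_le_coe, Nat.cast_le]
    exact Finset.single_le_sum (f := Np) (fun _ _ => Nat.zero_le _) (Finset.mem_univ i)
  -- lattice basis
  obtain ⟨J, A, c, hA, hrel, hlin⟩ := lattice_step (ordQ k (2 * n)) yt ξ h.indep
  have hJ : J.card + e ≤ n := by
    have := card_add_le hω h (fun m : J => y m) (fun a b => hiso _ _) (fun a i => hinv _ i) hlin
    rwa [Fintype.card_coe] at this
  choose Nc hNc using fun a i => exists_lower (ordQ k (2 * n) (c a i))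
  set N₁ : ℕ := ∑ a, ∑ i, Nc a i with hN₁
  have hc : ∀ a i, ((-(N₁ : ℤ) : ℤ) : WithTop ℤ) ≤ ordQ k (2 * n) (c a i) := by
    intro a i
    refine le_trans ?_ (hNc a i)
    rw [WithTop.coe_le_coe, neg_le_neg_iff, Nat.cast_le]
    calc Nc a i ≤ ∑ i, Nc a i :=
          Finset.single_le_sum (f := fun i => Nc a i) (fun _ _ => Nat.zero_le _) (Finset.mem_univ i)
      _ ≤ N₁ := Finset.single_le_sum (f := fun a => ∑ i, Nc a i) (fun _ _ => Nat.zero_le _)
          (Finset.mem_univ a)
  have hk : ∀ c : k, 0 ≤ ordQ k (2 * n) (algebraMap k (QS k (2 * n)) c) := by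
    intro c
    rw [IsScalarTower.algebraMap_apply k (PS k (2 * n)) (QS k (2 * n))]
    exact ordQ_nonneg _
  -- operators
  obtain ⟨C₁, hC₁, hop⟩ := exists_op g ψ κ Y hY
  set B₀ : ℕ := C₁ * (N₀ + 2) with hB₀
  set C₂ : ℕ := N₀ * (1 + B₀) + N₁ * B₀ with hC₂
  refine ⟨(2 + C₂) * (1 + B₀) ^ (n - e) * (1 + B₀), ?_, ?_⟩
  · have h1 : 1 ≤ (1 + B₀) ^ (n - e) := Nat.one_le_pow _ _ (by omega)
    calc 1 = 1 * 1 * 1 := rfl
      _ ≤ _ := Nat.mul_le_mul (Nat.mul_le_mul (by omega) h1) (by omega)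
  intro L φ q f v l hf hl hq hφ
  have hq₀ : 1 ≤ (N₀ + 2) * q := Nat.mul_pos (by omega) hq
  choose T hT hT2 using fun j => hop ((N₀ + 2) * q) (v j) hq₀
  have hNq : C₁ * ((N₀ + 2) * q) = B₀ * q := by rw [hB₀]; ring
  choose T' hT' hT'2 using fun j => transfer y yt (fun a x => extD_algebraMap (y a) x)
    (C₁ * ((N₀ + 2) * q)) (T j) (hT j)
  obtain ⟨I, hIf, B, hIcard, hBv, hW⟩ := exists_functionalsJ (ordQ k (2 * n)) hk yt ξ hyy hyξ hξξ
    hyv N₀ hξv J N₁ A c hA hc hrel (algebraMap (PS k (2 * n)) (QS k (2 * n)) '' L)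
    (by rintro _ ⟨x, _, rfl⟩; exact ordQ_nonneg x) q (C₁ * ((N₀ + 2) * q))
  choose W hWv hW2 using fun j => hW (T' j) (hT' j) (l j) (hl j)
  let BM : Matrix (Fin φ) I (QS k (2 * n)) := Matrix.of fun i p =>
    B p (algebraMap (PS k (2 * n)) (QS k (2 * n)) (f i))
  let WM : Matrix I (Fin φ) (QS k (2 * n)) := Matrix.of fun p j => W j p
  let RM : Matrix (Fin φ) (Fin φ) (QS k (2 * n)) := Matrix.of fun i j =>
    wd (fun i => ξ i) (l j) (algebraMap (PS k (2 * n)) (QS k (2 * n)) (g (v j) (f i) - T j (f i)))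
  have hM : (Matrix.of fun i j => wd (fun i => ξ i) (l j)
      (algebraMap (PS k (2 * n)) (QS k (2 * n)) (g (v j) (f i)))) = BM * WM + RM := by
    ext i j
    rw [Matrix.add_apply, Matrix.mul_apply]
    simp only [BM, WM, RM, Matrix.of_apply]
    have h1 : ∑ p, B p (algebraMap (PS k (2 * n)) (QS k (2 * n)) (f i)) * W j p =
        T' j (wd (fun i => ξ i) (l j) (algebraMap (PS k (2 * n)) (QS k (2 * n)) (f i))) := by
      rw [hW2 j _ ⟨f i, hf i, rfl⟩]
      exact Finset.sum_congr rfl fun p _ => mul_comm _ _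
    rw [h1, op_comm_wd yt ξ hyξ _ (T' j) (hT' j), hT'2, ← wd_sub', ← map_add]
    congr 2
    ring
  rw [hM]
  have hdet := le_ord_det (ordQ k (2 * n)) BM WM RM (2 * q) (C₂ * q) (by positivity)
    (by positivity) ?_ ?_
  · refine le_trans ?_ hdet
    rw [WithTop.coe_le_coe]
    have hI : (2 + C₂) * Fintype.card I ≤ φ := by
      have h1 : Fintype.card I ≤
          jetRank (fun i => ξ i) (algebraMap (PS k (2 * n)) (QS k (2 * n)) '' L)
            ((2 + C₂) * (1 + B₀) ^ (n - e) * (1 + B₀) * q) * ((1 + B₀) ^ (n - e) * q ^ (n - e)) := by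
        refine hIcard.trans (Nat.mul_le_mul (jetRank_mono_right _ _ ?_) ?_)
        · rw [hNq]
          have h2 : 1 ≤ (2 + C₂) * (1 + B₀) ^ (n - e) :=
            Nat.mul_pos (by omega) (Nat.pow_pos (by omega))
          calc q + B₀ * q = 1 * (1 + B₀) * q := by ring
            _ ≤ (2 + C₂) * (1 + B₀) ^ (n - e) * (1 + B₀) * q :=
              Nat.mul_le_mul_right _ (Nat.mul_le_mul_right _ h2)
        · rw [hNq, ← Nat.mul_pow]
          have h2 : B₀ * q + 1 ≤ (1 + B₀) * q := by nlinarith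
          have h3 : 1 ≤ (1 + B₀) * q := Nat.mul_pos (by omega) hq
          exact (Nat.pow_le_pow_left h2 _).trans (Nat.pow_le_pow_right h3 (by omega))
      refine le_trans ?_ hφ
      have h3 := Nat.mul_le_mul_left (2 + C₂) h1
      refine h3.trans ?_
      have h4 : 1 ≤ 1 + B₀ := by omega
      generalize jetRank (fun i => ξ i) (algebraMap (PS k (2 * n)) (QS k (2 * n)) '' L)
            ((2 + C₂) * (1 + B₀) ^ (n - e) * (1 + B₀) * q) = R
      calc (2 + C₂) * (R * ((1 + B₀) ^ (n - e) * q ^ (n - e)))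
          = (2 + C₂) * (1 + B₀) ^ (n - e) * 1 * (R * q ^ (n - e)) := by ring
        _ ≤ (2 + C₂) * (1 + B₀) ^ (n - e) * (1 + B₀) * (R * q ^ (n - e)) :=
          Nat.mul_le_mul_right _ (Nat.mul_le_mul_left _ h4)
    have hI' : (2 + (C₂ : ℤ)) * (Fintype.card I : ℤ) ≤ (φ : ℤ) := by exact_mod_cast hI
    have hq' : (0 : ℤ) ≤ q := Int.natCast_nonneg q
    have h5 := mul_le_mul_of_nonneg_left hI' hq'
    push_cast
    nlinarith
  · intro i p j
    rw [AddValuation.map_mul]
    have h1 := hBv p (algebraMap (PS k (2 * n)) (QS k (2 * n)) (f i)) ⟨f i, hf i, rfl⟩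
    have h2 := hWv j p
    refine le_trans (le_of_eq ?_) (add_le_add h1 h2)
    rw [← WithTop.coe_add]
    congr 1
    rw [hNq, hC₂]
    push_cast
    ring
  · intro i j
    have h1 := hT2 j (f i)
    have h2 := (le_ordQ_iff _ _).2 h1
    have h3 := ord_wd (ordQ k (2 * n)) ξ N₀ hξv (l j)
      (algebraMap (PS k (2 * n)) (QS k (2 * n)) (g (v j) (f i) - T j (f i)))
    have h4 := h2.trans h3
    change (((2 * (q : ℤ)) : ℤ) : WithTop ℤ) ≤ ordQ k (2 * n) (wd (fun i => ξ i) (l j)
      (algebraMap (PS k (2 * n)) (QS k (2 * n)) (g (v j) (f i) - T j (f i))))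
    generalize ordQ k (2 * n) (wd (fun i => ξ i) (l j)
      (algebraMap (PS k (2 * n)) (QS k (2 * n)) (g (v j) (f i) - T j (f i)))) = z at h4
    cases z with
    | top => exact le_top
    | coe z =>
      rw [← WithTop.coe_add, WithTop.coe_le_coe] at h4
      rw [WithTop.coe_le_coe]
      have h5 : N₀ * (l j).length ≤ N₀ * q := Nat.mul_le_mul_left _ (hl j)
      have h6 : ((N₀ * (l j).length : ℕ) : ℤ) ≤ ((N₀ * q : ℕ) : ℤ) := by exact_mod_cast h5
      push_cast at h4 h6
      linarith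

end Pool.Agent.SYZ68J
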