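import Pool.Agent.SYZ68J.LJDefs
import Pool.Agent.SYZ68J.LJLat

/-!
# SYZ68J/LJRed : few functionals, with jets

`y_a`, `ξ_i` commuting derivations of the valued field `Q`; `y_a` does not lower the valuation,
`ξ_i` lowers it by at most `N₀`;
`(rel)  y_a x = ∑_(m ∈ J) A_am y_m x + ∑_i c_ai ξ_i x`  for all `x ∈ Q`, `v (A) ≥ 0`,
`v (c) ≥ -N₁`.  `T` an operator of degree `≤ N` in the `y_a`, `l` a word of length `≤ K`, `L` a set of
elements of valuation `≥ 0`.  Then `T ξ_l` is on `L` a combination of `ρ (N + 1)^|J|` fixed
functionals `B_p` with `v (B_p x) ≥ - N₀ (K + N)`, with coefficients of valuation `≥ - N₁ N`;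
`ρ = jetRank ξ L (K + N)`.

Proof.  Monomials `mon λ = ∏_(m ∈ J) y_m ^ λ_m`, `λ : J → ℕ` (`Pool.Agent.SYZ71.LN.exists_mon`
is stated for `Fin r`; same proof, or transport by an equivalence `ι ≃ Fin r`); they commute with
everything and do not lower the valuation.  NO coefficient is differentiated in step 1.
Step 1.  For a word `u` in the letters `a : ι` of length `n`, for all `x ∈ Q`:
`y_u x = ∑ C_(λ,l') mon λ (ξ_l' x)`, a finite sum over `λ` with `|λ| ≤ n` and words `l'` with
`|l'| ≤ n`, `v (C) ≥ -N₁ n`.  Induction on `n`: for `u = a :: u'` (`y_a` applied first)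
`y_u x = y_u' (y_a x) = ∑ C mon λ (ξ_l' (y_a x)) = ∑ C y_a (mon λ (ξ_l' x))` by commutation, and
(rel) applied to the ELEMENT `mon λ (ξ_l' x)` of `Q`:
`= ∑ C (∑_m A_am mon (λ + m) (ξ_l' x) + ∑_i c_ai mon λ (ξ_(i l') x))`.
An operator `T ∈ opSpan y N` is a `k`-combination of such words of length `≤ N`
(`Submodule.pow_induction_on_left'` or: the span of the words of length `≤ N` contains the power);
`v (k) ≥ 0` (`hk`).
Step 2.  `exists_lattice_basis` for the vectors `ξ_l' | L ∈ (L → Q)`, `|l'| ≤ K + N`: a set `O` of
`ρ` words with `ξ_l' x = ∑_(b ∈ O) κ_b ξ_b x` for all `x ∈ L`, `v (κ_b) ≥ 0`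
(`|O| = finrank` of the span `= jetRank`).
Step 3.  For `x ∈ L`: `mon λ (κ ξ_b x) = ∑_(λ' ≤ λ) (multinomial) (mon (λ - λ') κ) (mon λ' (ξ_b x))`,
`v (mon (λ - λ') κ) ≥ 0`; it is enough to know: `mon λ (κ z) = ∑_(λ' ≤ λ) κ'_(λ') mon λ' z` for all
`z ∈ Q` with `v (κ') ≥ 0` depending on `κ, λ` only; induction on `|λ|` by the Leibniz rule.
Take `I = O × (J → Fin (N + 1))`, `B_(b,λ') x = mon λ' (ξ_b x)`.
-/

set_option autoImplicit false

open Module

namespace Pool.Agent.SYZ68J

namespace LJR

/-- combinations of the functions `B p` with coefficients of valuation `≥ c` -/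
def VS {Q X P : Type*} [Field Q] (v : AddValuation Q (WithTop ℤ)) (c : WithTop ℤ)
    (B : P → X → Q) : AddSubmonoid (X → Q) :=
  AddSubmonoid.closure {G | ∃ (p : P) (a : Q), c ≤ v a ∧ G = fun x => a * B p x}

section VS

variable {Q X P : Type*} [Field Q] {v : AddValuation Q (WithTop ℤ)} {c : WithTop ℤ}
  {B : P → X → Q}

theorem mem_VS (p : P) (a : Q) (h : c ≤ v a) : (fun x => a * B p x) ∈ VS v c B :=
  AddSubmonoid.subset_closure ⟨p, a, h, rfl⟩

theorem VS_mul {G : X → Q} (a : Q) {c' : WithTop ℤ} (ha : c' ≤ v a) (hG : G ∈ VS v c B) :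
    (fun x => a * G x) ∈ VS v (c' + c) B := by
  induction hG using AddSubmonoid.closure_induction with
  | mem G hG =>
    obtain ⟨p, b, hb, rfl⟩ := hG
    have h1 : (fun x => a * (b * B p x)) = fun x => (a * b) * B p x := by
      funext x
      ring
    rw [h1]
    apply mem_VS
    rw [v.map_mul]
    exact add_le_add ha hb
  | zero =>
    have h1 : (fun x => a * (0 : X → Q) x) = 0 := by
      funext x
      simp
    rw [h1]
    exact AddSubmonoid.zero_mem _
  | add G G' _ _ h h' =>
    have h1 : (fun x => a * (G + G') x) = (fun x => a * G x) + fun x => a * G' x := by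
      funext x
      simp [mul_add]
    rw [h1]
    exact AddSubmonoid.add_mem _ h h'

theorem VS_fin [Fintype P] {G : X → Q} (hG : G ∈ VS v c B) :
    ∃ W : P → Q, (∀ p, c ≤ v (W p)) ∧ ∀ x, G x = ∑ p, W p * B p x := by
  classical
  induction hG using AddSubmonoid.closure_induction with
  | mem G hG =>
    obtain ⟨p, b, hb, rfl⟩ := hG
    refine ⟨Pi.single p b, fun q => ?_, fun x => ?_⟩
    · by_cases h : q = p
      · subst h
        simpa using hb
      · rw [Pi.single_eq_of_ne h, v.map_zero]
        exact le_top
    · rw [Finset.sum_eq_single p]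
      · simp
      · intro q _ hq
        rw [Pi.single_eq_of_ne hq, zero_mul]
      · intro h
        exact absurd (Finset.mem_univ _) h
  | zero =>
    refine ⟨0, fun q => ?_, fun x => ?_⟩
    · rw [Pi.zero_apply, v.map_zero]
      exact le_top
    · simp
  | add G G' _ _ h h' =>
    obtain ⟨W, hW, h1⟩ := h
    obtain ⟨W', hW', h1'⟩ := h'
    refine ⟨W + W', fun q => ?_, fun x => ?_⟩
    · exact (le_min (hW q) (hW' q)).trans (v.map_add _ _)
    · simp only [Pi.add_apply, h1, h1', add_mul, Finset.sum_add_distrib]

theorem VS_mono {P' : Type*} {B' : P' → X → Q} {c' : WithTop ℤ} {G : X → Q}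
    (hG : G ∈ VS v c B) (h : ∀ (p : P) (a : Q), c ≤ v a → (fun x => a * B p x) ∈ VS v c' B') :
    G ∈ VS v c' B' := by
  refine (AddSubmonoid.closure_le.2 ?_ : VS v c B ≤ _) hG
  rintro _ ⟨p, a, ha, rfl⟩
  exact h p a ha

end VS

open scoped IsMulCommutative in
/-- monomials in commuting operators -/
theorem exists_mon {k V ι : Type*} [Field k] [AddCommGroup V] [Module k V]
    (T : ι → Module.End k V) (hT : ∀ l m, T l * T m = T m * T l) (J : Finset ι) :
    ∃ mon : (J → ℕ) → Module.End k V, mon 0 = 1 ∧
      (∀ (e : J → ℕ) (X : Module.End k V), (∀ l, T l * X = X * T l) → mon e * X = X * mon e) ∧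
      ∀ (e : J → ℕ) (m : J) [DecidableEq J], mon (e + Pi.single m 1) = T m * mon e := by
  classical
  have hS : IsMulCommutative (Algebra.adjoin k (Set.range T)) := by
    apply Algebra.isMulCommutative_adjoin
    rintro _ ⟨l, rfl⟩ _ ⟨m, rfl⟩
    exact hT l m
  let y : ι → Algebra.adjoin k (Set.range T) := fun l =>
    ⟨T l, Algebra.subset_adjoin ⟨l, rfl⟩⟩
  refine ⟨fun e => ((∏ m : J, y m ^ e m : Algebra.adjoin k (Set.range T)) : Module.End k V),
    ?_, ?_, ?_⟩
  · simp
  · intro e X hX
    have h : ∀ z ∈ Algebra.adjoin k (Set.range T), z * X = X * z := by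
      intro z hz
      induction hz using Algebra.adjoin_induction with
      | mem z hz =>
        obtain ⟨l, rfl⟩ := hz
        exact hX l
      | algebraMap r => exact Algebra.commutes r X
      | add z z' _ _ h h' => rw [add_mul, mul_add, h, h']
      | mul z z' _ _ h h' => rw [mul_assoc, h', ← mul_assoc, h, mul_assoc]
    exact h _ (∏ m : J, y m ^ e m : Algebra.adjoin k (Set.range T)).2
  · intro e m _
    have h : (∏ m' : J, y m' ^ ((e + Pi.single m 1 : J → ℕ) m')) = y m * ∏ m' : J, y m' ^ e m' := by
      simp only [Pi.add_apply, pow_add, Finset.prod_mul_distrib]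
      rw [mul_comm]
      congr 1
      rw [Finset.prod_eq_single m]
      · simp
      · intro b _ hb
        rw [Pi.single_eq_of_ne hb, pow_zero]
      · intro h
        exact absurd (Finset.mem_univ _) h
    exact congrArg Subtype.val h

theorem sum_induction_mon {J : Type*} [Fintype J] [DecidableEq J] (p : (J → ℕ) → Prop)
    (h0 : p 0) (hs : ∀ e m, p e → p (e + Pi.single m 1)) (e : J → ℕ) : p e := by
  have key : ∀ (n : ℕ) (e : J → ℕ), ∑ m, e m = n → p e := by
    intro n
    induction n with
    | zero =>
      intro e he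
      have : e = 0 := by
        funext m
        exact (Finset.sum_eq_zero_iff.1 he) m (Finset.mem_univ _)
      rw [this]
      exact h0
    | succ n ih =>
      intro e he
      obtain ⟨m, hm⟩ : ∃ m, e m ≠ 0 := by
        by_contra hcon
        push Not at hcon
        simp [hcon] at he
      have hsplit : e = (Function.update e m (e m - 1)) + Pi.single m 1 := by
        funext x
        by_cases hx : x = m
        · subst hx; simp; omega
        · simp [Function.update_of_ne hx, Pi.single_eq_of_ne hx]
      have hsum : ∑ x, (Function.update e m (e m - 1)) x = n := by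
        have h1 := congrArg (fun f : J → ℕ => ∑ x, f x) hsplit
        simp only [Pi.add_apply, Finset.sum_add_distrib, Finset.sum_pi_single', he,
          Finset.mem_univ, if_true] at h1
        omega
      rw [hsplit]
      exact hs _ _ (ih _ hsum)
  exact key _ e rfl

/-- the word operators as linear maps -/
def wdL {k Q : Type*} [Field k] [AddCommGroup Q] [Module k Q] {ι : Type*}
    (D : ι → Module.End k Q) : List ι → Module.End k Q
  | [] => 1
  | i :: l => wdL D l * D i

theorem wdL_apply {k Q : Type*} [Field k] [AddCommGroup Q] [Module k Q] {ι : Type*}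
    (D : ι → Module.End k Q) (l : List ι) (x : Q) : wdL D l x = wd (fun i => D i) l x := by
  induction l generalizing x with
  | nil => rfl
  | cons i l ih =>
    change wdL D l (D i x) = wd (fun i => D i) l (D i x)
    exact ih _

theorem wd_append {ι A : Type*} (D : ι → A → A) (l l' : List ι) (x : A) :
    wd D (l ++ l') x = wd D l' (wd D l x) := by
  induction l generalizing x with
  | nil => rfl
  | cons i l ih => exact ih _

theorem wdL_comm {k Q : Type*} [Field k] [AddCommGroup Q] [Module k Q] {ι : Type*}
    (D : ι → Module.End k Q) (X : Module.End k Q) (hX : ∀ i, D i * X = X * D i) (l : List ι) :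
    wdL D l * X = X * wdL D l := by
  induction l with
  | nil => simp [wdL]
  | cons i l ih =>
    change wdL D l * D i * X = X * (wdL D l * D i)
    rw [mul_assoc, hX, ← mul_assoc, ih, mul_assoc]

end LJR

open LJR

theorem exists_functionalsJ {k Q ι : Type*} [Field k] [Field Q] [Algebra k Q] [Fintype ι]
    (v : AddValuation Q (WithTop ℤ)) (hk : ∀ c : k, 0 ≤ v (algebraMap k Q c)) {e : ℕ}
    (y : ι → Derivation k Q Q) (ξ : Fin e → Derivation k Q Q)
    (hyy : ∀ a b x, y a (y b x) = y b (y a x)) (hyξ : ∀ a i x, y a (ξ i x) = ξ i (y a x))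
    (hξξ : ∀ i j x, ξ i (ξ j x) = ξ j (ξ i x)) (hyv : ∀ a x, v x ≤ v (y a x)) (N₀ : ℕ)
    (hξv : ∀ i x, v x ≤ v (ξ i x) + ((N₀ : ℤ) : WithTop ℤ))
    (J : Finset ι) (N₁ : ℕ) (A : ι → J → Q) (c : ι → Fin e → Q) (hA : ∀ a m, 0 ≤ v (A a m))
    (hc : ∀ a i, ((-(N₁ : ℤ) : ℤ) : WithTop ℤ) ≤ v (c a i))
    (hrel : ∀ a x, y a x = ∑ m : J, A a m * y m x + ∑ i, c a i * ξ i x)
    (L : Set Q) (hL : ∀ x ∈ L, 0 ≤ v x) (K N : ℕ) :
    ∃ (I : Type) (_ : Fintype I) (B : I → Q → Q),
      Fintype.card I ≤ jetRank (fun i => ξ i) L (K + N) * (N + 1) ^ J.card ∧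
      (∀ p, ∀ x ∈ L, ((-((N₀ * (K + N) : ℕ) : ℤ) : ℤ) : WithTop ℤ) ≤ v (B p x)) ∧
      ∀ T ∈ opSpan (fun a => ((y a : Q →ₗ[k] Q) : Module.End k Q)) N,
        ∀ l : List (Fin e), l.length ≤ K →
          ∃ W : I → Q, (∀ p, ((-((N₁ * N : ℕ) : ℤ) : ℤ) : WithTop ℤ) ≤ v (W p)) ∧
            ∀ x ∈ L, T (wd (fun i => ξ i) l x) = ∑ p, W p * B p x := by
  classical
  -- operators
  let Y : ι → Module.End k Q := fun a => ((y a : Q →ₗ[k] Q) : Module.End k Q)
  let Ξ : Fin e → Module.End k Q := fun i => ((ξ i : Q →ₗ[k] Q) : Module.End k Q)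
  have hYa : ∀ a x, Y a x = y a x := fun _ _ => rfl
  have hΞa : ∀ i x, Ξ i x = ξ i x := fun _ _ => rfl
  have hYY : ∀ a b, Y a * Y b = Y b * Y a := fun a b => LinearMap.ext fun x => hyy a b x
  have hYΞ : ∀ a i, Y a * Ξ i = Ξ i * Y a := fun a i => LinearMap.ext fun x => hyξ a i x
  have hΞΞ : ∀ i j, Ξ i * Ξ j = Ξ j * Ξ i := fun i j => LinearMap.ext fun x => hξξ i j x
  obtain ⟨mon, mon0, monc, mons⟩ := LJR.exists_mon Y hYY J
  have hwd : ∀ (l : List (Fin e)) (x : Q), wd (fun i => ξ i) l x = wdL Ξ l x := fun l x =>
    (wdL_apply Ξ l x).symm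
  have hmonY : ∀ (lam : J → ℕ) (a : ι) (x : Q), mon lam (Y a x) = Y a (mon lam x) := fun lam a x =>
    congrArg (fun D : Module.End k Q => D x) (monc lam (Y a) fun l => hYY l a)
  have hmonΞ : ∀ (lam : J → ℕ) (i : Fin e) (x : Q), mon lam (Ξ i x) = Ξ i (mon lam x) :=
    fun lam i x => congrArg (fun D : Module.End k Q => D x) (monc lam (Ξ i) fun l => hYΞ l i)
  have hmons : ∀ (lam : J → ℕ) (m : J) (x : Q),
      mon (lam + Pi.single m 1) x = Y m (mon lam x) := fun lam m x =>
    congrArg (fun D : Module.End k Q => D x) (mons lam m)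
  have hwdY : ∀ (l : List (Fin e)) (a : ι) (x : Q), wdL Ξ l (Y a x) = Y a (wdL Ξ l x) :=
    fun l a x => congrArg (fun D : Module.End k Q => D x)
      (wdL_comm Ξ (Y a) (fun i => (hYΞ a i).symm) l)
  have hwdΞ : ∀ (l : List (Fin e)) (i : Fin e) (x : Q), Ξ i (wdL Ξ l x) = wdL Ξ (i :: l) x :=
    fun l i x => (congrArg (fun D : Module.End k Q => D x)
      (wdL_comm Ξ (Ξ i) (fun j => hΞΞ j i) l)).symm
  -- valuations of monomials and words
  have hmonv : ∀ (lam : J → ℕ) (x : Q), v x ≤ v (mon lam x) := by
    intro lam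
    refine sum_induction_mon (fun lam => ∀ x : Q, v x ≤ v (mon lam x)) ?_ ?_ lam
    · intro x
      rw [mon0]
      exact le_refl _
    · intro lam m h x
      rw [hmons]
      exact (h x).trans (hyv _ _)
  have hwdv : ∀ (l : List (Fin e)) (x : Q),
      v x ≤ v (wdL Ξ l x) + (((N₀ * l.length : ℕ) : ℤ) : WithTop ℤ) := by
    intro l
    induction l with
    | nil =>
      intro x
      change v x ≤ v x + _
      simp
    | cons i l ih =>
      intro x
      have h1 := (hξv i x).trans (add_le_add_left (ih (ξ i x)) _)
      refine h1.trans (le_of_eq ?_)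
      change v (wdL Ξ l (ξ i x)) + _ + _ = v (wdL Ξ l (ξ i x)) + _
      rw [add_assoc, List.length_cons, ← WithTop.coe_add]
      congr 2
  -- step 1
  let Λ : ℕ → Type _ := fun n =>
    {q : (J → ℕ) × List (Fin e) // (∀ m, q.1 m ≤ n) ∧ q.2.length ≤ n}
  let F : ∀ n, Λ n → Q → Q := fun n q x => mon q.1.1 (wdL Ξ q.1.2 x)
  let cst : ℕ → WithTop ℤ := fun n => ((-((N₁ * n : ℕ) : ℤ) : ℤ) : WithTop ℤ)
  have hcst1 : ∀ n, cst (n + 1) ≤ cst n := by
    intro n
    change ((_ : ℤ) : WithTop ℤ) ≤ ((_ : ℤ) : WithTop ℤ)
    rw [WithTop.coe_le_coe]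
    push_cast
    nlinarith [Nat.zero_le N₁]
  have hcst2 : ∀ n, cst n + ((-(N₁ : ℤ) : ℤ) : WithTop ℤ) = cst (n + 1) := by
    intro n
    change ((_ : ℤ) : WithTop ℤ) + _ = ((_ : ℤ) : WithTop ℤ)
    rw [← WithTop.coe_add]
    congr 1
    push_cast
    ring
  have step1 : ∀ n, ∀ T ∈ opSpan Y n, (fun x => T x) ∈ VS v (cst n) (F n) := by
    intro n
    induction n with
    | zero =>
      intro T hT
      rw [opSpan, pow_zero, Submodule.mem_one] at hT
      obtain ⟨r, rfl⟩ := hT
      have h1 : (fun x => (algebraMap k (Module.End k Q) r) x) =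
          fun x => algebraMap k Q r * F 0 ⟨(0, []), by simp, by simp⟩ x := by
        funext x
        change r • x = algebraMap k Q r * mon 0 (wdL Ξ [] x)
        rw [mon0, Algebra.smul_def]
        rfl
      rw [h1]
      apply mem_VS
      have : cst 0 = 0 := by
        change ((_ : ℤ) : WithTop ℤ) = 0
        simp
      rw [this]
      exact hk r
    | succ n ih =>
      intro T hT
      rw [opSpan, pow_succ] at hT
      have key : ∀ G ∈ VS v (cst n) (F n), ∀ b ∈ Submodule.span k (insert 1 (Set.range Y)),
          (fun x => G (b x)) ∈ VS v (cst (n + 1)) (F (n + 1)) := by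
        intro G hG
        induction hG using AddSubmonoid.closure_induction with
        | mem G hG =>
          obtain ⟨⟨⟨lam, l'⟩, hlam, hl'⟩, a, ha, rfl⟩ := hG
          intro b hb
          change (fun x => a * mon lam (wdL Ξ l' (b x))) ∈ _
          have hlam : ∀ m, lam m ≤ n := hlam
          have hl' : l'.length ≤ n := hl'
          induction hb using Submodule.span_induction with
          | mem b hb =>
            rcases hb with rfl | ⟨i, rfl⟩
            · exact mem_VS (B := F (n + 1)) ⟨(lam, l'), fun m => (hlam m).trans (Nat.le_succ _),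
                hl'.trans (Nat.le_succ _)⟩ a ((hcst1 n).trans ha)
            · have h1 : (fun x => a * mon lam (wdL Ξ l' (Y i x))) =
                  (∑ m : J, fun x => (a * A i m) * F (n + 1) ⟨(lam + Pi.single m 1, l'), by
                    refine ⟨fun m' => ?_, hl'.trans (Nat.le_succ _)⟩
                    change lam m' + (Pi.single m 1 : J → ℕ) m' ≤ n + 1
                    refine add_le_add (hlam m') ?_
                    by_cases h : m' = m
                    · subst h; simp
                    · rw [Pi.single_eq_of_ne h]; exact Nat.zero_le _⟩ x) +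
                  ∑ j, fun x => (a * c i j) * F (n + 1) ⟨(lam, j :: l'), by
                    exact ⟨fun m => (hlam m).trans (Nat.le_succ _), by
                      change (j :: l').length ≤ n + 1
                      rw [List.length_cons]; omega⟩⟩ x := by
                funext x
                simp only [Pi.add_apply, Finset.sum_apply]
                change a * mon lam (wdL Ξ l' (Y i x)) =
                  ∑ m : J, a * A i m * mon (lam + Pi.single m 1) (wdL Ξ l' x) +
                  ∑ j, a * c i j * mon lam (wdL Ξ (j :: l') x)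
                rw [hwdY, hmonY, hYa, hrel, mul_add, Finset.mul_sum, Finset.mul_sum]
                congr 1
                · refine Finset.sum_congr rfl fun m _ => ?_
                  rw [hmons, hYa, mul_assoc]
                · refine Finset.sum_congr rfl fun j _ => ?_
                  rw [← hwdΞ, hmonΞ, hΞa, mul_assoc]
              rw [h1]
              refine AddSubmonoid.add_mem _ (AddSubmonoid.sum_mem _ fun m _ => ?_)
                (AddSubmonoid.sum_mem _ fun j _ => ?_)
              · apply mem_VS
                rw [v.map_mul]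
                refine (hcst1 n).trans ?_
                have := add_le_add ha (hA i m)
                rwa [add_zero] at this
              · apply mem_VS
                rw [v.map_mul, ← hcst2]
                exact add_le_add ha (hc i j)
          | zero =>
            have h1 : (fun x => a * mon lam (wdL Ξ l' ((0 : Module.End k Q) x))) = 0 := by
              funext x
              simp
            rw [h1]
            exact AddSubmonoid.zero_mem _
          | add b b' _ _ h h' =>
            have h1 : (fun x => a * mon lam (wdL Ξ l' ((b + b') x))) =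
                (fun x => a * mon lam (wdL Ξ l' (b x))) +
                  fun x => a * mon lam (wdL Ξ l' (b' x)) := by
              funext x
              simp [mul_add]
            rw [h1]
            exact AddSubmonoid.add_mem _ h h'
          | smul r b _ h =>
            have h1 : (fun x => a * mon lam (wdL Ξ l' ((r • b) x))) =
                fun x => algebraMap k Q r * (fun x => a * mon lam (wdL Ξ l' (b x))) x := by
              funext x
              rw [LinearMap.smul_apply, map_smul, map_smul, Algebra.smul_def]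
              ring
            rw [h1]
            have := VS_mul (algebraMap k Q r) (hk r) h
            rwa [zero_add] at this
        | zero =>
          intro b _
          exact AddSubmonoid.zero_mem _
        | add G G' _ _ h h' =>
          intro b hb
          exact AddSubmonoid.add_mem _ (h b hb) (h' b hb)
      induction hT using Submodule.mul_induction_on' with
      | mem_mul_mem m hm b hb => exact key _ (ih m hm) b hb
      | add T _ T' _ h h' => exact AddSubmonoid.add_mem _ h h'
  -- step 2
  have hfin : Finite {l : List (Fin e) // l.length ≤ K + N} :=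
    (List.finite_length_le (Fin e) (K + N)).to_subtype
  obtain ⟨O, hOli, hO⟩ := exists_lattice_basis v
    (fun (l : {l : List (Fin e) // l.length ≤ K + N}) => fun x : L =>
      wd (fun i => ξ i) (l : List (Fin e)) (x : Q))
  have hOcard : O.card = jetRank (fun i => ξ i) L (K + N) := by
    rw [jetRank]
    have h1 : Submodule.span Q (Set.range
        (fun (l : {l : List (Fin e) // l.length ≤ K + N}) => fun x : L =>
          wd (fun i => ξ i) (l : List (Fin e)) (x : Q))) =
        Submodule.span Q (Set.range fun m : O => fun x : L =>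
          wd (fun i => ξ i) ((m : {l : List (Fin e) // l.length ≤ K + N}) : List (Fin e))
            (x : Q)) := by
      apply le_antisymm
      · rw [Submodule.span_le]
        rintro _ ⟨l, rfl⟩
        obtain ⟨κ, _, h⟩ := hO l
        change (fun x : L => wd (fun i => ξ i) (l : List (Fin e)) (x : Q)) ∈ Submodule.span Q _
        rw [h]
        exact Submodule.sum_mem _ fun m _ => Submodule.smul_mem _ _
          (Submodule.subset_span ⟨m, rfl⟩)
      · apply Submodule.span_mono
        rintro _ ⟨m, rfl⟩
        exact ⟨m, rfl⟩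
    rw [h1, finrank_span_eq_card hOli, Fintype.card_coe]
  -- step 3
  let P := O × (J → Fin (N + 1))
  let B' : P → L → Q := fun p x =>
    mon (fun m => (p.2 m : ℕ)) (wdL Ξ (p.1 : {l : List (Fin e) // l.length ≤ K + N}) x)
  have leib : ∀ (lam : J → ℕ) (κ : Q) (g : L → Q), 0 ≤ v κ →
      (fun x => mon lam (κ * g x)) ∈
        VS v 0 (fun (q : {q : J → ℕ // ∀ m, q m ≤ lam m}) (x : L) => mon q.1 (g x)) := by
    intro lam
    refine sum_induction_mon (fun lam => ∀ (κ : Q) (g : L → Q), 0 ≤ v κ →
      (fun x => mon lam (κ * g x)) ∈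
        VS v 0 (fun (q : {q : J → ℕ // ∀ m, q m ≤ lam m}) (x : L) => mon q.1 (g x))) ?_ ?_ lam
    · intro κ g hκ
      have h1 : (fun x => mon 0 (κ * g x)) = fun x => κ * mon 0 (g x) := by
        funext x
        rw [mon0]
        rfl
      rw [h1]
      exact mem_VS (B := fun (q : {q : J → ℕ // ∀ m, q m ≤ (0 : J → ℕ) m}) (x : L) =>
        mon q.1 (g x)) ⟨0, fun m => le_refl _⟩ κ hκ
    · intro lam m h κ g hκ
      have h2 := h κ g hκ
      have h3 : ∀ G ∈ VS v 0 (fun (q : {q : J → ℕ // ∀ m, q m ≤ lam m}) (x : L) => mon q.1 (g x)),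
          (fun x => Y m (G x)) ∈ VS v 0 (fun (q : {q : J → ℕ // ∀ m', q m' ≤
            (lam + Pi.single m 1 : J → ℕ) m'}) (x : L) => mon q.1 (g x)) := by
        intro G hG
        induction hG using AddSubmonoid.closure_induction with
        | mem G hG =>
          obtain ⟨⟨q, hq⟩, a, ha, rfl⟩ := hG
          have h4 : (fun x => Y m (a * mon q (g x))) =
              (fun x => a * mon (q + Pi.single m 1) (g x)) +
                fun x => (y m a) * mon q (g x) := by
            funext x
            rw [hYa, Derivation.leibniz, Pi.add_apply, hmons, hYa, smul_eq_mul, smul_eq_mul]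
            ring
          change (fun x => Y m (a * mon q (g x))) ∈ _
          rw [h4]
          refine AddSubmonoid.add_mem _ ?_ ?_
          · exact mem_VS (B := fun (q : {q : J → ℕ // ∀ m', q m' ≤
              (lam + Pi.single m 1 : J → ℕ) m'}) (x : L) => mon q.1 (g x))
              ⟨q + Pi.single m 1, fun m' => add_le_add (hq m') (le_refl _)⟩ a ha
          · exact mem_VS (B := fun (q : {q : J → ℕ // ∀ m', q m' ≤
              (lam + Pi.single m 1 : J → ℕ) m'}) (x : L) => mon q.1 (g x))
              ⟨q, fun m' => (hq m').trans (Nat.le_add_right _ _)⟩ (y m a) (ha.trans (hyv _ _))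
        | zero =>
          have h4 : (fun x : L => Y m ((0 : L → Q) x)) = 0 := by
            funext x
            simp
          rw [h4]
          exact AddSubmonoid.zero_mem _
        | add G G' _ _ h h' =>
          have h4 : (fun x : L => Y m ((G + G') x)) =
              (fun x => Y m (G x)) + fun x => Y m (G' x) := by
            funext x
            simp
          rw [h4]
          exact AddSubmonoid.add_mem _ h h'
      have h4 : (fun x => mon (lam + Pi.single m 1) (κ * g x)) =
          fun x => Y m ((fun x => mon lam (κ * g x)) x) := by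
        funext x
        exact hmons _ _ _
      rw [h4]
      exact h3 _ h2
  have main : ∀ T ∈ opSpan Y N, ∀ l : List (Fin e), l.length ≤ K →
      (fun x : L => T (wdL Ξ l x)) ∈ VS v (cst N) B' := by
    intro T hT l hl
    have h1 : ∀ G ∈ VS v (cst N) (F N), (fun x : L => G (wdL Ξ l x)) ∈ VS v (cst N) B' := by
      intro G hG
      induction hG using AddSubmonoid.closure_induction with
      | mem G hG =>
        obtain ⟨⟨⟨lam, l'⟩, hlam, hl'⟩, a, ha, rfl⟩ := hG
        have hlam : ∀ m, lam m ≤ N := hlam
        have hl' : l'.length ≤ N := hl'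
        change (fun x : L => a * mon lam (wdL Ξ l' (wdL Ξ l x))) ∈ _
        have hlen : (l ++ l').length ≤ K + N := by
          rw [List.length_append]
          omega
        obtain ⟨κ, hκ, h2⟩ := hO ⟨l ++ l', hlen⟩
        have h3 : (fun x : L => mon lam (wdL Ξ l' (wdL Ξ l x))) =
            ∑ b : O, fun x : L => mon lam (κ b *
              wdL Ξ ((b : {l : List (Fin e) // l.length ≤ K + N}) : List (Fin e)) x) := by
          funext x
          rw [Finset.sum_apply, ← map_sum]
          congr 1
          have h4 := congrFun h2 x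
          simp only [Finset.sum_apply, Pi.smul_apply, smul_eq_mul, hwd] at h4
          rw [← h4, ← hwd (l ++ l'), wd_append, hwd, hwd]
        have h5 : (fun x : L => mon lam (wdL Ξ l' (wdL Ξ l x))) ∈ VS v 0 B' := by
          rw [h3]
          refine AddSubmonoid.sum_mem _ fun b _ => ?_
          refine VS_mono (leib lam (κ b) (fun x : L => wdL Ξ
            ((b : {l : List (Fin e) // l.length ≤ K + N}) : List (Fin e)) x) (hκ b)) ?_
          rintro ⟨q, hq⟩ a' ha'
          exact mem_VS (B := B') (b, fun m => ⟨q m, by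
            have := (hq m).trans (hlam m)
            omega⟩) a' ha'
        have h6 := VS_mul a ha h5
        rwa [add_zero] at h6
      | zero => exact AddSubmonoid.zero_mem _
      | add G G' _ _ h h' => exact AddSubmonoid.add_mem _ h h'
    exact h1 _ (step1 N T hT)
  -- conclusion
  let eq := Fintype.equivFin P
  refine ⟨Fin (Fintype.card P), inferInstance, fun p x =>
    mon (fun m => ((eq.symm p).2 m : ℕ))
      (wdL Ξ ((eq.symm p).1 : {l : List (Fin e) // l.length ≤ K + N}) x), ?_, ?_, ?_⟩
  · rw [Fintype.card_fin]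
    change Fintype.card (O × (J → Fin (N + 1))) ≤ _
    rw [Fintype.card_prod, Fintype.card_coe, hOcard, Fintype.card_fun, Fintype.card_fin,
      Fintype.card_coe]
  · intro p x hx
    refine le_trans ?_ (hmonv _ _)
    have h1 := hwdv ((eq.symm p).1 : {l : List (Fin e) // l.length ≤ K + N}).1 x
    have h2 := (hL x hx).trans h1
    have h3 := (eq.symm p).1.1.2
    generalize v (wdL Ξ ((eq.symm p).1 : {l : List (Fin e) // l.length ≤ K + N}).1 x) = w at h2 ⊢
    induction w using WithTop.recTopCoe with
    | top => exact le_top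
    | coe w =>
      rw [← WithTop.coe_add, ← WithTop.coe_zero, WithTop.coe_le_coe] at h2
      rw [WithTop.coe_le_coe]
      have h4 : N₀ * ((eq.symm p).1 : {l : List (Fin e) // l.length ≤ K + N}).1.length ≤
          N₀ * (K + N) := Nat.mul_le_mul_left _ h3
      have h5 : ((N₀ * ((eq.symm p).1 : {l : List (Fin e) // l.length ≤ K + N}).1.length : ℕ) : ℤ) ≤
          ((N₀ * (K + N) : ℕ) : ℤ) := by exact_mod_cast h4
      linarith
  · intro T hT l hl
    obtain ⟨W, hW, h⟩ := VS_fin (main T hT l hl)
    refine ⟨fun p => W (eq.symm p), fun p => hW _, fun x hx => ?_⟩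
    rw [hwd, show T (wdL Ξ l x) = _ from h ⟨x, hx⟩]
    exact (Equiv.sum_comp eq.symm (fun p : P => W p * B' p ⟨x, hx⟩)).symm

end Pool.Agent.SYZ68J
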