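import Pool.Agent.SYZ71.CInt
import Pool.Agent.SYZ71.LB

/-!
# SYZ68J/LJVal : the order valuation on the fraction field of `k[[z_1..z_d]]`

`QS k d = Frac k[[z_1..z_d]]`, `ordQ` the additive valuation with `ordQ (a / b) = ord a - ord b`.

Proofs.
* `exists_ordQ`: `v x = ord a - ord b` for `x = a / b` (`a ≠ 0`), `v 0 = ⊤`; well defined by
  `MvPowerSeries.order_mul`; `AddValuation.of`.  (Or: `AddValuation.valuation`,
  `Valuation.extendToLocalization` for the valuation of `P` given by the order.)
* `extD`: the extension of a derivation of `P` to `Q`: `D (a / b) = (b D a - a D b) / b²`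
  (well defined since `Q` is a localization; or look in Mathlib for derivations on localizations:
  `Derivation` + `IsLocalization`, or the bijection `Algebra.FormallyEtale`/`KaehlerDifferential`).
* `derQ_ext`: `D x * b = D (x b) - x D b`.
* `ordQ_le_der`: `D (a / b) = (D a) / b - (a / b) (D b) / b`.
* `order_le_der` : `D a = ∑ D (X i) ∂_i a` (`Pool.Agent.SYZ71.derivation_eq`), and
  `order a ≤ order (∂_i a) + 1`.
-/

set_option autoImplicit false

open MvPowerSeries Module

namespace Pool.Agent.SYZ68J

open Pool.Agent.SYZ71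

/-- the fraction field of the power series ring -/
abbrev QS (k : Type*) [Field k] (d : ℕ) : Type _ := FractionRing (PS k d)

theorem exists_ordQ (k : Type*) [Field k] (d : ℕ) :
    ∃ v : AddValuation (QS k d) (WithTop ℤ), ∀ a : PS k d,
      v (algebraMap (PS k d) (QS k d) a) = WithTop.map (fun n : ℕ => (n : ℤ)) (a.order) := by
  classical
  let v0 : AddValuation (PS k d) (WithTop ℤ) :=
    AddValuation.of (fun a => WithTop.map (fun n : ℕ => (n : ℤ)) a.order)
      (by
        change WithTop.map (fun n : ℕ => (n : ℤ)) (order (0 : PS k d)) = ⊤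
        rw [order_zero]; rfl)
      (by
        change WithTop.map (fun n : ℕ => (n : ℤ)) (order (1 : PS k d)) = 0
        have h1 : order (1 : PS k d) = 0 := by
          have := order_monomial_of_ne_zero (σ := Fin d) (d := 0) (one_ne_zero (α := k))
          rw [show (1 : PS k d) = monomial 0 1 from rfl, this]
          simp
        rw [h1]; rfl)
      (by
        intro x y
        have hm : Monotone (WithTop.map (fun n : ℕ => (n : ℤ))) :=
          Monotone.withTop_map (fun a b h => by exact_mod_cast h)
        exact (le_of_eq (hm.map_min (a := x.order) (b := y.order)).symm).trans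
          (hm min_order_le_add))
      (by
        intro x y
        change WithTop.map (fun n : ℕ => (n : ℤ)) (x * y).order = _
        rw [order_mul]
        exact WithTop.map_add (Nat.castAddMonoidHom ℤ) _ _)
  have hv0 : ∀ a, v0 a = WithTop.map (fun n : ℕ => (n : ℤ)) a.order := fun a => rfl
  have hS : nonZeroDivisors (PS k d) ≤ (AddValuation.toValuation v0).supp.primeCompl := by
    intro a ha
    have ha0 : a ≠ 0 := nonZeroDivisors.ne_zero ha
    intro h
    have h1 : (AddValuation.toValuation v0) a = 0 := (Valuation.mem_supp_iff _ _).1 h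
    have h2 : v0 a = ⊤ := h1
    rw [hv0] at h2
    apply ha0
    rw [← order_eq_top_iff]
    cases h3 : a.order with
    | top => rfl
    | coe n =>
      rw [h3] at h2
      exact absurd h2 (WithTop.coe_ne_top)
  refine ⟨AddValuation.ofValuation
    ((AddValuation.toValuation v0).extendToLocalization hS (QS k d)), fun a => ?_⟩
  rw [← hv0]
  exact Valuation.extendToLocalization_apply_map_apply (AddValuation.toValuation v0) hS (QS k d) a


/-- the order valuation -/
noncomputable def ordQ (k : Type*) [Field k] (d : ℕ) : AddValuation (QS k d) (WithTop ℤ) :=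
  (exists_ordQ k d).choose

variable {k : Type*} [Field k] {d : ℕ}

theorem ordQ_algebraMap (a : PS k d) :
    ordQ k d (algebraMap (PS k d) (QS k d) a) = WithTop.map (fun n : ℕ => (n : ℤ)) (a.order) :=
  (exists_ordQ k d).choose_spec a

theorem le_ordQ_iff (a : PS k d) (N : ℕ) :
    (((N : ℤ) : WithTop ℤ) ≤ ordQ k d (algebraMap (PS k d) (QS k d) a)) ↔
      (N : ℕ∞) ≤ a.order := by
  rw [ordQ_algebraMap]
  cases h : a.order with
  | top =>
    exact ⟨fun _ => le_top, fun _ => le_top⟩
  | coe n =>
    change ((N : ℤ) : WithTop ℤ) ≤ ((n : ℤ) : WithTop ℤ) ↔ (N : ℕ∞) ≤ (n : ℕ∞)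
    rw [WithTop.coe_le_coe, Nat.cast_le, Nat.cast_le]

theorem ordQ_nonneg (a : PS k d) : 0 ≤ ordQ k d (algebraMap (PS k d) (QS k d) a) := by
  have := (le_ordQ_iff a 0).2 (by simp)
  simpa using this

theorem ordQ_eq_top_iff (x : QS k d) : ordQ k d x = ⊤ ↔ x = 0 :=
  AddValuation.top_iff _

private theorem exists_frac (x : QS k d) : ∃ a b : PS k d, b ≠ 0 ∧
    x * algebraMap (PS k d) (QS k d) b = algebraMap (PS k d) (QS k d) a := by
  obtain ⟨a, b, rfl⟩ := IsLocalization.exists_mk'_eq (nonZeroDivisors (PS k d)) x
  exact ⟨a, b, nonZeroDivisors.ne_zero b.2, IsLocalization.mk'_spec _ _ _⟩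

private theorem map_ne_zero' {b : PS k d} (hb : b ≠ 0) :
    algebraMap (PS k d) (QS k d) b ≠ 0 := by
  intro h
  exact hb (IsFractionRing.injective (PS k d) (QS k d) (by rw [h, map_zero]))

private theorem ordQ_ne_top {b : PS k d} (hb : b ≠ 0) :
    ordQ k d (algebraMap (PS k d) (QS k d) b) ≠ ⊤ := by
  rw [Ne, ordQ_eq_top_iff]
  exact map_ne_zero' hb

theorem ordQ_ext (g : PS k d ≃ₐ[k] PS k d) (x : QS k d) :
    ordQ k d (CI.ext g x) = ordQ k d x := by
  obtain ⟨a, b, hb, h⟩ := exists_frac x
  have h1 := congrArg (ordQ k d) h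
  have h2 := congrArg (fun y => ordQ k d (CI.ext g y)) h
  simp only [map_mul, CI.ext_algebraMap] at h2
  rw [AddValuation.map_mul] at h1 h2
  have ha : ordQ k d (algebraMap (PS k d) (QS k d) (g a)) =
      ordQ k d (algebraMap (PS k d) (QS k d) a) := by
    rw [ordQ_algebraMap, ordQ_algebraMap, order_algEquiv]
  have hb' : ordQ k d (algebraMap (PS k d) (QS k d) (g b)) =
      ordQ k d (algebraMap (PS k d) (QS k d) b) := by
    rw [ordQ_algebraMap, ordQ_algebraMap, order_algEquiv]
  rw [ha, hb', ← h1] at h2
  exact (WithTop.add_right_inj (ordQ_ne_top hb)).1 h2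

theorem exists_extD (D : Derivation k (PS k d) (PS k d)) :
    ∃ D' : Derivation k (QS k d) (QS k d), ∀ a : PS k d,
      D' (algebraMap (PS k d) (QS k d) a) = algebraMap (PS k d) (QS k d) (D a) := by
  let f : PS k d →+* TrivSqZeroExt (QS k d) (QS k d) :=
    { toFun := fun a => (algebraMap (PS k d) (QS k d) a, algebraMap (PS k d) (QS k d) (D a))
      map_one' := by
        refine TrivSqZeroExt.ext ?_ ?_
        · change algebraMap (PS k d) (QS k d) 1 = 1
          exact map_one _
        · change algebraMap (PS k d) (QS k d) (D 1) = 0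
          rw [Derivation.map_one_eq_zero, map_zero]
      map_zero' := by
        refine TrivSqZeroExt.ext ?_ ?_
        · change algebraMap (PS k d) (QS k d) 0 = 0
          exact map_zero _
        · change algebraMap (PS k d) (QS k d) (D 0) = 0
          rw [map_zero, map_zero]
      map_add' := by
        intro a b
        refine TrivSqZeroExt.ext ?_ ?_
        · change algebraMap (PS k d) (QS k d) (a + b) = algebraMap (PS k d) (QS k d) a +
            algebraMap (PS k d) (QS k d) b
          exact map_add _ _ _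
        · change algebraMap (PS k d) (QS k d) (D (a + b)) = algebraMap (PS k d) (QS k d) (D a) +
            algebraMap (PS k d) (QS k d) (D b)
          rw [map_add, map_add]
      map_mul' := by
        intro a b
        refine TrivSqZeroExt.ext ?_ ?_
        · change algebraMap (PS k d) (QS k d) (a * b) = algebraMap (PS k d) (QS k d) a *
            algebraMap (PS k d) (QS k d) b
          exact map_mul _ _ _
        · change algebraMap (PS k d) (QS k d) (D (a * b)) =
            algebraMap (PS k d) (QS k d) a • algebraMap (PS k d) (QS k d) (D b) +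
            MulOpposite.op (algebraMap (PS k d) (QS k d) b) • algebraMap (PS k d) (QS k d) (D a)
          rw [Derivation.leibniz, op_smul_eq_smul, smul_eq_mul, smul_eq_mul, smul_eq_mul,
            smul_eq_mul, map_add, map_mul, map_mul] }
  have hf1 : ∀ a, (f a).fst = algebraMap (PS k d) (QS k d) a := fun a => rfl
  have hf2 : ∀ a, (f a).snd = algebraMap (PS k d) (QS k d) (D a) := fun a => rfl
  have hu : ∀ y : nonZeroDivisors (PS k d), IsUnit (f y) := by
    intro y
    rw [TrivSqZeroExt.isUnit_iff_isUnit_fst, hf1]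
    exact (map_ne_zero' (nonZeroDivisors.ne_zero y.2)).isUnit
  let F : QS k d →+* TrivSqZeroExt (QS k d) (QS k d) := IsLocalization.lift hu
  have hF : ∀ a, F (algebraMap (PS k d) (QS k d) a) = f a := fun a => IsLocalization.lift_eq hu a
  have hfst : ∀ x, (F x).fst = x := by
    intro x
    obtain ⟨a, b, hb, h⟩ := exists_frac x
    have h1 := congrArg (fun y => (F y).fst) h
    simp only [map_mul, TrivSqZeroExt.fst_mul, hF, hf1] at h1
    rw [← h] at h1
    exact mul_right_cancel₀ (map_ne_zero' hb) h1
  refine ⟨Derivation.mk' (R := k)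
    { toFun := fun x => (F x).snd
      map_add' := fun x y => by rw [map_add, TrivSqZeroExt.snd_add]
      map_smul' := fun c x => by
        have h1 : c • x = algebraMap (PS k d) (QS k d) (algebraMap k (PS k d) c) * x := by
          rw [← IsScalarTower.algebraMap_apply, Algebra.smul_def]
        rw [h1, map_mul, TrivSqZeroExt.snd_mul, hF, hf1, hf2, Derivation.map_algebraMap, map_zero,
          smul_zero, add_zero, RingHom.id_apply, smul_eq_mul, ← IsScalarTower.algebraMap_apply,
          ← Algebra.smul_def] } (fun x y => ?_), fun a => ?_⟩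
  · change (F (x * y)).snd = x • (F y).snd + y • (F x).snd
    rw [map_mul, TrivSqZeroExt.snd_mul, hfst, hfst, op_smul_eq_smul]
  · change (F (algebraMap (PS k d) (QS k d) a)).snd = _
    rw [hF, hf2]

/-- the extension of a derivation to the fraction field -/
noncomputable def extD (D : Derivation k (PS k d) (PS k d)) : Derivation k (QS k d) (QS k d) :=
  (exists_extD D).choose

theorem extD_algebraMap (D : Derivation k (PS k d) (PS k d)) (a : PS k d) :
    extD D (algebraMap (PS k d) (QS k d) a) = algebraMap (PS k d) (QS k d) (D a) :=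
  (exists_extD D).choose_spec a

theorem derQ_ext (D D' : Derivation k (QS k d) (QS k d))
    (h : ∀ a : PS k d, D (algebraMap (PS k d) (QS k d) a) =
      D' (algebraMap (PS k d) (QS k d) a)) : D = D' := by
  ext1 x
  obtain ⟨a, b, hb, hx⟩ := exists_frac x
  have h1 := congrArg D hx
  have h2 := congrArg D' hx
  rw [Derivation.leibniz, smul_eq_mul, smul_eq_mul] at h1 h2
  rw [h a, ← h2, h b] at h1
  exact mul_left_cancel₀ (map_ne_zero' hb) (add_left_cancel h1)

/-- a bound on power series extends to the fraction field -/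
theorem ordQ_le_der (D : Derivation k (QS k d) (QS k d)) (c : ℤ)
    (h : ∀ a : PS k d, ordQ k d (algebraMap (PS k d) (QS k d) a) + (c : WithTop ℤ) ≤
      ordQ k d (D (algebraMap (PS k d) (QS k d) a))) (x : QS k d) :
    ordQ k d x + (c : WithTop ℤ) ≤ ordQ k d (D x) := by
  obtain ⟨a, b, hb, hx⟩ := exists_frac x
  have h1 := congrArg D hx
  rw [Derivation.leibniz, smul_eq_mul, smul_eq_mul] at h1
  have h2 : algebraMap (PS k d) (QS k d) b * D x =
      D (algebraMap (PS k d) (QS k d) a) - x * D (algebraMap (PS k d) (QS k d) b) := by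
    rw [← h1]; ring
  have h3 := congrArg (ordQ k d) h2
  rw [AddValuation.map_mul] at h3
  have h4 := AddValuation.map_sub (ordQ k d) (D (algebraMap (PS k d) (QS k d) a))
    (x * D (algebraMap (PS k d) (QS k d) b))
  rw [← h3] at h4
  have h5 := congrArg (ordQ k d) hx
  rw [AddValuation.map_mul] at h5
  have h6 : ordQ k d x + (c : WithTop ℤ) + ordQ k d (algebraMap (PS k d) (QS k d) b) ≤
      ordQ k d (D x) + ordQ k d (algebraMap (PS k d) (QS k d) b) := by
    rw [add_comm (ordQ k d (D x))]
    refine le_trans (le_min ?_ ?_) h4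
    · refine le_trans (le_of_eq ?_) (h a)
      rw [← h5]
      abel
    · rw [AddValuation.map_mul]
      refine le_trans (le_of_eq ?_) (add_le_add le_rfl (h b))
      abel
  exact (WithTop.add_le_add_iff_right (ordQ_ne_top hb)).1 h6

/-- a derivation whose values on the coordinates have no constant term does not lower the order -/
theorem order_le_der (D : Derivation k (PS k d) (PS k d))
    (hD : ∀ i, constantCoeff (D (X i)) = 0) (a : PS k d) : a.order ≤ (D a).order :=
  order_derivation_ge D hD a

theorem ordQ_le_extD (D : Derivation k (PS k d) (PS k d))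
    (hD : ∀ i, constantCoeff (D (X i)) = 0) (x : QS k d) :
    ordQ k d x ≤ ordQ k d (extD D x) := by
  have h := ordQ_le_der (extD D) 0 (fun a => by
    rw [extD_algebraMap, ordQ_algebraMap, ordQ_algebraMap]
    have hm : Monotone (WithTop.map (fun n : ℕ => (n : ℤ))) :=
      Monotone.withTop_map (fun a b h => by exact_mod_cast h)
    have h2 := hm (order_le_der D hD a)
    simpa using h2) x
  simpa using h

/-- a derivation of `Q` which is regular up to a denominator lowers orders by a bounded amount -/
theorem exists_pole (ξ : Derivation k (QS k d) (QS k d)) (b : PS k d) (hb : b ≠ 0)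
    (Z : Derivation k (PS k d) (PS k d)) (hZ : ∀ a : PS k d,
      algebraMap (PS k d) (QS k d) (Z a) =
        algebraMap (PS k d) (QS k d) b * ξ (algebraMap (PS k d) (QS k d) a)) :
    ∃ N : ℕ, ∀ x : QS k d, ordQ k d x ≤ ordQ k d (ξ x) + ((N : ℤ) : WithTop ℤ) := by
  have hZ1 : ∀ a : PS k d, a.order ≤ (Z a).order + 1 := by
    intro a
    rcases Nat.eq_zero_or_pos d with hd | hd
    · subst hd
      have h0 : Z a = 0 := by
        rw [derivation_eq Z a]
        simp
      rw [h0, order_zero]
      simp
    · have h1 := order_le_der ((X ⟨0, hd⟩ : PS k d) • Z) (fun i => by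
        rw [Derivation.smul_apply, smul_eq_mul, map_mul, constantCoeff_X, zero_mul]) a
      rw [Derivation.smul_apply, smul_eq_mul, order_mul] at h1
      have h2 : (X ⟨0, hd⟩ : PS k d).order = 1 := by
        have := order_monomial_of_ne_zero (σ := Fin d) (d := Finsupp.single ⟨0, hd⟩ 1)
          (one_ne_zero (α := k))
        rw [X, this]
        simp
      rw [h2, add_comm] at h1
      exact h1
  have hm : Monotone (WithTop.map (fun n : ℕ => (n : ℤ))) :=
    Monotone.withTop_map (fun a b h => by exact_mod_cast h)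
  have hZ2 : ∀ a : PS k d, ordQ k d (algebraMap (PS k d) (QS k d) a) ≤
      ordQ k d (algebraMap (PS k d) (QS k d) (Z a)) + ((1 : ℤ) : WithTop ℤ) := by
    intro a
    rw [ordQ_algebraMap, ordQ_algebraMap]
    refine (hm (hZ1 a)).trans (le_of_eq ?_)
    exact WithTop.map_add (Nat.castAddMonoidHom ℤ) _ _
  obtain ⟨n, hn⟩ : ∃ n : ℕ, b.order = n := by
    have hne : b.order ≠ ⊤ := by rwa [Ne, order_eq_top_iff]
    obtain ⟨n, hn⟩ := ENat.ne_top_iff_exists.mp hne
    exact ⟨n, hn.symm⟩
  have hvb : ordQ k d (algebraMap (PS k d) (QS k d) b) = ((n : ℤ) : WithTop ℤ) := by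
    rw [ordQ_algebraMap, hn]; rfl
  refine ⟨n + 1, fun x => ?_⟩
  have key := ordQ_le_der ξ (-((n : ℤ) + 1)) (fun a => by
    have h1 := hZ2 a
    rw [hZ, AddValuation.map_mul, hvb] at h1
    have h2 := add_le_add h1 (le_refl (((-((n : ℤ) + 1) : ℤ)) : WithTop ℤ))
    refine h2.trans (le_of_eq ?_)
    have h3 : ((n : ℤ) : WithTop ℤ) + ((1 : ℤ) : WithTop ℤ) +
        ((-((n : ℤ) + 1) : ℤ) : WithTop ℤ) = 0 := by
      rw [← WithTop.coe_add, ← WithTop.coe_add]
      norm_num
    calc _ = ordQ k d (ξ (algebraMap (PS k d) (QS k d) a)) + (((n : ℤ) : WithTop ℤ) +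
          ((1 : ℤ) : WithTop ℤ) + ((-((n : ℤ) + 1) : ℤ) : WithTop ℤ)) := by
            abel
      _ = _ := by rw [h3, add_zero]) x
  have h4 := add_le_add key (le_refl ((((n + 1 : ℕ) : ℤ) : WithTop ℤ)))
  refine le_trans (le_of_eq ?_) h4
  rw [add_assoc, ← WithTop.coe_add]
  have h5 : (-((n : ℤ) + 1) + ((n + 1 : ℕ) : ℤ)) = 0 := by push_cast; ring
  rw [h5, WithTop.coe_zero, add_zero]

end Pool.Agent.SYZ68J
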