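import Mathlib

/-!
# SYZ68J/SEt : the e-transform for subspaces of a field

`A, B` finite dimensional `F`-subspaces of a field `Ω`, `1 ∈ A, B ⊆ E` (`E` an intermediate field).
Then `dim A + dim B ≤ dim (A B) + dim H` for some finite intermediate field `H ⊆ E`.

Proof.  Strong induction on `dim B` (for all `A`, `B`).
* If there is `e ∈ A` with `e B ⊄ A`, then `e ≠ 0`; put `A₁ = A + e B`, `B₁ = B ⊓ e⁻¹ A`.
  `1 ∈ A ≤ A₁`, `1 ∈ B₁` (as `e ∈ A`), `B₁ < B` so `dim B₁ < dim B`, both are in `E`, and
  `A₁ B₁ ≤ A B`:  `a b₁ ∈ A B`, and for `b₁ = e⁻¹ a'`, `(e b) b₁ = b a' ∈ A B`.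
  `dim A₁ + dim B₁ = dim A + dim B`: `dim (A + e B) + dim (A ⊓ e B) = dim A + dim (e B)`
  (`Submodule.finrank_sup_add_finrank_inf_eq`), `dim (e B) = dim B`, and
  `A ⊓ e B = e (B ⊓ e⁻¹ A)` has the dimension of `B₁` (multiplication by `e` is injective).
  [`e B = B.map (LinearMap.mulLeft F e)`; `e⁻¹ A = A.comap (LinearMap.mulLeft F e)`.]
* Otherwise `A B ≤ A` (`Submodule.mul_le`), so `A B = A` (`1 ∈ B`).  Let `H = {x | x A ⊆ A}`: a
  subalgebra of `Ω`, contained in `A` (`1 ∈ A`) so finite dimensional and `⊆ E`; it is a field: for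
  `0 ≠ x ∈ H` multiplication by `x` is an injective endomorphism of `A`, hence surjective, so
  `x⁻¹ A ⊆ A`.  [`Subalgebra.toIntermediateField`, or `Subalgebra` algebraic over `F`.]  `B ≤ H`,
  so `dim B ≤ dim H` and `dim A = dim (A B)`.
-/

set_option autoImplicit false

open Module

namespace Pool.Agent.SYZ68J

private theorem et20_fr {F Ω : Type*} [Field F] [Field Ω] [Algebra F Ω] {f : Ω →ₗ[F] Ω}
    (hf : Function.Injective f) (B : Submodule F Ω) : finrank F ↥(B.map f) = finrank F B :=
  (LinearEquiv.finrank_eq (Submodule.equivMapOfInjective f hf B)).symm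

private theorem et20_main {F Ω : Type*} [Field F] [Field Ω] [Algebra F Ω]
    (E : IntermediateField F Ω) : ∀ (n : ℕ) (A B : Submodule F Ω), Module.Finite F A →
    Module.Finite F B → finrank F B = n → (1 : Ω) ∈ A → (1 : Ω) ∈ B → (∀ a ∈ A, a ∈ E) →
    (∀ b ∈ B, b ∈ E) → ∃ H : IntermediateField F Ω, H ≤ E ∧ Module.Finite F H ∧
      finrank F A + finrank F B ≤ finrank F ↥(A * B) + finrank F H := by
  intro n
  induction n using Nat.strong_induction_on with
  | _ n ih =>
    intro A B hAf hBf hn hA hB hAE hBE
    haveI := hAf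
    haveI := hBf
    haveI hABf : Module.Finite F ↥(A * B) :=
      Module.Finite.iff_fg.mpr ((Module.Finite.iff_fg.mp hAf).mul (Module.Finite.iff_fg.mp hBf))
    by_cases hcase : ∃ e ∈ A, ∃ b ∈ B, e * b ∉ A
    · obtain ⟨e, heA, b₀, hb₀, heb⟩ := hcase
      have he : e ≠ 0 := by
        rintro rfl
        exact heb (by simp)
      have hinj : Function.Injective (LinearMap.mulLeft F e) := by
        intro x y hxy
        simpa [LinearMap.mulLeft_apply, he] using hxy
      set eB : Submodule F Ω := B.map (LinearMap.mulLeft F e) with heB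
      set B₁ : Submodule F Ω := B ⊓ A.comap (LinearMap.mulLeft F e) with hB₁
      haveI heBf : Module.Finite F eB := by
        rw [heB]; infer_instance
      haveI hB₁f : Module.Finite F B₁ := Submodule.finiteDimensional_of_le (inf_le_left : B₁ ≤ B)
      haveI hA₁f : Module.Finite F ↥(A ⊔ eB) := inferInstance
      have h1B₁ : (1 : Ω) ∈ B₁ := by
        refine ⟨hB, ?_⟩
        simpa [LinearMap.mulLeft_apply] using heA
      have hlt : B₁ < B := by
        refine lt_of_le_of_ne inf_le_left ?_
        intro h
        have : b₀ ∈ B₁ := by rw [h]; exact hb₀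
        exact heb (by simpa [LinearMap.mulLeft_apply] using this.2)
      have hdlt : finrank F B₁ < n := by
        rw [← hn]; exact Submodule.finrank_lt_finrank_of_lt hlt
      have hAE₁ : ∀ a ∈ A ⊔ eB, a ∈ E := by
        intro a ha
        obtain ⟨x, hx, y, hy, rfl⟩ := Submodule.mem_sup.mp ha
        obtain ⟨b, hb, rfl⟩ := Submodule.mem_map.mp hy
        exact E.add_mem (hAE x hx) (by
          simpa [LinearMap.mulLeft_apply] using E.mul_mem (hAE e heA) (hBE b hb))
      obtain ⟨H, hHE, hHf, hH⟩ := ih (finrank F B₁) hdlt (A ⊔ eB) B₁ hA₁f hB₁f rfl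
        (Submodule.mem_sup_left hA) h1B₁ hAE₁ (fun b hb => hBE b hb.1)
      refine ⟨H, hHE, hHf, ?_⟩
      have hle : (A ⊔ eB) * B₁ ≤ A * B := by
        rw [Submodule.mul_le]
        intro a ha b₁ hb₁
        obtain ⟨x, hx, y, hy, rfl⟩ := Submodule.mem_sup.mp ha
        obtain ⟨b, hb, rfl⟩ := Submodule.mem_map.mp hy
        rw [add_mul]
        refine Submodule.add_mem _ (Submodule.mul_mem_mul hx hb₁.1) ?_
        have h1 : e * b₁ ∈ A := by simpa [LinearMap.mulLeft_apply] using hb₁.2
        have h2 : (LinearMap.mulLeft F e) b * b₁ = (e * b₁) * b := by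
          rw [LinearMap.mulLeft_apply]; ring
        rw [h2]
        exact Submodule.mul_mem_mul h1 hb
      have hfle : finrank F ↥((A ⊔ eB) * B₁) ≤ finrank F ↥(A * B) := Submodule.finrank_mono hle
      have hinf : A ⊓ eB = B₁.map (LinearMap.mulLeft F e) := by
        ext y
        constructor
        · rintro ⟨hyA, hyB⟩
          obtain ⟨b, hb, rfl⟩ := Submodule.mem_map.mp hyB
          exact Submodule.mem_map.mpr ⟨b, ⟨hb, hyA⟩, rfl⟩
        · intro hy
          obtain ⟨b, hb, rfl⟩ := Submodule.mem_map.mp hy
          exact ⟨hb.2, Submodule.mem_map.mpr ⟨b, hb.1, rfl⟩⟩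
      have hd := Submodule.finrank_sup_add_finrank_inf_eq A eB
      have e1 : finrank F eB = finrank F B := by
        rw [heB]; exact et20_fr hinj B
      have e2 : finrank F ↥(A ⊓ eB) = finrank F B₁ := by
        rw [hinf]; exact et20_fr hinj B₁
      omega
    · push Not at hcase
      have hAB : A * B = A := by
        apply le_antisymm
        · rw [Submodule.mul_le]
          exact hcase
        · intro a ha
          simpa using Submodule.mul_mem_mul ha hB
      let S : Subalgebra F Ω :=
        { carrier := {x | ∀ a ∈ A, x * a ∈ A}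
          mul_mem' := by
            intro x y hx hy a ha
            rw [mul_assoc]
            exact hx _ (hy _ ha)
          add_mem' := by
            intro x y hx hy a ha
            rw [add_mul]
            exact A.add_mem (hx _ ha) (hy _ ha)
          algebraMap_mem' := by
            intro r a ha
            rw [← Algebra.smul_def]
            exact A.smul_mem r ha }
      have hSA : ∀ x ∈ S, x ∈ A := by
        intro x hx
        simpa using hx 1 hA
      have hSAle : Subalgebra.toSubmodule S ≤ A := fun x hx => hSA x hx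
      haveI hSf : Module.Finite F S := by
        have : Module.Finite F (Subalgebra.toSubmodule S) := Submodule.finiteDimensional_of_le hSAle
        exact this
      have hinv : ∀ x ∈ S, x⁻¹ ∈ S := by
        intro x hx
        have halg : IsAlgebraic F (x : Ω) := by
          have h1 : IsAlgebraic F (⟨x, hx⟩ : S) := Algebra.IsAlgebraic.isAlgebraic _
          exact (isAlgebraic_algHom_iff S.val Subtype.val_injective).mpr h1
        exact Subalgebra.inv_mem_of_algebraic S (x := ⟨x, hx⟩) halg
      let H : IntermediateField F Ω := S.toIntermediateField hinv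
      have hHf : Module.Finite F H := hSf
      refine ⟨H, ?_, hHf, ?_⟩
      · intro x hx
        exact hAE x (hSA x hx)
      · have hBH : B ≤ Subalgebra.toSubmodule S := by
          intro b hb a ha
          rw [mul_comm]
          exact hcase a ha b hb
        have h1 : finrank F B ≤ finrank F (Subalgebra.toSubmodule S) := by
          haveI : Module.Finite F (Subalgebra.toSubmodule S) := hSf
          exact Submodule.finrank_mono hBH
        have h2 : finrank F H = finrank F (Subalgebra.toSubmodule S) := rfl
        rw [hAB, h2]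
        omega

theorem finrank_mul_ge {F Ω : Type*} [Field F] [Field Ω] [Algebra F Ω] (E : IntermediateField F Ω)
    (A B : Submodule F Ω) [Module.Finite F A] [Module.Finite F B]
    (hA : (1 : Ω) ∈ A) (hB : (1 : Ω) ∈ B) (hAE : ∀ a ∈ A, a ∈ E) (hBE : ∀ b ∈ B, b ∈ E) :
    ∃ H : IntermediateField F Ω, H ≤ E ∧ Module.Finite F H ∧
      finrank F A + finrank F B ≤ finrank F ↥(A * B) + finrank F H := by
  exact et20_main E (finrank F B) A B inferInstance inferInstance rfl hA hB hAE hBE

end Pool.Agent.SYZ68J
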