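import Mathlib

/-!
# SYZ68J/SFin : trdeg one, the largest finite subfield

`Ω = F(U)`, `trdeg = 1`, `U` finite dimensional, `1 ∈ U`.  There are `f, s₀` such that every finite
intermediate field has degree `≤ f` and `f (s + 1) ≤ dim U ^ (s + s₀)` for all `s`.

Proof.  Some `μ ∈ U` is transcendental over `F` (otherwise `Ω = F(U)` would be algebraic:
`IntermediateField.adjoin` of algebraic elements; trdeg `0 ≠ 1`).  `Ω` is algebraic over `F(μ)`
(`{μ}` is a transcendence basis: `AlgebraicIndependent` of size `1 = trdeg`, e.g.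
`AlgebraicIndependent.isTranscendenceBasis_of_trdeg_le` or similar), and `Ω = F(μ)(U)` with `U`
spanned by finitely many elements, so `Ω / F(μ)` is finite; put `δ` = its degree.
(1) For a finite intermediate field `H`, `F`-linearly independent elements of `H` are
`F(μ)`-linearly independent: a relation may be taken with coefficients in `F[μ]`, i.e.
`∑ p_i(μ) h_i = 0`, `p_i ∈ F[X]`; the polynomial `∑ p_i h_i ∈ H[X]` vanishes at `μ`, which is
transcendental over `H` (`H / F` algebraic), so it is zero and all `p_i = 0`.  So `dim H ≤ δ`.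
(2) Let `f` be the maximal degree of a finite intermediate field `H₀` (nonempty, bounded by `δ`),
`h_1..h_f` an `F`-basis of `H₀`.  `Ω` = `F(μ)[U]` (ring generated by `U` over the field `F(μ)`, a
finite extension) so there is `q ∈ F[X]`, `q ≠ 0`, with `q(μ) h_i ∈ F[U] = ⋃ U ^ s` for all `i`; as
`1 ∈ U` there is `s₀` with all `q(μ) h_i ∈ U ^ s₀`.  The elements `μ^j q(μ) h_i`, `j ≤ s`, lie in
`U ^ (s + s₀)` and are `F`-linearly independent (by (1)).
-/

set_option autoImplicit false

open Module

namespace Pool.Agent.SYZ68J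

universe u

section sfin27

open Polynomial IntermediateField

variable {F Ω : Type u} [Field F] [Field Ω] [Algebra F Ω]

private theorem sfin27_mono {U : Submodule F Ω} (h1 : (1 : Ω) ∈ U) {m n : ℕ} (h : m ≤ n) :
    U ^ m ≤ U ^ n := by
  obtain ⟨k, rfl⟩ := Nat.exists_eq_add_of_le h
  intro x hx
  rw [pow_add]
  have h2 : (1 : Ω) ∈ U ^ k := by
    have := Submodule.pow_mem_pow U h1 k
    rwa [one_pow] at this
  have := Submodule.mul_mem_mul hx h2
  rwa [mul_one] at this

private theorem sfin27_poly {U : Submodule F Ω} (h1 : (1 : Ω) ∈ U) {μ : Ω} (hμ : μ ∈ U)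
    (p : F[X]) : aeval μ p ∈ U ^ p.natDegree := by
  rw [aeval_eq_sum_range]
  refine Submodule.sum_mem _ fun i hi => Submodule.smul_mem _ _ ?_
  exact sfin27_mono h1 (by have := Finset.mem_range.1 hi; omega) (Submodule.pow_mem_pow U hμ i)

private theorem sfin27_trans {U : Submodule F Ω} (hadj : adjoin F (U : Set Ω) = ⊤)
    (htr : Algebra.trdeg F Ω = 1) : ∃ μ ∈ U, Transcendental F μ := by
  by_contra hcon
  push Not at hcon
  have h : ∀ x ∈ (U : Set Ω), IsAlgebraic F x := by
    intro x hx
    have := hcon x hx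
    unfold Transcendental at this
    rwa [not_not] at this
  have halg : Algebra.IsAlgebraic F (adjoin F (U : Set Ω)) :=
    isAlgebraic_adjoin fun x hx => (h x hx).isIntegral
  rw [hadj] at halg
  have hΩ : Algebra.IsAlgebraic F Ω := by
    refine ⟨fun x => ?_⟩
    have h2 := halg.isAlgebraic (⟨x, mem_top⟩ : (⊤ : IntermediateField F Ω))
    exact (IntermediateField.isAlgebraic_iff).1 h2
  rw [trdeg_eq_zero] at htr
  exact zero_ne_one htr

/-- Relations with polynomial coefficients. -/
private theorem sfin27_rel {μ : Ω} (hμ : Transcendental F μ) (H : IntermediateField F Ω)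
    [Module.Finite F H] {ι : Type} [Fintype ι] {h : ι → H} (hl : LinearIndependent F h)
    (p : ι → F[X]) (hp : ∑ i, aeval μ (p i) * (h i : Ω) = 0) : ∀ i, p i = 0 := by
  have hH : Transcendental H μ := by
    intro hc
    exact hμ (hc.restrictScalars F)
  have hP : (∑ i, Polynomial.C (h i) * (p i).map (algebraMap F H)) = 0 := by
    by_contra hne
    apply hH
    refine ⟨_, hne, ?_⟩
    rw [map_sum, ← hp]
    refine Finset.sum_congr rfl fun i _ => ?_
    rw [map_mul, aeval_C, aeval_map_algebraMap, mul_comm]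
    rfl
  intro i
  ext n
  have h1 : ∑ i, (p i).coeff n • h i = 0 := by
    have h2 := congrArg (fun Q : H[X] => Q.coeff n) hP
    simp only [finsetSum_coeff, coeff_C_mul, coeff_map, coeff_zero] at h2
    rw [← h2]
    refine Finset.sum_congr rfl fun i _ => ?_
    rw [Algebra.smul_def, mul_comm]
  exact Fintype.linearIndependent_iff.1 hl _ h1 i

private theorem sfin27_indep {μ : Ω} (hμ : Transcendental F μ) (H : IntermediateField F Ω)
    [Module.Finite F H] {ι : Type} [Fintype ι] {h : ι → H} (hl : LinearIndependent F h) :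
    LinearIndependent (adjoin F ({μ} : Set Ω)) (fun i => (h i : Ω)) := by
  classical
  rw [Fintype.linearIndependent_iff]
  intro c hc
  have hrep : ∀ i, ∃ r s : F[X], s ≠ 0 ∧ (c i : Ω) * aeval μ s = aeval μ r := by
    intro i
    obtain ⟨r, s, hrs⟩ := (mem_adjoin_simple_iff F _).1 (c i).2
    by_cases hs : s = 0
    · refine ⟨0, 1, one_ne_zero, ?_⟩
      rw [hrs, hs]
      simp
    · refine ⟨r, s, hs, ?_⟩
      have hs' : aeval μ s ≠ 0 := fun h0 => hs (transcendental_iff.1 hμ s h0)
      rw [hrs, div_mul_cancel₀ _ hs']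
  choose r s hs hrs using hrep
  have hsum : ∑ i, aeval μ (r i * ∏ j ∈ Finset.univ.erase i, s j) * (h i : Ω) = 0 := by
    have h1 : ∑ i, aeval μ (r i * ∏ j ∈ Finset.univ.erase i, s j) * (h i : Ω) =
        aeval μ (∏ j, s j) * ∑ i, (c i : Ω) * (h i : Ω) := by
      rw [Finset.mul_sum]
      refine Finset.sum_congr rfl fun i _ => ?_
      rw [← Finset.mul_prod_erase Finset.univ s (Finset.mem_univ i), map_mul, map_mul, ← hrs i]
      ring
    rw [h1]
    have h2 : ∑ i, (c i : Ω) * (h i : Ω) = 0 := by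
      rw [← hc]
      refine Finset.sum_congr rfl fun i _ => ?_
      rw [Algebra.smul_def]
      rfl
    rw [h2, mul_zero]
  intro i
  have h3 := sfin27_rel hμ H hl _ hsum i
  have h4 : r i = 0 := by
    rcases mul_eq_zero.1 h3 with h | h
    · exact h
    · exfalso
      rw [Finset.prod_eq_zero_iff] at h
      obtain ⟨j, _, hj⟩ := h
      exact hs j hj
  have h5 := hrs i
  rw [h4, map_zero] at h5
  rcases mul_eq_zero.1 h5 with h | h
  · exact Subtype.ext h
  · exact absurd (transcendental_iff.1 hμ _ h) (hs i)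

private theorem sfin27_algebraic {μ : Ω} (hμ : Transcendental F μ)
    (htr : Algebra.trdeg F Ω = 1) : Algebra.IsAlgebraic (adjoin F ({μ} : Set Ω)) Ω := by
  have hb : IsTranscendenceBasis F (fun _ : PUnit.{u + 1} => μ) := by
    refine AlgebraicIndependent.isTranscendenceBasis_of_trdeg_le_of_finite ?_ ?_
    · rw [algebraicIndependent_unique_type_iff]
      exact hμ
    · rw [htr]
      simp
  have h := hb.isAlgebraic_field
  rwa [Set.range_const] at h

private theorem sfin27_top {U : Submodule F Ω} (hadj : adjoin F (U : Set Ω) = ⊤)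
    (E : IntermediateField F Ω) [Algebra.IsAlgebraic E Ω] :
    Algebra.adjoin E (U : Set Ω) = ⊤ := by
  have h1 : adjoin E (U : Set Ω) = ⊤ := by
    rw [eq_top_iff]
    intro x _
    have hx : x ∈ adjoin F (U : Set Ω) := by rw [hadj]; exact mem_top
    have h2 : adjoin F (U : Set Ω) ≤ (adjoin E (U : Set Ω)).restrictScalars F := by
      rw [adjoin_le_iff]
      exact subset_adjoin E _
    exact h2 hx
  have h2 := adjoin_toSubalgebra (F := E) (E := Ω) (U : Set Ω)
  rw [h1] at h2
  rw [← h2]
  rfl

private theorem sfin27_finite {U : Submodule F Ω} [Module.Finite F U]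
    (hadj : adjoin F (U : Set Ω) = ⊤)
    (E : IntermediateField F Ω) [Algebra.IsAlgebraic E Ω] : Module.Finite E Ω := by
  obtain ⟨s, hs⟩ := (Module.Finite.iff_fg (N := U)).1 inferInstance
  have hft : Algebra.FiniteType E Ω := by
    refine ⟨⟨s, ?_⟩⟩
    rw [eq_top_iff, ← sfin27_top hadj E]
    refine Algebra.adjoin_le ?_
    rw [← hs]
    intro x hx
    have h1 : Submodule.span F (s : Set Ω) ≤
        (Subalgebra.toSubmodule (Algebra.adjoin E (s : Set Ω))).restrictScalars F :=
      Submodule.span_le.2 Algebra.subset_adjoin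
    exact h1 hx
  exact Algebra.IsIntegral.finite

private theorem sfin27_denom {U : Submodule F Ω} (h1 : (1 : Ω) ∈ U) {μ : Ω} (hμU : μ ∈ U)
    (hμ : Transcendental F μ)
    (hadj : adjoin F (U : Set Ω) = ⊤) (halg : Algebra.IsAlgebraic (adjoin F ({μ} : Set Ω)) Ω)
    (x : Ω) : ∃ q : F[X], q ≠ 0 ∧ ∃ n : ℕ, aeval μ q * x ∈ U ^ n := by
  have hx : x ∈ Algebra.adjoin (adjoin F ({μ} : Set Ω)) (U : Set Ω) := by
    rw [sfin27_top hadj (adjoin F ({μ} : Set Ω))]
    exact Algebra.mem_top
  induction hx using Algebra.adjoin_induction with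
  | mem x hx => exact ⟨1, one_ne_zero, 1, by simpa using hx⟩
  | algebraMap r =>
    obtain ⟨a, b, hab⟩ := (mem_adjoin_simple_iff F _).1 r.2
    by_cases hb : b = 0
    · refine ⟨1, one_ne_zero, 0, ?_⟩
      have : (algebraMap (adjoin F ({μ} : Set Ω)) Ω) r = 0 := by
        change (r : Ω) = 0
        rw [hab, hb]
        simp
      rw [this, mul_zero]
      exact Submodule.zero_mem _
    · refine ⟨b, hb, a.natDegree, ?_⟩
      have hb' : aeval μ b ≠ 0 := fun h0 => hb (transcendental_iff.1 hμ b h0)
      have : aeval μ b * (algebraMap (adjoin F ({μ} : Set Ω)) Ω) r = aeval μ a := by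
        change aeval μ b * (r : Ω) = aeval μ a
        rw [hab, mul_div_cancel₀ _ hb']
      rw [this]
      exact sfin27_poly h1 hμU a
  | add x y _ _ ihx ihy =>
    obtain ⟨q, hq, n, hn⟩ := ihx
    obtain ⟨q', hq', n', hn'⟩ := ihy
    refine ⟨q * q', mul_ne_zero hq hq', (q'.natDegree + n) + (q.natDegree + n'), ?_⟩
    have e1 : aeval μ (q * q') * (x + y) =
        aeval μ q' * (aeval μ q * x) + aeval μ q * (aeval μ q' * y) := by
      rw [map_mul]; ring
    rw [e1]
    refine Submodule.add_mem _ ?_ ?_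
    · refine sfin27_mono h1 (Nat.le_add_right _ _) ?_
      rw [pow_add]
      exact Submodule.mul_mem_mul (sfin27_poly h1 hμU q') hn
    · refine sfin27_mono h1 (Nat.le_add_left _ _) ?_
      rw [pow_add]
      exact Submodule.mul_mem_mul (sfin27_poly h1 hμU q) hn'
  | mul x y _ _ ihx ihy =>
    obtain ⟨q, hq, n, hn⟩ := ihx
    obtain ⟨q', hq', n', hn'⟩ := ihy
    refine ⟨q * q', mul_ne_zero hq hq', n + n', ?_⟩
    have e1 : aeval μ (q * q') * (x * y) = (aeval μ q * x) * (aeval μ q' * y) := by
      rw [map_mul]; ring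
    rw [e1, pow_add]
    exact Submodule.mul_mem_mul hn hn'

private theorem sfin27_denoms {U : Submodule F Ω} (h1 : (1 : Ω) ∈ U) {μ : Ω} (hμU : μ ∈ U)
    (hμ : Transcendental F μ)
    (hadj : adjoin F (U : Set Ω) = ⊤) (halg : Algebra.IsAlgebraic (adjoin F ({μ} : Set Ω)) Ω)
    {ι : Type} (x : ι → Ω) (s : Finset ι) :
    ∃ q : F[X], q ≠ 0 ∧ ∃ n : ℕ, ∀ i ∈ s, aeval μ q * x i ∈ U ^ n := by
  classical
  induction s using Finset.induction_on with
  | empty => exact ⟨1, one_ne_zero, 0, fun i hi => absurd hi (Finset.notMem_empty i)⟩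
  | insert a s _ ih =>
    obtain ⟨q, hq, n, hn⟩ := ih
    obtain ⟨q', hq', n', hn'⟩ := sfin27_denom h1 hμU hμ hadj halg (x a)
    refine ⟨q * q', mul_ne_zero hq hq', (q'.natDegree + n) + (q.natDegree + n'), ?_⟩
    intro i hi
    rw [map_mul]
    rcases Finset.mem_insert.1 hi with rfl | hi
    · refine sfin27_mono h1 (Nat.le_add_left _ _) ?_
      rw [pow_add, mul_assoc]
      exact Submodule.mul_mem_mul (sfin27_poly h1 hμU q) hn'
    · refine sfin27_mono h1 (Nat.le_add_right _ _) ?_
      rw [pow_add, mul_comm (aeval μ q), mul_assoc]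
      exact Submodule.mul_mem_mul (sfin27_poly h1 hμU q') (hn i hi)

end sfin27

theorem exists_finite_bound {F Ω : Type u} [Field F] [Field Ω] [Algebra F Ω]
    (U : Submodule F Ω) [Module.Finite F U] (h1 : (1 : Ω) ∈ U)
    (hadj : IntermediateField.adjoin F (U : Set Ω) = ⊤) (htr : Algebra.trdeg F Ω = 1) :
    ∃ f s₀ : ℕ, (∀ H : IntermediateField F Ω, Module.Finite F H → finrank F H ≤ f) ∧
      ∀ s : ℕ, f * (s + 1) ≤ finrank F ↥(U ^ (s + s₀)) := by
  classical
  obtain ⟨μ, hμU, hμ⟩ := sfin27_trans hadj htr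
  have halg := sfin27_algebraic hμ htr
  have hfin : Module.Finite (IntermediateField.adjoin F ({μ} : Set Ω)) Ω :=
    sfin27_finite hadj _
  let D : Set ℕ := {n | ∃ H : IntermediateField F Ω, Module.Finite F H ∧ finrank F H = n}
  have hD : BddAbove D := by
    refine ⟨finrank (IntermediateField.adjoin F ({μ} : Set Ω)) Ω, ?_⟩
    rintro n ⟨H, hH, rfl⟩
    have hl := sfin27_indep hμ H (finBasis F H).linearIndependent
    have := hl.fintype_card_le_finrank
    simpa using this
  have hne : D.Nonempty := ⟨finrank F (⊥ : IntermediateField F Ω), ⊥, inferInstance, rfl⟩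
  obtain ⟨H₀, hH₀, hf⟩ := Nat.sSup_mem hne hD
  obtain ⟨q, hq, s₀, hs₀⟩ := sfin27_denoms h1 hμU hμ hadj halg
    (fun i : Fin (finrank F H₀) => ((finBasis F H₀ i : H₀) : Ω)) Finset.univ
  refine ⟨finrank F H₀, s₀, ?_, ?_⟩
  · intro H hH
    rw [hf]
    exact le_csSup hD ⟨H, hH, rfl⟩
  · intro s
    have hmem : ∀ z : Fin (finrank F H₀) × Fin (s + 1),
        μ ^ (z.2 : ℕ) * (Polynomial.aeval μ q * ((finBasis F H₀ z.1 : H₀) : Ω)) ∈
          U ^ (s + s₀) := by
      intro z
      rw [pow_add]
      refine Submodule.mul_mem_mul ?_ (hs₀ z.1 (Finset.mem_univ _))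
      exact sfin27_mono h1 (by omega) (Submodule.pow_mem_pow U hμU _)
    let v : Fin (finrank F H₀) × Fin (s + 1) → ↥(U ^ (s + s₀)) := fun z => ⟨_, hmem z⟩
    have hv : LinearIndependent F v := by
      rw [Fintype.linearIndependent_iff]
      intro a ha
      have h2 : ∑ z : Fin (finrank F H₀) × Fin (s + 1),
          a z • (μ ^ (z.2 : ℕ) * (Polynomial.aeval μ q * ((finBasis F H₀ z.1 : H₀) : Ω))) = 0 := by
        have := congrArg (fun w : ↥(U ^ (s + s₀)) => (w : Ω)) ha
        simpa [v] using this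
      have h3 : ∑ i, Polynomial.aeval μ (∑ j : Fin (s + 1), Polynomial.C (a (i, j)) *
          Polynomial.X ^ (j : ℕ)) * ((finBasis F H₀ i : H₀) : Ω) = 0 := by
        have h4 : Polynomial.aeval μ q * ∑ i, Polynomial.aeval μ (∑ j : Fin (s + 1),
            Polynomial.C (a (i, j)) * Polynomial.X ^ (j : ℕ)) * ((finBasis F H₀ i : H₀) : Ω) =
            0 := by
          rw [← h2, Fintype.sum_prod_type, Finset.mul_sum]
          refine Finset.sum_congr rfl fun i _ => ?_
          rw [map_sum, Finset.sum_mul, Finset.mul_sum]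
          refine Finset.sum_congr rfl fun j _ => ?_
          rw [map_mul, map_pow, Polynomial.aeval_C, Polynomial.aeval_X, Algebra.smul_def]
          ring
        rcases mul_eq_zero.1 h4 with h5 | h5
        · exact absurd (transcendental_iff.1 hμ q h5) hq
        · exact h5
      have h5 := sfin27_rel hμ H₀ (finBasis F H₀).linearIndependent _ h3
      rintro ⟨i, j⟩
      have h6 := congrArg (fun p : Polynomial F => p.coeff (j : ℕ)) (h5 i)
      simp only [Polynomial.finsetSum_coeff, Polynomial.coeff_C_mul, Polynomial.coeff_X_pow,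
        Polynomial.coeff_zero] at h6
      rw [Finset.sum_eq_single j] at h6
      · simpa using h6
      · intro k _ hk
        rw [if_neg, mul_zero]
        intro h7
        exact hk (Fin.ext h7.symm)
      · intro h7
        exact absurd (Finset.mem_univ _) h7
    have hfinU : Module.Finite F ↥(U ^ (s + s₀)) := by
      rw [Module.Finite.iff_fg]
      exact Submodule.FG.pow (Module.Finite.iff_fg.1 inferInstance) _
    have := hv.fintype_card_le_finrank
    simpa using this

end Pool.Agent.SYZ68J
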