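import Pool.Agent.SYZ68J.SPoly

/-!
# SYZ68J/SFrac : the field `F₂ = F(τ, λ) ⊆ Ω₁ = Ω(τ)`

`algebraicIndependent_gen`: if some `f_j` is transcendental over `F`, then `τ_0..τ_(m-1), λ` are
algebraically independent over `F` in `Ω₁ = Ω(τ)`.
 Proof.  (i) `τ, f_j` are algebraically independent over `F`: a relation
 `∑_a c_a(f_j) τ^a = 0` (`c_a ∈ F[Y]`) in `Ω[τ]` gives `c_a(f_j) = 0`, so `c_a = 0`.
 (ii) If `λ` were algebraic over `F(τ)`: the `Ω`-automorphism `σ : τ_j ↦ τ_j + 1` of `Ω(τ)` maps
 `F(τ)` onto itself, so `σ λ = λ + f_j` is algebraic over `F(τ)`, hence so is `f_j`,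
 contradicting (i).
 [If simpler: work with `MvPolynomial` and `Function.Injective (ev F f)` directly; this is
 equivalent, see `ev_injective`.]
`SF2` is the intermediate field generated over `F` by the image of `ev` (i.e. by the `τ_j`, `λ`);
`mem_SF2`: its elements are the quotients `ev a / ev b` (the set of these quotients is a subfield
containing `F`).
-/

set_option autoImplicit false

open MvPolynomial Module

universe u

namespace Pool.Agent.SYZ68J

variable {F Ω : Type u} [Field F] [Field Ω] [Algebra F Ω] {m : ℕ}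

/-- `Ω₁ = Ω(τ)` -/
abbrev SO1 (Ω : Type u) [Field Ω] (m : ℕ) : Type u := FractionRing (MvPolynomial (Fin m) Ω)

/-- the map `Ω → Ω₁` -/
noncomputable def toO1 (Ω : Type u) [Field Ω] (m : ℕ) : Ω →+* SO1 Ω m :=
  (algebraMap (MvPolynomial (Fin m) Ω) (SO1 Ω m)).comp C

/-- the shift `τ_l ↦ τ_l + δ_l` -/
private noncomputable def sh85 (R : Type*) [CommRing R] (d : Fin m → R) :
    MvPolynomial (Fin m) R →ₐ[R] MvPolynomial (Fin m) R :=
  aeval fun l => X l + C (d l)

private theorem sh_inj85 (R : Type*) [CommRing R] (d : Fin m → R) :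
    Function.Injective (sh85 R d) := by
  have h : (sh85 R (-d)).comp (sh85 R d) = AlgHom.id R _ := by
    apply MvPolynomial.algHom_ext
    intro l
    simp [sh85]
  intro a b hab
  have := congrArg (sh85 R (-d)) hab
  rw [← AlgHom.comp_apply, ← AlgHom.comp_apply, h] at this
  exact this

attribute [local instance] MvPolynomial.algebraMvPolynomial in
private theorem sh_alg85 (d : Fin m → F) (q : MvPolynomial (Fin m) F) :
    sh85 Ω (fun l => algebraMap F Ω (d l)) (algebraMap (MvPolynomial (Fin m) F)
      (MvPolynomial (Fin m) Ω) q) =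
    algebraMap (MvPolynomial (Fin m) F) (MvPolynomial (Fin m) Ω) (sh85 F d q) := by
  have h : ((sh85 Ω (fun l => algebraMap F Ω (d l))).restrictScalars F).comp
      (IsScalarTower.toAlgHom F (MvPolynomial (Fin m) F) (MvPolynomial (Fin m) Ω)) =
      (IsScalarTower.toAlgHom F (MvPolynomial (Fin m) F) (MvPolynomial (Fin m) Ω)).comp
        (sh85 F d) := by
    apply MvPolynomial.algHom_ext
    intro l
    show sh85 Ω (fun l => algebraMap F Ω (d l)) (MvPolynomial.map (algebraMap F Ω) (X l)) =
      MvPolynomial.map (algebraMap F Ω) (sh85 F d (X l))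
    rw [MvPolynomial.map_X]
    simp only [sh85, aeval_X, map_add, MvPolynomial.map_X, MvPolynomial.map_C]
  exact AlgHom.congr_fun h q

attribute [local instance] MvPolynomial.algebraMvPolynomial in
private theorem ev_eq85 (f : Fin m → Ω) (q : MvPolynomial (Option (Fin m)) F) :
    ev F f q = Polynomial.aeval (lam f) (MvPolynomial.optionEquivLeft F (Fin m) q) := by
  have h : ev F f = ((Polynomial.aeval (R := MvPolynomial (Fin m) F) (lam f)).restrictScalars F).comp
      (MvPolynomial.optionEquivLeft F (Fin m) : MvPolynomial (Option (Fin m)) F →ₐ[F] _) := by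
    apply MvPolynomial.algHom_ext
    intro i
    rcases i with _ | l
    · simp [ev]
    · have h1 : (MvPolynomial.optionEquivLeft F (Fin m)) (X (some l)) = Polynomial.C (X l) :=
        MvPolynomial.optionEquivLeft_X_some F (Fin m) l
      show ev F f (X (some l)) = Polynomial.aeval (R := MvPolynomial (Fin m) F) (lam f)
        ((MvPolynomial.optionEquivLeft F (Fin m)) (X (some l)))
      rw [h1, Polynomial.aeval_C]
      show ev F f (X (some l)) = MvPolynomial.map (algebraMap F Ω) (X l)
      rw [MvPolynomial.map_X, ev, aeval_X]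
      rfl
  exact AlgHom.congr_fun h q

attribute [local instance] MvPolynomial.algebraMvPolynomial in
private theorem trans85 {x : Ω} (hx : Transcendental F x) :
    Transcendental (MvPolynomial (Fin m) F) (C x : MvPolynomial (Fin m) Ω) := by
  rintro ⟨P, hP, h0⟩
  apply hP
  ext k a
  rw [Polynomial.coeff_zero, MvPolynomial.coeff_zero]
  rw [Polynomial.aeval_eq_sum_range] at h0
  have h1 := congrArg (MvPolynomial.coeff a) h0
  rw [MvPolynomial.coeff_sum, MvPolynomial.coeff_zero] at h1
  let Q : Polynomial F := ∑ i ∈ Finset.range (P.natDegree + 1),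
    Polynomial.monomial i (MvPolynomial.coeff a (P.coeff i))
  have h2 : Polynomial.aeval x Q = 0 := by
    rw [← h1]
    simp only [Q, map_sum, Polynomial.aeval_monomial]
    apply Finset.sum_congr rfl
    intro i _
    rw [Algebra.smul_def, MvPolynomial.algebraMap_def, ← map_pow, mul_comm _ (C _),
      MvPolynomial.coeff_C_mul, MvPolynomial.coeff_map, mul_comm]
  have h3 : Q = 0 := by
    by_contra h4
    exact hx ⟨Q, h4, h2⟩
  by_cases hk : k < P.natDegree + 1
  · have h4 : Q.coeff k = MvPolynomial.coeff a (P.coeff k) := by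
      simp only [Q, Polynomial.finsetSum_coeff, Polynomial.coeff_monomial]
      rw [Finset.sum_ite_eq' (Finset.range (P.natDegree + 1)) k]
      rw [if_pos (Finset.mem_range.2 hk)]
    rw [← h4, h3, Polynomial.coeff_zero]
  · rw [Polynomial.coeff_eq_zero_of_natDegree_lt (by omega), MvPolynomial.coeff_zero]

attribute [local instance] MvPolynomial.algebraMvPolynomial in
theorem ev_injective (f : Fin m → Ω) (j : Fin m) (hj : Transcendental F (f j)) :
    Function.Injective (ev F f) := by
  classical
  rw [injective_iff_map_eq_zero]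
  intro q hq
  by_contra hq0
  have hP : MvPolynomial.optionEquivLeft F (Fin m) q ≠ 0 := by
    intro h
    exact hq0 ((MvPolynomial.optionEquivLeft F (Fin m)).injective (by rw [h, map_zero]))
  generalize hPq : MvPolynomial.optionEquivLeft F (Fin m) q = P at hP
  rw [ev_eq85, hPq] at hq
  have h1 : IsAlgebraic (MvPolynomial (Fin m) F) (lam f) := ⟨P, hP, hq⟩
  let d : Fin m → F := fun l => if l = j then 1 else 0
  have h2 : sh85 Ω (fun l => algebraMap F Ω (d l)) (lam f) = lam f + C (f j) := by
    have h0 : ∀ l : Fin m, (C (algebraMap F Ω (d l)) * C (f l) : MvPolynomial (Fin m) Ω) =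
        if l = j then C (f j) else 0 := by
      intro l
      by_cases hl : l = j
      · simp [d, hl]
      · simp [d, hl]
    simp only [lam, map_sum, map_mul, sh85, aeval_X, algHom_C, algebraMap_eq,
      add_mul, Finset.sum_add_distrib, h0]
    simp
  have h3 : IsAlgebraic (MvPolynomial (Fin m) F) (lam f + C (f j)) := by
    refine ⟨P.map (sh85 F d : MvPolynomial (Fin m) F →+* MvPolynomial (Fin m) F), ?_, ?_⟩
    · intro h0
      exact hP ((Polynomial.map_eq_zero_iff (f := (sh85 F d :
        MvPolynomial (Fin m) F →+* MvPolynomial (Fin m) F)) (sh_inj85 F d)).1 h0)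
    · rw [← h2, Polynomial.aeval_def, Polynomial.eval₂_map]
      have h4 := congrArg (sh85 Ω (fun l => algebraMap F Ω (d l))) hq
      rw [map_zero, Polynomial.aeval_def] at h4
      have h5 := Polynomial.hom_eval₂ P (algebraMap (MvPolynomial (Fin m) F) (MvPolynomial (Fin m) Ω))
        (sh85 Ω (fun l => algebraMap F Ω (d l)) : MvPolynomial (Fin m) Ω →+* MvPolynomial (Fin m) Ω)
        (lam f)
      have h6 : (algebraMap (MvPolynomial (Fin m) F) (MvPolynomial (Fin m) Ω)).comp
          (sh85 F d : MvPolynomial (Fin m) F →+* MvPolynomial (Fin m) F) =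
          (sh85 Ω (fun l => algebraMap F Ω (d l)) :
            MvPolynomial (Fin m) Ω →+* MvPolynomial (Fin m) Ω).comp
          (algebraMap (MvPolynomial (Fin m) F) (MvPolynomial (Fin m) Ω)) := by
        refine RingHom.ext fun x => ?_
        exact (sh_alg85 d x).symm
      rw [h6]
      exact h5.symm.trans h4
  have h7 := h3.sub h1
  rw [add_sub_cancel_left] at h7
  exact trans85 hj h7

/-- `F₂ = F(τ, λ)` -/
noncomputable def SF2 (F : Type u) {Ω : Type u} [Field F] [Field Ω] [Algebra F Ω] {m : ℕ}
    (f : Fin m → Ω) : IntermediateField F (SO1 Ω m) :=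
  IntermediateField.adjoin F (algebraMap (MvPolynomial (Fin m) Ω) (SO1 Ω m) ''
    Set.range (ev F f))

theorem mem_SF2 (f : Fin m → Ω) (x : SO1 Ω m) : x ∈ SF2 F f ↔
    ∃ a b : MvPolynomial (Option (Fin m)) F, ev F f b ≠ 0 ∧
      x = algebraMap _ (SO1 Ω m) (ev F f a) / algebraMap _ (SO1 Ω m) (ev F f b) := by
  let φ : MvPolynomial (Option (Fin m)) F →ₐ[F] SO1 Ω m :=
    (IsScalarTower.toAlgHom F (MvPolynomial (Fin m) Ω) (SO1 Ω m)).comp (ev F f)
  have hφ : ∀ a, φ a = algebraMap _ (SO1 Ω m) (ev F f a) := fun a => rfl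
  have hS : algebraMap (MvPolynomial (Fin m) Ω) (SO1 Ω m) '' Set.range (ev F f) =
      (φ.range : Set (SO1 Ω m)) := by
    ext y
    constructor
    · rintro ⟨_, ⟨a, rfl⟩, rfl⟩
      exact ⟨a, rfl⟩
    · rintro ⟨a, rfl⟩
      exact ⟨_, ⟨a, rfl⟩, rfl⟩
  constructor
  · intro hx
    unfold SF2 at hx
    rw [IntermediateField.mem_adjoin_iff_div, hS, Algebra.adjoin_eq] at hx
    obtain ⟨r, ⟨a, ha⟩, s, ⟨b, hb⟩, rfl⟩ := hx
    by_cases h : ev F f b = 0
    · refine ⟨0, 1, by rw [map_one]; exact one_ne_zero, ?_⟩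
      have : s = 0 := by
        rw [← hb]
        show algebraMap _ (SO1 Ω m) (ev F f b) = 0
        rw [h, map_zero]
      rw [this, div_zero, map_zero, map_zero, zero_div]
    · exact ⟨a, b, h, by rw [← ha, ← hb]; rfl⟩
  · rintro ⟨a, b, -, rfl⟩
    apply div_mem
    · exact IntermediateField.subset_adjoin F _ ⟨_, ⟨a, rfl⟩, rfl⟩
    · exact IntermediateField.subset_adjoin F _ ⟨_, ⟨b, rfl⟩, rfl⟩

end Pool.Agent.SYZ68J
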