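import Pool.Agent.SYZ68J.SRank

/-!
# SYZ68J/SSum : `∑_(i ≤ s) dim_(F₂) F₂ U^i ≤ dim_F U^s`

`f` an `F`-basis of `U ∋ 1`, some `f_j` transcendental.
Proof.  `F₁ = F(τ) ⊆ F₂ ⊆ Ω₁`.  `1 ∈ U` so `U^i ≤ U^(i+1)`.  Choose increasing finite sets
`B_0 ⊆ B_1 ⊆ … ⊆ B_s`, `B_i ⊆ U^i`, whose images in `Ω₁` are `F₂`-bases of `N_i = F₂ U^i`
(`exists_linearIndepOn_extension` or `LinearIndepOn.extend`, inside the spanning set `U^i`).
For `b ∈ B_s` let `i(b)` be the least `i` with `b ∈ B_i`.  The elements `λ^j b`, `b ∈ B_s`,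
`j ≤ s - i(b)`, are `F₁`-linearly independent: group by `b`; `∑_b (∑_j c_(jb) λ^j) b = 0` with
`c ∈ F₁` gives `∑_j c_(jb) λ^j = 0` (the `b` are `F₂`-independent) and `c = 0` as `λ` is
transcendental over `F₁` (`ev_injective`).  They lie in the `F₁`-span of `U^s` (`λ ∈ F₁ U`, so
`λ^j b ∈ F₁ U^(j + i(b))`), which has `F₁`-dimension at most `dim_F U^s`
(image of a basis).  Their number is `∑_b (s - i(b) + 1) = ∑_(i ≤ s) |B_i|`.
[Alternative without nested bases: induction on `s`, or the inequality
`∑_(i ≤ s) dim N_i ≤ dim_(F₁) F₁ U^s` by the filtration `F₁ U^s ⊇ λ F₁ U^(s-1)`: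
`dim F₁ U^s - dim F₁ U^(s-1) ≥ dim_(F₂) N_s`?  (That needs an argument; the nested bases are fine.)]
-/

set_option autoImplicit false

open MvPolynomial Module

universe u

namespace Pool.Agent.SYZ68J

namespace Sum

theorem exists_nested {K L : Type*} [DivisionRing K] [AddCommGroup L] [Module K L]
    (X : ℕ → Set L) (hX : Monotone X) : ∃ B : ℕ → Set L, Monotone B ∧ (∀ i, B i ⊆ X i) ∧
      (∀ i, LinearIndepOn K id (B i)) ∧
      ∀ i, Submodule.span K (B i) = Submodule.span K (X i) := by
  let B : (i : ℕ) → {B : Set L // B ⊆ X i ∧ LinearIndepOn K id B ∧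
      Submodule.span K B = Submodule.span K (X i)} := fun i =>
    Nat.rec
      ⟨(linearIndepOn_empty K (id : L → L)).extend (Set.empty_subset (X 0)),
        LinearIndepOn.extend_subset _ _, LinearIndepOn.linearIndepOn_extend _ _, by
          simpa using LinearIndepOn.span_image_extend_eq_span_image
            (linearIndepOn_empty K (id : L → L)) (Set.empty_subset (X 0))⟩
      (fun i Bi => ⟨Bi.2.2.1.extend (Bi.2.1.trans (hX (Nat.le_succ i))),
        LinearIndepOn.extend_subset _ _, LinearIndepOn.linearIndepOn_extend _ _, by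
          simpa using LinearIndepOn.span_image_extend_eq_span_image
            Bi.2.2.1 (Bi.2.1.trans (hX (Nat.le_succ i)))⟩) i
  refine ⟨fun i => (B i).1, monotone_nat_of_le_succ fun i => ?_, fun i => (B i).2.1,
    fun i => (B i).2.2.1, fun i => (B i).2.2.2⟩
  exact LinearIndepOn.subset_extend (B i).2.2.1 ((B i).2.1.trans (hX (Nat.le_succ i)))

theorem card_le {A K L : Type*} [CommRing A] [Nontrivial A] [Field K] [Field L] [Algebra K L]
    [Algebra A K] [Algebra A L] [IsScalarTower A K L] (x : K)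
    (hx : Function.Injective (Polynomial.aeval x : Polynomial A →ₐ[A] K)) (s : ℕ)
    (B : ℕ → Set L) (hB : Monotone B) (hli : ∀ i, LinearIndepOn K id (B i)) (N : ℕ)
    (w : Fin N → L)
    (hW : ∀ i ≤ s, ∀ b ∈ B i,
      algebraMap K L x ^ (s - i) * b ∈ Submodule.span A (Set.range w)) :
    ∑ i ∈ Finset.range (s + 1), finrank K (Submodule.span K (B i)) ≤ N := by
  classical
  have h1 : LinearIndependent A (fun n : ℕ => x ^ n) := by
    have h := (Polynomial.basisMonomials A).linearIndependent.map'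
      (Polynomial.aeval x : Polynomial A →ₐ[A] K).toLinearMap (LinearMap.ker_eq_bot.mpr hx)
    have h' : (⇑(Polynomial.aeval x : Polynomial A →ₐ[A] K).toLinearMap ∘
        ⇑(Polynomial.basisMonomials A)) = fun n : ℕ => x ^ n := by
      ext n
      simp
    rwa [h'] at h
  have h2 : LinearIndependent K (fun b : B s => (b : L)) := hli s
  have h3 := linearIndependent_smul h1 h2
  let e : (Σ i : Fin (s + 1), B i) → ℕ × B s := fun p =>
    (s - p.1, ⟨p.2, hB (Nat.lt_succ_iff.mp p.1.2) p.2.2⟩)
  have he : Function.Injective e := by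
    rintro ⟨i, b⟩ ⟨j, c⟩ h
    simp only [e, Prod.mk.injEq, Subtype.mk.injEq] at h
    obtain ⟨h1, h2⟩ := h
    have hij : i = j := by
      apply Fin.ext
      have := i.2
      have := j.2
      omega
    subst hij
    simp only [Sigma.mk.injEq, heq_eq_eq, true_and]
    exact Subtype.ext h2
  have h4 := h3.comp e he
  have hfin : Fintype (Set.range w) := Fintype.ofFinite _
  have h5 := linearIndependent_le_span' _ h4 (Set.range w) (by
    rintro _ ⟨⟨i, b⟩, rfl⟩
    have := hW i (Nat.lt_succ_iff.mp i.2) b b.2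
    simpa [e, Algebra.smul_def] using this)
  have : Finite (Σ i : Fin (s + 1), B i) :=
    Cardinal.lt_aleph0_iff_finite.mp (lt_of_le_of_lt h5 (Cardinal.natCast_lt_aleph0))
  have hf : ∀ i : Fin (s + 1), Finite (B i) := fun i =>
    Finite.of_injective (fun b : B i => (⟨i, b⟩ : Σ i : Fin (s + 1), B i))
      (fun a b h => by simpa using h)
  have hft : ∀ i : Fin (s + 1), Fintype (B i) := fun i => Fintype.ofFinite _
  have h6 : Fintype.card (Σ i : Fin (s + 1), B i) ≤ N := by
    have h7 : Fintype.card (Set.range w) ≤ N := by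
      have := Fintype.card_le_of_surjective _ (Set.rangeFactorization_surjective (f := w))
      simpa using this
    have h8 : Fintype.card (Σ i : Fin (s + 1), B i) ≤ Fintype.card (Set.range w) := by
      rw [Cardinal.mk_fintype] at h5
      exact_mod_cast h5
    exact h8.trans h7
  rw [Finset.sum_range]
  refine le_trans (le_of_eq ?_) h6
  rw [Fintype.card_sigma]
  refine Finset.sum_congr rfl fun i _ => ?_
  have h9 := finrank_span_eq_card (R := K) (b := fun b : B i => (b : L)) (hli i)
  have h10 : Set.range (fun b : B i => (b : L)) = B i := Subtype.range_coe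
  rw [h10] at h9
  exact h9.symm ▸ rfl

end Sum

variable {F Ω : Type u} [Field F] [Field Ω] [Algebra F Ω] {m : ℕ}

namespace Sum

/-- `F[τ] → F₂` -/
noncomputable def psi (F : Type u) {Ω : Type u} [Field F] [Field Ω] [Algebra F Ω] {m : ℕ}
    (f : Fin m → Ω) : MvPolynomial (Option (Fin m)) F →+* SF2 F f :=
  RingHom.codRestrict (((algebraMap (MvPolynomial (Fin m) Ω) (SO1 Ω m))).comp
    (ev F f : MvPolynomial (Option (Fin m)) F →+* MvPolynomial (Fin m) Ω))
    (SF2 F f).toSubalgebra.toSubring (fun x => IntermediateField.subset_adjoin F _ ⟨_, ⟨x, rfl⟩, rfl⟩)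

theorem psi_coe (f : Fin m → Ω) (p : MvPolynomial (Option (Fin m)) F) :
    (psi F f p : SO1 Ω m) = algebraMap (MvPolynomial (Fin m) Ω) (SO1 Ω m) (ev F f p) := rfl

theorem psi_injective (f : Fin m → Ω) (j : Fin m) (hj : Transcendental F (f j)) :
    Function.Injective (psi F f) := by
  intro a b h
  have h1 : (psi F f a : SO1 Ω m) = psi F f b := by rw [h]
  rw [psi_coe, psi_coe] at h1
  exact ev_injective f j hj (IsFractionRing.injective (MvPolynomial (Fin m) Ω) (SO1 Ω m) h1)

/-- `F[τ] → F₂` -/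
noncomputable def psiA (F : Type u) {Ω : Type u} [Field F] [Field Ω] [Algebra F Ω] {m : ℕ}
    (f : Fin m → Ω) : MvPolynomial (Fin m) F →+* SF2 F f :=
  (psi F f).comp (rename some : MvPolynomial (Fin m) F →ₐ[F] MvPolynomial (Option (Fin m)) F)

theorem psiA_X (f : Fin m → Ω) (j : Fin m) : (psiA F f (X j) : SO1 Ω m) =
    algebraMap (MvPolynomial (Fin m) Ω) (SO1 Ω m) (X j) := by
  simp [psiA, psi_coe, ev]

theorem psiA_C (f : Fin m → Ω) (a : F) : (psiA F f (C a) : SO1 Ω m) =
    toO1 Ω m (algebraMap F Ω a) := by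
  simp [psiA, psi_coe, toO1]

theorem optionEquivLeft_symm_C' (a : MvPolynomial (Fin m) F) :
    (optionEquivLeft F (Fin m)).symm (Polynomial.C a) = rename some a := by
  rw [AlgEquiv.symm_apply_eq]
  induction a using MvPolynomial.induction_on with
  | C a => simp
  | add p q hp hq => rw [map_add, map_add, map_add, hp, hq]
  | mul_X p n hp => rw [map_mul, map_mul, map_mul, hp, rename_X, optionEquivLeft_X_some]

theorem mem_span_pow {A L : Type*} [CommRing A] [Field L] [Algebra A L] (t : Ω →+* L) (y : L)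
    (f : Fin m → Ω) (a : Fin m → A) (hy : y = ∑ j, algebraMap A L (a j) * t (f j))
    (U : Submodule F Ω) (hU : U = Submodule.span F (Set.range f)) (n : ℕ) :
    ∀ i : ℕ, ∀ b ∈ U ^ i, y ^ n * t b ∈
      Submodule.span A (t '' ((U ^ (n + i) : Submodule F Ω) : Set Ω)) := by
  induction n with
  | zero =>
    intro i b hb
    rw [pow_zero, one_mul, Nat.zero_add]
    exact Submodule.subset_span ⟨b, hb, rfl⟩
  | succ n ih =>
    intro i b hb
    rw [pow_succ, mul_assoc]
    have h1 : y * t b = ∑ j, algebraMap A L (a j) * t (f j * b) := by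
      rw [hy, Finset.sum_mul]
      refine Finset.sum_congr rfl fun j _ => ?_
      rw [map_mul, mul_assoc]
    rw [h1, Finset.mul_sum]
    refine Submodule.sum_mem _ fun j _ => ?_
    have h2 : y ^ n * (algebraMap A L (a j) * t (f j * b)) = a j • (y ^ n * t (f j * b)) := by
      rw [Algebra.smul_def]
      ring
    rw [h2]
    refine Submodule.smul_mem _ _ ?_
    have h3 : f j * b ∈ U ^ (i + 1) := by
      rw [pow_succ']
      exact Submodule.mul_mem_mul (hU ▸ Submodule.subset_span ⟨j, rfl⟩) hb
    have h4 := ih (i + 1) (f j * b) h3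
    rwa [show n + 1 + i = n + (i + 1) by ring]

theorem span_le_basis {A L : Type*} [CommRing A] [Field L] [Algebra A L] (t : Ω →+* L)
    (c : F → A) (hc : ∀ x, algebraMap A L (c x) = t (algebraMap F Ω x))
    (V : Submodule F Ω) {N : ℕ} (v : Basis (Fin N) F V) :
    Submodule.span A (t '' (V : Set Ω)) ≤
      Submodule.span A (Set.range fun i => t (v i : Ω)) := by
  rw [Submodule.span_le]
  rintro _ ⟨u, hu, rfl⟩
  have h1 : u = ∑ i, v.repr ⟨u, hu⟩ i • (v i : Ω) := by
    have h := congrArg Subtype.val (v.sum_repr ⟨u, hu⟩)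
    rw [Submodule.coe_sum] at h
    exact h.symm
  rw [h1, map_sum]
  refine Submodule.sum_mem _ fun i _ => ?_
  have h2 : t (v.repr ⟨u, hu⟩ i • (v i : Ω)) = c (v.repr ⟨u, hu⟩ i) • t (v i : Ω) := by
    rw [Algebra.smul_def, Algebra.smul_def, map_mul, hc]
  rw [h2]
  exact Submodule.smul_mem _ _ (Submodule.subset_span ⟨i, rfl⟩)

end Sum

theorem sum_finrank_le (f : Fin m → Ω) (hf : LinearIndependent F f) (j : Fin m)
    (hj : Transcendental F (f j)) (U : Submodule F Ω)
    (hU : U = Submodule.span F (Set.range f)) (h1 : (1 : Ω) ∈ U) (s : ℕ) :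
    ∑ i ∈ Finset.range (s + 1), finrank (SF2 F f) (spanF2 f (U ^ i)) ≤ finrank F ↥(U ^ s) := by
  classical
  let i1 : Algebra (MvPolynomial (Fin m) F) (SF2 F f) := (Sum.psiA F f).toAlgebra
  let i2 : Algebra (MvPolynomial (Fin m) F) (SO1 Ω m) :=
    ((algebraMap (SF2 F f) (SO1 Ω m)).comp (Sum.psiA F f)).toAlgebra
  have i3 : IsScalarTower (MvPolynomial (Fin m) F) (SF2 F f) (SO1 Ω m) :=
    IsScalarTower.of_algebraMap_eq (fun _ => rfl)
  have hmono : Monotone fun i : ℕ => toO1 Ω m '' ((U ^ i : Submodule F Ω) : Set Ω) := by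
    refine monotone_nat_of_le_succ fun i => Set.image_mono ?_
    intro x hx
    have := Submodule.mul_mem_mul h1 hx
    rw [one_mul, ← pow_succ'] at this
    exact this
  obtain ⟨B, hB1, hB2, hB3, hB4⟩ := Sum.exists_nested (K := SF2 F f) _ hmono
  have hUfin : Module.Finite F U := by
    rw [hU]
    exact Module.Finite.span_of_finite F (Set.finite_range f)
  have : Module.Finite F ↥(U ^ s) := Module.Finite.iff_fg.mpr
    (Submodule.FG.pow (Module.Finite.iff_fg.mp hUfin) s)
  let v := Module.finBasis F ↥(U ^ s)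
  have hinj : Function.Injective
      (Polynomial.aeval (Sum.psi F f (X none)) :
        Polynomial (MvPolynomial (Fin m) F) →ₐ[MvPolynomial (Fin m) F] SF2 F f) := by
    have h := (Sum.psi_injective f j hj).comp (optionEquivLeft F (Fin m)).symm.injective
    have h' : ∀ p, (Polynomial.aeval (Sum.psi F f (X none)) :
        Polynomial (MvPolynomial (Fin m) F) →ₐ[MvPolynomial (Fin m) F] SF2 F f) p =
        Sum.psi F f ((optionEquivLeft F (Fin m)).symm p) := by
      intro p
      induction p using Polynomial.induction_on' with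
      | add p q hp hq => rw [map_add, map_add, map_add, hp, hq]
      | monomial n a =>
        rw [Polynomial.aeval_monomial, ← Polynomial.C_mul_X_pow_eq_monomial, map_mul, map_pow,
          map_mul, map_pow, Sum.optionEquivLeft_symm_C', optionEquivLeft_symm_X]
        rfl
    intro a b hab
    rw [h', h'] at hab
    exact h hab
  have h5 := Sum.card_le (A := MvPolynomial (Fin m) F) (K := SF2 F f) (L := SO1 Ω m)
    (Sum.psi F f (X none)) hinj s B hB1 hB3 (finrank F ↥(U ^ s)) (fun i => toO1 Ω m (v i : Ω)) (by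
      intro i hi b hb
      obtain ⟨u, hu, rfl⟩ := hB2 i hb
      have h6 := Sum.mem_span_pow (A := MvPolynomial (Fin m) F) (toO1 Ω m)
        (Sum.psi F f (X none) : SO1 Ω m) f (fun j => X j) (by
          rw [Sum.psi_coe]
          simp only [ev, aeval_X, Option.elim_none, lam, map_sum, map_mul]
          refine Finset.sum_congr rfl fun j _ => ?_
          congr 1
          exact (Sum.psiA_X f j).symm) U hU (s - i) i u hu
      rw [Nat.sub_add_cancel hi] at h6
      exact Sum.span_le_basis (A := MvPolynomial (Fin m) F) (toO1 Ω m) (fun x => C x)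
        (fun x => Sum.psiA_C f x) (U ^ s) v h6)
  refine le_trans (le_of_eq ?_) h5
  refine Finset.sum_congr rfl fun i _ => ?_
  rw [hB4 i]
  rfl

end Pool.Agent.SYZ68J
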