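import Pool.Agent.SYZ68J.SRank

/-!
# SYZ68J/STrd : transcendence degree of `Ω₁ / F₂`

`trdeg_gen`: `Ω₁ = Frac Ω[τ]`, `trdeg_F Ω₁ = trdeg_F Ω + m` (`Algebra.trdeg_add_eq`,
`MvPolynomial.trdeg_of_isDomain`, fraction fields are algebraic), `ev` injective, so
`trdeg_F F₂ = m + 1` (`F₂` is the fraction field of `ev(F[τ, X])`), and
`trdeg_F F₂ + trdeg_(F₂) Ω₁ = trdeg_F Ω₁` gives `(m + 1) + x = (w + 1) + m`, `x = w` (cancel finite
cardinals).
`adjoin_gen`: `F₂(U)` contains `F(U) = Ω` and the `τ_j`, hence `Ω[τ]` and `Ω₁`.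
`spanF2_pow`: `F₂ U^i = (F₂ U)^i`.
-/

set_option autoImplicit false

open MvPolynomial Module

universe u

namespace Pool.Agent.SYZ68J

variable {F Ω : Type u} [Field F] [Field Ω] [Algebra F Ω] {m : ℕ}

/-- `ev` as an `F`-algebra map into `Ω₁` -/
noncomputable def evO (F : Type u) {Ω : Type u} [Field F] [Field Ω] [Algebra F Ω] {m : ℕ}
    (f : Fin m → Ω) : MvPolynomial (Option (Fin m)) F →ₐ[F] SO1 Ω m :=
  ((IsScalarTower.toAlgHom (MvPolynomial (Fin m) Ω) (MvPolynomial (Fin m) Ω)
    (SO1 Ω m)).restrictScalars F).comp (ev F f)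

theorem evO_apply (f : Fin m → Ω) (q : MvPolynomial (Option (Fin m)) F) :
    evO F f q = algebraMap _ (SO1 Ω m) (ev F f q) := rfl

theorem evO_mem (f : Fin m → Ω) (q : MvPolynomial (Option (Fin m)) F) :
    evO F f q ∈ SF2 F f :=
  IntermediateField.subset_adjoin _ _ ⟨_, ⟨q, rfl⟩, rfl⟩

/-- `ev` as a map to `F₂` -/
noncomputable def evF (F : Type u) {Ω : Type u} [Field F] [Field Ω] [Algebra F Ω] {m : ℕ}
    (f : Fin m → Ω) : MvPolynomial (Option (Fin m)) F →ₐ[F] SF2 F f :=
  (evO F f).codRestrict (SF2 F f).toSubalgebra (evO_mem f)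

theorem trdeg_SF2 (f : Fin m → Ω) (j : Fin m) (hj : Transcendental F (f j)) :
    Algebra.trdeg F (SF2 F f) = ((m + 1 : ℕ) : Cardinal.{u}) := by
  have hinj : Function.Injective (evF F f) := by
    intro a b hab
    have h1 : evO F f a = evO F f b := congrArg Subtype.val hab
    rw [evO_apply, evO_apply] at h1
    exact ev_injective f j hj (IsFractionRing.injective (MvPolynomial (Fin m) Ω) (SO1 Ω m) h1)
  let _ : Algebra (MvPolynomial (Option (Fin m)) F) (SF2 F f) := (evF F f).toRingHom.toAlgebra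
  have : IsScalarTower F (MvPolynomial (Option (Fin m)) F) (SF2 F f) :=
    IsScalarTower.of_algebraMap_eq fun x => ((evF F f).commutes x).symm
  have hinj' : Function.Injective (algebraMap (MvPolynomial (Option (Fin m)) F) (SF2 F f)) := hinj
  have : FaithfulSMul (MvPolynomial (Option (Fin m)) F) (SF2 F f) :=
    (faithfulSMul_iff_algebraMap_injective _ _).2 hinj'
  have : Algebra.IsAlgebraic (MvPolynomial (Option (Fin m)) F) (SF2 F f) := by
    refine ⟨fun x => ?_⟩
    obtain ⟨a, b, hb, hx⟩ := (mem_SF2 f x.1).1 x.2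
    have hbF : evF F f b ≠ 0 := by
      intro h
      apply hb
      have h1 : evO F f b = 0 := congrArg Subtype.val h
      rw [evO_apply] at h1
      exact (IsFractionRing.injective (MvPolynomial (Fin m) Ω) (SO1 Ω m)) (by rw [h1, map_zero])
    have hb0 : b ≠ 0 := fun h => hbF (by rw [h, map_zero])
    have hx' : x * evF F f b = evF F f a := by
      apply Subtype.ext
      change x.1 * evO F f b = evO F f a
      rw [evO_apply, evO_apply, hx, div_mul_cancel₀]
      intro h
      apply hb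
      exact (IsFractionRing.injective (MvPolynomial (Fin m) Ω) (SO1 Ω m)) (by rw [h, map_zero])
    refine ⟨Polynomial.C b * Polynomial.X - Polynomial.C a, ?_, ?_⟩
    · intro h
      have := congrArg (fun p => Polynomial.coeff p 1) h
      simp at this
      exact hb0 this
    · rw [map_sub, map_mul, Polynomial.aeval_C, Polynomial.aeval_X, Polynomial.aeval_C]
      change evF F f b * x - evF F f a = 0
      rw [mul_comm, hx', sub_self]
  have h1 := _root_.trdeg_add_eq F (MvPolynomial (Option (Fin m)) F) (A := SF2 F f)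
  rw [_root_.trdeg_eq_zero (R := MvPolynomial (Option (Fin m)) F), add_zero, MvPolynomial.trdeg_of_isDomain] at h1
  rw [← h1]
  simp

theorem trdeg_SO1 (w : ℕ) (htr : Algebra.trdeg F Ω = ((w + 1 : ℕ) : Cardinal.{u})) :
    Algebra.trdeg F (SO1 Ω m) = ((w + 1 + m : ℕ) : Cardinal.{u}) := by
  have h1 := _root_.trdeg_add_eq F Ω (A := MvPolynomial (Fin m) Ω)
  have h2 := _root_.trdeg_add_eq F (MvPolynomial (Fin m) Ω) (A := SO1 Ω m)
  have : Algebra.IsAlgebraic (MvPolynomial (Fin m) Ω) (SO1 Ω m) :=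
    (IsFractionRing.comap_isAlgebraic_iff (A := MvPolynomial (Fin m) Ω) (K := SO1 Ω m) (C := SO1 Ω m)).2 inferInstance
  rw [_root_.trdeg_eq_zero (R := MvPolynomial (Fin m) Ω), add_zero] at h2
  rw [← h2, ← h1, htr, MvPolynomial.trdeg_of_isDomain]
  simp

theorem trdeg_gen (f : Fin m → Ω) (j : Fin m) (hj : Transcendental F (f j)) (w : ℕ)
    (htr : Algebra.trdeg F Ω = ((w + 1 : ℕ) : Cardinal.{u})) :
    Algebra.trdeg (SF2 F f) (SO1 Ω m) = (w : Cardinal.{u}) := by
  have h1 := _root_.trdeg_add_eq F (SF2 F f) (A := SO1 Ω m)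
  rw [trdeg_SF2 f j hj, trdeg_SO1 w htr] at h1
  have h2 : ((w + 1 + m : ℕ) : Cardinal.{u}) = ((m + 1 : ℕ) : Cardinal.{u}) + (w : Cardinal.{u}) := by
    rw [← Nat.cast_add]
    congr 1
    omega
  rw [h2] at h1
  exact Cardinal.eq_of_add_eq_add_left h1 Cardinal.natCast_lt_aleph0

theorem adjoin_gen (f : Fin m → Ω) (U : Submodule F Ω)
    (hadj : IntermediateField.adjoin F (U : Set Ω) = ⊤) :
    IntermediateField.adjoin (SF2 F f) (spanF2 f U : Set (SO1 Ω m)) = ⊤ := by
  set K := IntermediateField.adjoin (SF2 F f) (spanF2 f U : Set (SO1 Ω m)) with hK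
  have hF : ∀ c : F, algebraMap F (SO1 Ω m) c ∈ K := by
    intro c
    have h1 : algebraMap F (SO1 Ω m) c ∈ SF2 F f := (SF2 F f).algebraMap_mem c
    exact K.algebraMap_mem (⟨_, h1⟩ : SF2 F f)
  have hcomp : ∀ c : F, toO1 Ω m (algebraMap F Ω c) = algebraMap F (SO1 Ω m) c := by
    intro c
    change algebraMap (MvPolynomial (Fin m) Ω) (SO1 Ω m) (C (algebraMap F Ω c)) = _
    rw [IsScalarTower.algebraMap_apply F (MvPolynomial (Fin m) Ω) (SO1 Ω m)]
    rfl
  -- the preimage of `K` in `Ω`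
  let L : IntermediateField F Ω :=
    { (K.toSubfield.comap (toO1 Ω m)) with
      algebraMap_mem' := by
        intro c
        change toO1 Ω m (algebraMap F Ω c) ∈ K
        rw [hcomp]
        exact hF c }
  have hL : L = ⊤ := by
    rw [eq_top_iff, ← hadj, IntermediateField.adjoin_le_iff]
    intro x hx
    change toO1 Ω m x ∈ K
    exact IntermediateField.subset_adjoin _ _ (Submodule.subset_span ⟨x, hx, rfl⟩)
  have hC : ∀ x : Ω, toO1 Ω m x ∈ K := by
    intro x
    have : x ∈ L := by rw [hL]; trivial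
    exact this
  have hX : ∀ i : Fin m, algebraMap (MvPolynomial (Fin m) Ω) (SO1 Ω m) (X i) ∈ K := by
    intro i
    have h1 : evO F f (X (some i)) ∈ SF2 F f := evO_mem f _
    have h2 : evO F f (X (some i)) = algebraMap (MvPolynomial (Fin m) Ω) (SO1 Ω m) (X i) := by
      rw [evO_apply]
      simp [ev]
    rw [← h2]
    exact K.algebraMap_mem (⟨_, h1⟩ : SF2 F f)
  have hP : ∀ p : MvPolynomial (Fin m) Ω, algebraMap (MvPolynomial (Fin m) Ω) (SO1 Ω m) p ∈ K := by
    intro p
    induction p using MvPolynomial.induction_on with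
    | C a => exact hC a
    | add p q hp hq => rw [map_add]; exact add_mem hp hq
    | mul_X p i hp => rw [map_mul]; exact mul_mem hp (hX i)
  rw [eq_top_iff]
  intro x _
  obtain ⟨a, b, hb, rfl⟩ := IsFractionRing.div_surjective (A := MvPolynomial (Fin m) Ω) x
  exact div_mem (hP a) (hP b)

theorem algebraMap_toO1 (c : F) :
    toO1 Ω m (algebraMap F Ω c) = algebraMap F (SO1 Ω m) c := by
  change algebraMap (MvPolynomial (Fin m) Ω) (SO1 Ω m) (C (algebraMap F Ω c)) = _
  rw [IsScalarTower.algebraMap_apply F (MvPolynomial (Fin m) Ω) (SO1 Ω m)]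
  rfl

/-- `Ω → Ω₁` as an `F`-linear map -/
noncomputable def toO1L (F : Type u) (Ω : Type u) [Field F] [Field Ω] [Algebra F Ω] (m : ℕ) :
    Ω →ₗ[F] SO1 Ω m where
  toFun := toO1 Ω m
  map_add' := map_add _
  map_smul' := by
    intro c x
    rw [Algebra.smul_def, map_mul, algebraMap_toO1, RingHom.id_apply, Algebra.smul_def]

theorem spanF2_span (f : Fin m → Ω) (S : Set Ω) :
    spanF2 f (Submodule.span F S) = Submodule.span (SF2 F f) (toO1 Ω m '' S) := by
  apply le_antisymm
  · apply Submodule.span_le.2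
    have h1 : Submodule.span F S ≤ ((Submodule.span (SF2 F f) (toO1 Ω m '' S)).restrictScalars F).comap
        (toO1L F Ω m) := by
      rw [Submodule.span_le]
      intro x hx
      exact Submodule.subset_span ⟨x, hx, rfl⟩
    rintro _ ⟨x, hx, rfl⟩
    exact h1 hx
  · exact Submodule.span_mono (Set.image_mono Submodule.subset_span)

theorem spanF2_mul (f : Fin m → Ω) (U V : Submodule F Ω) :
    spanF2 f (U * V) = spanF2 f U * spanF2 f V := by
  rw [Submodule.mul_eq_span_mul_set, spanF2_span, Set.image_mul, ← Submodule.span_mul_span]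
  rfl

theorem spanF2_one (f : Fin m → Ω) : spanF2 f (1 : Submodule F Ω) = 1 := by
  rw [Submodule.one_eq_span, spanF2_span, Set.image_singleton, map_one, Submodule.one_eq_span]

theorem spanF2_pow (f : Fin m → Ω) (U : Submodule F Ω) (i : ℕ) :
    spanF2 f (U ^ i) = (spanF2 f U) ^ i := by
  induction i with
  | zero => rw [pow_zero, pow_zero, spanF2_one]
  | succ i ih => rw [pow_succ, pow_succ, spanF2_mul, ih]

end Pool.Agent.SYZ68J
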