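import Pool.Agent.SYZ68J.SOne
import Pool.Agent.SYZ68J.SSum
import Pool.Agent.SYZ68J.STrd

/-!
# SYZ68J/SMain : dimension of the powers of a subspace of a field

`1 ∈ U` a finite dimensional `F`-subspace of `Ω = F(U)`, `w = trdeg_F Ω`.  There is `s₀` with
`dim U * (s + w choose w) ≤ 2^w dim U^(s + s₀)` for all `s`.

Proof.  Induction on `w` (for all `F, Ω, U`).
* `w = 0`: `(s choose 0) = 1`, `s₀ = 1`: `U ≤ U^(s+1)`.
* `w = 1`: `finrank_pow_ge_one`.
* `w + 1`, `w ≥ 1`: let `f : Fin m → Ω` be an `F`-basis of `U` with `f_(i₀) = 1`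
  (extend `1` to a basis), `F₂ = SF2 F f`, `U₂ = spanF2 f U`.  `rank_ge`: `m ≤ 2 dim U₂`
  (`F(f) = F(U) = ⊤` has transcendence degree `w + 1 ≥ 2`).  Some `f_j` is transcendental.
  `trdeg_gen`, `adjoin_gen`: the induction hypothesis for `(F₂, Ω₁, U₂, w)`:
  `dim U₂ * (s + w choose w) ≤ 2^w dim U₂^(s + s₀)`.  `sum_finrank_le`, `spanF2_pow`:
  `dim U^(s + s₀) ≥ ∑_(i ≤ s + s₀) dim U₂^i ≥ ∑_(i ≤ s) dim U₂^(i + s₀)`, and
  `∑_(i ≤ s) (i + w choose w) = (s + w + 1 choose w + 1)` (`Nat.sum_Icc_choose`-like).
-/

set_option autoImplicit false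

open Module

universe u

namespace Pool.Agent.SYZ68J

private theorem one_mem_pow57 {F Ω : Type u} [Field F] [Field Ω] [Algebra F Ω]
    (U : Submodule F Ω) (h1 : (1 : Ω) ∈ U) (n : ℕ) : (1 : Ω) ∈ U ^ n := by
  induction n with
  | zero => rw [pow_zero]; exact Submodule.one_le.1 le_rfl
  | succ n ih =>
    rw [pow_succ]
    have := Submodule.mul_mem_mul ih h1
    rwa [one_mul] at this

private theorem pow_mono57 {F Ω : Type u} [Field F] [Field Ω] [Algebra F Ω]
    (U : Submodule F Ω) (h1 : (1 : Ω) ∈ U) {a b : ℕ} (h : a ≤ b) : U ^ a ≤ U ^ b := by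
  obtain ⟨c, rfl⟩ := Nat.exists_eq_add_of_le h
  rw [pow_add]
  intro x hx
  have := Submodule.mul_mem_mul hx (one_mem_pow57 U h1 c)
  rwa [mul_one] at this

private theorem finite_pow57 {F Ω : Type u} [Field F] [Field Ω] [Algebra F Ω]
    (U : Submodule F Ω) [h : Module.Finite F U] (n : ℕ) : Module.Finite F ↥(U ^ n) := by
  rw [Module.Finite.iff_fg] at h ⊢
  exact h.pow n

/-- a basis of `U` through `1` -/
private theorem exists_basis57 {F Ω : Type u} [Field F] [Field Ω] [Algebra F Ω]
    (U : Submodule F Ω) [Module.Finite F U] (h1 : (1 : Ω) ∈ U) :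
    ∃ (m : ℕ) (f : Fin m → Ω) (i₀ : Fin m), LinearIndependent F f ∧ f i₀ = 1 ∧
      U = Submodule.span F (Set.range f) ∧ finrank F U = m := by
  have hs : LinearIndepOn F id ({1} : Set Ω) := by
    rw [linearIndepOn_singleton_iff]
    exact one_ne_zero
  obtain ⟨b, hbU, h1b, hUb, hb⟩ := exists_linearIndepOn_id_extension hs
    (Set.singleton_subset_iff.2 h1 : ({1} : Set Ω) ⊆ (U : Set Ω))
  have hspan : Submodule.span F b = U :=
    le_antisymm (Submodule.span_le.2 hbU) hUb
  have hfin : b.Finite := by
    have hb' : LinearIndependent F (fun x : b => (⟨x.1, hbU x.2⟩ : U)) := by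
      apply LinearIndependent.of_comp U.subtype
      exact hb
    have := hb'.finite
    exact Set.toFinite b
  have : Fintype b := hfin.fintype
  let e : Fin (Fintype.card b) ≃ b := (Fintype.equivFin b).symm
  refine ⟨Fintype.card b, fun i => (e i : Ω), e.symm ⟨1, h1b rfl⟩, ?_, ?_, ?_, ?_⟩
  · exact (LinearIndependent.comp hb e e.injective)
  · simp
  · rw [← hspan]
    congr 1
    ext x
    constructor
    · intro hx
      exact ⟨e.symm ⟨x, hx⟩, by simp⟩
    · rintro ⟨i, rfl⟩
      exact (e i).2
  · rw [← hspan]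
    have h2 := finrank_span_eq_card (R := F) (b := fun x : b => (x : Ω)) hb
    rw [Subtype.range_coe] at h2
    exact h2

theorem finrank_pow_ge (w : ℕ) : ∀ {F Ω : Type u} [Field F] [CharZero F] [Field Ω] [Algebra F Ω]
    (U : Submodule F Ω) [Module.Finite F U], (1 : Ω) ∈ U →
    IntermediateField.adjoin F (U : Set Ω) = ⊤ → Algebra.trdeg F Ω = (w : Cardinal.{u}) →
    ∃ s₀ : ℕ, ∀ s : ℕ, finrank F U * (s + w).choose w ≤ 2 ^ w * finrank F ↥(U ^ (s + s₀)) := by
  induction w with
  | zero =>
    intro F Ω _ _ _ _ U _ h1 hadj htr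
    refine ⟨1, fun s => ?_⟩
    have hfin := finite_pow57 U (s + 1)
    rw [Nat.choose_zero_right, mul_one, pow_zero, one_mul]
    apply Submodule.finrank_mono
    have := pow_mono57 U h1 (Nat.le_add_left 1 s)
    rwa [pow_one] at this
  | succ w ih =>
    intro F Ω _ _ _ _ U _ h1 hadj htr
    rcases Nat.eq_zero_or_pos w with hw | hw
    · subst hw
      obtain ⟨s₀, h⟩ := finrank_pow_ge_one U h1 hadj (by simpa using htr)
      refine ⟨s₀, fun s => ?_⟩
      simpa using h s
    · obtain ⟨m, f, i₀, hf, hfi, hUf, hm⟩ := exists_basis57 U h1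
      have hadjf : IntermediateField.adjoin F (Set.range f) = ⊤ := by
        rw [eq_top_iff, ← hadj, IntermediateField.adjoin_le_iff]
        intro x hx
        have hx' : x ∈ Submodule.span F (Set.range f) := by rw [← hUf]; exact hx
        have hle : Submodule.span F (Set.range f) ≤
            (IntermediateField.adjoin F (Set.range f)).toSubalgebra.toSubmodule := by
          rw [Submodule.span_le]
          exact IntermediateField.subset_adjoin F _
        exact hle hx'
      have htrf : (2 : Cardinal.{u}) ≤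
          Algebra.trdeg F (IntermediateField.adjoin F (Set.range f)) := by
        rw [hadjf]
        have h2 : Algebra.trdeg F (⊤ : IntermediateField F Ω) = Algebra.trdeg F Ω :=
          (IntermediateField.topEquiv (F := F) (E := Ω)).trdeg_eq
        rw [h2, htr]
        have : 2 ≤ w + 1 := by omega
        exact_mod_cast this
      have hj : ∃ j, Transcendental F (f j) := by
        by_contra hcon
        have hall : ∀ x ∈ Set.range f, IsIntegral F x := by
          rintro _ ⟨j, rfl⟩
          by_contra h3
          exact hcon ⟨j, fun h4 => h3 (isAlgebraic_iff_isIntegral.1 h4)⟩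
        have h5 : Algebra.IsAlgebraic F (IntermediateField.adjoin F (Set.range f)) :=
          IntermediateField.isAlgebraic_adjoin hall
        rw [_root_.trdeg_eq_zero (R := F)] at htrf
        exact absurd htrf (by simp)
      obtain ⟨j, hj⟩ := hj
      have hchar : CharZero (SF2 F f) :=
        charZero_of_injective_algebraMap (algebraMap F (SF2 F f)).injective
      have hfin2 : Module.Finite (SF2 F f) (spanF2 f U) := by
        rw [hUf, spanF2_span]
        exact Module.Finite.span_of_finite _ ((Set.finite_range f).image _)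
      have h1' : (1 : SO1 Ω m) ∈ spanF2 f U :=
        Submodule.subset_span ⟨1, h1, map_one _⟩
      obtain ⟨s₀, hs⟩ := ih (F := SF2 F f) (Ω := SO1 Ω m) (spanF2 f U) h1'
        (adjoin_gen f U hadj) (trdeg_gen f j hj w htr)
      refine ⟨s₀, fun s => ?_⟩
      have hrank : m ≤ 2 * finrank (SF2 F f) (spanF2 f U) := by
        have := rank_ge f hf i₀ hfi htrf
        rwa [← hUf] at this
      have hsum := sum_finrank_le f hf j hj U hUf h1 (s + s₀)
      have hsum' : ∑ i ∈ Finset.range (s + 1),
          finrank (SF2 F f) ↥((spanF2 f U) ^ (i + s₀)) ≤ finrank F ↥(U ^ (s + s₀)) := by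
        refine le_trans ?_ hsum
        have hsplit : ∑ i ∈ Finset.range (s + 1),
            finrank (SF2 F f) ↥((spanF2 f U) ^ (i + s₀)) =
            ∑ i ∈ (Finset.range (s + 1)).map (addRightEmbedding s₀),
              finrank (SF2 F f) ↥((spanF2 f U) ^ i) := by
          rw [Finset.sum_map]
          rfl
        rw [hsplit]
        have heq : ∀ i, finrank (SF2 F f) ↥(spanF2 f (U ^ i)) =
            finrank (SF2 F f) ↥((spanF2 f U) ^ i) := fun i => by rw [spanF2_pow]
        rw [Finset.sum_congr rfl (fun i _ => heq i)]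
        apply Finset.sum_le_sum_of_subset
        intro i hi
        rw [Finset.mem_map] at hi
        obtain ⟨a, ha, rfl⟩ := hi
        rw [Finset.mem_range] at ha ⊢
        change a + s₀ < _
        omega
      have hchoose : ∑ i ∈ Finset.range (s + 1), (i + w).choose w =
          (s + (w + 1)).choose (w + 1) := by
        clear * -
        induction s with
        | zero => simp
        | succ s ihs =>
          rw [Finset.sum_range_succ, ihs]
          have : s + 1 + (w + 1) = (s + (w + 1)) + 1 := by ring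
          rw [this, Nat.choose_succ_succ (s + (w + 1)) w, add_comm]
          congr 2
          ring
      rw [hm]
      calc m * (s + (w + 1)).choose (w + 1)
          ≤ (2 * finrank (SF2 F f) (spanF2 f U)) * (s + (w + 1)).choose (w + 1) :=
            Nat.mul_le_mul_right _ hrank
        _ = 2 * ∑ i ∈ Finset.range (s + 1),
              finrank (SF2 F f) (spanF2 f U) * (i + w).choose w := by
            rw [← hchoose, mul_assoc, Finset.mul_sum]
        _ ≤ 2 * ∑ i ∈ Finset.range (s + 1),
              2 ^ w * finrank (SF2 F f) ↥((spanF2 f U) ^ (i + s₀)) := by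
            apply Nat.mul_le_mul_left
            exact Finset.sum_le_sum fun i _ => hs i
        _ = 2 ^ (w + 1) * ∑ i ∈ Finset.range (s + 1),
              finrank (SF2 F f) ↥((spanF2 f U) ^ (i + s₀)) := by
            rw [← Finset.mul_sum, pow_succ]
            ring
        _ ≤ 2 ^ (w + 1) * finrank F ↥(U ^ (s + s₀)) := Nat.mul_le_mul_left _ hsum'

end Pool.Agent.SYZ68J
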