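import Pool.Agent.SYZ68J.SEt
import Pool.Agent.SYZ68J.SFin

/-!
# SYZ68J/SOne : dimension of powers, trdeg one

Proof.  `u = dim U`, `f, s₀` from `exists_finite_bound`.  By `finrank_mul_ge` with `A = U ^ (s+1)`,
`B = U`, `E = ⊤`: `dim U ^ (s + 1) + u ≤ dim U ^ (s + 2) + f`, so by induction
`(s + 1) * u ≤ dim U ^ (s + 1) + s * f`.  Also `f * (s + 1) ≤ dim U ^ (s + s₀)`.
Put `t = s + (s₀ + 1)`; `U ^ (s + 1), U ^ (s + s₀) ≤ U ^ t` (`1 ∈ U`).  Add the two bounds:
`(s + 1) u + f (s + 1) ≤ 2 dim U ^ t + s f`, so `(s + 1) u ≤ 2 dim U ^ t`.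
-/

set_option autoImplicit false

open Module

namespace Pool.Agent.SYZ68J

universe u

private theorem one_mem_pow' {F Ω : Type u} [Field F] [Field Ω] [Algebra F Ω]
    (U : Submodule F Ω) (h1 : (1 : Ω) ∈ U) (n : ℕ) : (1 : Ω) ∈ U ^ n := by
  induction n with
  | zero => rw [pow_zero]; exact Submodule.one_le.1 le_rfl
  | succ n ih =>
    rw [pow_succ]
    have := Submodule.mul_mem_mul ih h1
    rwa [one_mul] at this

private theorem pow_mono' {F Ω : Type u} [Field F] [Field Ω] [Algebra F Ω]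
    (U : Submodule F Ω) (h1 : (1 : Ω) ∈ U) {a b : ℕ} (h : a ≤ b) : U ^ a ≤ U ^ b := by
  obtain ⟨c, rfl⟩ := Nat.exists_eq_add_of_le h
  rw [pow_add]
  intro x hx
  have := Submodule.mul_mem_mul hx (one_mem_pow' U h1 c)
  rwa [mul_one] at this

private theorem finite_pow' {F Ω : Type u} [Field F] [Field Ω] [Algebra F Ω]
    (U : Submodule F Ω) [h : Module.Finite F U] (n : ℕ) : Module.Finite F ↥(U ^ n) := by
  rw [Module.Finite.iff_fg] at h ⊢
  exact h.pow n

theorem finrank_pow_ge_one {F Ω : Type u} [Field F] [Field Ω] [Algebra F Ω]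
    (U : Submodule F Ω) [Module.Finite F U] (h1 : (1 : Ω) ∈ U)
    (hadj : IntermediateField.adjoin F (U : Set Ω) = ⊤) (htr : Algebra.trdeg F Ω = 1) :
    ∃ s₀ : ℕ, ∀ s : ℕ, finrank F U * (s + 1) ≤ 2 * finrank F ↥(U ^ (s + s₀)) := by
  obtain ⟨f, s₀, hf, hs⟩ := exists_finite_bound U h1 hadj htr
  have key : ∀ s : ℕ, (s + 1) * finrank F U ≤ finrank F ↥(U ^ (s + 1)) + s * f := by
    intro s
    induction s with
    | zero =>
      rw [zero_add, pow_one, one_mul, zero_mul, add_zero]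
    | succ s ih =>
      have := finite_pow' U (s + 1)
      obtain ⟨H, -, hH, h2⟩ := finrank_mul_ge ⊤ (U ^ (s + 1)) U (one_mem_pow' U h1 _) h1
        (fun _ _ => IntermediateField.mem_top) (fun _ _ => IntermediateField.mem_top)
      have h3 := hf H hH
      rw [← pow_succ] at h2
      calc (s + 1 + 1) * finrank F U = (s + 1) * finrank F U + finrank F U := by ring
        _ ≤ finrank F ↥(U ^ (s + 1)) + s * f + finrank F U := Nat.add_le_add_right ih _
        _ = (finrank F ↥(U ^ (s + 1)) + finrank F U) + s * f := by ring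
        _ ≤ (finrank F ↥(U ^ (s + 1 + 1)) + f) + s * f := by omega
        _ = finrank F ↥(U ^ (s + 1 + 1)) + (s + 1) * f := by ring
  refine ⟨s₀ + 1, fun s => ?_⟩
  have hfin := finite_pow' U (s + (s₀ + 1))
  have h2 : finrank F ↥(U ^ (s + 1)) ≤ finrank F ↥(U ^ (s + (s₀ + 1))) :=
    Submodule.finrank_mono (pow_mono' U h1 (by omega))
  have h3 : finrank F ↥(U ^ (s + s₀)) ≤ finrank F ↥(U ^ (s + (s₀ + 1))) :=
    Submodule.finrank_mono (pow_mono' U h1 (by omega))
  have h4 := key s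
  have h5 := hs s
  have h6 : f * (s + 1) = s * f + f := by ring
  rw [mul_comm (finrank F U)]
  omega

end Pool.Agent.SYZ68J
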