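import Mathlib

/-!
# SYZ68J/SPoly : the generic element, polynomial part

`Ω / F` fields, `f : Fin u → Ω`.  `T = Ω[τ_0..τ_(u-1)]`, `S = F[τ_0..τ_(u-1), X]`
(`MvPolynomial (Option (Fin u)) F`, `none` is `X`), `ev : S → T`, `τ_j ↦ τ_j`,
`X ↦ λ = ∑ τ_j f_j`.

* `pderiv_ev` (chain rule): induction on `q` (`MvPolynomial.induction_on`), or: both sides are
  derivations `S → T` along `ev` with the same values on the variables.
* `Rel f` = the `p : Fin u → S` with `∑ ev (p_l) f_l = 0`; `gg f p = ∑ ev (∂_X p_l) f_l`.
* `mul_gg`: for `p ∈ Rel f`: apply `pderiv j` to `∑ ev (p_l) f_l = 0`: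
  `f_j * gg p = - ∑ ev (∂_j p_l) f_l`.
* `gg_eq_zero`: let `f` be `F`-linearly independent, `P` a subset of `Rel f` such that
  `∂_X p, ∂_j p ∈ P` for `p ∈ P`.  Then `P ⊆ {0}`: take `0 ≠ p ∈ P` with
  `∑ l, (p l).totalDegree` minimal; the derivatives have smaller sum (or are zero), so they vanish,
  all `p_l` are constants (char `0`: `MvPolynomial` with all `pderiv` zero is a constant), and
  `∑ c_l f_l = 0` with `c_l ∈ F`, so `c = 0`.
  [Careful: `(pderiv i q).totalDegree < q.totalDegree` if `pderiv i q ≠ 0`; and `≤` always.]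
-/

set_option autoImplicit false

open MvPolynomial

universe u v

namespace Pool.Agent.SYZ68J

variable {F : Type v} {Ω : Type u} [Field F] [Field Ω] [Algebra F Ω] {m : ℕ}

/-- the generic element `λ = ∑ τ_j f_j` -/
noncomputable def lam (f : Fin m → Ω) : MvPolynomial (Fin m) Ω := ∑ j, X j * C (f j)

/-- `F[τ, X] → Ω[τ]`, `X ↦ λ` -/
noncomputable def ev (F : Type v) {Ω : Type u} [Field F] [Field Ω] [Algebra F Ω] {m : ℕ}
    (f : Fin m → Ω) :
    MvPolynomial (Option (Fin m)) F →ₐ[F] MvPolynomial (Fin m) Ω :=
  aeval fun i => i.elim (lam f) X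

theorem pderiv_ev (f : Fin m → Ω) (j : Fin m) (q : MvPolynomial (Option (Fin m)) F) :
    pderiv j (ev F f q) = ev F f (pderiv (some j) q) + C (f j) * ev F f (pderiv none q) := by
  classical
  induction q using MvPolynomial.induction_on with
  | C a => simp [ev, MvPolynomial.algebraMap_eq, IsScalarTower.algebraMap_apply F Ω (MvPolynomial (Fin m) Ω)]
  | add p q hp hq =>
    simp only [map_add, hp, hq]
    ring
  | mul_X p i hp =>
    rw [map_mul, pderiv_mul, hp, pderiv_mul, pderiv_mul, map_add, map_add, map_mul, map_mul,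
      map_mul, map_mul]
    have key : pderiv j (ev F f (X i)) = ev F f (pderiv (some j) (X i)) +
        C (f j) * ev F f (pderiv none (X i)) := by
      cases i with
      | none =>
        rw [pderiv_X_of_ne (by simp : (none : Option (Fin m)) ≠ some j), pderiv_X_self]
        simp only [map_zero, zero_add, map_one, mul_one]
        simp only [ev, aeval_X, Option.elim, lam, map_sum]
        rw [Finset.sum_eq_single j]
        · rw [pderiv_mul, pderiv_X_self, pderiv_C]; simp
        · intro b _ hb
          rw [pderiv_mul, pderiv_X_of_ne hb, pderiv_C]; simp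
        · intro h; exact absurd (Finset.mem_univ j) h
      | some k =>
        rw [pderiv_X_of_ne (by simp : (some k : Option (Fin m)) ≠ none)]
        simp only [map_zero, mul_zero, add_zero]
        have : ev F f (X (some k)) = X k := by simp [ev]
        rw [this]
        by_cases hk : k = j
        · subst hk; rw [pderiv_X_self, pderiv_X_self, map_one]
        · rw [pderiv_X_of_ne hk, pderiv_X_of_ne (by simpa using hk), map_zero]
    rw [key]
    ring

/-- relations between the `f_l` with coefficients in `F[τ, λ]` -/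
def Rel (F : Type v) {Ω : Type u} [Field F] [Field Ω] [Algebra F Ω] {m : ℕ} (f : Fin m → Ω) :
    Set (Fin m → MvPolynomial (Option (Fin m)) F) :=
  {p | ∑ l, ev F f (p l) * C (f l) = 0}

/-- `g(p) = ∑ ev (∂_X p_l) f_l` -/
noncomputable def gg (f : Fin m → Ω) (p : Fin m → MvPolynomial (Option (Fin m)) F) :
    MvPolynomial (Fin m) Ω := ∑ l, ev F f (pderiv none (p l)) * C (f l)

theorem mul_gg (f : Fin m → Ω) (p : Fin m → MvPolynomial (Option (Fin m)) F)
    (hp : p ∈ Rel F f) (j : Fin m) :
    C (f j) * gg f p = - ∑ l, ev F f (pderiv (some j) (p l)) * C (f l) := by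
  have h : ∑ l, ev F f (p l) * C (f l) = 0 := hp
  have h2 := congrArg (pderiv j) h
  rw [map_zero, map_sum] at h2
  have h3 : ∀ l, pderiv j (ev F f (p l) * C (f l)) =
      ev F f (pderiv (some j) (p l)) * C (f l) +
        C (f j) * (ev F f (pderiv none (p l)) * C (f l)) := by
    intro l
    rw [pderiv_mul, pderiv_C, mul_zero, add_zero, pderiv_ev]
    ring
  rw [Finset.sum_congr rfl (fun l _ => h3 l), Finset.sum_add_distrib, ← Finset.mul_sum] at h2
  rw [gg]
  rw [eq_neg_iff_add_eq_zero, add_comm]
  exact h2

private theorem totalDegree_pderiv_lt {σ : Type*} {q : MvPolynomial σ F} {i : σ}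
    (h : pderiv i q ≠ 0) : (pderiv i q).totalDegree < q.totalDegree := by
  classical
  obtain ⟨b, hb, hb2⟩ := Finset.exists_mem_eq_sup (pderiv i q).support
    (by rwa [Finset.nonempty_iff_ne_empty, Ne, MvPolynomial.support_eq_empty])
    (fun s => s.sum fun _ e => e)
  have h1 : (pderiv i q).totalDegree = b.sum fun _ e => e := hb2
  have h2 : coeff (b + Finsupp.single i 1) q ≠ 0 := by
    intro h0
    rw [MvPolynomial.mem_support_iff, coeff_pderiv, h0, zero_mul] at hb
    exact hb rfl
  have h3 : ((b + Finsupp.single i 1).sum fun _ e => e) ≤ q.totalDegree :=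
    MvPolynomial.le_totalDegree (MvPolynomial.mem_support_iff.2 h2)
  rw [Finsupp.sum_add_index' (by simp) (by intros; rfl), Finsupp.sum_single_index rfl] at h3
  omega

private theorem totalDegree_pderiv_le' {σ : Type*} (q : MvPolynomial σ F) (i : σ) :
    (pderiv i q).totalDegree ≤ q.totalDegree := by
  by_cases h : pderiv i q = 0
  · rw [h, totalDegree_zero]; exact Nat.zero_le _
  · exact (totalDegree_pderiv_lt h).le

private theorem eq_C_of_pderiv {σ : Type*} [CharZero F] (q : MvPolynomial σ F)
    (h : ∀ i, pderiv i q = 0) : q = C (coeff 0 q) := by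
  classical
  ext b
  rw [coeff_C]
  split_ifs with hb
  · rw [← hb]
  · by_contra h0
    have hne : b ≠ 0 := fun h => hb h.symm
    obtain ⟨i, hi⟩ : ∃ i, b i ≠ 0 := by
      by_contra hcon
      push Not at hcon
      exact hne (Finsupp.ext hcon)
    have h1 := coeff_pderiv (i := i) q (b - Finsupp.single i 1)
    rw [h i, coeff_zero] at h1
    have h2 : b - Finsupp.single i 1 + Finsupp.single i 1 = b := by
      apply tsub_add_cancel_of_le
      rw [Finsupp.single_le_iff]
      omega
    rw [h2] at h1
    have h3 : (((b - Finsupp.single i 1 : σ →₀ ℕ) i : F) + 1) ≠ 0 := Nat.cast_add_one_ne_zero _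
    exact (mul_ne_zero h0 h3) h1.symm

theorem eq_zero_of_stable [CharZero F] (f : Fin m → Ω) (hf : LinearIndependent F f)
    (P : Set (Fin m → MvPolynomial (Option (Fin m)) F)) (hP : P ⊆ Rel F f)
    (hX : ∀ i, ∀ p ∈ P, (fun l => pderiv i (p l)) ∈ P) : ∀ p ∈ P, p = 0 := by
  classical
  have main : ∀ n : ℕ, ∀ p ∈ P, ∑ l, (p l).totalDegree = n → p = 0 := by
    intro n
    induction n using Nat.strong_induction_on with
    | _ n ih =>
      intro p hp hn
      have hder : ∀ i, (fun l => pderiv i (p l)) = (0 : Fin m → MvPolynomial (Option (Fin m)) F) := by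
        intro i
        by_contra hne
        obtain ⟨l, hl⟩ : ∃ l, pderiv i (p l) ≠ 0 := by
          by_contra hcon
          push Not at hcon
          exact hne (funext hcon)
        have hlt : ∑ l, (pderiv i (p l)).totalDegree < n := by
          rw [← hn]
          exact Finset.sum_lt_sum (fun l _ => totalDegree_pderiv_le' (p l) i)
            ⟨l, Finset.mem_univ l, totalDegree_pderiv_lt hl⟩
        exact hne (ih _ hlt _ (hX i p hp) rfl)
      have hC : ∀ l, p l = C (coeff 0 (p l)) := fun l =>
        eq_C_of_pderiv (p l) (fun i => congrFun (hder i) l)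
      have hrel : ∑ l, ev F f (p l) * C (f l) = 0 := hP hp
      have h2 : ∀ l, ev F f (p l) * C (f l) = C ((coeff 0 (p l)) • f l) := by
        intro l
        conv_lhs => rw [hC l]
        rw [Algebra.smul_def, C_mul]
        congr 1
        simp [ev, MvPolynomial.algebraMap_eq,
          IsScalarTower.algebraMap_apply F Ω (MvPolynomial (Fin m) Ω)]
      rw [Finset.sum_congr rfl (fun l _ => h2 l), ← map_sum, MvPolynomial.C_eq_zero] at hrel
      have h3 := Fintype.linearIndependent_iff.1 hf (fun l => coeff 0 (p l)) hrel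
      funext l
      rw [hC l, h3 l, C_0]
      rfl
  intro p hp
  exact main _ p hp rfl

end Pool.Agent.SYZ68J
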