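import Pool.Agent.SYZ68J.SFrac

/-!
# SYZ68J/SRank : `dim_F U ≤ 2 dim_(F₂) F₂ U` if `trdeg F(U) ≥ 2`

`f : Fin m → Ω` linearly independent over `F`, `f_0 = 1`, `N = ∑ F₂ f_l ⊆ Ω₁`, `r = dim_(F₂) N`.
Proof.
* Some `f_j` is transcendental (trdeg `≥ 2`), so `ev` is injective.
* Let `OO = {x ∈ Ω₁ | x N ⊆ N}`: an `F₂`-subalgebra of `Ω₁`; `1 ∈ N` so `OO ⊆ N`, `dim OO ≤ r`, and
  `OO` is a field (finite dimensional domain over a field).
* For `p ∈ Rel F f`: `gg f p ∈ OO`: `N` is spanned by the `f_l`, and
  `f_j * gg f p = - ∑ ev (∂_j p_l) f_l ∈ N` (`mul_gg`), a combination of the `f_l` with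
  coefficients in `F₂`.
* Let `P = {p ∈ Rel F f | gg f p = 0}`.  For `p ∈ P`: `∂_X p ∈ Rel` (that is `gg f p = 0`) and
  `∂_j p ∈ Rel` (by `mul_gg`).  `f_j * gg (∂_X p) = - gg (∂_j p)` by `mul_gg` for `∂_X p`
  (partial derivatives commute: `MvPolynomial.pderiv_pderiv_comm`-like).
  If `x = gg (∂_X p) ≠ 0` then `f_j = - gg (∂_j p) / x ∈ OO` for all `j` (both are in the field
  `OO`), so all `f_j` are algebraic over `F₂`; but then
  `trdeg_F Ω₁' ≤ trdeg_F F₂ ≤ m + 1` where `Ω₁' = F(τ, f)` has transcendence degree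
  `m + trdeg F(f) ≥ m + 2`.  Contradiction.  So `gg (∂_X p) = 0` and `gg (∂_j p) = 0`.
  By `eq_zero_of_stable` `P ⊆ {0}`.
* The relation space `{c ∈ F₂^m | ∑ c_l f_l = 0}` has dimension `m - r` over `F₂`.  Choose a basis
  and clear denominators (`mem_SF2`): polynomial vectors `p^(1), …, p^(m-r) ∈ Rel F f`, linearly
  independent over `F₂`.  Then `gg f p^(i) ∈ OO` are `F₂`-linearly independent: if
  `∑ ev(q_i) gg (p^(i)) = 0` with `q_i ∈ F[τ, X]` then `p = ∑ q_i p^(i) ∈ Rel` and
  `gg p = ∑ ev (∂_X q_i) * 0 + ∑ ev q_i * gg p^(i) = 0`, so `p ∈ P`, `p = 0`, `q_i = 0`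
  (`ev` injective).  So `m - r ≤ dim OO ≤ r`.
-/

set_option autoImplicit false

open MvPolynomial Module

universe u

namespace Pool.Agent.SYZ68J

variable {F Ω : Type u} [Field F] [Field Ω] [Algebra F Ω] {m : ℕ}

/-- the `F₂`-span of `U ⊆ Ω` in `Ω₁` -/
noncomputable def spanF2 (f : Fin m → Ω) (U : Submodule F Ω) : Submodule (SF2 F f) (SO1 Ω m) :=
  Submodule.span (SF2 F f) (toO1 Ω m '' (U : Set Ω))

/-- the map `F[τ, X] → Ω₁` -/
private noncomputable def srk_phi (f : Fin m → Ω) :
    MvPolynomial (Option (Fin m)) F →ₐ[F] SO1 Ω m :=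
  (IsScalarTower.toAlgHom F (MvPolynomial (Fin m) Ω) (SO1 Ω m)).comp (ev F f)

private theorem srk_phi_apply (f : Fin m → Ω) (q : MvPolynomial (Option (Fin m)) F) :
    srk_phi f q = algebraMap (MvPolynomial (Fin m) Ω) (SO1 Ω m) (ev F f q) := rfl

private theorem srk_adj (f : Fin m → Ω) (q : MvPolynomial (Option (Fin m)) F) :
    srk_phi f q ∈ Algebra.adjoin F (Set.range fun o : Option (Fin m) => srk_phi f (X o : MvPolynomial (Option (Fin m)) F)) := by
  have h : (srk_phi f : MvPolynomial (Option (Fin m)) F →ₐ[F] SO1 Ω m) =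
      aeval (fun o : Option (Fin m) => srk_phi f (X o : MvPolynomial (Option (Fin m)) F)) := by
    apply MvPolynomial.algHom_ext
    intro i
    rw [aeval_X]
  rw [Algebra.adjoin_range_eq_range_aeval, ← h]
  exact ⟨q, rfl⟩

private theorem srk_trd (f : Fin m → Ω)
    (htr : (2 : Cardinal.{u}) ≤ Algebra.trdeg F (IntermediateField.adjoin F (Set.range f)))
    (halg : ∀ j, IsAlgebraic (SF2 F f) (toO1 Ω m (f j))) : False := by
  classical
  set s : Set (SO1 Ω m) := Set.range fun o : Option (Fin m) =>
    srk_phi f (X o : MvPolynomial (Option (Fin m)) F) with hs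
  -- elements algebraic over `F[s]`
  have hphi : ∀ q : MvPolynomial (Option (Fin m)) F,
      IsAlgebraic (Algebra.adjoin F s) (srk_phi f q) := fun q =>
    isAlgebraic_algebraMap (⟨srk_phi f q, srk_adj f q⟩ : Algebra.adjoin F s)
  have hK : ∀ x : SO1 Ω m, x ∈ SF2 F f → IsAlgebraic (Algebra.adjoin F s) x := by
    intro x hx
    obtain ⟨a, b, -, rfl⟩ := (mem_SF2 f x).1 hx
    rw [div_eq_mul_inv]
    exact (hphi a).mul (hphi b).inv
  have htrans : ∀ x : SO1 Ω m, IsAlgebraic (SF2 F f) x → IsAlgebraic (Algebra.adjoin F s) x := by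
    intro x hx
    have h1 : IsAlgebraic (Algebra.adjoin F ((SF2 F f : IntermediateField F (SO1 Ω m)) :
        Set (SO1 Ω m))) x := by
      have h2 : Algebra.adjoin F ((SF2 F f : IntermediateField F (SO1 Ω m)) : Set (SO1 Ω m)) =
          (SF2 F f).toSubalgebra := Algebra.adjoin_eq (SF2 F f).toSubalgebra
      rw [h2]
      exact hx
    exact h1.adjoin_of_forall_isAlgebraic fun y hy => hK y hy.1
  have hE : ∀ y ∈ IntermediateField.adjoin F (Set.range f),
      IsAlgebraic (Algebra.adjoin F s) (toO1 Ω m y) := by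
    intro y hy
    induction hy using IntermediateField.adjoin_induction with
    | mem x hx =>
      obtain ⟨j, rfl⟩ := hx
      exact htrans _ (halg j)
    | algebraMap x =>
      have h1 : toO1 Ω m (algebraMap F Ω x) = srk_phi f (C x) := by
        rw [srk_phi_apply, ev, MvPolynomial.aeval_C]
        rfl
      rw [h1]
      exact hphi _
    | add x y _ _ hx hy => rw [map_add]; exact hx.add hy
    | inv x _ hx => rw [map_inv₀]; exact hx.inv
    | mul x y _ _ hx hy => rw [map_mul]; exact hx.mul hy
  -- two independent elements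
  obtain ⟨ι, x, hx⟩ := exists_isTranscendenceBasis' F (IntermediateField.adjoin F (Set.range f))
  rw [← hx.cardinalMk_eq_trdeg, Cardinal.two_le_iff] at htr
  obtain ⟨i1, i2, hne⟩ := htr
  have hinj : Function.Injective (![i1, i2] : Fin 2 → ι) := by
    intro a b hab
    fin_cases a <;> fin_cases b <;> simp_all
  have h1 : AlgebraicIndependent F (x ∘ ![i1, i2]) := hx.1.comp _ hinj
  have h2 : AlgebraicIndependent F
      ((IntermediateField.adjoin F (Set.range f)).val ∘ (x ∘ ![i1, i2])) :=
    h1.map' (f := (IntermediateField.adjoin F (Set.range f)).val) Subtype.val_injective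
  have h3 : AlgebraicIndependent Ω (fun j : Fin m =>
      algebraMap (MvPolynomial (Fin m) Ω) (SO1 Ω m) (X j)) := by
    have h4 : AlgebraicIndependent Ω (X : Fin m → MvPolynomial (Fin m) Ω) :=
      MvPolynomial.algebraicIndependent_X _ _
    exact h4.map' (f := IsScalarTower.toAlgHom Ω (MvPolynomial (Fin m) Ω) (SO1 Ω m))
      (IsFractionRing.injective _ _)
  have h5 := h2.sumElim_comp h3
  set I : Fin m ⊕ Fin 2 → SO1 Ω m := Sum.elim (fun j : Fin m =>
      algebraMap (MvPolynomial (Fin m) Ω) (SO1 Ω m) (X j)) (algebraMap Ω (SO1 Ω m) ∘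
      ((IntermediateField.adjoin F (Set.range f)).val ∘ (x ∘ ![i1, i2]))) with hI
  have hIalg : ∀ i, IsAlgebraic (Algebra.adjoin F s) (I i) := by
    rintro (j | i)
    · have h6 : I (Sum.inl j) = srk_phi f (X (some j) : MvPolynomial (Option (Fin m)) F) := by
        rw [srk_phi_apply, ev, MvPolynomial.aeval_X]
        rfl
      rw [h6]
      exact hphi _
    · exact hE _ (x (![i1, i2] i)).2
  let M : Matroid (SO1 Ω m) := AlgebraicIndependent.matroid F (SO1 Ω m)
  have h6 : M.Indep (Set.range I) := by
    rw [AlgebraicIndependent.matroid_indep_iff]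
    exact h5.to_subtype_range
  have h7 : Set.range I ⊆ M.closure s := by
    rintro _ ⟨i, rfl⟩
    rw [AlgebraicIndependent.matroid_closure_eq]
    exact hIalg i
  have h8 : (Set.range I).encard ≤ s.encard := by
    rw [← h6.eRk_eq_encard]
    refine (M.eRk_mono h7).trans ?_
    rw [M.eRk_closure_eq]
    exact M.eRk_le_encard s
  have h9 : ((m + 2 : ℕ) : ℕ∞) ≤ (Set.range I).encard := by
    have h12 := h5.injective.encard_range
    rw [ENat.card_eq_coe_fintype_card, Fintype.card_sum, Fintype.card_fin,
      Fintype.card_fin] at h12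
    exact h12
  have h10 : s.encard ≤ ((m + 1 : ℕ) : ℕ∞) := by
    rw [hs, ← Set.image_univ]
    refine (Set.encard_image_le _ _).trans ?_
    rw [Set.encard_univ, ENat.card_eq_coe_fintype_card, Fintype.card_option, Fintype.card_fin]
  have h11 := (h9.trans h8).trans h10
  rw [Nat.cast_le] at h11
  omega


/-- the elements `f_l` in `Ω₁` -/
private noncomputable def srk_fb (f : Fin m → Ω) (l : Fin m) : SO1 Ω m := toO1 Ω m (f l)

/-- the elements of `F₂` given by polynomials -/
private noncomputable def srk_k (f : Fin m → Ω) (q : MvPolynomial (Option (Fin m)) F) :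
    SF2 F f := ⟨srk_phi f q, IntermediateField.subset_adjoin F _ ⟨_, ⟨q, rfl⟩, rfl⟩⟩

private theorem srk_k_mul (f : Fin m → Ω) (q q' : MvPolynomial (Option (Fin m)) F) :
    srk_k f (q * q') = srk_k f q * srk_k f q' :=
  Subtype.ext (map_mul (srk_phi f) q q')

private theorem srk_k_sum {κ : Type*} (f : Fin m → Ω) (s : Finset κ)
    (q : κ → MvPolynomial (Option (Fin m)) F) :
    srk_k f (∑ i ∈ s, q i) = ∑ i ∈ s, srk_k f (q i) := by
  apply Subtype.ext
  rw [AddSubmonoidClass.coe_finsetSum]
  exact map_sum (srk_phi f) q s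

private theorem srk_smul (f : Fin m → Ω) (q : MvPolynomial (Option (Fin m)) F) (y : SO1 Ω m) :
    srk_k f q • y = srk_phi f q * y := rfl

private theorem srk_span (f : Fin m → Ω) : spanF2 f (Submodule.span F (Set.range f)) =
    Submodule.span (SF2 F f) (Set.range (srk_fb f)) := by
  apply le_antisymm
  · unfold spanF2
    rw [Submodule.span_le]
    rintro _ ⟨x, hx, rfl⟩
    change x ∈ Submodule.span F (Set.range f) at hx
    change toO1 Ω m x ∈ Submodule.span (SF2 F f) (Set.range (srk_fb f))
    induction hx using Submodule.span_induction with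
    | mem x hx =>
      obtain ⟨j, rfl⟩ := hx
      exact Submodule.subset_span ⟨j, rfl⟩
    | zero => rw [map_zero]; exact Submodule.zero_mem _
    | add x y _ _ hx hy => rw [map_add]; exact Submodule.add_mem _ hx hy
    | smul c x _ hx =>
      have h1 : toO1 Ω m (c • x) = c • toO1 Ω m x := by
        rw [Algebra.smul_def, map_mul, Algebra.smul_def]
        rfl
      rw [h1]
      exact Submodule.smul_of_tower_mem _ c hx
  · exact Submodule.span_mono (by
      rintro _ ⟨j, rfl⟩
      exact ⟨f j, Submodule.subset_span ⟨j, rfl⟩, rfl⟩)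

private theorem srk_alg_sum (f : Fin m → Ω) (p : Fin m → MvPolynomial (Option (Fin m)) F) :
    algebraMap (MvPolynomial (Fin m) Ω) (SO1 Ω m) (∑ l, ev F f (p l) * C (f l)) =
      ∑ l, srk_k f (p l) • srk_fb f l := by
  rw [map_sum]
  refine Finset.sum_congr rfl fun l _ => ?_
  rw [map_mul, srk_smul]
  rfl

private theorem srk_gg_mem (f : Fin m → Ω) (p : Fin m → MvPolynomial (Option (Fin m)) F)
    (hp : p ∈ Rel F f) (n : SO1 Ω m) (hn : n ∈ Submodule.span (SF2 F f) (Set.range (srk_fb f))) :
    algebraMap (MvPolynomial (Fin m) Ω) (SO1 Ω m) (gg f p) * n ∈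
      Submodule.span (SF2 F f) (Set.range (srk_fb f)) := by
  induction hn using Submodule.span_induction with
  | mem x hx =>
    obtain ⟨j, rfl⟩ := hx
    have h1 : algebraMap (MvPolynomial (Fin m) Ω) (SO1 Ω m) (gg f p) * srk_fb f j =
        algebraMap (MvPolynomial (Fin m) Ω) (SO1 Ω m) (C (f j) * gg f p) := by
      rw [map_mul, mul_comm]
      rfl
    rw [h1, mul_gg f p hp j, map_neg, srk_alg_sum f (fun l => pderiv (some j) (p l))]
    refine Submodule.neg_mem _ (Submodule.sum_mem _ fun l _ => Submodule.smul_mem _ _ ?_)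
    exact Submodule.subset_span ⟨l, rfl⟩
  | zero => rw [mul_zero]; exact Submodule.zero_mem _
  | add x y _ _ hx hy => rw [mul_add]; exact Submodule.add_mem _ hx hy
  | smul c x _ hx => rw [mul_smul_comm]; exact Submodule.smul_mem _ _ hx

private theorem srk_pd {σ R : Type*} [CommRing R] (i j : σ) (q : MvPolynomial σ R) :
    pderiv i (pderiv j q) = pderiv j (pderiv i q) := by
  classical
  induction q using MvPolynomial.induction_on with
  | C a => simp
  | add p q hp hq => simp only [map_add, hp, hq]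
  | mul_X p k hp =>
    have hX : ∀ a b : σ, pderiv a (pderiv b (X k : MvPolynomial σ R)) = 0 := by
      intro a b
      rw [pderiv_X]
      by_cases h : b = k
      · subst h
        simp
      · rw [Pi.single_eq_of_ne (by simpa using (Ne.symm h))]
        simp
    simp only [pderiv_mul, map_add, hp, hX]
    ring

private theorem srk_clear {κ : Type*} [Fintype κ] (f : Fin m → Ω) (c : κ → SF2 F f) :
    ∃ e : SF2 F f, e ≠ 0 ∧ ∃ p : κ → MvPolynomial (Option (Fin m)) F,
      ∀ l, srk_k f (p l) = e * c l := by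
  classical
  choose a b hb hab using fun l => (mem_SF2 f (c l : SO1 Ω m)).1 (c l).2
  have hb0 : ∀ l, srk_k f (b l) ≠ 0 := by
    intro l h0
    apply hb l
    have h1 := congrArg (fun x : SF2 F f => (x : SO1 Ω m)) h0
    exact (IsFractionRing.injective (MvPolynomial (Fin m) Ω) (SO1 Ω m)) (h1.trans (map_zero _).symm)
  have hc : ∀ l, srk_k f (a l) = srk_k f (b l) * c l := by
    intro l
    apply Subtype.ext
    show srk_phi f (a l) = srk_phi f (b l) * (c l : SO1 Ω m)
    rw [hab l, srk_phi_apply, srk_phi_apply, mul_div_cancel₀]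
    intro h0
    exact hb l ((IsFractionRing.injective (MvPolynomial (Fin m) Ω) (SO1 Ω m))
      (h0.trans (map_zero _).symm))
  have hprod : ∀ s : Finset κ, srk_k f (∏ l ∈ s, b l) = ∏ l ∈ s, srk_k f (b l) := by
    intro s
    induction s using Finset.induction_on with
    | empty => exact Subtype.ext (map_one (srk_phi f))
    | insert i s hi ih => rw [Finset.prod_insert hi, Finset.prod_insert hi, srk_k_mul, ih]
  refine ⟨∏ l, srk_k f (b l), Finset.prod_ne_zero_iff.2 fun l _ => hb0 l,
    fun l => a l * ∏ l' ∈ Finset.univ.erase l, b l', fun l => ?_⟩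
  rw [srk_k_mul, hprod, hc, ← Finset.mul_prod_erase Finset.univ _ (Finset.mem_univ l)]
  ring

private theorem srk_zero [CharZero F] (f : Fin m → Ω) (hf : LinearIndependent F f) (i₀ : Fin m)
    (h1 : f i₀ = 1)
    (htr : (2 : Cardinal.{u}) ≤ Algebra.trdeg F (IntermediateField.adjoin F (Set.range f)))
    (p : Fin m → MvPolynomial (Option (Fin m)) F) (hp : p ∈ Rel F f) (hg : gg f p = 0) :
    p = 0 := by
  classical
  set N := Submodule.span (SF2 F f) (Set.range (srk_fb f)) with hN
  have h1N : (1 : SO1 Ω m) ∈ N := by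
    have h2 : srk_fb f i₀ = 1 := by
      unfold srk_fb
      rw [h1, map_one]
    rw [← h2]
    exact Submodule.subset_span ⟨i₀, rfl⟩
  have hfin : Module.Finite (SF2 F f) N :=
    FiniteDimensional.span_of_finite _ (Set.finite_range _)
  let P : Set (Fin m → MvPolynomial (Option (Fin m)) F) := {p | p ∈ Rel F f ∧ gg f p = 0}
  refine eq_zero_of_stable f hf P (fun p hp => hp.1) ?_ p ⟨hp, hg⟩
  clear p hp hg
  rintro i p ⟨hp, hg⟩
  have hRX : (fun l => pderiv none (p l)) ∈ Rel F f := hg
  have hRj : ∀ j, (fun l => pderiv (some j) (p l)) ∈ Rel F f := by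
    intro j
    have h2 := mul_gg f p hp j
    rw [hg, mul_zero] at h2
    exact (neg_eq_zero.1 h2.symm)
  have hXj : ∀ j, C (f j) * gg f (fun l => pderiv none (p l)) =
      - gg f (fun l => pderiv (some j) (p l)) := by
    intro j
    rw [mul_gg f _ hRX j, gg]
    refine congrArg Neg.neg (Finset.sum_congr rfl fun l _ => ?_)
    show ev F f (pderiv (some j) (pderiv none (p l))) * C (f l) =
      ev F f (pderiv none (pderiv (some j) (p l))) * C (f l)
    rw [srk_pd]
  have hX0 : gg f (fun l => pderiv none (p l)) = 0 := by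
    by_contra hx0
    set x := algebraMap (MvPolynomial (Fin m) Ω) (SO1 Ω m) (gg f (fun l => pderiv none (p l)))
      with hx
    have hxne : x ≠ 0 := by
      intro h0
      exact hx0 ((IsFractionRing.injective (MvPolynomial (Fin m) Ω) (SO1 Ω m))
        (h0.trans (map_zero _).symm))
    -- multiplication by x is surjective on N
    have hsurj : ∀ n ∈ N, ∃ n' ∈ N, x * n' = n := by
      let L : N →ₗ[SF2 F f] N := (LinearMap.mulLeft (SF2 F f) x).restrict
        (fun n hn => srk_gg_mem f _ hRX n hn)
      have hinj : Function.Injective L := by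
        intro a b hab
        have h3 := congrArg (fun z : N => (z : SO1 Ω m)) hab
        exact Subtype.ext (mul_left_cancel₀ hxne h3)
      have hs := LinearMap.surjective_of_injective hinj
      intro n hn
      obtain ⟨n', hn'⟩ := hs ⟨n, hn⟩
      exact ⟨n', n'.2, congrArg (fun z : N => (z : SO1 Ω m)) hn'⟩
    refine srk_trd f htr fun j => ?_
    have hNne : N ≠ ⊥ := by
      intro h0
      rw [h0] at h1N
      exact one_ne_zero ((Submodule.mem_bot _).1 h1N)
    have hNfg : N.FG := Module.Finite.iff_fg.1 hfin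
    refine (isIntegral_of_smul_mem_submodule N hNne hNfg (toO1 Ω m (f j)) fun n hn => ?_).isAlgebraic
    obtain ⟨n', hn', rfl⟩ := hsurj n hn
    have h4 : toO1 Ω m (f j) • (x * n') = - (algebraMap (MvPolynomial (Fin m) Ω) (SO1 Ω m)
        (gg f (fun l => pderiv (some j) (p l))) * n') := by
      have h5 : toO1 Ω m (f j) * x = - algebraMap (MvPolynomial (Fin m) Ω) (SO1 Ω m)
          (gg f (fun l => pderiv (some j) (p l))) := by
        rw [← map_neg, ← hXj, map_mul]
        rfl
      rw [smul_eq_mul, ← mul_assoc, h5, neg_mul]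
    rw [h4]
    exact Submodule.neg_mem _ (srk_gg_mem f _ (hRj j) n' hn')
  rcases i with _ | j
  · exact ⟨hRX, hX0⟩
  · refine ⟨hRj j, ?_⟩
    have h6 := hXj j
    rw [hX0, mul_zero] at h6
    exact neg_eq_zero.1 h6.symm

theorem rank_ge [CharZero F] (f : Fin m → Ω) (hf : LinearIndependent F f) (i₀ : Fin m)
    (h1 : f i₀ = 1)
    (htr : (2 : Cardinal.{u}) ≤ Algebra.trdeg F (IntermediateField.adjoin F (Set.range f))) :
    m ≤ 2 * finrank (SF2 F f) (spanF2 f (Submodule.span F (Set.range f))) := by
  classical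
  rw [srk_span]
  set N := Submodule.span (SF2 F f) (Set.range (srk_fb f)) with hN
  have h1N : (1 : SO1 Ω m) ∈ N := by
    have h2 : srk_fb f i₀ = 1 := by
      unfold srk_fb
      rw [h1, map_one]
    rw [← h2]
    exact Submodule.subset_span ⟨i₀, rfl⟩
  have hfin : Module.Finite (SF2 F f) N :=
    FiniteDimensional.span_of_finite _ (Set.finite_range _)
  let θ : (Fin m → SF2 F f) →ₗ[SF2 F f] SO1 Ω m := Fintype.linearCombination (SF2 F f) (srk_fb f)
  have hθ : ∀ c, θ c = ∑ l, c l • srk_fb f l := fun c => Fintype.linearCombination_apply _ _ _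
  have hrange : LinearMap.range θ = N := Fintype.range_linearCombination (R := SF2 F f) _
  have hrn := LinearMap.finrank_range_add_finrank_ker θ
  rw [hrange, finrank_fin_fun] at hrn
  suffices hker : finrank (SF2 F f) (LinearMap.ker θ) ≤ finrank (SF2 F f) N by omega
  let B := finBasis (SF2 F f) (LinearMap.ker θ)
  set d := finrank (SF2 F f) (LinearMap.ker θ) with hd
  choose e he p hp using fun i : Fin d => srk_clear f (fun l => (B i : Fin m → SF2 F f) l)
  have hRel : ∀ i, p i ∈ Rel F f := by
    intro i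
    change ∑ l, ev F f (p i l) * C (f l) = 0
    apply IsFractionRing.injective (MvPolynomial (Fin m) Ω) (SO1 Ω m)
    rw [srk_alg_sum, map_zero]
    have h3 : ∑ l, srk_k f (p i l) • srk_fb f l =
        e i • ∑ l, (B i : Fin m → SF2 F f) l • srk_fb f l := by
      rw [Finset.smul_sum]
      refine Finset.sum_congr rfl fun l _ => ?_
      rw [hp, mul_smul]
    rw [h3, ← hθ, LinearMap.mem_ker.1 (B i).2, smul_zero]
  have hmem : ∀ i, algebraMap (MvPolynomial (Fin m) Ω) (SO1 Ω m) (gg f (p i)) ∈ N := by
    intro i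
    have := srk_gg_mem f (p i) (hRel i) 1 h1N
    rwa [mul_one] at this
  let x : Fin d → N := fun i => ⟨_, hmem i⟩
  have hli : LinearIndependent (SF2 F f) x := by
    rw [Fintype.linearIndependent_iff]
    intro k hk
    obtain ⟨e', he', q, hq⟩ := srk_clear f k
    have h4 : ∑ i, ev F f (q i) * gg f (p i) = 0 := by
      apply IsFractionRing.injective (MvPolynomial (Fin m) Ω) (SO1 Ω m)
      rw [map_zero, map_sum]
      have h5 : ∑ i, algebraMap (MvPolynomial (Fin m) Ω) (SO1 Ω m)
          (ev F f (q i) * gg f (p i)) = e' • ∑ i, k i • (x i : SO1 Ω m) := by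
        rw [Finset.smul_sum]
        refine Finset.sum_congr rfl fun i _ => ?_
        rw [map_mul, ← mul_smul, ← hq, srk_smul]
        rfl
      rw [h5]
      have h7 : ((∑ i, k i • x i : N) : SO1 Ω m) = ∑ i, k i • (x i : SO1 Ω m) := by
        rw [AddSubmonoidClass.coe_finsetSum]
        rfl
      rw [← h7, hk, ZeroMemClass.coe_zero, smul_zero]
    set P : Fin m → MvPolynomial (Option (Fin m)) F := fun l => ∑ i, q i * p i l with hP
    have hPR : P ∈ Rel F f := by
      change ∑ l, ev F f (P l) * C (f l) = 0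
      have h5 : ∀ l, ev F f (P l) * C (f l) =
          ∑ i, ev F f (q i) * (ev F f (p i l) * C (f l)) := by
        intro l
        rw [hP]
        simp only [map_sum, map_mul, Finset.sum_mul, mul_assoc]
      rw [Finset.sum_congr rfl (fun l _ => h5 l), Finset.sum_comm]
      refine Finset.sum_eq_zero fun i _ => ?_
      rw [← Finset.mul_sum, show ∑ l, ev F f (p i l) * C (f l) = 0 from hRel i, mul_zero]
    have hPg : gg f P = 0 := by
      unfold gg
      have h5 : ∀ l, ev F f (pderiv none (P l)) * C (f l) =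
          ∑ i, (ev F f (pderiv none (q i)) * (ev F f (p i l) * C (f l)) +
            ev F f (q i) * (ev F f (pderiv none (p i l)) * C (f l))) := by
        intro l
        rw [hP]
        simp only [map_sum, pderiv_mul, map_add, map_mul, Finset.sum_mul, add_mul, mul_assoc]
      rw [Finset.sum_congr rfl (fun l _ => h5 l), Finset.sum_comm]
      simp only [Finset.sum_add_distrib, ← Finset.mul_sum]
      rw [← Finset.sum_add_distrib] 
      have h6 : ∀ i, ev F f (pderiv none (q i)) * ∑ l, ev F f (p i l) * C (f l) +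
          ev F f (q i) * ∑ l, ev F f (pderiv none (p i l)) * C (f l) =
          ev F f (q i) * gg f (p i) := by
        intro i
        rw [show ∑ l, ev F f (p i l) * C (f l) = 0 from hRel i, mul_zero, zero_add]
        rfl
      rw [Finset.sum_congr rfl (fun i _ => h6 i), h4]
    have hP0 := srk_zero f hf i₀ h1 htr P hPR hPg
    have h8 : ∑ i, (k i * e i) • B i = 0 := by
      apply Subtype.ext
      rw [AddSubmonoidClass.coe_finsetSum]
      funext l
      rw [Finset.sum_apply]
      have h9 : srk_k f (P l) = 0 := by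
        rw [hP0]
        exact Subtype.ext (map_zero (srk_phi f))
      have h10 : srk_k f (P l) = e' * ∑ i, ((k i * e i) • B i : LinearMap.ker θ).1 l := by
        rw [hP]
        simp only [srk_k_sum, srk_k_mul, hq, hp, Finset.mul_sum]
        refine Finset.sum_congr rfl fun i _ => ?_
        change e' * k i * (e i * (B i : Fin m → SF2 F f) l) =
          e' * ((k i * e i) * (B i : Fin m → SF2 F f) l)
        ring
      rw [h9] at h10
      exact (mul_eq_zero.1 h10.symm).resolve_left he'
    intro i
    have h11 := Fintype.linearIndependent_iff.1 B.linearIndependent (fun i => k i * e i) h8 i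
    exact (mul_eq_zero.1 h11).resolve_right (he i)
  have h12 := hli.fintype_card_le_finrank
  rwa [Fintype.card_fin] at h12

end Pool.Agent.SYZ68J
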