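import Pool.Agent.SYZ68J.SMain
import Pool.Agent.SYZ71Z.ZCut

/-!
# SYZ68J/ZJLow : lower bound of the Hilbert function of a jet ideal

`A` generated by `V ∋ 1` up to units, `W` prime, `trdeg_F (A ⧸ W) = w`, and `J` an ideal with
`hilb V J 1 * hilb V W s ≤ hilb V J (s + 1) * hilb V W 1` for all `s` (this is `jet_grow`).
Then there is `s₀` with `hilb V J 1 * (s + w choose w) ≤ 2^w hilb V J (s + s₀)`.

Proof.  `Ω = FractionRing (A ⧸ W)`, `U` the image of `V` in `Ω`; `hilb V W s = finrank (U^s)`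
(`A ⧸ W → Ω` injective, `Submodule.map_pow`); `F(U) = Ω`: every element of `A ⧸ W` is a quotient
of elements of `F[U]` by `hloc`; `trdeg_F Ω = trdeg_F (A ⧸ W) = w` (fraction fields:
`Algebra.trdeg_...`, `IsFractionRing`, algebraic).  By `finrank_pow_ge`:
`hilb V W 1 * (s + w choose w) ≤ 2^w hilb V W (s + s₁)`.  So
`hilb V J 1 * choose * hilb V W 1 ≤ 2^w hilb V J 1 * hilb V W (s + s₁)
  ≤ 2^w hilb V J (s + s₁ + 1) * hilb V W 1`; cancel `hilb V W 1 > 0` (`1 ∉ W`).
-/

set_option autoImplicit false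

open Module

universe u

namespace Pool.Agent.SYZ68J

open Pool.Agent.SYZ71Z

theorem jet_low {F A : Type u} [Field F] [CharZero F] [CommRing A] [Algebra F A]
    (V : Submodule F A) [Module.Finite F V] (h1 : (1 : A) ∈ V)
    (hloc : ∀ a : A, ∃ s ∈ Algebra.adjoin F (V : Set A), IsUnit s ∧
      s * a ∈ Algebra.adjoin F (V : Set A))
    (W J : Ideal A) [hW : W.IsPrime] (w : ℕ) (htr : Algebra.trdeg F (A ⧸ W) = (w : Cardinal.{u}))
    (hgrow : ∀ s, hilb V J 1 * hilb V W s ≤ hilb V J (s + 1) * hilb V W 1) :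
    ∃ s₀ : ℕ, ∀ s : ℕ, hilb V J 1 * (s + w).choose w ≤ 2 ^ w * hilb V J (s + s₀) := by
  have hΩs : IsScalarTower F (A ⧸ W) (FractionRing (A ⧸ W)) := inferInstance
  have hinj : Function.Injective (algebraMap (A ⧸ W) (FractionRing (A ⧸ W))) :=
    IsFractionRing.injective _ _
  let φ : A →ₐ[F] FractionRing (A ⧸ W) :=
    (IsScalarTower.toAlgHom F (A ⧸ W) (FractionRing (A ⧸ W))).comp (Ideal.Quotient.mkₐ F W)
  have hφ : ∀ a, φ a = algebraMap (A ⧸ W) (FractionRing (A ⧸ W)) (Ideal.Quotient.mk W a) :=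
    fun a => rfl
  let U : Submodule F (FractionRing (A ⧸ W)) := V.map φ.toLinearMap
  have hUdef : U = V.map φ.toLinearMap := rfl
  have hU1 : (1 : FractionRing (A ⧸ W)) ∈ U := ⟨1, h1, map_one φ⟩
  have hUfin : Module.Finite F U := Module.Finite.map _ _
  -- elements of `F[V]` map into `F(U)`
  have hmem : ∀ a ∈ Algebra.adjoin F (V : Set A),
      φ a ∈ IntermediateField.adjoin F (U : Set (FractionRing (A ⧸ W))) := by
    intro a ha
    have h2 : φ a ∈ (Algebra.adjoin F (V : Set A)).map φ := ⟨a, ha, rfl⟩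
    rw [AlgHom.map_adjoin] at h2
    have h3 : Algebra.adjoin F (φ '' (V : Set A)) ≤
        (IntermediateField.adjoin F (U : Set (FractionRing (A ⧸ W)))).toSubalgebra := by
      rw [Algebra.adjoin_le_iff]
      rintro _ ⟨x, hx, rfl⟩
      exact IntermediateField.subset_adjoin F _ ⟨x, hx, rfl⟩
    exact h3 h2
  have hmemA : ∀ a : A, φ a ∈ IntermediateField.adjoin F (U : Set (FractionRing (A ⧸ W))) := by
    intro a
    obtain ⟨s, hs, hsu, hsa⟩ := hloc a
    have hs0 : φ s ≠ 0 := (hsu.map φ).ne_zero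
    have h2 := div_mem (hmem _ hsa) (hmem _ hs)
    rw [map_mul, mul_comm, mul_div_assoc, div_self hs0, mul_one] at h2
    exact h2
  have hadj : IntermediateField.adjoin F (U : Set (FractionRing (A ⧸ W))) = ⊤ := by
    rw [eq_top_iff]
    intro x _
    obtain ⟨a, b, hb, rfl⟩ := IsFractionRing.div_surjective (A := A ⧸ W) x
    obtain ⟨a, rfl⟩ := Ideal.Quotient.mk_surjective a
    obtain ⟨b, rfl⟩ := Ideal.Quotient.mk_surjective b
    exact div_mem (hmemA a) (hmemA b)
  have htrΩ : Algebra.trdeg F (FractionRing (A ⧸ W)) = (w : Cardinal.{u}) := by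
    have hf : FaithfulSMul (A ⧸ W) (FractionRing (A ⧸ W)) :=
      (faithfulSMul_iff_algebraMap_injective _ _).2 hinj
    have halg : Algebra.IsAlgebraic (A ⧸ W) (FractionRing (A ⧸ W)) :=
      (IsFractionRing.comap_isAlgebraic_iff (A := A ⧸ W) (K := FractionRing (A ⧸ W))
        (C := FractionRing (A ⧸ W))).2 inferInstance
    have hfF : FaithfulSMul F (A ⧸ W) :=
      (faithfulSMul_iff_algebraMap_injective _ _).2 (algebraMap F (A ⧸ W)).injective
    have h2 := _root_.trdeg_add_eq F (A ⧸ W) (A := FractionRing (A ⧸ W))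
    rw [_root_.trdeg_eq_zero (R := A ⧸ W), add_zero, htr] at h2
    exact h2.symm
  obtain ⟨s₁, hs₁⟩ := finrank_pow_ge w U hU1 hadj htrΩ
  have hhilb : ∀ s, hilb V W s = finrank F ↥(U ^ s) := by
    intro s
    have h2 : U ^ s = ((V ^ s).map (Ideal.Quotient.mkₐ F W).toLinearMap).map
        (IsScalarTower.toAlgHom F (A ⧸ W) (FractionRing (A ⧸ W))).toLinearMap := by
      rw [← Submodule.map_comp, hUdef]
      exact (Submodule.map_pow V φ s).symm
    rw [h2]
    unfold hilb
    exact (LinearEquiv.finrank_eq (Submodule.equivMapOfInjective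
      (IsScalarTower.toAlgHom F (A ⧸ W) (FractionRing (A ⧸ W))).toLinearMap hinj
      ((V ^ s).map (Ideal.Quotient.mkₐ F W).toLinearMap)))
  have hpos : 0 < hilb V W 1 := by
    rw [hhilb, pow_one]
    have : Nontrivial U := ⟨⟨⟨1, hU1⟩, 0, fun h => one_ne_zero (congrArg Subtype.val h)⟩⟩
    exact Module.finrank_pos
  refine ⟨s₁ + 1, fun s => ?_⟩
  have hg := hgrow (s + s₁)
  have hp := hs₁ s
  rw [← hhilb (s + s₁)] at hp
  have hU : finrank F U = hilb V W 1 := by rw [hhilb, pow_one]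
  rw [hU] at hp
  have hkey : (hilb V J 1 * (s + w).choose w) * hilb V W 1 ≤
      (2 ^ w * hilb V J (s + (s₁ + 1))) * hilb V W 1 := by
    calc (hilb V J 1 * (s + w).choose w) * hilb V W 1
        = hilb V J 1 * (hilb V W 1 * (s + w).choose w) := by ring
      _ ≤ hilb V J 1 * (2 ^ w * hilb V W (s + s₁)) := Nat.mul_le_mul_left _ hp
      _ = 2 ^ w * (hilb V J 1 * hilb V W (s + s₁)) := by ring
      _ ≤ 2 ^ w * (hilb V J (s + s₁ + 1) * hilb V W 1) := Nat.mul_le_mul_left _ hg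
      _ = (2 ^ w * hilb V J (s + (s₁ + 1))) * hilb V W 1 := by
          rw [← add_assoc]
          ring
  exact Nat.le_of_mul_le_mul_right hkey hpos

end Pool.Agent.SYZ68J
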