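import Pool.Agent.SYZ68J.ZJGrow
import Pool.Agent.SYZ68J.ZJLow
import Pool.Agent.SYZ68J.CChain
import Pool.Agent.SYZ68J.CSep
import Pool.Agent.SYZ68J.CPoly

/-!
# SYZ68J/ZJBez : the Bezout bound with multiplicities

Compare `Pool.Agent.SYZ71Z.bezout`.  `A` a Noetherian domain over the field `F` of characteristic
`0`, all primes of full depth, `V ∋ 1` stable under the derivations `D_i`, `A` generated by `V` up to
units, `dim V ^ K ≤ T₀ K ^ N`.  `p i` (`i : ι`) distinct minimal primes of height `h` of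
`Ideal.span S`, `S ⊆ V`, with `S ⊆ jetIdeal D (p i) K'` and `ρ ≤ hilb V (jetIdeal D (p i) K') 1`.
Then `card ι * ρ ≤ N! * (2^N * T₀)`.

Proof.  WLOG `1 ≤ ρ` (else trivial).  `J i = jetIdeal D (p i) K'`, `w i = trdeg_F (A ⧸ p i)`, a
natural number `≤ N` (`hdimU`) with `N - h ≤ w i` (`hdim`).  `jet_grow`, `jet_low`: `s₀ i` with
`ρ * (s + w i choose w i) ≤ 2^(w i) hilb V (J i) (s + s₀ i)`, hence, with `e = N - h ≤ w i`
(`(s + e choose e) ≤ (s + w i choose w i)`), `2^(w i) ≤ 2^N` and `s₀ = ∑ s₀ i` (`hilb` is monotone in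
`s` as `1 ∈ V`): `ρ * (s + e choose e) ≤ 2^N hilb V (J i) (s + s₀)`.
`sep_mult` (`m = K' + 1`, `pow_le_jetIdeal`, `jetIdeal_primary`; the `p i` are pairwise
incomparable as in `bezout`), `chain_mult`:
with `f K = 2^N hilb V (⨅ i, J i) K`: `(card ι * ρ) * (K + e choose e) ≤ f (K + K₁)` and
`sumIter h f K ≤ 2^N hilb V ⊥ K ≤ 2^N T₀ K^N`; `numeric` from `Pool.Agent.SYZ71Z.ZNum`.
-/

set_option autoImplicit false

open Module

universe u

namespace Pool.Agent.SYZ68J

open Pool.Agent.SYZ71Z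

private theorem zjb_finPow {F A : Type*} [Field F] [CommRing A] [Algebra F A]
    (V : Submodule F A) [Module.Finite F V] (K : ℕ) : Module.Finite F ↥(V ^ K) :=
  Module.Finite.iff_fg.mpr ((Module.Finite.iff_fg.mp (inferInstance : Module.Finite F V)).pow K)

private theorem zjb_pow_le {F A : Type*} [Field F] [CommRing A] [Algebra F A]
    (V : Submodule F A) (h1 : (1 : A) ∈ V) {s t : ℕ} (hst : s ≤ t) : V ^ s ≤ V ^ t := by
  induction t, hst using Nat.le_induction with
  | base => exact le_rfl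
  | succ n _ ih =>
    refine ih.trans ?_
    intro x hx
    have := Submodule.mul_mem_mul hx h1
    rwa [mul_one, ← pow_succ] at this

private theorem zjb_mono {F A : Type*} [Field F] [CommRing A] [Algebra F A]
    (V : Submodule F A) [Module.Finite F V] (h1 : (1 : A) ∈ V) (Q : Ideal A) {s t : ℕ}
    (hst : s ≤ t) : hilb V Q s ≤ hilb V Q t := by
  have := zjb_finPow V t
  exact Submodule.finrank_mono (Submodule.map_mono (zjb_pow_le V h1 hst))

private theorem zjb_bot {F A : Type*} [Field F] [CommRing A] [Algebra F A]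
    (V : Submodule F A) [Module.Finite F V] (Q : Ideal A) (K : ℕ) :
    hilb V Q K ≤ finrank F ↥(V ^ K) := by
  have := zjb_finPow V K
  exact Submodule.finrank_map_le _ _

private theorem zjb_sumIter (c : ℕ) (h : ℕ) : ∀ (f : ℕ → ℕ) (K : ℕ),
    sumIter h (fun K => c * f K) K = c * sumIter h f K := by
  induction h with
  | zero => intro f K; rfl
  | succ h ih =>
    intro f K
    show sumIter h (fun K => ∑ j ∈ Finset.range (K + 1), c * f j) K =
      c * sumIter h (fun K => ∑ j ∈ Finset.range (K + 1), f j) K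
    rw [← ih]
    simp only [Finset.mul_sum]

private theorem zjb_choose (s : ℕ) {e w : ℕ} (h : e ≤ w) :
    (s + e).choose e ≤ (s + w).choose w := by
  rw [← Nat.choose_symm_add, ← Nat.choose_symm_add]
  exact Nat.choose_le_choose s (Nat.add_le_add_left h s)

theorem bezout_mult {R F A : Type u} [CommRing R] [Field F] [CharZero F] [CommRing A] [IsDomain A]
    [Algebra R A] [Algebra F A] [IsNoetherianRing A] (N T₀ : ℕ)
    {e : ℕ} (D : Fin e → Derivation R A A) (V : Submodule F A) [Module.Finite F V]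
    (h1 : (1 : A) ∈ V) (hD : ∀ i, ∀ v ∈ V, D i v ∈ V)
    (hDF : ∀ i (c : F), ∃ c' : F, D i (algebraMap F A c) = algebraMap F A c')
    (hloc : ∀ a : A, ∃ s ∈ Algebra.adjoin F (V : Set A), IsUnit s ∧
      s * a ∈ Algebra.adjoin F (V : Set A))
    (hdim : DimProp F A N)
    (hdimU : ∀ P : Ideal A, P.IsPrime → Algebra.trdeg F (A ⧸ P) ≤ (N : Cardinal.{u}))
    (hT : ∀ K : ℕ, 1 ≤ K → finrank F ↥(V ^ K) ≤ T₀ * K ^ N) (hdepth : FullDepth A)
    (S : Set A) (hS : S ⊆ (V : Set A)) (h : ℕ) {ι : Type} [Fintype ι] [Nonempty ι]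
    (p : ι → Ideal A) (hinj : Function.Injective p)
    (hp : ∀ i, p i ∈ (Ideal.span S).minimalPrimes)
    (hh : ∀ i, (p i).height = (h : ℕ∞)) (K' ρ : ℕ)
    (hSJ : ∀ i, Ideal.span S ≤ jetIdeal D (p i) K')
    (hρ : ∀ i, ρ ≤ hilb V (jetIdeal D (p i) K') 1) :
    Fintype.card ι * ρ ≤ N.factorial * (2 ^ N * T₀) := by
  classical
  rcases Nat.eq_zero_or_pos ρ with rfl | hρ1
  · rw [mul_zero]
    exact Nat.zero_le _
  have hinf : Infinite F := Infinite.of_injective (Nat.cast : ℕ → F) Nat.cast_injective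
  have hpr : ∀ i, (p i).IsPrime := fun i => (hp i).1.1
  have hne : ∀ i j, i ≠ j → ¬ p i ≤ p j := by
    intro i j hij hle
    have h2 : p j ≤ p i := (hp j).2 ⟨hpr i, (hp i).1.2⟩ hle
    exact hij (hinj (le_antisymm hle h2))
  have hw : ∀ i, ∃ w : ℕ, Algebra.trdeg F (A ⧸ p i) = (w : Cardinal.{u}) ∧ w ≤ N ∧
      N - h ≤ w := by
    intro i
    have h2 := hdimU (p i) (hpr i)
    obtain ⟨w, hw⟩ := Cardinal.lt_aleph0.1 (lt_of_le_of_lt h2 (Cardinal.natCast_lt_aleph0))
    obtain ⟨e', he1, he2⟩ := hdim (p i) (hpr i) h (hh i).le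
    rw [hw] at h2 he2
    have h3 : w ≤ N := Nat.cast_le.1 h2
    have h4 : e' ≤ w := Nat.cast_le.1 he2
    exact ⟨w, hw, h3, by omega⟩
  choose w hw1 hw2 hw3 using hw
  have hlow : ∀ i, ∃ s₀ : ℕ, ∀ s : ℕ, ρ * (s + (N - h)).choose (N - h) ≤
      2 ^ N * hilb V (jetIdeal D (p i) K') (s + s₀) := by
    intro i
    have hpi := hpr i
    obtain ⟨s₀, hs₀⟩ := jet_low V h1 hloc (p i) (jetIdeal D (p i) K') (w i) (hw1 i)
      (fun s => jet_grow D V h1 hD hDF (p i) K' s)
    refine ⟨s₀, fun s => ?_⟩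
    calc ρ * (s + (N - h)).choose (N - h)
        ≤ hilb V (jetIdeal D (p i) K') 1 * (s + w i).choose (w i) :=
          Nat.mul_le_mul (hρ i) (zjb_choose s (hw3 i))
      _ ≤ 2 ^ (w i) * hilb V (jetIdeal D (p i) K') (s + s₀) := hs₀ s
      _ ≤ 2 ^ N * hilb V (jetIdeal D (p i) K') (s + s₀) :=
          Nat.mul_le_mul_right _ (Nat.pow_le_pow_right (by norm_num) (hw2 i))
  choose s₀ hs₀ using hlow
  obtain ⟨K₀, hK₀⟩ := sep_mult V h1 hloc p (fun i => jetIdeal D (p i) K') hpr hne (K' + 1)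
    (fun i => pow_le_jetIdeal (D := D) (W := p i) K') (fun i => jetIdeal_le (D := D) (W := p i) K')
    (fun i s a h hs => by
      have hpi := hpr i
      exact jetIdeal_primary (D := D) (W := p i) K' s a h hs)
  have hchain : ∀ K, sumIter h (hilb V (⨅ i, jetIdeal D (p i) K')) K ≤ hilb V ⊥ K := by
    intro K
    exact chain_mult V S hS h p (fun i => jetIdeal D (p i) K') hp hh
      (fun i => by
        have hpi := hpr i
        exact hdepth (p i) h (hh i)) hSJ
      (fun i s a h hs => by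
        have hpi := hpr i
        exact jetIdeal_primary (D := D) (W := p i) K' s a h hs) K
  obtain ⟨s₁, hs₁⟩ : ∃ s₁ : ℕ, ∀ i, s₀ i ≤ s₁ :=
    ⟨∑ i, s₀ i, fun i => Finset.single_le_sum (f := s₀) (fun _ _ => Nat.zero_le _)
      (Finset.mem_univ i)⟩
  have hfin := numeric (Fintype.card ι * ρ) N (N - h) h (s₁ + K₀) (2 ^ N * T₀)
    (Nat.mul_pos Fintype.card_pos hρ1) (by omega)
    (fun K => 2 ^ N * hilb V (⨅ i, jetIdeal D (p i) K') K) (by
      intro K
      calc Fintype.card ι * ρ * (K + (N - h)).choose (N - h)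
          = ∑ i : ι, ρ * (K + (N - h)).choose (N - h) := by
            rw [Finset.sum_const, Finset.card_univ, smul_eq_mul, mul_assoc]
        _ ≤ ∑ i : ι, 2 ^ N * hilb V (jetIdeal D (p i) K') (K + s₁) := by
            refine Finset.sum_le_sum fun i _ => ?_
            refine (hs₀ i K).trans (Nat.mul_le_mul_left _ ?_)
            exact zjb_mono V h1 _ (Nat.add_le_add_left (hs₁ i) K)
        _ = 2 ^ N * ∑ i : ι, hilb V (jetIdeal D (p i) K') (K + s₁) := by
            rw [Finset.mul_sum]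
        _ ≤ 2 ^ N * hilb V (⨅ i, jetIdeal D (p i) K') (K + s₁ + K₀) :=
            Nat.mul_le_mul_left _ (hK₀ (K + s₁))
        _ = 2 ^ N * hilb V (⨅ i, jetIdeal D (p i) K') (K + (s₁ + K₀)) := by
            rw [Nat.add_assoc]) (by
      intro K hK
      rw [zjb_sumIter, mul_assoc]
      exact Nat.mul_le_mul_left _ ((hchain K).trans ((zjb_bot V ⊥ K).trans (hT K hK))))
  exact hfin.2

end Pool.Agent.SYZ68J
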