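import Pool.Agent.SYZ68J.ZJDefs

/-!
# SYZ68J/ZJIdeal : properties of `jetIdeal`

Proofs.
* `jetIdeal_le_succ`, `jetIdeal_le` : definition.
* `jetIdeal_primary` : induction on `K`: `s a ∈ J_(K+1)`: `s a ∈ J_K` so `a ∈ J_K`;
  `D_i (s a) = s D_i a + a D_i s ∈ J_K` and `a D_i s ∈ J_K`, so `s D_i a ∈ J_K`, `D_i a ∈ J_K`.
* `pow_le_jetIdeal` : `W^(K+1) ≤ J_K`: first `D_i (W^(n+1)) ⊆ W^n`
  (`Submodule.pow_induction_on_left'` or induction on products); then induction on `K`.
* `mem_jetIdeal_iff` : induction on `K` (generalizing `a`); `wd D (i :: l) a = wd D l (D i a)`.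
* `wd_mul_sub_mem` : for `a ∈ J_K`, `|l| = K + 1`: `D_l (b a) - b D_l a ∈ W`.
  Prove: for all `l`, `K`, `|l| ≤ K + 1`, `a ∈ J_K`, `b`: `D_l (b a) - b D_l a ∈ W`.  Induction on
  `l = i :: l'`, `K ≥ 1` or `l' = []`:
  `D_l' (D_i (b a)) = D_l' (b D_i a) + D_l' (a D_i b)`; `D_i a ∈ J_(K-1)`, `|l'| ≤ K`, so
  `D_l' (b D_i a) - b D_l' (D_i a) ∈ W` (if `K = 0` then `l' = []` and this is `0`); and
  `a D_i b ∈ J_K`, `|l'| ≤ K`, so `D_l' (a D_i b) ∈ W` by `mem_jetIdeal_iff`.
* `jetIdeal_comap` : for a ring automorphism `γ` commuting with the `D_i`: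
  `jetIdeal D (W.comap γ) K = (jetIdeal D W K).comap γ`; induction on `K`.
* `jetIdeal_mono` : `W ≤ W'` implies `jetIdeal D W K ≤ jetIdeal D W' K`.
-/

set_option autoImplicit false

open Module

namespace Pool.Agent.SYZ68J

variable {R A ι : Type*} [CommRing R] [CommRing A] [Algebra R A] (D : ι → Derivation R A A)
  (W : Ideal A)

/-- additivity of words (auxiliary form) -/
theorem wd_add_aux (l : List ι) (a b : A) :
    wd (fun i => D i) l (a + b) = wd (fun i => D i) l a + wd (fun i => D i) l b := by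
  induction l generalizing a b with
  | nil => rfl
  | cons i l ih =>
    change wd (fun i => D i) l (D i (a + b)) =
      wd (fun i => D i) l (D i a) + wd (fun i => D i) l (D i b)
    rw [map_add, ih]

/-- a derivation lowers powers of an ideal by at most one -/
theorem D_mem_pow (i : ι) (n : ℕ) : ∀ a ∈ W ^ (n + 1), D i a ∈ W ^ n := by
  induction n with
  | zero =>
    intro a _
    rw [pow_zero, Ideal.one_eq_top]
    exact Submodule.mem_top
  | succ n ih =>
    intro a ha
    rw [pow_succ' W (n + 1)] at ha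
    refine Submodule.mul_induction_on ha ?_ ?_
    · intro x hx y hy
      rw [Derivation.leibniz, smul_eq_mul, smul_eq_mul]
      refine Ideal.add_mem _ ?_ (Ideal.mul_mem_right _ _ hy)
      rw [pow_succ' W n]
      exact Ideal.mul_mem_mul hx (ih y hy)
    · intro x y hx hy
      rw [map_add]
      exact Ideal.add_mem _ hx hy

theorem jetIdeal_le_succ (K : ℕ) : jetIdeal D W (K + 1) ≤ jetIdeal D W K := by
  intro a ha
  exact ((mem_jetIdeal_succ D W K a).1 ha).1

theorem jetIdeal_anti {K K' : ℕ} (h : K ≤ K') : jetIdeal D W K' ≤ jetIdeal D W K := by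
  exact antitone_nat_of_succ_le (f := jetIdeal D W) (fun n => jetIdeal_le_succ D W n) h

theorem jetIdeal_le (K : ℕ) : jetIdeal D W K ≤ W := by
  exact jetIdeal_anti D W (Nat.zero_le K)

theorem jetIdeal_mono {W W' : Ideal A} (h : W ≤ W') (K : ℕ) :
    jetIdeal D W K ≤ jetIdeal D W' K := by
  induction K with
  | zero => exact h
  | succ K ih =>
    intro a ha
    rw [mem_jetIdeal_succ] at ha ⊢
    exact ⟨ih ha.1, fun i => ih (ha.2 i)⟩

theorem jetIdeal_primary [hW : W.IsPrime] (K : ℕ) (s a : A) (h : s * a ∈ jetIdeal D W K)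
    (hs : s ∉ W) : a ∈ jetIdeal D W K := by
  induction K generalizing a with
  | zero => exact (hW.mem_or_mem h).resolve_left hs
  | succ K ih =>
    rw [mem_jetIdeal_succ] at h ⊢
    have ha := ih a h.1
    refine ⟨ha, fun i => ih _ ?_⟩
    have h1 := h.2 i
    rw [Derivation.leibniz, smul_eq_mul, smul_eq_mul] at h1
    have h2 : a * D i s ∈ jetIdeal D W K := Ideal.mul_mem_right _ _ ha
    have h3 := Ideal.sub_mem _ h1 h2
    rwa [add_sub_cancel_right] at h3

theorem pow_le_jetIdeal (K : ℕ) : W ^ (K + 1) ≤ jetIdeal D W K := by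
  induction K with
  | zero => exact le_of_eq (pow_one W)
  | succ K ih =>
    intro a ha
    rw [mem_jetIdeal_succ]
    exact ⟨ih (Ideal.pow_le_pow_right (Nat.le_succ (K + 1)) ha),
      fun i => ih (D_mem_pow D W i (K + 1) a ha)⟩

theorem mem_jetIdeal_iff (K : ℕ) (a : A) :
    a ∈ jetIdeal D W K ↔ ∀ l : List ι, l.length ≤ K → wd (fun i => D i) l a ∈ W := by
  induction K generalizing a with
  | zero =>
    constructor
    · intro h l hl
      rw [List.eq_nil_of_length_eq_zero (Nat.le_zero.1 hl)]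
      exact h
    · intro h
      exact h [] (Nat.le_refl 0)
  | succ K ih =>
    rw [mem_jetIdeal_succ]
    constructor
    · rintro ⟨h1, h2⟩ l hl
      cases l with
      | nil => exact (ih a).1 h1 [] (Nat.zero_le K)
      | cons i l => exact (ih (D i a)).1 (h2 i) l (Nat.le_of_succ_le_succ hl)
    · intro h
      refine ⟨(ih a).2 fun l hl => h l (Nat.le_succ_of_le hl), fun i => (ih (D i a)).2 ?_⟩
      intro l hl
      exact h (i :: l) (Nat.succ_le_succ hl)

theorem wd_mul_sub_mem (K : ℕ) (a b : A) (ha : a ∈ jetIdeal D W K) (l : List ι)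
    (hl : l.length ≤ K + 1) :
    wd (fun i => D i) l (b * a) - b * wd (fun i => D i) l a ∈ W := by
  induction l generalizing K a b with
  | nil =>
    change b * a - b * a ∈ W
    rw [sub_self]
    exact Ideal.zero_mem _
  | cons i l ih =>
    have hl' : l.length ≤ K := Nat.le_of_succ_le_succ hl
    change wd (fun i => D i) l (D i (b * a)) - b * wd (fun i => D i) l (D i a) ∈ W
    rw [Derivation.leibniz, smul_eq_mul, smul_eq_mul, wd_add_aux]
    have h2 : wd (fun i => D i) l (a * D i b) ∈ W :=
      (mem_jetIdeal_iff D W K (a * D i b)).1 (Ideal.mul_mem_right _ _ ha) l hl'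
    have h1 : wd (fun i => D i) l (b * D i a) - b * wd (fun i => D i) l (D i a) ∈ W := by
      cases K with
      | zero =>
        rw [List.eq_nil_of_length_eq_zero (Nat.le_zero.1 hl')]
        change b * D i a - b * D i a ∈ W
        rw [sub_self]
        exact Ideal.zero_mem _
      | succ K => exact ih K (D i a) b (((mem_jetIdeal_succ D W K a).1 ha).2 i) hl'
    have h3 := Ideal.add_mem _ h1 h2
    rwa [sub_add_eq_add_sub] at h3

theorem jetIdeal_comap (γ : A ≃+* A) (hγ : ∀ i a, γ (D i a) = D i (γ a)) (K : ℕ) :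
    jetIdeal D (W.comap γ) K = (jetIdeal D W K).comap γ := by
  induction K with
  | zero => rfl
  | succ K ih =>
    ext a
    rw [mem_jetIdeal_succ, Ideal.mem_comap, mem_jetIdeal_succ, ih, Ideal.mem_comap]
    refine and_congr Iff.rfl (forall_congr' fun i => ?_)
    rw [Ideal.mem_comap]
    have h := hγ i a
    constructor
    · intro h1
      rw [← h]
      exact h1
    · intro h1
      rw [← h] at h1
      exact h1

theorem wd_add (l : List ι) (a b : A) :
    wd (fun i => D i) l (a + b) = wd (fun i => D i) l a + wd (fun i => D i) l b := by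
  exact wd_add_aux D l a b

end Pool.Agent.SYZ68J
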