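import Pool.Agent.SYZ68J.ZJLin
import Pool.Agent.SYZ68J.ZJIdeal
import Pool.Agent.SYZ71Z.ZCut

/-!
# SYZ68J/ZJGrow : growth of the jets of `V ^ s` along a prime

`A` an `F`-algebra, `V ∋ 1` a finite dimensional `F`-subspace stable under the derivations `D_i`
(`i < e`), which map `F · 1` to itself; `W` a prime ideal, `J_K = jetIdeal D W K`.  Then
`hilb V J_K 1 * hilb V W s ≤ hilb V J_K (s + 1) * hilb V W 1`.

Proof.  `V^t` is stable under the `D_i` (Leibniz; `D_i (c • x) = D_i(c) x + c D_i x`, `D_i (c) ∈ F`).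
Induction on `K`.
* `K = 0`: `J_0 = W`, and `hilb V W s ≤ hilb V W (s + 1)` (`1 ∈ V`).
* `K → K + 1`: for every `t`:
  `hilb V J_(K+1) t = hilb V J_K t + g_t`, where `g_t` is the dimension of the kernel of
  `V^t mod J_(K+1) → V^t mod J_K`, i.e. of `G_t = (V^t ∩ J_K) mod J_(K+1)`.
  Let `Ω = Frac (A ⧸ W)` and `ι` the finite set of words of length `K + 1`
  (`List.Vector (Fin e) (K+1)` or `Fin (K+1) → Fin e`), `σ : J_K → Ω^ι`,
  `a ↦ (D_l a mod W)_l`: additive, `σ (b a) = b σ(a)` (`wd_mul_sub_mem`), in particular `F`-linear,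
  with kernel `J_(K+1)` (`mem_jetIdeal_iff`).  So `g_t = dim_F Σ_t`, `Σ_t = σ (V^t ∩ J_K)`.
  `Σ_1 ⊆ U^ι`, `U = V mod W` (`D_l V ⊆ V`).  With `U' = V^s mod W`: `U' Σ_1 ⊆ Σ_(s+1)`
  (`V^s (V ∩ J_K) ⊆ V^(s+1) ∩ J_K`).  By `finrank_mul_le`:
  `g_1 * hilb V W s = dim Σ_1 * dim U' ≤ dim (U' Σ_1) * dim U ≤ g_(s+1) * hilb V W 1`.
  Add the induction hypothesis.
(`hilb V W t` is the dimension of the image of `V^t` in `A ⧸ W`, which embeds in `Ω`.)
-/

set_option autoImplicit false

open Module

universe u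

namespace Pool.Agent.SYZ68J

open Pool.Agent.SYZ71Z

private theorem finPow {F A : Type*} [Field F] [CommRing A] [Algebra F A]
    (V : Submodule F A) [Module.Finite F V] (K : ℕ) : Module.Finite F ↥(V ^ K) :=
  Module.Finite.iff_fg.mpr ((Module.Finite.iff_fg.mp (inferInstance : Module.Finite F V)).pow K)

private theorem finrank_map_eq_of_ker {F M N₁ N₂ : Type*} [Field F] [AddCommGroup M] [Module F M]
    [AddCommGroup N₁] [Module F N₁] [AddCommGroup N₂] [Module F N₂] (S : Submodule F M)
    [Module.Finite F S] (f : S →ₗ[F] N₁) (g : S →ₗ[F] N₂)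
    (h : ∀ x, f x = 0 ↔ g x = 0) :
    finrank F (LinearMap.range f) = finrank F (LinearMap.range g) := by
  have h1 := LinearMap.finrank_range_add_finrank_ker f
  have h2 := LinearMap.finrank_range_add_finrank_ker g
  have h3 : LinearMap.ker f = LinearMap.ker g := by
    ext x
    rw [LinearMap.mem_ker, LinearMap.mem_ker, h x]
  rw [h3] at h1
  omega

/-- the quotient map restricted to `V ^ t ⊓ Q'` -/
private noncomputable def qres {F A : Type*} [Field F] [CommRing A] [Algebra F A]
    (V : Submodule F A) (Q Q' : Ideal A) (t : ℕ) :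
    ↥((V ^ t) ⊓ Q'.restrictScalars F) →ₗ[F] (A ⧸ Q) :=
  (Ideal.Quotient.mkₐ F Q).toLinearMap.comp (Submodule.subtype _)

private theorem hilb_split {F A : Type*} [Field F] [CommRing A] [Algebra F A]
    (V : Submodule F A) [Module.Finite F V] (Q Q' : Ideal A) (hQ : Q ≤ Q') (t : ℕ) :
    hilb V Q t = hilb V Q' t + finrank F (LinearMap.range (qres V Q Q' t)) := by
  have hf := finPow V t
  let ρ : (A ⧸ Q) →ₗ[F] (A ⧸ Q') := (Ideal.Quotient.factorₐ F hQ).toLinearMap
  let Wt : Submodule F (A ⧸ Q) := (V ^ t).map (Ideal.Quotient.mkₐ F Q).toLinearMap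
  have hWf : Module.Finite F Wt := Module.Finite.map _ _
  have hrk := LinearMap.finrank_range_add_finrank_ker (ρ.domRestrict Wt)
  have hρ : ∀ a : A, ρ (Ideal.Quotient.mk Q a) = Ideal.Quotient.mk Q' a := by
    intro a
    change (Ideal.Quotient.factorₐ F hQ) (Ideal.Quotient.mk Q a) = _
    change Ideal.Quotient.factor hQ (Ideal.Quotient.mk Q a) = _
    rw [Ideal.Quotient.factor_mk]
  have hran : LinearMap.range (ρ.domRestrict Wt) =
      (V ^ t).map (Ideal.Quotient.mkₐ F Q').toLinearMap := by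
    ext x
    constructor
    · rintro ⟨⟨_, y, hy, rfl⟩, rfl⟩
      exact ⟨y, hy, (hρ y).symm⟩
    · rintro ⟨y, hy, rfl⟩
      exact ⟨⟨Ideal.Quotient.mk Q y, ⟨y, hy, rfl⟩⟩, hρ y⟩
  have hker : (LinearMap.ker (ρ.domRestrict Wt)).map Wt.subtype =
      LinearMap.range (qres V Q Q' t) := by
    ext x
    constructor
    · rintro ⟨⟨_, y, hy, rfl⟩, hk, rfl⟩
      have hk' : ρ (Ideal.Quotient.mk Q y) = 0 := hk
      rw [hρ, Ideal.Quotient.eq_zero_iff_mem] at hk'
      exact ⟨⟨y, hy, hk'⟩, rfl⟩
    · rintro ⟨⟨y, hy, hy'⟩, rfl⟩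
      refine ⟨⟨Ideal.Quotient.mk Q y, ⟨y, hy, rfl⟩⟩, ?_, rfl⟩
      change ρ (Ideal.Quotient.mk Q y) = 0
      rw [hρ, Ideal.Quotient.eq_zero_iff_mem]
      exact hy'
  have hker2 : finrank F (LinearMap.ker (ρ.domRestrict Wt)) =
      finrank F (LinearMap.range (qres V Q Q' t)) := by
    rw [← hker]
    exact (Submodule.equivMapOfInjective _ Wt.injective_subtype _).finrank_eq
  have e1 : hilb V Q t = finrank F Wt := rfl
  have e2 : hilb V Q' t = finrank F (LinearMap.range (ρ.domRestrict Wt)) := by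
    rw [hran]; rfl
  omega

section

variable {R F A : Type u} [CommRing R] [Field F] [CommRing A] [Algebra R A] [Algebra F A]
    {e : ℕ} (D : Fin e → Derivation R A A) (W : Ideal A) [hW : W.IsPrime]

/-- the map to the fraction field of `A ⧸ W` -/
private noncomputable def toΩ (F : Type u) {A : Type u} [Field F] [CommRing A] [Algebra F A]
    (W : Ideal A) [W.IsPrime] : A →ₐ[F] FractionRing (A ⧸ W) :=
  (IsScalarTower.toAlgHom F (A ⧸ W) (FractionRing (A ⧸ W))).comp (Ideal.Quotient.mkₐ F W)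

private theorem toΩ_eq_zero (a : A) : toΩ F W a = 0 ↔ a ∈ W := by
  change algebraMap (A ⧸ W) (FractionRing (A ⧸ W)) (Ideal.Quotient.mk W a) = 0 ↔ _
  rw [map_eq_zero_iff _ (IsFractionRing.injective (A ⧸ W) (FractionRing (A ⧸ W))),
    Ideal.Quotient.eq_zero_iff_mem]

private theorem hilb_eq_map (V : Submodule F A) (t : ℕ) :
    hilb V W t = finrank F ((V ^ t).map (toΩ F W).toLinearMap) := by
  unfold hilb
  have h : (V ^ t).map (toΩ F W).toLinearMap =
      ((V ^ t).map (Ideal.Quotient.mkₐ F W).toLinearMap).map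
        (IsScalarTower.toAlgHom F (A ⧸ W) (FractionRing (A ⧸ W))).toLinearMap := by
    rw [← Submodule.map_comp]
    rfl
  rw [h]
  exact (Submodule.equivMapOfInjective
    (IsScalarTower.toAlgHom F (A ⧸ W) (FractionRing (A ⧸ W))).toLinearMap
    (IsFractionRing.injective (A ⧸ W) (FractionRing (A ⧸ W))) _).finrank_eq

private theorem wd_smul_toΩ (K : ℕ) (a b : A) (ha : a ∈ jetIdeal D W K) (l : List (Fin e))
    (hl : l.length ≤ K + 1) :
    toΩ F W (wd (fun i => D i) l (b * a)) = toΩ F W b * toΩ F W (wd (fun i => D i) l a) := by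
  have h := wd_mul_sub_mem D W K a b ha l hl
  rw [← toΩ_eq_zero (F := F), map_sub, map_mul, sub_eq_zero] at h
  exact h

/-- the symbol map on `V ^ t ⊓ J_K` -/
private noncomputable def sig (V : Submodule F A) (K t : ℕ) :
    ↥((V ^ t) ⊓ (jetIdeal D W K).restrictScalars F) →ₗ[F]
      ((Fin (K + 1) → Fin e) → FractionRing (A ⧸ W)) where
  toFun a := fun f => toΩ F W (wd (fun i => D i) (List.ofFn f) (a : A))
  map_add' a b := by
    funext f
    simp only [Submodule.coe_add, Pi.add_apply]
    rw [wd_add, map_add]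
  map_smul' c a := by
    funext f
    simp only [Submodule.coe_smul, RingHom.id_apply, Pi.smul_apply]
    rw [Algebra.smul_def, wd_smul_toΩ D W K (a : A) (algebraMap F A c) a.2.2 _ (by simp),
      AlgHom.commutes, Algebra.smul_def]

private theorem sig_eq_zero (V : Submodule F A) (K t : ℕ)
    (a : ↥((V ^ t) ⊓ (jetIdeal D W K).restrictScalars F)) :
    sig D W V K t a = 0 ↔ qres V (jetIdeal D W (K + 1)) (jetIdeal D W K) t a = 0 := by
  have h1 : qres V (jetIdeal D W (K + 1)) (jetIdeal D W K) t a = 0 ↔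
      (a : A) ∈ jetIdeal D W (K + 1) := by
    change Ideal.Quotient.mk _ (a : A) = 0 ↔ _
    rw [Ideal.Quotient.eq_zero_iff_mem]
  rw [h1, mem_jetIdeal_iff]
  constructor
  · intro h l hl
    rcases Nat.lt_or_ge K l.length with h2 | h2
    · have h3 : l.length = K + 1 := by omega
      have h4 := congrFun h (fun i => l.get (i.cast h3.symm))
      have h5 : List.ofFn (fun i : Fin (K + 1) => l.get (i.cast h3.symm)) = l := by
        have h6 : ∀ (n : ℕ) (h : l.length = n),
            List.ofFn (fun i : Fin n => l.get (i.cast h.symm)) = l := by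
          rintro _ rfl
          exact List.ofFn_getElem
        exact h6 _ h3
      change toΩ F W (wd (fun i => D i)
        (List.ofFn (fun i : Fin (K + 1) => l.get (i.cast h3.symm))) (a : A)) = 0 at h4
      rw [h5, toΩ_eq_zero] at h4
      exact h4
    · exact (mem_jetIdeal_iff D W K (a : A)).1 a.2.2 l h2
  · intro h
    funext f
    change toΩ F W (wd (fun i => D i) (List.ofFn f) (a : A)) = 0
    rw [toΩ_eq_zero]
    exact h _ (by simp)

end

theorem jet_grow {R F A : Type u} [CommRing R] [Field F] [CommRing A] [Algebra R A] [Algebra F A]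
    {e : ℕ} (D : Fin e → Derivation R A A) (V : Submodule F A) [Module.Finite F V]
    (h1 : (1 : A) ∈ V) (hD : ∀ i, ∀ v ∈ V, D i v ∈ V)
    (hDF : ∀ i (c : F), ∃ c' : F, D i (algebraMap F A c) = algebraMap F A c')
    (W : Ideal A) [hW : W.IsPrime] (K s : ℕ) :
    hilb V (jetIdeal D W K) 1 * hilb V W s ≤ hilb V (jetIdeal D W K) (s + 1) * hilb V W 1 := by
  induction K with
  | zero =>
    change hilb V W 1 * hilb V W s ≤ hilb V W (s + 1) * hilb V W 1
    rw [mul_comm (hilb V W (s + 1))]
    refine Nat.mul_le_mul_left _ ?_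
    have hf := finPow V (s + 1)
    unfold hilb
    refine Submodule.finrank_mono (Submodule.map_mono ?_)
    rw [pow_succ]
    calc V ^ s = V ^ s * 1 := (mul_one _).symm
      _ ≤ V ^ s * V := mul_le_mul' le_rfl (Submodule.one_le.2 h1)
  | succ K ih =>
    have hle := jetIdeal_le_succ D W K
    have hs1 := hilb_split V (jetIdeal D W (K + 1)) (jetIdeal D W K) hle 1
    have hs2 := hilb_split V (jetIdeal D W (K + 1)) (jetIdeal D W K) hle (s + 1)
    have hfin : ∀ t, Module.Finite F ↥((V ^ t) ⊓ (jetIdeal D W K).restrictScalars F) := by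
      intro t
      have := finPow V t
      exact Submodule.finiteDimensional_inf_left _ _
    have hfin1 := hfin 1
    have hfin2 := hfin (s + 1)
    have g1 : finrank F (LinearMap.range (qres V (jetIdeal D W (K + 1)) (jetIdeal D W K) 1)) =
        finrank F (LinearMap.range (sig D W V K 1)) :=
      finrank_map_eq_of_ker _ _ _ (fun x => (sig_eq_zero D W V K 1 x).symm)
    have g2 : finrank F
        (LinearMap.range (qres V (jetIdeal D W (K + 1)) (jetIdeal D W K) (s + 1))) =
        finrank F (LinearMap.range (sig D W V K (s + 1))) :=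
      finrank_map_eq_of_ker _ _ _ (fun x => (sig_eq_zero D W V K (s + 1) x).symm)
    have hfV1 := finPow V 1
    have hfVs := finPow V s
    have hfU : Module.Finite F ((V ^ 1).map (toΩ F W).toLinearMap) := Module.Finite.map _ _
    have hfU' : Module.Finite F ((V ^ s).map (toΩ F W).toLinearMap) := Module.Finite.map _ _
    have hwdV : ∀ (l : List (Fin e)) (v : A), v ∈ V → wd (fun i => D i) l v ∈ V := by
      intro l
      induction l with
      | nil => intro v hv; exact hv
      | cons i l ihl => intro v hv; exact ihl _ (hD i v hv)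
    have hG : ∀ g ∈ LinearMap.range (sig D W V K 1), ∀ i, g i ∈
        (V ^ 1).map (toΩ F W).toLinearMap := by
      rintro _ ⟨a, rfl⟩ f
      refine ⟨wd (fun i => D i) (List.ofFn f) (a : A), ?_, rfl⟩
      have ha : (a : A) ∈ V ^ 1 := a.2.1
      generalize (a : A) = a' at ha ⊢
      rw [pow_one] at ha ⊢
      exact hwdV _ _ ha
    have key := finrank_mul_le ((V ^ 1).map (toΩ F W).toLinearMap)
      ((V ^ s).map (toΩ F W).toLinearMap) (LinearMap.range (sig D W V K 1)) hG
    have hsub : smulSpan ((V ^ s).map (toΩ F W).toLinearMap) (LinearMap.range (sig D W V K 1)) ≤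
        LinearMap.range (sig D W V K (s + 1)) := by
      unfold smulSpan
      rw [Submodule.span_le]
      rintro _ ⟨_, ⟨b, hb, rfl⟩, _, ⟨a, rfl⟩, rfl⟩
      have hba : b * (a : A) ∈ V ^ (s + 1) := by
        have ha : (a : A) ∈ V ^ 1 := a.2.1
        generalize (a : A) = a' at ha ⊢
        rw [pow_one] at ha
        rw [pow_succ]
        exact Submodule.mul_mem_mul hb ha
      refine ⟨⟨b * (a : A), hba, Ideal.mul_mem_left _ _ a.2.2⟩, ?_⟩
      funext f
      change toΩ F W (wd (fun i => D i) (List.ofFn f) (b * (a : A))) =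
        toΩ F W b * toΩ F W (wd (fun i => D i) (List.ofFn f) (a : A))
      exact wd_smul_toΩ D W K (a : A) b a.2.2 _ (by simp)
    have hmono := Submodule.finrank_mono hsub
    rw [← hilb_eq_map, ← hilb_eq_map] at key
    rw [hs1, hs2, g1, g2, add_mul, add_mul]
    refine Nat.add_le_add ih (key.trans ?_)
    exact Nat.mul_le_mul_right _ hmono

end Pool.Agent.SYZ68J
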