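import Pool.Agent.SYZ68J.ZJIdeal
import Pool.Agent.SYZ71Z.ZFix
import Pool.Agent.SYZ71Z.ZTens

/-!
# SYZ68J/ZJLeft : the left action on `F ⊗ F`

`dr X : a ⊗ b ↦ a ⊗ X b` (a map, only used in `ev_dl_add`).  All statements: check on pure tensors
(both sides additive), `Submodule.baseChange` is the `F`-span of the `1 ⊗ m`, `m ∈ M`
(`Submodule.baseChange_eq_span`); for powers: `V ^ K`.
`comap_gl_injective`: the analogue of `Pool.Agent.SYZ71Z.comap_injective` for `gl (g (-u))`:
if `P.comap (gl (g (-u))) = P.comap (gl (g (-w)))`, `u ≠ w`, then `P` is stable under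
`gl (g v)`, `v = u - w ≠ 0`, hence under `gl (g (j v))` for all integers `j`; as `P ≤ mker ρ`,
`0 = ev ρ (gl (g (j v)) x) = ∑ g_(jv)(c_i) ρ(b_i)`; apply `g_(-jv)`, which commutes with
`ρ = g v0`: `∑ c_i g_(v0 - j v) (b_i) = 0` for all `j`, so `c = 0` by `echelon_orbit`.
(`gl σ (gl σ' x) = gl (σ * σ') x`.)
-/

set_option autoImplicit false

open Module TensorProduct

universe u v

namespace Pool.Agent.SYZ68J

open Pool.Agent.SYZ71Z

variable {k : Type v} {F : Type u} [Field k] [Field F] [Algebra k F]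

theorem gl_gl (σ τ : F ≃ₐ[k] F) (x : F ⊗[k] F) : gl σ (gl τ x) = gl (σ * τ) x := by
  induction x with
  | zero => simp
  | tmul a b => simp
  | add x y hx hy => simp [hx, hy]

theorem gl_one (x : F ⊗[k] F) : gl (1 : F ≃ₐ[k] F) x = x := by
  induction x with
  | zero => simp
  | tmul a b => simp
  | add x y hx hy => simp [hx, hy]

theorem ev_gl (ρ σ : F ≃ₐ[k] F) (x : F ⊗[k] F) : Pool.Agent.SYZ71Z.ev ρ (gl σ x) =
    σ (Pool.Agent.SYZ71Z.ev (σ⁻¹ * ρ) x) := by
  induction x with
  | zero => simp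
  | tmul a b =>
    rw [gl_tmul, ev_tmul, ev_tmul, map_mul, AlgEquiv.mul_apply]
    congr 1
    exact (AlgEquiv.apply_symm_apply σ (ρ b)).symm
  | add x y hx hy => simp only [map_add, hx, hy]

theorem gl_dl (σ : F ≃ₐ[k] F) (X : Derivation k F F) (h : ∀ a, σ (X a) = X (σ a))
    (x : F ⊗[k] F) : gl σ (dl X x) = dl X (gl σ x) := by
  induction x with
  | zero => simp
  | tmul a b => simp [h]
  | add x y hx hy => simp only [map_add, hx, hy]

theorem dl_dl (X Y : Derivation k F F) (h : ∀ a, X (Y a) = Y (X a)) (x : F ⊗[k] F) :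
    dl X (dl Y x) = dl Y (dl X x) := by
  induction x with
  | zero => simp
  | tmul a b => simp [h]
  | add x y hx hy => simp only [map_add, hx, hy]

theorem gl_smul (σ : F ≃ₐ[k] F) (c : F) (x : F ⊗[k] F) :
    gl σ (c • x) = σ c • gl σ x := by
  induction x with
  | zero => simp
  | tmul a b =>
    rw [TensorProduct.smul_tmul', gl_tmul, gl_tmul, TensorProduct.smul_tmul', smul_eq_mul,
      smul_eq_mul, map_mul]
  | add x y hx hy => rw [smul_add, map_add, map_add, smul_add, hx, hy]

theorem dl_smul (X : Derivation k F F) (c : F) (x : F ⊗[k] F) :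
    dl X (c • x) = c • dl X x + X c • x := by
  induction x with
  | zero => simp
  | tmul a b =>
    rw [TensorProduct.smul_tmul', dl_tmul, dl_tmul, TensorProduct.smul_tmul',
      TensorProduct.smul_tmul', smul_eq_mul, Derivation.leibniz, smul_eq_mul, smul_eq_mul,
      smul_eq_mul, TensorProduct.add_tmul, mul_comm a (X c)]
  | add x y hx hy =>
    rw [smul_add, map_add, map_add, smul_add, smul_add, hx, hy]
    abel

theorem dl_mem_baseChange (M : Submodule k F) (X : Derivation k F F) (x : F ⊗[k] F)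
    (hx : x ∈ (M.baseChange F : Submodule F (F ⊗[k] F))) :
    dl X x ∈ (M.baseChange F : Submodule F (F ⊗[k] F)) := by
  have hx' := hx
  rw [Submodule.baseChange_eq_span] at hx'
  induction hx' using Submodule.span_induction with
  | mem y hy =>
    obtain ⟨m, hm, rfl⟩ := hy
    have h1 : dl X ((TensorProduct.mk k F F) 1 m) = 0 := by
      rw [TensorProduct.mk_apply, dl_tmul, Derivation.map_one_eq_zero, TensorProduct.zero_tmul]
    rw [h1]
    exact Submodule.zero_mem _
  | zero => rw [map_zero]; exact Submodule.zero_mem _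
  | add y z hy hz ihy ihz =>
    rw [← Submodule.baseChange_eq_span] at hy hz
    rw [map_add]
    exact Submodule.add_mem _ (ihy hy) (ihz hz)
  | smul c y hy ihy =>
    rw [← Submodule.baseChange_eq_span] at hy
    rw [dl_smul]
    exact Submodule.add_mem _ (Submodule.smul_mem _ _ (ihy hy)) (Submodule.smul_mem _ _ hy)

theorem gl_mem_baseChange (M : Submodule k F) (σ : F ≃ₐ[k] F) (x : F ⊗[k] F)
    (hx : x ∈ (M.baseChange F : Submodule F (F ⊗[k] F))) :
    gl σ x ∈ (M.baseChange F : Submodule F (F ⊗[k] F)) := by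
  have hx' := hx
  rw [Submodule.baseChange_eq_span] at hx'
  induction hx' using Submodule.span_induction with
  | mem y hy =>
    obtain ⟨m, hm, rfl⟩ := hy
    have h1 : gl σ ((TensorProduct.mk k F F) 1 m) = 1 ⊗ₜ[k] m := by
      rw [TensorProduct.mk_apply, gl_tmul, map_one]
    rw [h1]
    exact Submodule.tmul_mem_baseChange_of_mem (1 : F) hm
  | zero => rw [map_zero]; exact Submodule.zero_mem _
  | add y z hy hz ihy ihz =>
    rw [← Submodule.baseChange_eq_span] at hy hz
    rw [map_add]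
    exact Submodule.add_mem _ (ihy hy) (ihz hz)
  | smul c y hy ihy =>
    rw [← Submodule.baseChange_eq_span] at hy
    rw [gl_smul]
    exact Submodule.smul_mem _ _ (ihy hy)

theorem dl_algebraMap (X : Derivation k F F) (c : F) :
    dl X (algebraMap F (F ⊗[k] F) c) = algebraMap F (F ⊗[k] F) (X c) := by
  rw [Algebra.TensorProduct.algebraMap_apply, Algebra.TensorProduct.algebraMap_apply, dl_tmul]
  rfl

theorem comap_gl_injective {r : ℕ} (g : (Fin r → ℤ) → (F ≃ₐ[k] F))
    (hg : ∀ u v, g (u + v) = g u * g v) (v0 : Fin r → ℤ) (P : Ideal (F ⊗[k] F))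
    (hle : P ≤ mker (g v0)) (m : ℕ) (b : Fin m → F)
    (hlin : ∀ v, v ≠ 0 → ∀ c : Fin m → F, (∀ i, g v (c i) = c i) → ∑ i, c i * b i = 0 → c = 0)
    (c : Fin m → F) (hc : c ≠ 0) (hx : ∑ i, c i ⊗ₜ[k] b i ∈ P) :
    Function.Injective fun u : Fin r → ℤ => P.comap (gl (g (-u))) := by
  intro u w h
  by_contra hne
  have hvne : w - u ≠ 0 := sub_ne_zero.mpr (Ne.symm hne)
  have hg0 : g 0 = 1 := g_zero g hg
  have hmem : ∀ x, gl (g (-u)) x ∈ P ↔ gl (g (-w)) x ∈ P := by
    intro x
    have h1 := congrArg (fun I : Ideal (F ⊗[k] F) => x ∈ I) h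
    simp only [Ideal.mem_comap] at h1
    exact iff_of_eq h1
  have hst : ∀ x, gl (g (w - u)) x ∈ P ↔ x ∈ P := by
    intro x
    have h1 := hmem (gl (g w) x)
    rw [gl_gl, gl_gl, ← hg, ← hg, neg_add_cancel, hg0, gl_one, neg_add_eq_sub] at h1
    exact h1
  have hpow : ∀ j : ℤ, gl (g (j • (w - u))) (∑ i, c i ⊗ₜ[k] b i) ∈ P := by
    intro j
    induction j with
    | zero => rw [zero_smul, hg0, gl_one]; exact hx
    | succ n ih =>
      rw [add_smul, one_smul, add_comm, hg, ← gl_gl, hst]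
      exact ih
    | pred n ih =>
      rw [← hst, gl_gl, ← hg]
      have : (w - u) + (-(n : ℤ) - 1) • (w - u) = -(n : ℤ) • (w - u) := by
        rw [sub_smul, one_smul]; abel
      rw [this]
      exact ih
  refine hc (echelon_orbit g hg (w - u) v0 m b (hlin _ hvne) c fun j => ?_)
  have h1 : ev (g v0) (gl (g (-j • (w - u))) (∑ i, c i ⊗ₜ[k] b i)) = 0 := hle (hpow (-j))
  rw [ev_gl, map_eq_zero_iff _ (AlgEquiv.injective _), ← g_neg g hg, ← hg, map_sum] at h1
  have h2 : -(-j • (w - u)) + v0 = v0 + j • (w - u) := by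
    rw [neg_smul, neg_neg, add_comm]
  rw [h2] at h1
  simpa only [ev_tmul] using h1

end Pool.Agent.SYZ68J
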