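import Mathlib

/-!
# SYZ68J/ZJLin : linear algebra behind the growth of jets

`Ω / F` fields, `U, U' ⊆ Ω` finite dimensional `F`-subspaces, `G ⊆ Ω^ι` an `F`-subspace with all
coordinates in `U` (`ι` finite).  Then `dim G * dim U' ≤ dim (U' G) * dim U`.

Proof.  Let `r = dim_Ω (Ω G)`.  (1) `dim_F G ≤ r dim_F U`: there is a subset `J ⊆ ι` with `r`
elements such that the projection `Ω G → Ω^J` is injective (row rank = column rank:
choose an `Ω`-basis of `Ω G`, an invertible `r × r` minor; or: choose `J` maximal such that the
coordinate functionals `J` restricted to `Ω G` are linearly independent, they span the dual since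
the coordinates separate points); so `G → U^J` is injective.
(2) `r dim U' ≤ dim_F (U' G)`: take `g_1..g_r ∈ G` linearly independent over `Ω` (a basis of `Ω G`
inside the spanning set `G`); `U'^r → U' G`, `(u_i) ↦ ∑ u_i g_i` is injective and `F`-linear.
(`U' G` is finite dimensional: spanned by the products of bases; `G` is finite dimensional as a
subspace of `U^ι`.)
-/

set_option autoImplicit false

open Module

namespace Pool.Agent.SYZ68J

/-- the span of the products `u • g`, `u ∈ U'`, `g ∈ G` -/
def smulSpan {F Ω ι : Type*} [Field F] [Field Ω] [Algebra F Ω] (U' : Submodule F Ω)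
    (G : Submodule F (ι → Ω)) : Submodule F (ι → Ω) :=
  Submodule.span F {x | ∃ u ∈ U', ∃ g ∈ G, x = u • g}

private theorem finite_G {F Ω ι : Type*} [Field F] [Field Ω] [Algebra F Ω] [Fintype ι]
    (U : Submodule F Ω) [Module.Finite F U] (G : Submodule F (ι → Ω))
    (hG : ∀ g ∈ G, ∀ i, g i ∈ U) : Module.Finite F G := by
  let f : G →ₗ[F] (ι → U) :=
    { toFun := fun g i => ⟨g.1 i, hG g.1 g.2 i⟩
      map_add' := fun a b => rfl
      map_smul' := fun a b => rfl }
  refine Module.Finite.of_injective f ?_
  intro a b h
  apply Subtype.ext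
  funext i
  exact congrArg Subtype.val (congrFun h i)

private theorem finite_smulSpan' {F Ω ι : Type*} [Field F] [Field Ω] [Algebra F Ω]
    (U' : Submodule F Ω) [Module.Finite F U'] (G : Submodule F (ι → Ω)) [Module.Finite F G] :
    Module.Finite F (smulSpan U' G) := by
  let B : Ω →ₗ[F] (ι → Ω) →ₗ[F] (ι → Ω) :=
    LinearMap.mk₂ F (fun u g => u • g) (fun a b c => add_smul a b c)
      (fun c a b => smul_assoc c a b) (fun a b c => smul_add a b c)
      (fun c a b => smul_comm a c b)
  have h1 : smulSpan U' G = Submodule.map₂ B U' G := by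
    rw [Submodule.map₂_eq_span_image2]
    unfold smulSpan
    congr 1
    ext x
    simp only [Set.mem_ofPred_eq, Set.mem_image2]
    constructor
    · rintro ⟨u, hu, g, hg, rfl⟩
      exact ⟨u, hu, g, hg, rfl⟩
    · rintro ⟨u, hu, g, hg, h⟩
      exact ⟨u, hu, g, hg, h.symm⟩
  rw [h1]
  have hU : U'.FG := Module.Finite.iff_fg.1 inferInstance
  have hG : G.FG := Module.Finite.iff_fg.1 inferInstance
  exact Module.Finite.iff_fg.2 (hU.map₂ B hG)

theorem finite_smulSpan {F Ω ι : Type*} [Field F] [Field Ω] [Algebra F Ω] [Fintype ι]
    (U U' : Submodule F Ω) [Module.Finite F U] [Module.Finite F U'] (G : Submodule F (ι → Ω))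
    (hG : ∀ g ∈ G, ∀ i, g i ∈ U) : Module.Finite F (smulSpan U' G) := by
  have := finite_G U G hG
  exact finite_smulSpan' U' G

theorem finrank_mul_le {F Ω ι : Type*} [Field F] [Field Ω] [Algebra F Ω] [Fintype ι]
    (U U' : Submodule F Ω) [Module.Finite F U] [Module.Finite F U'] (G : Submodule F (ι → Ω))
    (hG : ∀ g ∈ G, ∀ i, g i ∈ U) :
    finrank F G * finrank F U' ≤ finrank F (smulSpan U' G) * finrank F U := by
  classical
  have hfinG := finite_G U G hG
  have hfinS := finite_smulSpan U U' G hG
  set W : Submodule Ω (ι → Ω) := Submodule.span Ω (G : Set (ι → Ω)) with hW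
  -- (1)
  have h1 : finrank F G ≤ finrank Ω W * finrank F U := by
    let φ : ι → Dual Ω W := fun i => (LinearMap.proj i).comp W.subtype
    obtain ⟨b, hbs, hspan, hli⟩ := exists_linearIndependent Ω (Set.range φ)
    have hbfin : b.Finite := (Set.finite_range φ).subset hbs
    have : Fintype b := hbfin.fintype
    have hcard : Fintype.card b ≤ finrank Ω W := by
      have := hli.fintype_card_le_finrank
      rwa [Subspace.dual_finrank_eq] at this
    choose i hi using fun x (hx : x ∈ b) => hbs hx
    let f : G →ₗ[F] (b → U) :=
      { toFun := fun g x => ⟨g.1 (i x.1 x.2), hG g.1 g.2 _⟩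
        map_add' := fun a b => rfl
        map_smul' := fun a b => rfl }
    have hf : Function.Injective f := by
      rw [← LinearMap.ker_eq_bot, LinearMap.ker_eq_bot']
      intro g hg
      have hgW : g.1 ∈ W := Submodule.subset_span g.2
      have hz : ∀ ψ ∈ Submodule.span Ω b, ψ ⟨g.1, hgW⟩ = 0 := by
        intro ψ hψ
        induction hψ using Submodule.span_induction with
        | mem x hx =>
          have h2 := congrArg Subtype.val (congrFun hg ⟨x, hx⟩)
          have h3 : φ (i x hx) = x := hi x hx
          rw [← h3]
          exact h2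
        | zero => rfl
        | add x y _ _ hx hy => rw [LinearMap.add_apply, hx, hy, add_zero]
        | smul a x _ hx => rw [LinearMap.smul_apply, hx, smul_zero]
      apply Subtype.ext
      funext j
      have hj : φ j ∈ Submodule.span Ω b := by
        rw [hspan]
        exact Submodule.subset_span ⟨j, rfl⟩
      exact hz _ hj
    have h2 := LinearMap.finrank_le_finrank_of_injective hf
    rw [Module.finrank_pi_fintype, Finset.sum_const, Finset.card_univ, smul_eq_mul] at h2
    exact h2.trans (Nat.mul_le_mul_right _ hcard)
  -- (2)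
  have h2 : finrank Ω W * finrank F U' ≤ finrank F (smulSpan U' G) := by
    obtain ⟨b, hbs, hspan, hli⟩ := exists_linearIndependent Ω (G : Set (ι → Ω))
    have hbfin : b.Finite := hli.setFinite
    have : Fintype b := hbfin.fintype
    have hcard : finrank Ω W = Fintype.card b := by
      rw [hW, ← hspan, finrank_span_set_eq_card hli, Set.toFinset_card]
    let f : (b → U') →ₗ[F] (smulSpan U' G) :=
      { toFun := fun u => ⟨∑ x : b, (u x : Ω) • (x : ι → Ω), Submodule.sum_mem _ fun x _ =>
          Submodule.subset_span ⟨u x, (u x).2, x, hbs x.2, rfl⟩⟩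
        map_add' := fun u v => by
          apply Subtype.ext
          simp only [Pi.add_apply, Submodule.coe_add, add_smul, Finset.sum_add_distrib]
        map_smul' := fun c u => by
          apply Subtype.ext
          simp only [Pi.smul_apply, Submodule.coe_smul, RingHom.id_apply, Finset.smul_sum,
            smul_assoc] }
    have hf : Function.Injective f := by
      rw [← LinearMap.ker_eq_bot, LinearMap.ker_eq_bot']
      intro u hu
      have h3 : ∑ x : b, (u x : Ω) • (x : ι → Ω) = 0 := congrArg Subtype.val hu
      have h4 := Fintype.linearIndependent_iff.1 hli (fun x => (u x : Ω)) h3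
      funext x
      exact Subtype.ext (h4 x)
    have h3 := LinearMap.finrank_le_finrank_of_injective hf
    rw [Module.finrank_pi_fintype, Finset.sum_const, Finset.card_univ, smul_eq_mul] at h3
    rw [hcard]
    exact h3
  calc finrank F G * finrank F U' ≤ (finrank Ω W * finrank F U) * finrank F U' :=
        Nat.mul_le_mul_right _ h1
    _ = (finrank Ω W * finrank F U') * finrank F U := by ring
    _ ≤ finrank F (smulSpan U' G) * finrank F U := Nat.mul_le_mul_right _ h2

end Pool.Agent.SYZ68J
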